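import Pool.Agent.Y127.I.Cusp2

/-!
# Open subgroups of orthogonal groups are strongly irreducible
-/

set_option linter.unusedSectionVars false

namespace Pool.Agent.Y127.I

open Module Matrix

section stab

variable {F : Type} [Field F] {m : ℕ} {Γ : Type} [Group Γ]

/-- The matrices which preserve a subspace. -/
def stM (W : Submodule F (Fin m → F)) : Submodule F (Matrix (Fin m) (Fin m) F) where
  carrier := {X | ∀ x ∈ W, X *ᵥ x ∈ W}
  zero_mem' := fun x _ => by rw [Matrix.zero_mulVec]; exact W.zero_mem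
  add_mem' := fun hX hY x hx => by rw [Matrix.add_mulVec]; exact W.add_mem (hX x hx) (hY x hx)
  smul_mem' := fun c X hX x hx => by rw [Matrix.smul_mulVec]; exact W.smul_mem _ (hX x hx)

theorem one_mem_stM (W : Submodule F (Fin m → F)) : (1 : Matrix (Fin m) (Fin m) F) ∈ stM W :=
  fun x hx => by rw [Matrix.one_mulVec]; exact hx

theorem pow_fact_mem {Δ : Subgroup Γ} (h0 : Δ.index ≠ 0) {n : ℕ} (hn : Δ.index ≤ n) (γ : Γ) :
    γ ^ n.factorial ∈ Δ := by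
  obtain ⟨j, hj0, hjn, hj⟩ := Subgroup.exists_pow_mem_of_index_ne_zero h0 γ
  obtain ⟨t, ht⟩ := Nat.dvd_factorial hj0 (hjn.trans hn)
  rw [ht, pow_mul]
  exact Δ.pow_mem hj t

end stab

variable {p : ℕ} [hp : Fact p.Prime] {Γ : Type} [Group Γ] {m : ℕ}

/-- **Strong irreducibility over `ℚ_p`.** -/
theorem sirr_padic {a : Matrix (Fin m) (Fin m) ℤ_[p]} (ha : a.IsSymm) (hd : a.det ≠ 0)
    (hm : 3 ≤ m) {ρ : Γ →* GL (Fin m) ℤ_[p]} {C : ℕ} (h0 : ρ.range.relIndex (SOg a) ≠ 0)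
    (hC : ρ.range.relIndex (SOg a) ≤ C) :
    SIrrM fun γ => cm (ρ γ : Matrix (Fin m) (Fin m) ℤ_[p]) := by
  intro Δ hi0 hi W hW
  have has : (cm a).IsSymm := by
    rw [Matrix.IsSymm, ← cm_transpose, ha.eq]
  have had : (cm a).det ≠ 0 := by
    have h1 : (cm a).det = ((a.det : ℤ_[p]) : ℚ_[p]) :=
      (RingHom.map_det (PadicInt.Coe.ringHom (p := p)) a).symm
    rw [h1]
    exact fun h => hd (PadicInt.ext h)
  refine std_irr has had two_ne_zero hm fun Y hY => ?_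
  change Y ∈ stM W
  refine mem_of_congr fun e => ?_
  obtain ⟨k1, h1⟩ := tan_of_pow (q := 2 * C.factorial * m.factorial)
    (Nat.mul_pos (Nat.mul_pos (by norm_num) (Nat.factorial_pos _)) (Nat.factorial_pos _))
    (G := {x | ∃ γ ∈ Δ, (ρ γ : Matrix (Fin m) (Fin m) ℤ_[p]) = x}) (by
      intro g hg
      obtain ⟨γ, hγ⟩ := pow_of_idx hd h0 hC hg
      refine ⟨γ ^ m.factorial, pow_fact_mem hi0 hi γ, ?_⟩
      rw [map_pow, Units.val_pow_eq_pow_val, hγ, ← pow_mul]) hY e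
  obtain ⟨_, ⟨γ, hγ, rfl⟩, Z, hZ⟩ := h1 k1 le_rfl
  refine ⟨Z, ?_⟩
  have h2 : cm (ρ γ : Matrix (Fin m) (Fin m) ℤ_[p]) ∈ stM W := fun x hx => hW γ hγ x hx
  have h3 := (stM W).sub_mem h2 (one_mem_stM W)
  have h4 : cm (ρ γ : Matrix (Fin m) (Fin m) ℤ_[p]) - 1 =
      (p : ℚ_[p]) ^ k1 • (Y + (p : ℚ_[p]) ^ e • cm Z) := by
    rw [hZ, smul_add, smul_smul, ← pow_add]
    abel
  rw [h4] at h3
  have h5 := (stM W).smul_mem ((p : ℚ_[p]) ^ k1)⁻¹ h3
  rwa [smul_smul, inv_mul_cancel₀ (pow_ne_zero _ P_ne), one_smul] at h5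

/-- **Strong irreducibility modulo `p`.** -/
theorem sirr_mod {A : Matrix (Fin m) (Fin m) (ZMod p)} (hA : A.IsSymm) (hd : A.det ≠ 0)
    (hm : 3 ≤ m) (hp5 : 5 < p) (hmp : m < p) {ρ : Γ →* Matrix (Fin m) (Fin m) (ZMod p)}
    (hE : ∀ e v, Eic (bil A) e v → ∃ γ, ρ γ = LinearMap.toMatrix' (Ee (bil A) e v)) :
    SIrrM ρ := by
  intro Δ hi0 hi W hW
  have hodd : p % 2 = 1 := by
    rcases hp.out.eq_two_or_odd with h | h
    · omega
    · exact h
  have h2 := p_two hp5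
  obtain ⟨v, hv, hb⟩ := exists_ob hA hd h2
  obtain ⟨e, he, hee⟩ := exists_isotropic hA hd h2 hm (by rw [ZMod.card]; exact hodd)
  have hEs := so_le_Es v hv hb (bil_symm hA) (p_24 hp5) (by rw [Fintype.card_fin]; omega) he hee
  refine std_irr hA hd h2 hm fun Y hY => ?_
  change Y ∈ stM W
  rw [← toLin_mem_opS]
  refine (hEs.trans ?_) (toLin_mem_so.2 hY)
  unfold Es
  rw [Submodule.span_le]
  rintro _ ⟨e, w, hew, rfl⟩
  obtain ⟨γ, hγ⟩ := hE e w hew
  obtain ⟨j, hj0, hjn, hj⟩ := Subgroup.exists_pow_mem_of_index_ne_zero hi0 γ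
  have hjp : (j : ZMod p) ≠ 0 := by
    rw [Ne, ZMod.natCast_eq_zero_iff]
    intro h
    have := Nat.le_of_dvd hj0 h
    omega
  have hpow : ∀ k : ℕ, ρ (γ ^ k) = LinearMap.toMatrix' (Ee (bil A) ((k : ZMod p) • e) w) := by
    intro k
    rw [map_pow, hγ, Ee_nat (bil_symm hA) h2 hew]
    induction k with
    | zero => rw [pow_zero, pow_zero, LinearMap.toMatrix'_one]
    | succ k ih => rw [pow_succ, pow_succ, LinearMap.toMatrix'_mul, ih]
  have hmem : ∀ k : ℕ, Ee (bil A) (((j * k : ℕ) : ZMod p) • e) w ∈ opS (stM W) := by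
    intro k
    rw [mem_opS, ← hpow, pow_mul]
    intro x hx
    exact hW _ (Δ.pow_mem hj k) x hx
  have hone : (1 : End (ZMod p) (Fin m → ZMod p)) ∈ opS (stM W) := by
    rw [mem_opS, LinearMap.toMatrix'_one]
    exact one_mem_stM W
  have e1 := (opS (stM W)).sub_mem (hmem 1) hone
  have e2 := (opS (stM W)).sub_mem (hmem 2) hone
  have e3 := (opS (stM W)).sub_mem ((opS (stM W)).smul_mem (4 : ZMod p) e1) e2
  have h22 : (2⁻¹ : ZMod p) * 2 = 1 := inv_mul_cancel₀ h2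
  have e4 : (4 : ZMod p) • (Ee (bil A) (((j * 1 : ℕ) : ZMod p) • e) w - 1) -
      (Ee (bil A) (((j * 2 : ℕ) : ZMod p) • e) w - 1) = (2 * (j : ZMod p)) • wl (bil A) e w := by
    unfold Ee
    simp only [map_smul, LinearMap.smul_apply, smul_mul_assoc, mul_smul_comm, smul_smul]
    push_cast
    have e5 : (4 : ZMod p) * (2⁻¹ * (j * 1 * (j * 1))) = 2⁻¹ * (j * 2 * (j * 2)) := by ring
    simp only [smul_sub, smul_add, smul_smul]
    rw [e5]
    module
  rw [e4] at e3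
  have e6 := (opS (stM W)).smul_mem (2 * (j : ZMod p))⁻¹ e3
  rw [smul_smul, inv_mul_cancel₀ (mul_ne_zero h2 hjp), one_smul] at e6
  exact e6

end Pool.Agent.Y127.I
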