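import Pool.Agent.Y127.I.Gen2

/-!
# Generic polynomials with rational coefficients
-/

set_option linter.unusedSectionVars false

namespace Pool.Agent.Y127.I

open Module Polynomial

/-- The value of a polynomial with integral coefficients. -/
noncomputable def ev {R : Type} [CommRing R] (P : ℤ[X]) (x : R) : R :=
  P.eval₂ (Int.castRingHom R) x

theorem ev_map {R S : Type} [CommRing R] [CommRing S] (ψ : R →+* S) (P : ℤ[X]) (x : R) :
    ψ (ev P x) = ev P (ψ x) := by
  unfold ev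
  rw [hom_eval₂]
  congr 1
  exact RingHom.ext_int _ _

theorem aeval_ev {F R : Type} [Field F] [CommRing R] [Algebra F R] (P : ℤ[X]) (x : R) :
    aeval x (P.map (Int.castRingHom F)) = ev P x := by
  unfold ev
  rw [aeval_def, eval₂_map]
  congr 1
  exact RingHom.ext_int _ _

theorem exists_emb {k K L : Type} [Field k] [Field K] [Field L] [Algebra k K] [Algebra k L]
    [IsAlgClosed L] : ∃ (E : Subring K) (_ : E →+* L), ∀ x : K, IsAlgebraic k x → x ∈ E := by
  let φ : algebraicClosure k K →ₐ[k] L := IsAlgClosed.lift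
  exact ⟨(algebraicClosure k K).toSubfield.toSubring, φ.toRingHom,
    fun x hx => mem_algebraicClosure_iff.2 hx⟩

theorem no_rel {K : Type} [Field K] [CharZero K] {P : ℤ[X]} (h0 : P ≠ 0)
    (h : ∀ b c : ℂ, ev P b = 0 → ev P c = 0 → ev P (b * c) ≠ 0) {b c : K} (hb : ev P b = 0)
    (hc : ev P c = 0) : ev P (b * c) ≠ 0 := by
  intro hbc
  obtain ⟨E, φ, hE⟩ := exists_emb (k := ℚ) (K := K) (L := ℂ)
  have halg : ∀ y : K, ev P y = 0 → y ∈ E := by
    intro y hy
    refine hE y ⟨P.map (Int.castRingHom ℚ), ?_, ?_⟩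
    · rwa [Ne, Polynomial.map_eq_zero_iff (Int.castRingHom ℚ).injective_int]
    · rw [aeval_ev, hy]
  have hφ : ∀ (y : K) (hy : y ∈ E), ev P y = 0 → ev P (φ ⟨y, hy⟩) = 0 := by
    intro y hy h1
    have h2 : ev P (⟨y, hy⟩ : E) = 0 := by
      have h3 := ev_map E.subtype P ⟨y, hy⟩
      have h4 : E.subtype ⟨y, hy⟩ = y := rfl
      rw [h4, h1] at h3
      exact Subtype.ext h3
    have h3 := ev_map φ P ⟨y, hy⟩
    rw [h2, map_zero] at h3
    exact h3.symm
  have h1 := hφ _ (halg _ hb) hb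
  have h2 := hφ _ (halg _ hc) hc
  have h3 := hφ _ (halg _ hbc) hbc
  refine h _ _ h1 h2 ?_
  rw [← map_mul]
  exact h3

/-- If the product of two roots of a polynomial with integral coefficients is never a root then this
is true over all fields except in finitely many characteristics. -/
theorem exists_N {P : ℤ[X]} (h0 : P ≠ 0)
    (h : ∀ b c : ℂ, ev P b = 0 → ev P c = 0 → ev P (b * c) ≠ 0) :
    ∃ N : ℕ, N ≠ 0 ∧ ∀ (L : Type) [Field L], (N : L) ≠ 0 → ∀ b c : L, ev P b = 0 →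
      ev P c = 0 → ev P (b * c) ≠ 0 := by
  set x0 : MvPolynomial (Fin 2) ℤ := MvPolynomial.X 0 with hx0
  set x1 : MvPolynomial (Fin 2) ℤ := MvPolynomial.X 1 with hx1
  set I : Ideal (MvPolynomial (Fin 2) ℤ) :=
    Ideal.span {ev P x0, ev P x1, ev P (x0 * x1)} with hI
  by_cases hN : ∃ N : ℕ, N ≠ 0 ∧ ((N : MvPolynomial (Fin 2) ℤ)) ∈ I
  · obtain ⟨N, hN0, hNI⟩ := hN
    refine ⟨N, hN0, fun L _ hNL b c hb hc hbc => hNL ?_⟩
    let ψ : MvPolynomial (Fin 2) ℤ →+* L := MvPolynomial.eval₂Hom (Int.castRingHom L) ![b, c]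
    have hψ0 : ψ x0 = b := by
      change MvPolynomial.eval₂Hom (Int.castRingHom L) ![b, c] (MvPolynomial.X 0) = b
      rw [MvPolynomial.eval₂Hom_X']
      rfl
    have hψ1 : ψ x1 = c := by
      change MvPolynomial.eval₂Hom (Int.castRingHom L) ![b, c] (MvPolynomial.X 1) = c
      rw [MvPolynomial.eval₂Hom_X']
      rfl
    have hker : I ≤ RingHom.ker ψ := by
      rw [hI, Ideal.span_le]
      rintro y (rfl | rfl | rfl)
      · change ψ _ = 0
        rw [ev_map, hψ0, hb]
      · change ψ _ = 0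
        rw [ev_map, hψ1, hc]
      · change ψ _ = 0
        rw [ev_map, map_mul, hψ0, hψ1, hbc]
    have h1 : ψ (N : MvPolynomial (Fin 2) ℤ) = 0 := hker hNI
    rwa [map_natCast] at h1
  · exfalso
    push Not at hN
    set S : Submonoid (MvPolynomial (Fin 2) ℤ) :=
      (nonZeroDivisors ℤ).map (Int.castRingHom (MvPolynomial (Fin 2) ℤ)) with hS
    have hdisj : Disjoint (I : Set (MvPolynomial (Fin 2) ℤ)) S := by
      rw [Set.disjoint_left]
      rintro _ hyI ⟨z, hz, rfl⟩
      have hz0 : z ≠ 0 := nonZeroDivisors.ne_zero hz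
      refine hN z.natAbs (Int.natAbs_ne_zero.2 hz0) ?_
      have h1 : (z : MvPolynomial (Fin 2) ℤ) ∈ I := hyI
      rcases Int.natAbs_eq z with h2 | h2
      · have h3 : ((z.natAbs : ℕ) : MvPolynomial (Fin 2) ℤ) = (z : MvPolynomial (Fin 2) ℤ) := by
          conv_rhs => rw [h2]
          rw [Int.cast_natCast]
        rw [h3]
        exact h1
      · have h3 : ((z.natAbs : ℕ) : MvPolynomial (Fin 2) ℤ) = -(z : MvPolynomial (Fin 2) ℤ) := by
          conv_rhs => rw [h2]
          rw [Int.cast_neg, Int.cast_natCast, neg_neg]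
        rw [h3]
        exact I.neg_mem h1
    obtain ⟨q, hq, hIq, hqS⟩ := Ideal.exists_le_prime_disjoint I S hdisj
    haveI := hq
    let π : MvPolynomial (Fin 2) ℤ →+* FractionRing (MvPolynomial (Fin 2) ℤ ⧸ q) :=
      (algebraMap (MvPolynomial (Fin 2) ℤ ⧸ q) _).comp (Ideal.Quotient.mk q)
    have hπ : ∀ y, π y = 0 → y ∈ q := by
      intro y hy
      have h1 := (map_eq_zero_iff _ (IsFractionRing.injective (MvPolynomial (Fin 2) ℤ ⧸ q)
        (FractionRing (MvPolynomial (Fin 2) ℤ ⧸ q)))).1 hy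
      exact Ideal.Quotient.eq_zero_iff_mem.1 h1
    haveI : CharZero (FractionRing (MvPolynomial (Fin 2) ℤ ⧸ q)) := by
      refine charZero_of_inj_zero fun n hn => ?_
      by_contra hn0
      have h1 : π ((n : ℤ) : MvPolynomial (Fin 2) ℤ) = 0 := by
        rw [map_intCast, Int.cast_natCast, hn]
      refine Set.disjoint_left.1 hqS (hπ _ h1) ⟨(n : ℤ), ?_, rfl⟩
      rw [SetLike.mem_coe, mem_nonZeroDivisors_iff_ne_zero]
      exact_mod_cast hn0
    have hkill : ∀ y ∈ I, π y = 0 := by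
      intro y hy
      change algebraMap (MvPolynomial (Fin 2) ℤ ⧸ q) (FractionRing (MvPolynomial (Fin 2) ℤ ⧸ q))
        (Ideal.Quotient.mk q y) = 0
      rw [Ideal.Quotient.eq_zero_iff_mem.2 (hIq hy), map_zero]
    have hb : ev P (π x0) = 0 := by
      rw [← ev_map]
      exact hkill _ (Ideal.subset_span (by simp))
    have hc : ev P (π x1) = 0 := by
      rw [← ev_map]
      exact hkill _ (Ideal.subset_span (by simp))
    refine no_rel h0 h hb hc ?_
    rw [← map_mul, ← ev_map]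
    exact hkill _ (Ideal.subset_span (by simp))

/-- `1` is a simple root, and the product of two other roots is not a root different from `1`. -/
def Generic (P : ℚ[X]) : Prop :=
  P.eval 1 = 0 ∧ P.derivative.eval 1 ≠ 0 ∧
    ∀ b c : ℂ, b ≠ 1 → c ≠ 1 → b * c ≠ 1 → aeval b P = 0 → aeval c P = 0 → aeval (b * c) P ≠ 0

theorem Generic.exists_int {P : ℚ[X]} (h : Generic P) : ∃ (R : ℤ[X]) (n : ℤ) (N : ℕ), n ≠ 0 ∧
    N ≠ 0 ∧ C (n : ℚ) * P = (X - C 1) * R.map (Int.castRingHom ℚ) ∧ R.eval 1 ≠ 0 ∧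
    ∀ (L : Type) [Field L], (N : L) ≠ 0 → ∀ b c : L, ev R b = 0 →
      ev R c = 0 → ev R (b * c) ≠ 0 := by
  obtain ⟨h1, h2, h3⟩ := h
  obtain ⟨R, hR⟩ := dvd_iff_isRoot.2 (show P.IsRoot 1 from h1)
  have hR1 : R.eval 1 ≠ 0 := by
    have e0 : P.derivative.eval 1 = R.eval 1 := by
      rw [hR, derivative_mul]
      simp
    rwa [e0] at h2
  obtain ⟨n, hn⟩ := IsLocalization.integerNormalization_map_to_map (nonZeroDivisors ℤ) R
  set R₀ := IsLocalization.integerNormalization (nonZeroDivisors ℤ) R with hR₀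
  have hn0 : (n : ℤ) ≠ 0 := nonZeroDivisors.ne_zero n.2
  have hn0' : ((n : ℤ) : ℚ) ≠ 0 := by exact_mod_cast hn0
  have hmap : R₀.map (Int.castRingHom ℚ) = C ((n : ℤ) : ℚ) * R := by
    have h4 : (algebraMap ℤ ℚ) = Int.castRingHom ℚ := rfl
    rw [h4] at hn
    rw [hn]
    ext k
    rw [coeff_smul, coeff_C_mul, zsmul_eq_mul]
  have hone : ((R₀.eval 1 : ℤ) : ℚ) = ((n : ℤ) : ℚ) * R.eval 1 := by
    have h4 := congrArg (eval 1) hmap
    rw [eval_mul, eval_C, eval_map] at h4
    rw [← h4]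
    have h5 := Polynomial.eval₂_at_apply (Int.castRingHom ℚ) (1 : ℤ) (p := R₀)
    rw [map_one] at h5
    exact h5.symm
  have hone' : R₀.eval 1 ≠ 0 := by
    intro h4
    rw [h4, Int.cast_zero] at hone
    exact mul_ne_zero hn0' hR1 hone.symm
  have hR₀0 : R₀ ≠ 0 := by
    intro h4
    rw [h4] at hone'
    exact hone' eval_zero
  have hroot : ∀ b : ℂ, ev R₀ b = 0 → aeval b R = 0 := by
    intro b hb
    have h5 : aeval b (R₀.map (Int.castRingHom ℚ)) = 0 := by rw [aeval_ev, hb]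
    rw [hmap, map_mul, aeval_C] at h5
    exact (mul_eq_zero.1 h5).resolve_left fun h6 => hn0' ((map_eq_zero _).1 h6)
  obtain ⟨N, hN0, hN⟩ := exists_N hR₀0 (fun b c hb hc hbc => by
    have e1 := hroot b hb
    have e2 := hroot c hc
    have e3 := hroot _ hbc
    have hne : ∀ d : ℂ, aeval d R = 0 → d ≠ 1 := by
      rintro d hd rfl
      apply hR1
      have h4 : aeval (algebraMap ℚ ℂ 1) R = 0 := by rw [map_one]; exact hd
      rw [aeval_algebraMap_apply, map_eq_zero] at h4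
      rw [coe_aeval_eq_eval] at h4
      exact h4
    have hP : ∀ d : ℂ, aeval d R = 0 → aeval d P = 0 := by
      intro d hd
      rw [hR, map_mul, hd, mul_zero]
    exact h3 b c (hne b e1) (hne c e2) (hne _ e3) (hP b e1) (hP c e2) (hP _ e3))
  refine ⟨R₀, n, N, hn0, hN0, ?_, hone', hN⟩
  rw [hmap, hR]
  ring

section pad

variable {p : ℕ} [hp : Fact p.Prime] {m : ℕ}

theorem isGen_rat {P : ℚ[X]} (h : Generic P) {U : Matrix (Fin m) (Fin m) ℤ_[p]}
    (hU : U.charpoly.map (PadicInt.Coe.ringHom (p := p)) = P.map (algebraMap ℚ ℚ_[p])) :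
    IsGen (U.map (PadicInt.Coe.ringHom (p := p))) := by
  obtain ⟨R, n, N, hn, hN, hR, hR1, hL⟩ := h.exists_int
  have hn' : (n : ℚ) ≠ 0 := by exact_mod_cast hn
  refine ⟨(C (n : ℚ)⁻¹ * R.map (Int.castRingHom ℚ)).map (algebraMap ℚ ℚ_[p]), ?_, ?_, ?_⟩
  · have h1 : P = (X - C 1) * (C (n : ℚ)⁻¹ * R.map (Int.castRingHom ℚ)) := by
      have h2 : P = C (n : ℚ)⁻¹ * (C (n : ℚ) * P) := by
        rw [← mul_assoc, ← C_mul, inv_mul_cancel₀ hn', C_1, one_mul]
      rw [h2, hR]
      ring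
    rw [Matrix.charpoly_map, hU]
    conv_lhs => rw [h1]
    rw [Polynomial.map_mul, Polynomial.map_sub, map_X, map_C, map_one]
  · have h1 := Polynomial.eval₂_at_apply (algebraMap ℚ ℚ_[p]) (1 : ℚ)
      (p := C (n : ℚ)⁻¹ * R.map (Int.castRingHom ℚ))
    rw [map_one] at h1
    rw [eval_map, h1, Ne, map_eq_zero, eval_mul, eval_C, eval_map]
    have h2 := Polynomial.eval₂_at_apply (Int.castRingHom ℚ) (1 : ℤ) (p := R)
    rw [map_one] at h2
    rw [h2]
    refine mul_ne_zero (inv_ne_zero hn') ?_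
    rw [eq_intCast]
    exact_mod_cast hR1
  · have hroot : ∀ b : AlgebraicClosure ℚ_[p],
        aeval b ((C (n : ℚ)⁻¹ * R.map (Int.castRingHom ℚ)).map (algebraMap ℚ ℚ_[p])) = 0 ↔
        ev R b = 0 := by
      intro b
      rw [aeval_map_algebraMap, map_mul, aeval_C, aeval_ev, mul_eq_zero, map_eq_zero]
      constructor
      · rintro (h5 | h5)
        · exact absurd h5 (inv_ne_zero hn')
        · exact h5
      · exact Or.inr
    intro b c hb hc hbc
    rw [hroot] at hb hc hbc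
    haveI : CharZero (AlgebraicClosure ℚ_[p]) :=
      charZero_of_injective_algebraMap (algebraMap ℚ_[p] (AlgebraicClosure ℚ_[p])).injective
    exact hL _ (by exact_mod_cast hN) b c hb hc hbc

theorem zmod_ne {z : ℤ} (hz : z ≠ 0) (h : z.natAbs < p) : ((z : ℤ) : ZMod p) ≠ 0 := by
  rw [Ne, ZMod.intCast_zmod_eq_zero_iff_dvd]
  intro h1
  have h2 := Int.natAbs_dvd_natAbs.2 h1
  rw [Int.natAbs_natCast] at h2
  have := Nat.le_of_dvd (Int.natAbs_pos.2 hz) h2
  omega

end pad

theorem isGen_mod {P : ℚ[X]} (h : Generic P) : ∃ K : ℕ, ∀ (p : ℕ) [Fact p.Prime], K ≤ p →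
    ∀ (m : ℕ) (U : Matrix (Fin m) (Fin m) ℤ_[p]),
    U.charpoly.map (PadicInt.Coe.ringHom (p := p)) = P.map (algebraMap ℚ ℚ_[p]) →
    IsGen (U.map (PadicInt.toZMod (p := p))) := by
  obtain ⟨R, n, N, hn, hN, hR, hR1, hL⟩ := h.exists_int
  refine ⟨n.natAbs + N + (R.eval 1).natAbs + 1, fun p hp hK m U hU => ?_⟩
  have hn' : ((n : ℤ) : ZMod p) ≠ 0 := zmod_ne hn (by omega)
  have hR1' : ((R.eval 1 : ℤ) : ZMod p) ≠ 0 := zmod_ne hR1 (by omega)
  have hN' : ((N : ℕ) : ZMod p) ≠ 0 := by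
    have h1 := zmod_ne (p := p) (z := (N : ℤ)) (by exact_mod_cast hN)
      (by rw [Int.natAbs_natCast]; omega)
    rwa [Int.cast_natCast] at h1
  have hint : C ((n : ℤ) : ℤ_[p]) * U.charpoly = (X - C 1) * R.map (Int.castRingHom ℤ_[p]) := by
    refine Polynomial.map_injective (PadicInt.Coe.ringHom (p := p))
      (fun x y hxy => PadicInt.ext hxy) ?_
    rw [Polynomial.map_mul, Polynomial.map_mul, hU, map_C, Polynomial.map_sub, map_X, map_C,
      map_one, Polynomial.map_map]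
    have h2 := congrArg (Polynomial.map (algebraMap ℚ ℚ_[p])) hR
    rw [Polynomial.map_mul, Polynomial.map_mul, map_C, Polynomial.map_sub, map_X, map_C,
      map_one, Polynomial.map_map] at h2
    have e1 : (algebraMap ℚ ℚ_[p]).comp (Int.castRingHom ℚ) =
      (PadicInt.Coe.ringHom (p := p)).comp (Int.castRingHom ℤ_[p]) := RingHom.ext_int _ _
    rw [e1, map_intCast] at h2
    rw [map_intCast]
    exact h2
  have hmod : C ((n : ℤ) : ZMod p) * (U.map (PadicInt.toZMod (p := p))).charpoly =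
      (X - C 1) * R.map (Int.castRingHom (ZMod p)) := by
    have h2 := congrArg (Polynomial.map (PadicInt.toZMod (p := p))) hint
    rw [Polynomial.map_mul, Polynomial.map_mul, map_C, Polynomial.map_sub, map_X, map_C,
      map_one, Polynomial.map_map, map_intCast] at h2
    have e1 : (PadicInt.toZMod (p := p)).comp (Int.castRingHom ℤ_[p]) =
      Int.castRingHom (ZMod p) := RingHom.ext_int _ _
    rw [e1] at h2
    rw [Matrix.charpoly_map]
    exact h2
  refine ⟨C ((n : ℤ) : ZMod p)⁻¹ * R.map (Int.castRingHom (ZMod p)), ?_, ?_, ?_⟩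
  · have h2 : (U.map (PadicInt.toZMod (p := p))).charpoly = C ((n : ℤ) : ZMod p)⁻¹ *
        (C ((n : ℤ) : ZMod p) * (U.map (PadicInt.toZMod (p := p))).charpoly) := by
      rw [← mul_assoc, ← C_mul, inv_mul_cancel₀ hn', C_1, one_mul]
    rw [h2, hmod]
    ring
  · rw [eval_mul, eval_C, eval_map]
    have h2 := Polynomial.eval₂_at_apply (Int.castRingHom (ZMod p)) (1 : ℤ) (p := R)
    rw [map_one] at h2
    rw [h2]
    refine mul_ne_zero (inv_ne_zero hn') ?_
    rw [eq_intCast]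
    exact hR1'
  · have hroot : ∀ b : AlgebraicClosure (ZMod p),
        aeval b (C ((n : ℤ) : ZMod p)⁻¹ * R.map (Int.castRingHom (ZMod p))) = 0 ↔
        ev R b = 0 := by
      intro b
      rw [map_mul, aeval_C, aeval_ev, mul_eq_zero, map_eq_zero]
      constructor
      · rintro (h5 | h5)
        · exact absurd h5 (inv_ne_zero hn')
        · exact h5
      · exact Or.inr
    intro b c hb hc hbc
    rw [hroot] at hb hc hbc
    refine hL _ ?_ b c hb hc hbc
    have h5 : ((N : ℕ) : AlgebraicClosure (ZMod p)) =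
        algebraMap (ZMod p) (AlgebraicClosure (ZMod p)) ((N : ℕ) : ZMod p) := by
      rw [map_natCast]
    rw [h5, Ne, map_eq_zero]
    exact hN'

end Pool.Agent.Y127.I
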