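import Pool.Agent.Y127.I.JorB

/-!
# Jordan's theorem for the images
-/

set_option linter.unusedSectionVars false

namespace Pool.Agent.Y127.I

open Module Matrix

variable {p : ℕ} [hp : Fact p.Prime] {m : ℕ} {Γ : Type} [Group Γ]

/-- The image over `ℤ_p` is infinite or has an abelian subgroup of bounded index. -/
theorem inf_or_abelian (ρ : Γ →* GL (Fin m) ℤ_[p]) : (Set.range ρ).Infinite ∨
    ∃ A : Subgroup Γ, A.index ≠ 0 ∧ A.index ≤ 5 ^ (2 * (m * m)) ∧ ∀ a ∈ A, ∀ b ∈ A,
      ρ a * ρ b = ρ b * ρ a := by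
  by_cases h : (Set.range ρ).Infinite
  · exact Or.inl h
  right
  rw [Set.not_infinite] at h
  haveI : Finite ρ.range := h
  let σ : ρ.range →* Matrix (Fin m) (Fin m) ℤ_[p] := (Units.coeHom _).comp ρ.range.subtype
  obtain ⟨A, hA, hi⟩ := jordan_padic σ (fun x y hxy => Subtype.ext (Units.ext hxy))
  have hidx : (A.comap ρ.rangeRestrict).index = A.index :=
    Subgroup.index_comap_of_surjective _ ρ.rangeRestrict_surjective
  refine ⟨A.comap ρ.rangeRestrict, ?_, ?_, fun a ha b hb => ?_⟩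
  · rw [hidx]
    exact Subgroup.index_ne_zero_of_finite
  · rw [hidx]
    exact hi
  · exact congrArg Subtype.val (hA _ ha _ hb)

/-- The image modulo `p` has an element of order `p` or an abelian subgroup of bounded index. -/
theorem ord_or_abelian (ρ : Γ →* GL (Fin m) ℤ_[p]) :
    (∃ γ, red (ρ γ : Matrix (Fin m) (Fin m) ℤ_[p]) ≠ 1 ∧
      red (ρ γ : Matrix (Fin m) (Fin m) ℤ_[p]) ^ p = 1) ∨
    ∃ A : Subgroup Γ, A.index ≠ 0 ∧ A.index ≤ 5 ^ (2 * (m * m)) ∧ ∀ a ∈ A, ∀ b ∈ A,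
      red (ρ a : Matrix (Fin m) (Fin m) ℤ_[p]) * red (ρ b : Matrix (Fin m) (Fin m) ℤ_[p]) =
      red (ρ b : Matrix (Fin m) (Fin m) ℤ_[p]) * red (ρ a : Matrix (Fin m) (Fin m) ℤ_[p]) := by
  classical
  let τ : Γ →* GL (Fin m) (ZMod p) := (Units.map (red (p := p) (m := m)).toMonoidHom).comp ρ
  have hτ : ∀ γ, ((τ γ : GL (Fin m) (ZMod p)) : Matrix (Fin m) (Fin m) (ZMod p)) =
      red (ρ γ : Matrix (Fin m) (Fin m) ℤ_[p]) := fun γ => rfl
  haveI : Finite τ.range := inferInstance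
  haveI : Fintype τ.range := Fintype.ofFinite _
  by_cases hd : p ∣ Fintype.card τ.range
  · left
    obtain ⟨⟨x, γ, hγ⟩, hx⟩ := exists_prime_orderOf_dvd_card p hd
    refine ⟨γ, fun h1 => ?_, ?_⟩
    · rw [← hτ, hγ] at h1
      have h2 : (⟨x, γ, hγ⟩ : τ.range) = 1 := Subtype.ext (Units.ext h1)
      rw [h2, orderOf_one] at hx
      exact hp.out.one_lt.ne hx
    · have h2 := pow_orderOf_eq_one (⟨x, γ, hγ⟩ : τ.range)
      rw [hx] at h2
      have h3 : x ^ p = 1 := congrArg Subtype.val h2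
      rw [← hτ, hγ, ← Units.val_pow_eq_pow_val, h3, Units.val_one]
  · right
    let τ' : τ.range →* Matrix (Fin m) (Fin m) (ZMod p) := (Units.coeHom _).comp τ.range.subtype
    have hτ' : Function.Injective τ' := fun x y hxy => Subtype.ext (Units.ext hxy)
    obtain ⟨σ, hσ⟩ := exists_lift_hom (p := p) (m := m) (G := τ.range)
      (by rw [Ne, ZMod.natCast_eq_zero_iff]; exact hd) τ'
    have hσi : Function.Injective σ := by
      intro x y hxy
      apply hτ'
      rw [← hσ, ← hσ, hxy]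
    obtain ⟨A, hA, hi⟩ := jordan_padic σ hσi
    have hidx : (A.comap τ.rangeRestrict).index = A.index :=
      Subgroup.index_comap_of_surjective _ τ.rangeRestrict_surjective
    refine ⟨A.comap τ.rangeRestrict, ?_, ?_, fun a ha b hb => ?_⟩
    · rw [hidx]
      exact Subgroup.index_ne_zero_of_finite
    · rw [hidx]
      exact hi
    · have h1 := congrArg Subtype.val (hA _ ha _ hb)
      exact congrArg Units.val h1

end Pool.Agent.Y127.I
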