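import Pool.Agent.Y127.I.Node2
import Pool.Agent.Y127.I.JorC

/-!
# Reflections in matrix form
-/

set_option linter.unusedSectionVars false

namespace Pool.Agent.Y127.I

open Module Matrix

section op

variable {F : Type} [Field F] {V : Type} [AddCommGroup V] [Module F V]
  {B : V →ₗ[F] V →ₗ[F] F}

/-- An isometric involution with trace `dim V - 2` is a reflection. -/
theorem exists_rf [FiniteDimensional F V] (hsy : ∀ x y, B x y = B y x)
    (hnd : ∀ x, (∀ y, B x y = 0) → x = 0) (h2 : (2 : F) ≠ 0)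
    (hch : ∀ k : ℕ, k ≤ finrank F V → (k : F) = 1 → k = 1)
    {f : End F V} (hB : ∀ x y, B (f x) (f y) = B x y) (hff : f * f = 1)
    (htr : LinearMap.trace F V f = (finrank F V : F) - 2) :
    ∃ e, B e e ≠ 0 ∧ f = rf B e := by
  set P : End F V := (2⁻¹ : F) • (1 - f) with hP
  have hPx : ∀ x, P x = (2⁻¹ : F) • (x - f x) := fun x => rfl
  have hfx : ∀ x, f x = x - (2 : F) • P x := by
    intro x
    rw [hPx, smul_smul, mul_inv_cancel₀ h2, one_smul]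
    abel
  have hffx : ∀ x, f (f x) = x := fun x => by
    rw [← Module.End.mul_apply, hff, Module.End.one_apply]
  have hPP : ∀ x, P (P x) = P x := by
    intro x
    rw [hPx (P x), hPx x, map_smul, map_sub, hffx, ← smul_sub]
    have h3 : x - f x - (f x - x) = (2 : F) • (x - f x) := by rw [two_smul]; abel
    rw [h3, smul_smul (2⁻¹ : F) (2 : F), inv_mul_cancel₀ h2, one_smul]
  have hid : IsIdempotentElem P := LinearMap.ext hPP
  have hproj := (LinearMap.isProj_range_iff_isIdempotentElem P).2 hid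
  have h3 := LinearMap.IsProj.trace hproj
  have h4 : LinearMap.trace F V P = 1 := by
    rw [hP, map_smul, map_sub, htr]
    have h5 : LinearMap.trace F V (1 : End F V) = (finrank F V : F) := LinearMap.trace_one F V
    rw [h5, sub_sub_cancel, smul_eq_mul, inv_mul_cancel₀ h2]
  rw [h4] at h3
  have hr : finrank F (LinearMap.range P) = 1 :=
    hch _ (Submodule.finrank_le _) h3.symm
  obtain ⟨⟨e, he⟩, hne, hspan⟩ := finrank_eq_one_iff'.1 hr
  have he0 : e ≠ 0 := fun h => hne (Subtype.ext h)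
  have hPe : P e = e := by
    obtain ⟨y, hy⟩ := he
    rw [← hy, hPP]
  have hsp : ∀ x, ∃ c : F, P x = c • e := by
    intro x
    obtain ⟨c, hc⟩ := hspan ⟨P x, x, rfl⟩
    exact ⟨c, (congrArg Subtype.val hc).symm⟩
  have hadj : ∀ x y, B (P x) y = B x (P y) := by
    intro x y
    have h5 := hB x (f y)
    rw [hffx] at h5
    rw [hPx, hPx, map_smul, map_smul, map_sub, map_sub, LinearMap.smul_apply, LinearMap.sub_apply,
      h5]
  have hee : B e e ≠ 0 := by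
    intro h5
    apply he0
    refine hnd e fun y => ?_
    obtain ⟨c, hc⟩ := hsp y
    rw [← hPe, hadj, hc, map_smul, h5, smul_zero]
  refine ⟨e, hee, LinearMap.ext fun x => ?_⟩
  obtain ⟨c, hc⟩ := hsp x
  have h5 : B e x = c * B e e := by
    rw [← hPe, hadj, hc, map_smul, smul_eq_mul, hPe]
  rw [hfx, hc, rf_apply, h5, smul_smul]
  congr 2
  field_simp

end op

section mat

variable {F : Type} [Field F] {m : ℕ} {Γ : Type} [Group Γ]

/-- An involution with trace `m - 2`. -/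
def IsRf (U : Matrix (Fin m) (Fin m) F) : Prop := U * U = 1 ∧ U.trace = (m : F) - 2

theorem exists_rf_matrix {A : Matrix (Fin m) (Fin m) F} (hA : A.IsSymm) (hd : A.det ≠ 0)
    (h2 : (2 : F) ≠ 0) (hch : ∀ k : ℕ, k ≤ m → (k : F) = 1 → k = 1)
    {U : Matrix (Fin m) (Fin m) F} (hU : Uᵀ * A * U = A) (hc : IsRf U) :
    ∃ e, bil A e e ≠ 0 ∧ toLin' U = rf (bil A) e := by
  refine exists_rf (bil_symm hA) (nd_of_det hd) h2 ?_ (isom_of_matrix hU) ?_ ?_
  · intro k hk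
    exact hch k (by rwa [finrank_fin_fun] at hk)
  · have h1 : toLin' U * toLin' U = toLin' (U * U) := by rw [toLin'_mul]; rfl
    rw [h1, hc.1, toLin'_one]
    rfl
  · rw [Matrix.trace_toLin'_eq, hc.2, finrank_fin_fun]

/-- **Irreducibility of the skew matrices from a reflection.** -/
theorem irr_of_node {A : Matrix (Fin m) (Fin m) F} (hA : A.IsSymm) (hd : A.det ≠ 0)
    (h2 : (2 : F) ≠ 0) (hch : ∀ k : ℕ, k ≤ m → (k : F) = 1 → k = 1)
    (hm : m = 3 ∨ 5 ≤ m) {ρ : Γ →* Matrix (Fin m) (Fin m) F}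
    (hρ : ∀ γ, (ρ γ)ᵀ * A * ρ γ = A) (hs : SIrrM ρ) (hc : ∃ γ, IsRf (ρ γ)) {Δ : Subgroup Γ}
    (hΔ : ∀ a b : Γ, a * b * a⁻¹ * b⁻¹ ∈ Δ)
    {M : Submodule F (Matrix (Fin m) (Fin m) F)} (hM : M ≤ soM A)
    (hst : ∀ γ ∈ Δ, ∀ X ∈ M, ρ γ * X * ρ γ⁻¹ ∈ M) : M = ⊥ ∨ M = soM A := by
  obtain ⟨γ₀, hγ₀⟩ := hc
  obtain ⟨e, he, hEe⟩ := exists_rf_matrix hA hd h2 hch (hρ γ₀) hγ₀
  obtain ⟨v, hv, hb⟩ := exists_ob hA hd h2
  let g : Γ →* End F (Fin m → F) :=
    { toFun := fun γ => toLin' (ρ γ)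
      map_one' := by rw [map_one, toLin'_one]; rfl
      map_mul' := fun γ δ => by rw [map_mul, toLin'_mul]; rfl }
  have hg : ∀ γ x, g γ x = ρ γ *ᵥ x := fun γ x => toLin'_apply _ _
  have hgs : SIrr g := by
    intro Δ h0 hi W hW
    refine hs Δ h0 (by simpa using hi) W fun γ hγ x hx => ?_
    rw [← hg]
    exact hW γ hγ x hx
  have hMo : opS M ≤ so (bil A) := by
    intro X hX
    rw [mem_opS] at hX
    have h3 := toLin_mem_so.2 (hM hX)
    rwa [toLin'_toMatrix'] at h3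
  rcases node_irr v hv hb (bil_symm hA) h2 (nd_of_det hd) hm (g := g)
    (fun γ x y => isom_of_matrix (hρ γ) x y) hgs he (γ₀ := γ₀) hEe hΔ hMo (by
      intro γ hγ X hX
      rw [mem_opS] at hX ⊢
      rw [LinearMap.toMatrix'_mul, LinearMap.toMatrix'_mul]
      change LinearMap.toMatrix' (toLin' (ρ γ)) * LinearMap.toMatrix' X *
        LinearMap.toMatrix' (toLin' (ρ γ⁻¹)) ∈ M
      rw [LinearMap.toMatrix'_toLin', LinearMap.toMatrix'_toLin']
      exact hst γ hγ _ hX) with h | h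
  · left
    rw [eq_bot_iff]
    intro Y hY
    have h3 : toLin' Y ∈ opS M := toLin_mem_opS.2 hY
    rw [h, Submodule.mem_bot] at h3
    rw [Submodule.mem_bot]
    exact (toLin' : Matrix (Fin m) (Fin m) F ≃ₗ[F] _).map_eq_zero_iff.1 h3
  · right
    refine le_antisymm hM fun X hX => ?_
    rw [← toLin_mem_opS, h]
    exact toLin_mem_so.2 hX

/-- **A group with a reflection is not virtually abelian**, matrix form. -/
theorem node_not_abelian_matrix {A : Matrix (Fin m) (Fin m) F} (hA : A.IsSymm) (hd : A.det ≠ 0)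
    (h2 : (2 : F) ≠ 0) (hch : ∀ k : ℕ, k ≤ m → (k : F) = 1 → k = 1)
    (hm : 3 ≤ m) {ρ : Γ →* Matrix (Fin m) (Fin m) F}
    (hρ : ∀ γ, (ρ γ)ᵀ * A * ρ γ = A) (hc : ∃ γ, IsRf (ρ γ)) {D : Subgroup Γ} {J : ℕ}
    (hD0 : D.index ≠ 0) (hDJ : D.index ≤ J) (hD : ∀ a ∈ D, ∀ b ∈ D, ρ a * ρ b = ρ b * ρ a)
    (hs : ∀ Δ : Subgroup Γ, Δ.index ≠ 0 → Δ.index ≤ J * J → ∀ W : Submodule F (Fin m → F),
      (∀ γ ∈ Δ, ∀ x ∈ W, ρ γ *ᵥ x ∈ W) → W = ⊥ ∨ W = ⊤) : False := by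
  obtain ⟨γ₀, hγ₀⟩ := hc
  obtain ⟨e, he, hEe⟩ := exists_rf_matrix hA hd h2 hch (hρ γ₀) hγ₀
  let g : Γ →* End F (Fin m → F) :=
    { toFun := fun γ => toLin' (ρ γ)
      map_one' := by rw [map_one, toLin'_one]; rfl
      map_mul' := fun γ δ => by rw [map_mul, toLin'_mul]; rfl }
  have hg : ∀ γ x, g γ x = ρ γ *ᵥ x := fun γ x => toLin'_apply _ _
  refine node_not_abelian (bil_symm hA) h2 (by rw [finrank_fin_fun]; exact hm) (g := g)
    (fun γ x y => isom_of_matrix (hρ γ) x y) he (γ₀ := γ₀) hEe hD0 hDJ ?_ ?_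
  · intro a ha b hb
    change toLin' (ρ a) * toLin' (ρ b) = toLin' (ρ b) * toLin' (ρ a)
    have h1 : ∀ X Y : Matrix (Fin m) (Fin m) F, toLin' X * toLin' Y = toLin' (X * Y) := fun X Y => by
      rw [toLin'_mul]; rfl
    rw [h1, h1, hD a ha b hb]
  · intro Δ h0 hi W hW
    refine hs Δ h0 hi W fun γ hγ x hx => ?_
    rw [← hg]
    exact hW γ hγ x hx

end mat

section big

variable {p : ℕ} [hp : Fact p.Prime] {Γ : Type} [Group Γ] {m : ℕ}

/-- **Strong irreducibility over `ℚ_p`.** -/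
theorem sirrN_padic {a : Matrix (Fin m) (Fin m) ℤ_[p]} (ha : a.IsSymm) (hd : a.det ≠ 0)
    (hm : 3 ≤ m) {ρ : Γ →* GL (Fin m) ℤ_[p]} {C : ℕ} (h0 : ρ.range.relIndex (SOg a) ≠ 0)
    (hC : ρ.range.relIndex (SOg a) ≤ C) {Δ : Subgroup Γ} (hi0 : Δ.index ≠ 0)
    {W : Submodule ℚ_[p] (Fin m → ℚ_[p])}
    (hW : ∀ γ ∈ Δ, ∀ x ∈ W, cm (ρ γ : Matrix (Fin m) (Fin m) ℤ_[p]) *ᵥ x ∈ W) :
    W = ⊥ ∨ W = ⊤ := by
  have has : (cm a).IsSymm := by
    rw [Matrix.IsSymm, ← cm_transpose, ha.eq]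
  have had : (cm a).det ≠ 0 := by
    have h1 : (cm a).det = ((a.det : ℤ_[p]) : ℚ_[p]) :=
      (RingHom.map_det (PadicInt.Coe.ringHom (p := p)) a).symm
    rw [h1]
    exact fun h => hd (PadicInt.ext h)
  refine std_irr has had two_ne_zero hm fun Y hY => ?_
  change Y ∈ stM W
  refine mem_of_congr fun e => ?_
  obtain ⟨k1, h1⟩ := tan_of_pow (q := 2 * C.factorial * Δ.index.factorial)
    (Nat.mul_pos (Nat.mul_pos (by norm_num) (Nat.factorial_pos _)) (Nat.factorial_pos _))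
    (G := {x | ∃ γ ∈ Δ, (ρ γ : Matrix (Fin m) (Fin m) ℤ_[p]) = x}) (by
      intro g hg
      obtain ⟨γ, hγ⟩ := pow_of_idx hd h0 hC hg
      refine ⟨γ ^ Δ.index.factorial, pow_fact_mem hi0 le_rfl γ, ?_⟩
      rw [map_pow, Units.val_pow_eq_pow_val, hγ, ← pow_mul]) hY e
  obtain ⟨_, ⟨γ, hγ, rfl⟩, Z, hZ⟩ := h1 k1 le_rfl
  refine ⟨Z, ?_⟩
  have h2 : cm (ρ γ : Matrix (Fin m) (Fin m) ℤ_[p]) ∈ stM W := fun x hx => hW γ hγ x hx
  have h3 := (stM W).sub_mem h2 (one_mem_stM W)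
  have h4 : cm (ρ γ : Matrix (Fin m) (Fin m) ℤ_[p]) - 1 =
      (p : ℚ_[p]) ^ k1 • (Y + (p : ℚ_[p]) ^ e • cm Z) := by
    rw [hZ, smul_add, smul_smul, ← pow_add]
    abel
  rw [h4] at h3
  have h5 := (stM W).smul_mem ((p : ℚ_[p]) ^ k1)⁻¹ h3
  rwa [smul_smul, inv_mul_cancel₀ (pow_ne_zero _ P_ne), one_smul] at h5

/-- **Strong irreducibility modulo `p`.** -/
theorem sirrN_mod {A : Matrix (Fin m) (Fin m) (ZMod p)} (hA : A.IsSymm) (hd : A.det ≠ 0)
    (hm : 3 ≤ m) (hp5 : 5 < p) (hmp : m < p) {ρ : Γ →* Matrix (Fin m) (Fin m) (ZMod p)}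
    (hE : ∀ e v, Eic (bil A) e v → ∃ γ, ρ γ = LinearMap.toMatrix' (Ee (bil A) e v))
    {Δ : Subgroup Γ} (hi0 : Δ.index ≠ 0) (hi : Δ.index < p)
    {W : Submodule (ZMod p) (Fin m → ZMod p)} (hW : ∀ γ ∈ Δ, ∀ x ∈ W, ρ γ *ᵥ x ∈ W) :
    W = ⊥ ∨ W = ⊤ := by
  have hodd : p % 2 = 1 := by
    rcases hp.out.eq_two_or_odd with h | h
    · omega
    · exact h
  have h2 := p_two hp5
  obtain ⟨v, hv, hb⟩ := exists_ob hA hd h2
  obtain ⟨e, he, hee⟩ := exists_isotropic hA hd h2 hm (by rw [ZMod.card]; exact hodd)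
  have hEs := so_le_Es v hv hb (bil_symm hA) (p_24 hp5) (by rw [Fintype.card_fin]; omega) he hee
  refine std_irr hA hd h2 hm fun Y hY => ?_
  change Y ∈ stM W
  rw [← toLin_mem_opS]
  refine (hEs.trans ?_) (toLin_mem_so.2 hY)
  unfold Es
  rw [Submodule.span_le]
  rintro _ ⟨e, w, hew, rfl⟩
  obtain ⟨γ, hγ⟩ := hE e w hew
  obtain ⟨j, hj0, hjn, hj⟩ := Subgroup.exists_pow_mem_of_index_ne_zero hi0 γ
  have hjp : (j : ZMod p) ≠ 0 := by
    rw [Ne, ZMod.natCast_eq_zero_iff]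
    intro h
    have := Nat.le_of_dvd hj0 h
    omega
  have hpow : ∀ k : ℕ, ρ (γ ^ k) = LinearMap.toMatrix' (Ee (bil A) ((k : ZMod p) • e) w) := by
    intro k
    rw [map_pow, hγ, Ee_nat (bil_symm hA) h2 hew]
    induction k with
    | zero => rw [pow_zero, pow_zero, LinearMap.toMatrix'_one]
    | succ k ih => rw [pow_succ, pow_succ, LinearMap.toMatrix'_mul, ih]
  have hmem : ∀ k : ℕ, Ee (bil A) (((j * k : ℕ) : ZMod p) • e) w ∈ opS (stM W) := by
    intro k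
    rw [mem_opS, ← hpow, pow_mul]
    intro x hx
    exact hW _ (Δ.pow_mem hj k) x hx
  have hone : (1 : End (ZMod p) (Fin m → ZMod p)) ∈ opS (stM W) := by
    rw [mem_opS, LinearMap.toMatrix'_one]
    exact one_mem_stM W
  have e1 := (opS (stM W)).sub_mem (hmem 1) hone
  have e2 := (opS (stM W)).sub_mem (hmem 2) hone
  have e3 := (opS (stM W)).sub_mem ((opS (stM W)).smul_mem (4 : ZMod p) e1) e2
  have h22 : (2⁻¹ : ZMod p) * 2 = 1 := inv_mul_cancel₀ h2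
  have e4 : (4 : ZMod p) • (Ee (bil A) (((j * 1 : ℕ) : ZMod p) • e) w - 1) -
      (Ee (bil A) (((j * 2 : ℕ) : ZMod p) • e) w - 1) = (2 * (j : ZMod p)) • wl (bil A) e w := by
    unfold Ee
    simp only [map_smul, LinearMap.smul_apply, smul_mul_assoc, mul_smul_comm, smul_smul]
    push_cast
    have e5 : (4 : ZMod p) * (2⁻¹ * (j * 1 * (j * 1))) = 2⁻¹ * (j * 2 * (j * 2)) := by ring
    simp only [smul_sub, smul_add, smul_smul]
    rw [e5]
    module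
  rw [e4] at e3
  have e6 := (opS (stM W)).smul_mem (2 * (j : ZMod p))⁻¹ e3
  rw [smul_smul, inv_mul_cancel₀ (mul_ne_zero h2 hjp), one_smul] at e6
  exact e6

end big

end Pool.Agent.Y127.I
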