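import Pool.Agent.Y127.I.Small2

/-!
# Every prime: the image is open
-/

set_option linter.unusedSectionVars false

namespace Pool.Agent.Y127.I

open Module Matrix Filter Topology

/-- There are nonzero skew matrices. -/
theorem exists_skew_ne {F : Type} [Field F] {m : ℕ} {A : Matrix (Fin m) (Fin m) F}
    (hA : A.IsSymm) (hd : A.det ≠ 0) (h2 : (2 : F) ≠ 0) (hm : 3 ≤ m) : ∃ X ∈ soM A, X ≠ 0 := by
  obtain ⟨v, hv, hb⟩ := exists_ob hA hd h2
  set a0 : Fin m := ⟨0, by omega⟩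
  set a1 : Fin m := ⟨1, by omega⟩
  have h01 : a0 ≠ a1 := by simp [a0, a1]
  refine ⟨LinearMap.toMatrix' (wl (bil A) (v a0) (v a1)), ?_, ?_⟩
  · rw [← toLin_mem_so, Matrix.toLin'_toMatrix']
    exact wl_mem (bil_symm hA) _ _
  · intro h
    have h4 : wl (bil A) (v a0) (v a1) = 0 := LinearMap.toMatrix'.map_eq_zero_iff.1 h
    have h5 := c_wl v hv hb (bil_symm hA) a0 a1 a0 a1
    rw [h4, LinearMap.zero_apply, map_zero, if_pos ⟨rfl, rfl⟩, if_neg (fun h => h01 h.1),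
      sub_zero] at h5
    exact mul_ne_zero (hb a0) (hb a1) h5.symm

variable {p : ℕ} [hp : Fact p.Prime]

theorem cm_trace {m : ℕ} (X : Matrix (Fin m) (Fin m) ℤ_[p]) :
    (cm X).trace = ((X.trace : ℤ_[p]) : ℚ_[p]) := by
  have h1 : ((X.trace : ℤ_[p]) : ℚ_[p]) = PadicInt.Coe.ringHom (p := p) X.trace := rfl
  rw [h1]
  unfold Matrix.trace
  rw [map_sum]
  rfl

theorem dvd_pow {x : ℤ_[p]} (hx : x ≠ 0) :
    ∃ s : ℕ, ∀ t, s ≤ t → ∃ w : ℤ_[p], (p : ℤ_[p]) ^ t = x * w := by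
  obtain ⟨s, hs⟩ := exists_int ((x : ℚ_[p])⁻¹)
  refine ⟨s, fun t ht => ?_⟩
  obtain ⟨w, hw⟩ := hs t ht
  refine ⟨w, PadicInt.ext ?_⟩
  have hx' : (x : ℚ_[p]) ≠ 0 := fun h => hx (PadicInt.ext h)
  rw [PadicInt.coe_mul, PadicInt.coe_pow, PadicInt.coe_natCast, ← hw, mul_left_comm,
    mul_inv_cancel₀ hx', mul_one]

variable {ι : Type} [Fintype ι] [DecidableEq ι] {n : ι → ℕ}

/-- A uniform exponent. -/
theorem exists_exp : ∃ Q : ℕ, 0 < Q ∧ ∀ x x' : Mx n ℤ_[p], x * x' = 1 → x' * x = 1 →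
    ∃ Y, x ^ Q = 1 + (p : ℤ_[p]) ^ 2 • Y := by
  refine ⟨Nat.card (Mx n (ZMod p))ˣ * p, Nat.mul_pos Nat.card_pos hp.out.pos,
    fun x x' h h' => ?_⟩
  let u : (Mx n (ZMod p))ˣ := ⟨rd x, rd x', by rw [← map_mul, h, map_one],
    by rw [← map_mul, h', map_one]⟩
  have h1 : u ^ Nat.card (Mx n (ZMod p))ˣ = 1 := pow_card_eq_one'
  have h2 : rd (x ^ Nat.card (Mx n (ZMod p))ˣ) = rd 1 := by
    rw [map_pow, map_one]
    exact congrArg Units.val h1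
  obtain ⟨Y, hY⟩ := rd_eq_iff.1 h2
  refine ⟨nxt 1 Y, ?_⟩
  have h3 := step_eq (p := p) le_rfl Y
  rw [pow_one] at h3
  rw [pow_mul, hY, h3]

variable {Γ : Type} [Group Γ] {A : Mx n ℤ_[p]} {r : Γ →* Mx n ℤ_[p]}

/-- If the powers of the isometries are in the image, the image is infinite. -/
theorem inf_of_pow {m : ℕ} {a : Matrix (Fin m) (Fin m) ℤ_[p]} (ha : a.IsSymm) (had : a.det ≠ 0)
    (hm : 3 ≤ m) {q : ℕ} (hq : 0 < q) (ρ : Γ →* Matrix (Fin m) (Fin m) ℤ_[p])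
    (hG : ∀ g, gᵀ * a * g = a → ∃ γ, ρ γ = g ^ q) : (Set.range ρ).Infinite := by
  intro hfin
  -- the image has a finite exponent
  obtain ⟨Q, hQ0, hQ⟩ : ∃ Q : ℕ, 0 < Q ∧ ∀ γ, (ρ γ) ^ Q = 1 := by
    have hf : Finite (MonoidHom.mrange ρ) := hfin.to_subtype
    let f : Γ →* (Matrix (Fin m) (Fin m) ℤ_[p])ˣ := ρ.toHomUnits
    have hf2 : Finite f.range := by
      let φ : f.range → Set.range ρ := fun u => ⟨(u.1 : Matrix (Fin m) (Fin m) ℤ_[p]), by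
        obtain ⟨γ, hγ⟩ := u.2
        exact ⟨γ, by rw [← hγ]; rfl⟩⟩
      haveI : Finite (Set.range ρ) := hfin.to_subtype
      refine Finite.of_injective φ fun u v huv => ?_
      exact Subtype.ext (Units.ext (congrArg Subtype.val huv))
    refine ⟨Nat.card f.range, Nat.card_pos, fun γ => ?_⟩
    have h1 : (⟨f γ, ⟨γ, rfl⟩⟩ : f.range) ^ Nat.card f.range = 1 := pow_card_eq_one'
    have h2 : (f γ) ^ Nat.card f.range = 1 := congrArg Subtype.val h1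
    exact congrArg Units.val h2
  obtain ⟨Y, hY, hYne⟩ := exists_skew_ne (A := cm a)
    (by rw [Matrix.IsSymm, ← cm_transpose, ha.eq])
    (by
      have h1 : (cm a).det = ((a.det : ℤ_[p]) : ℚ_[p]) :=
        (RingHom.map_det (PadicInt.Coe.ringHom (p := p)) a).symm
      rw [h1]
      exact fun h => had (PadicInt.ext h)) two_ne_zero hm
  apply hYne
  refine zero_of_congr fun e => ?_
  obtain ⟨k1, hk1⟩ := tan_of_pow (q := q * Q) (Nat.mul_pos hq hQ0) (a := a) (G := {1})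
    (fun g hg => by
      obtain ⟨γ, hγ⟩ := hG g hg
      rw [pow_mul, ← hγ, hQ γ]
      rfl) hY e
  obtain ⟨g, hg, Z, hZ⟩ := hk1 k1 le_rfl
  rw [Set.mem_singleton_iff] at hg
  rw [hg, map_one, add_assoc, left_eq_add, pow_add, mul_smul, ← smul_add] at hZ
  have h2 := (smul_eq_zero.1 hZ).resolve_left (pow_ne_zero _ P_ne)
  exact ⟨-Z, by rw [map_neg, smul_neg]; exact eq_neg_of_add_eq_zero_left h2⟩

/-- Reduction modulo `p ^ k`. -/
noncomputable def rk (k : ℕ) (x : Mx n ℤ_[p]) : Mx n (ZMod (p ^ k)) :=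
  fun i => (x i).map (PadicInt.toZModPow k)

theorem rk_eq {k : ℕ} {x y : Mx n ℤ_[p]} (h : rk k x = rk k y) :
    ∃ Y, x = y + (p : ℤ_[p]) ^ k • Y := by
  have h1 : ∀ i a b, ∃ w, x i a b - y i a b = (p : ℤ_[p]) ^ k * w := by
    intro i a b
    have h2 : PadicInt.toZModPow k (x i a b) = PadicInt.toZModPow k (y i a b) :=
      congrFun (congrFun (congrFun h i) a) b
    have h3 : x i a b - y i a b ∈ RingHom.ker (PadicInt.toZModPow (p := p) k) := by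
      rw [RingHom.mem_ker, map_sub, h2, sub_self]
    rw [PadicInt.ker_toZModPow, Ideal.mem_span_singleton] at h3
    exact h3
  choose w hw using h1
  refine ⟨fun i => Matrix.of (w i), ?_⟩
  funext i
  ext a b
  change x i a b = y i a b + (p : ℤ_[p]) ^ k * w i a b
  rw [← hw]
  ring

theorem finite_rk (k : ℕ) : Finite (Mx n (ZMod (p ^ k))) := by
  haveI : NeZero (p ^ k) := ⟨pow_ne_zero _ hp.out.ne_zero⟩
  infer_instance

theorem exists_TT_ne (hinf : ∀ i, (Set.range fun γ => r γ i).Infinite) (i : ι) :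
    ∃ X ∈ TT r, X i ≠ 0 := by
  by_contra hcon
  push Not at hcon
  have h1 : ∀ γ Y, r γ = 1 + (p : ℤ_[p]) ^ 2 • Y → r γ i = 1 := by
    intro γ Y hY
    obtain ⟨X, hX, hX2⟩ := exists_TT (r := r) (γ₀ := γ) (s := 2) le_rfl (Y0 := Y) hY
    have h2 : Y i = 0 := by
      by_contra hne
      exact hX2 i hne (hcon X hX)
    have h3 := congrFun hY i
    rw [Pi.add_apply, Pi.smul_apply, h2, smul_zero, add_zero] at h3
    exact h3
  have h2 : ∀ γ δ, rk 2 (r γ) = rk 2 (r δ) → r γ i = r δ i := by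
    intro γ δ h
    obtain ⟨Y, hY⟩ := rk_eq h
    have h3 : r (δ⁻¹ * γ) = 1 + (p : ℤ_[p]) ^ 2 • (r δ⁻¹ * Y) := by
      rw [map_mul, hY, mul_add, r_inv_mul, mul_smul_comm]
    have h4 := h1 _ _ h3
    rw [map_mul] at h4
    have h5 : r δ i * (r δ⁻¹ i * r γ i) = r δ i * 1 := by rw [← h4]; rfl
    have h6 : r δ i * r δ⁻¹ i = 1 := congrFun (r_mul_inv (r := r) δ) i
    rw [← mul_assoc, h6, one_mul, mul_one] at h5
    exact h5
  apply hinf i
  haveI := finite_rk (p := p) (n := n) 2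
  have hfin : (Set.range fun γ => rk 2 (r γ)).Finite := Set.toFinite _
  -- choose representatives
  have h3 : ∀ z : Mx n (ZMod (p ^ 2)), ∃ w : Matrix (Fin (n i)) (Fin (n i)) ℤ_[p],
      ∀ γ, rk 2 (r γ) = z → r γ i = w := by
    intro z
    by_cases hz : ∃ δ, rk 2 (r δ) = z
    · obtain ⟨δ, hδ⟩ := hz
      exact ⟨r δ i, fun γ hγ => h2 γ δ (hγ.trans hδ.symm)⟩
    · exact ⟨0, fun γ hγ => absurd ⟨γ, hγ⟩ hz⟩
  choose w hw using h3
  refine (Set.finite_range w).subset ?_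
  rintro _ ⟨γ, rfl⟩
  exact ⟨rk 2 (r γ), (hw _ γ rfl).symm⟩

/-- **The tangent space is everything.** -/
theorem TT_all (hAs : ∀ i, (A i).IsSymm) (hAd : ∀ i, (A i).det ≠ 0)
    (hA : ∀ γ, Isy A (r γ))
    (hir : ∀ i, ∀ M : Submodule ℚ_[p] (Matrix (Fin (n i)) (Fin (n i)) ℚ_[p]),
      M ≤ soM (cq A i) → (∀ γ, ∀ X ∈ M, cq (r γ) i * X * cq (r γ⁻¹) i ∈ M) →
      M = ⊥ ∨ M = soM (cq A i))
    (hinf : ∀ i, (Set.range fun γ => r γ i).Infinite)
    (htr : ∀ i j, i ≠ j → ∃ γ, (r γ i).trace ^ 2 - (r γ i * r γ i).trace ≠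
      (r γ j).trace ^ 2 - (r γ j * r γ j).trace)
    {Z : Mx n ℚ_[p]} (hZ : ∀ i, Z i ∈ soM (cq A i)) : Z ∈ TT r := by
  have hAs' : ∀ i, (cq A i).IsSymm := by
    intro i
    rw [Matrix.IsSymm, cq_apply, ← cm_transpose, (hAs i).eq]
  have hAd' : ∀ i, (cq A i).det ≠ 0 := by
    intro i
    have h1 : (cm (A i)).det = (((A i).det : ℤ_[p]) : ℚ_[p]) :=
      (RingHom.map_det (PadicInt.Coe.ringHom (p := p)) (A i)).symm
    rw [cq_apply, h1]
    exact fun h => hAd i (PadicInt.ext h)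
  have hg : ∀ γ i, (cq (r γ) i)ᵀ * cq A i * cq (r γ) i = cq A i := by
    intro γ i
    rw [cq_apply, cq_apply, ← cm_transpose, ← map_mul, ← map_mul, hA γ i]
  have e1 : ∀ γ i, cq (r γ) i * cq (r γ⁻¹) i = 1 := by
    intro γ i
    rw [cq_apply, cq_apply, ← map_mul]
    have h3 : r γ i * r γ⁻¹ i = 1 := congrFun (r_mul_inv (r := r) γ) i
    rw [h3, map_one]
  let R : ∀ i, Γ → (soM (cq A i) →ₗ[ℚ_[p]] soM (cq A i)) := fun i γ =>
    cjS (hAs' i) (hg γ i) (e1 γ i)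
  let inc : (∀ i, soM (cq A i)) →ₗ[ℚ_[p]] Mx n ℚ_[p] :=
    LinearMap.pi fun i => (soM (cq A i)).subtype ∘ₗ LinearMap.proj i
  let S : Submodule ℚ_[p] (∀ i, soM (cq A i)) := (TT r).comap inc
  have hirr : ∀ i, ∀ M : Submodule ℚ_[p] (soM (cq A i)), (∀ γ, ∀ x ∈ M, R i γ x ∈ M) →
      M = ⊥ ∨ M = ⊤ := by
    intro i M hM
    have h3 := hir i (M.map (soM (cq A i)).subtype) (Submodule.map_subtype_le _ _) (by
        rintro γ _ ⟨x, hx, rfl⟩
        exact ⟨R i γ x, hM γ x hx, cjS_apply (hAs' i) (hg γ i) (e1 γ i) x⟩)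
    rcases h3 with h3 | h3
    · left
      rw [eq_bot_iff]
      intro x hx
      have h4 : (x : Matrix _ _ ℚ_[p]) ∈ M.map (soM (cq A i)).subtype :=
        Submodule.mem_map_of_mem hx
      rw [h3, Submodule.mem_bot] at h4
      rw [Submodule.mem_bot]
      exact Subtype.ext h4
    · right
      rw [eq_top_iff]
      intro x _
      have h4 : (x : Matrix _ _ ℚ_[p]) ∈ M.map (soM (cq A i)).subtype := by
        rw [h3]; exact x.2
      obtain ⟨y, hy, hyx⟩ := h4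
      rwa [Subtype.ext hyx] at hy
  have hne : ∀ i j, i ≠ j → ∃ γ, LinearMap.trace ℚ_[p] _ (R i γ) ≠
      LinearMap.trace ℚ_[p] _ (R j γ) := by
    intro i j hij
    obtain ⟨γ, hγ⟩ := htr i j hij
    refine ⟨γ, fun h => hγ ?_⟩
    apply PadicInt.ext
    have f1 := trace_cjS (hAs' i) (hAd' i) two_ne_zero (hg γ i) (e1 γ i)
    have f2 := trace_cjS (hAs' j) (hAd' j) two_ne_zero (hg γ j) (e1 γ j)
    rw [show LinearMap.trace ℚ_[p] _ (cjS (hAs' i) (hg γ i) (e1 γ i)) =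
      LinearMap.trace ℚ_[p] _ (cjS (hAs' j) (hg γ j) (e1 γ j)) from h, f2] at f1
    rw [cq_apply, cq_apply, ← map_mul, ← map_mul, cm_trace, cm_trace, cm_trace, cm_trace] at f1
    push_cast
    exact f1.symm
  have hS : ∀ γ, ∀ x ∈ S, (fun i => R i γ (x i)) ∈ S := by
    intro γ x hx
    have h3 := TT_conj (show inc x ∈ TT r from hx) γ
    change inc (fun i => R i γ (x i)) ∈ TT r
    have h4 : inc (fun i => R i γ (x i)) = cq (r γ) * inc x * cq (r γ⁻¹) := by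
      funext i
      exact cjS_apply (hAs' i) (hg γ i) (e1 γ i) (x i)
    rw [h4]
    exact h3
  have h0 : ∀ i, ∃ x ∈ S, x i ≠ 0 := by
    intro i
    obtain ⟨X, hX, hXi⟩ := exists_TT_ne hinf i
    refine ⟨fun j => ⟨X j, TT_skew hA hX j⟩, hX, ?_⟩
    intro h3
    exact hXi (congrArg Subtype.val h3)
  have htop := goursat hirr hne hS h0
  have h3 : (fun i => (⟨Z i, hZ i⟩ : soM (cq A i))) ∈ S := by
    rw [htop]; exact Submodule.mem_top
  exact h3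

theorem isy_eq {Y : Mx n ℤ_[p]} {k : ℕ} (h : Isy A (1 + (p : ℤ_[p]) ^ k • Y)) (i : ι) :
    (Y i)ᵀ * A i + A i * Y i + (p : ℤ_[p]) ^ k • ((Y i)ᵀ * A i * Y i) = 0 := by
  have h1 := h i
  have h2 : (p : ℤ_[p]) ^ k • ((Y i)ᵀ * A i + A i * Y i + (p : ℤ_[p]) ^ k •
      ((Y i)ᵀ * A i * Y i)) = 0 := by
    have h3 : (((1 : Mx n ℤ_[p]) + (p : ℤ_[p]) ^ k • Y) i)ᵀ * A i *
        ((1 : Mx n ℤ_[p]) + (p : ℤ_[p]) ^ k • Y) i = A i + (p : ℤ_[p]) ^ k •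
        ((Y i)ᵀ * A i + A i * Y i + (p : ℤ_[p]) ^ k • ((Y i)ᵀ * A i * Y i)) := by
      rw [Pi.add_apply, Pi.smul_apply, Pi.one_apply, transpose_add, transpose_one,
        transpose_smul]
      simp only [add_mul, mul_add, one_mul, mul_one, Matrix.smul_mul, Matrix.mul_smul, smul_add,
        smul_smul]
      abel
    rw [h3] at h1
    exact left_eq_add.1 h1.symm
  ext a b
  have h5 := congrFun (congrFun h2 a) b
  have h6 : (p : ℤ_[p]) ^ k * ((Y i)ᵀ * A i + A i * Y i + (p : ℤ_[p]) ^ k •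
    ((Y i)ᵀ * A i * Y i)) a b = 0 := h5
  exact (mul_eq_zero.1 h6).resolve_left
    (pow_ne_zero _ (by exact_mod_cast hp.out.ne_zero))

variable [TopologicalSpace Γ] [CompactSpace Γ]

/-- **The image contains a congruence subgroup.** -/
theorem open_all (hc : Continuous r) (hAs : ∀ i, (A i).IsSymm) (hAd : ∀ i, (A i).det ≠ 0)
    (hA : ∀ γ, Isy A (r γ))
    (hir : ∀ i, ∀ M : Submodule ℚ_[p] (Matrix (Fin (n i)) (Fin (n i)) ℚ_[p]),
      M ≤ soM (cq A i) → (∀ γ, ∀ X ∈ M, cq (r γ) i * X * cq (r γ⁻¹) i ∈ M) →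
      M = ⊥ ∨ M = soM (cq A i))
    (hinf : ∀ i, (Set.range fun γ => r γ i).Infinite)
    (htr : ∀ i j, i ≠ j → ∃ γ, (r γ i).trace ^ 2 - (r γ i * r γ i).trace ≠
      (r γ j).trace ^ 2 - (r γ j * r γ j).trace) :
    ∃ k0 : ℕ, ∀ g, Isy A g → (∃ Y, g = 1 + (p : ℤ_[p]) ^ k0 • Y) → ∃ γ, r γ = g := by
  classical
  have h1 : ∀ X : Mx n ℤ_[p], (∀ i, (X i)ᵀ * A i + A i * X i = 0) → ∃ k1 : ℕ, ∀ k, k1 ≤ k →
      ∃ γ Z, r γ = 1 + (p : ℤ_[p]) ^ k • X + (p : ℤ_[p]) ^ (k + 1) • Z := by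
    intro X hX
    have h2 : cq X ∈ TT r := by
      refine TT_all hAs hAd hA hir hinf htr fun i => ?_
      rw [mem_soM, cq_apply, cq_apply, ← cm_transpose, ← map_mul, ← map_mul, ← map_add, hX i,
        map_zero]
    obtain ⟨k1, hk1⟩ := h2 1
    refine ⟨k1, fun k hk => ?_⟩
    obtain ⟨γ, Z, hZ⟩ := hk1 k hk
    refine ⟨γ, Z, cq_inj ?_⟩
    rw [hZ, map_add, map_add, map_one, cq_psmul, cq_psmul]
  have h2 : ∀ ζ : Mx n (ZMod p), ∃ k1 : ℕ, ∀ X : Mx n ℤ_[p],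
      (∀ i, (X i)ᵀ * A i + A i * X i = 0) → rd X = ζ → ∀ k, k1 ≤ k →
      ∃ γ Z, r γ = 1 + (p : ℤ_[p]) ^ k • X + (p : ℤ_[p]) ^ (k + 1) • Z := by
    intro ζ
    by_cases hζ : ∃ X : Mx n ℤ_[p], (∀ i, (X i)ᵀ * A i + A i * X i = 0) ∧ rd X = ζ
    · obtain ⟨X0, hX0, hX0'⟩ := hζ
      obtain ⟨k1, hk1⟩ := h1 X0 hX0
      refine ⟨k1, fun X hX hXζ k hk => ?_⟩
      obtain ⟨γ, Z, hZ⟩ := hk1 k hk
      obtain ⟨W, hW⟩ := rd_eq_iff.1 (hX0'.trans hXζ.symm)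
      refine ⟨γ, W + Z, ?_⟩
      rw [hZ, hW, smul_add, smul_add, smul_smul, ← pow_succ]
      abel
    · exact ⟨0, fun X hX hXζ => absurd ⟨X, hX, hXζ⟩ hζ⟩
  choose K hK using h2
  have h3 : ∀ i, ∃ s : ℕ, ∀ t, s ≤ t → ∃ w : ℤ_[p], (p : ℤ_[p]) ^ t = (2 * (A i).det) * w :=
    fun i => dvd_pow (mul_ne_zero two_ne_zero (hAd i))
  choose s hs using h3
  haveI : Finite (Mx n (ZMod p)) := inferInstance
  haveI : Fintype (Mx n (ZMod p)) := Fintype.ofFinite _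
  refine ⟨(∑ ζ, K ζ) + (∑ i, s i) + 1, fun g hg hg1 => ?_⟩
  refine approx hc hA (fun k hk g hg hY => ?_) hg hg1
  obtain ⟨Y, rfl⟩ := hY
  have h4 : ∀ i, ∃ w : ℤ_[p], (p : ℤ_[p]) ^ (k - 1) = (2 * (A i).det) * w := by
    intro i
    have h5 : s i ≤ ∑ i, s i := Finset.single_le_sum (fun _ _ => Nat.zero_le _) (Finset.mem_univ i)
    exact hs i (k - 1) (by omega)
  choose w hw using h4
  let E : Mx n ℤ_[p] := fun i => w i • ((A i).adjugate * ((Y i)ᵀ * A i * Y i))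
  let X : Mx n ℤ_[p] := Y + (p : ℤ_[p]) • E
  have hX : ∀ i, (X i)ᵀ * A i + A i * X i = 0 := by
    intro i
    have h5 := isy_eq hg i
    have h6 : (E i)ᵀ * A i + A i * E i = (p : ℤ_[p]) ^ (k - 1) • ((Y i)ᵀ * A i * Y i) := by
      have h7 : ((Y i)ᵀ * A i * Y i)ᵀ = (Y i)ᵀ * A i * Y i := by
        rw [transpose_mul, transpose_mul, transpose_transpose, (hAs i).eq, mul_assoc]
      have h8 : (A i).adjugateᵀ = (A i).adjugate := by
        rw [adjugate_transpose, (hAs i).eq]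
      change (w i • ((A i).adjugate * ((Y i)ᵀ * A i * Y i)))ᵀ * A i +
        A i * (w i • ((A i).adjugate * ((Y i)ᵀ * A i * Y i))) = _
      rw [transpose_smul, transpose_mul, h7, h8, Matrix.smul_mul, Matrix.mul_smul, mul_assoc,
        adjugate_mul, ← mul_assoc (A i), mul_adjugate, Matrix.mul_smul, mul_one, Matrix.smul_mul,
        one_mul, ← smul_add, ← two_smul ℤ_[p] ((A i).det • _), smul_smul, smul_smul, hw i]
      congr 1
      ring
    have h7 : (X i)ᵀ * A i + A i * X i = (Y i)ᵀ * A i + A i * Y i +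
        (p : ℤ_[p]) • ((E i)ᵀ * A i + A i * E i) := by
      change (Y i + (p : ℤ_[p]) • E i)ᵀ * A i + A i * (Y i + (p : ℤ_[p]) • E i) = _
      rw [transpose_add, transpose_smul, add_mul, mul_add, Matrix.smul_mul, Matrix.mul_smul,
        smul_add]
      abel
    rw [h7, h6, smul_smul, ← pow_succ', show k - 1 + 1 = k by omega]
    exact h5
  have h9 : K (rd X) ≤ ∑ ζ, K ζ :=
    Finset.single_le_sum (fun _ _ => Nat.zero_le _) (Finset.mem_univ _)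
  obtain ⟨γ, Z, hZ⟩ := hK (rd X) X hX rfl k (by omega)
  refine ⟨γ, E + Z, ?_⟩
  rw [hZ]
  change 1 + (p : ℤ_[p]) ^ k • (Y + (p : ℤ_[p]) • E) + _ = _
  rw [smul_add, smul_add, smul_smul, ← pow_succ]
  abel

/-- **Every prime**: the number of cosets is bounded. -/
theorem cosets_small (hc : Continuous r) (hAs : ∀ i, (A i).IsSymm) (hAd : ∀ i, (A i).det ≠ 0)
    (hA : ∀ γ, Isy A (r γ))
    (hir : ∀ i, ∀ M : Submodule ℚ_[p] (Matrix (Fin (n i)) (Fin (n i)) ℚ_[p]),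
      M ≤ soM (cq A i) → (∀ γ, ∀ X ∈ M, cq (r γ) i * X * cq (r γ⁻¹) i ∈ M) →
      M = ⊥ ∨ M = soM (cq A i))
    (hinf : ∀ i, (Set.range fun γ => r γ i).Infinite)
    (htr : ∀ i j, i ≠ j → ∃ γ, (r γ i).trace ^ 2 - (r γ i * r γ i).trace ≠
      (r γ j).trace ^ 2 - (r γ j * r γ j).trace) :
    ∃ C : ℕ, ∀ (k : ℕ) (g g' : Fin k → Mx n ℤ_[p]), (∀ a, Isy A (g a)) →
      (∀ a, g a * g' a = 1) → (∀ a, g' a * g a = 1) →
      (∀ a b, a ≠ b → ¬ ∃ γ, g' a * g b = r γ) → k ≤ C := by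
  obtain ⟨k0, hk0⟩ := open_all hc hAs hAd hA hir hinf htr
  haveI := finite_rk (p := p) (n := n) k0
  haveI := Fintype.ofFinite (Mx n (ZMod (p ^ k0)))
  refine ⟨Fintype.card (Mx n (ZMod (p ^ k0))), fun k g g' hg hgg hgg' hne => ?_⟩
  rw [← Fintype.card_fin k]
  refine Fintype.card_le_of_injective (fun a => rk k0 (g a)) fun a b hab => ?_
  by_contra h
  apply hne a b h
  obtain ⟨Y, hY⟩ := rk_eq hab.symm
  obtain ⟨γ, hγ⟩ := hk0 (g' a * g b) (((hg a).inv (hgg a)).mul (hg b))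
    ⟨g' a * Y, by rw [hY, mul_add, hgg' a, mul_smul_comm]⟩
  exact ⟨γ, hγ.symm⟩

end Pool.Agent.Y127.I
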