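import Pool.Agent.Y127.I.LCount

/-!
# Reflections and lifts of Eichler transformations
-/

set_option linter.unusedSectionVars false

namespace Pool.Agent.Y127.I

open Module Matrix

section refl

variable {R : Type} [CommRing R] {m : ℕ}

/-- A reflection. -/
def Rf (a : Matrix (Fin m) (Fin m) R) (c : R) (x : Fin m → R) : Matrix (Fin m) (Fin m) R :=
  1 - c • vecMulVec x (a *ᵥ x)

theorem Rf_isom {a : Matrix (Fin m) (Fin m) R} (ha : a.IsSymm) {c : R} {x : Fin m → R}
    (hc : c * (x ⬝ᵥ a *ᵥ x) = 2) : (Rf a c x)ᵀ * a * Rf a c x = a := by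
  set y := a *ᵥ x with hy
  have h1 : x ᵥ* a = y := by rw [← Matrix.mulVec_transpose, ha.eq]
  have h2 : (vecMulVec x y)ᵀ * a = vecMulVec y y := by
    rw [transpose_vecMulVec, vecMulVec_mul, h1]
  have h3 : a * vecMulVec x y = vecMulVec y y := by rw [mul_vecMulVec]
  have h4 : vecMulVec y y * vecMulVec x y = (x ⬝ᵥ y) • vecMulVec y y := by
    rw [vecMulVec_mul_vecMulVec, dotProduct_comm y x, vecMulVec_smul]
  unfold Rf
  rw [← hy, transpose_sub, transpose_one, transpose_smul, sub_mul, one_mul, Matrix.smul_mul, h2,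
    mul_sub, mul_one, sub_mul, Matrix.mul_smul, h3, Matrix.mul_smul, Matrix.smul_mul, h4, smul_smul,
    smul_smul]
  have h5 : c * c * (x ⬝ᵥ y) = c + c := by rw [mul_assoc, hc]; ring
  rw [h5, add_smul]
  abel

theorem Rf_map {S : Type} [CommRing S] (f : R →+* S) (a : Matrix (Fin m) (Fin m) R) (c : R)
    (x : Fin m → R) : (Rf a c x).map f = Rf (a.map f) (f c) (fun i => f (x i)) := by
  unfold Rf
  ext i j
  rw [Matrix.map_apply, Matrix.sub_apply, Matrix.sub_apply, Matrix.smul_apply, Matrix.smul_apply,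
    vecMulVec_apply,
    vecMulVec_apply, map_sub, smul_eq_mul, smul_eq_mul, map_mul, map_mul]
  congr 1
  · by_cases h : i = j
    · subst h; simp
    · rw [one_apply_ne h, one_apply_ne h, map_zero]
  · congr 2
    have := RingHom.map_mulVec f a x j
    exact this

end refl

section field

variable {F : Type} [Field F] {m : ℕ}

theorem Rf_mulVec {a : Matrix (Fin m) (Fin m) F} (ha : a.IsSymm) (c : F) (x z : Fin m → F) :
    Rf a c x *ᵥ z = z - (c * bil a x z) • x := by
  unfold Rf
  rw [sub_mulVec, one_mulVec, smul_mulVec, vecMulVec_mulVec]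
  have h1 : (a *ᵥ x) ⬝ᵥ z = bil a x z := by
    rw [bil_symm ha, bil_apply, dotProduct_comm]
  rw [h1, mul_smul]
  congr 2
  ext i
  change x i * bil a x z = bil a x z * x i
  rw [mul_comm]

theorem Rf_Rf {a : Matrix (Fin m) (Fin m) F} (ha : a.IsSymm) (h2 : (2 : F) ≠ 0) {e v : Fin m → F}
    (h : Eic (bil a) e v) :
    Rf a (2 / bil a v v) v * Rf a (2 / bil a v v) (v - (bil a v v / 2) • e) =
      LinearMap.toMatrix' (Ee (bil a) e v) := by
  apply Matrix.toLin'.injective
  rw [Matrix.toLin'_toMatrix']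
  apply LinearMap.ext
  intro z
  have hve : bil a v e = 0 := by rw [bil_symm ha, h.ea]
  rw [Matrix.toLin'_apply, ← Matrix.mulVec_mulVec, Rf_mulVec ha, Rf_mulVec ha]
  unfold Ee
  simp only [LinearMap.add_apply, Module.End.one_apply, LinearMap.smul_apply, Module.End.mul_apply,
    wl_apply, map_sub, map_smul, LinearMap.sub_apply, LinearMap.smul_apply, smul_eq_mul, h.ee, h.ea,
    hve, mul_zero, sub_zero, zero_sub]
  set q := bil a v v with hq
  have hq0 : q ≠ 0 := h.aa
  ext i
  simp only [Pi.sub_apply, Pi.add_apply, Pi.smul_apply, smul_eq_mul]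
  field_simp
  ring

end field

variable {p : ℕ} [hp : Fact p.Prime] {m : ℕ}

/-- **Lifting Eichler transformations.** -/
theorem exists_lift (hp5 : 5 < p) {a : Matrix (Fin m) (Fin m) ℤ_[p]} (ha : a.IsSymm)
    {e v : Fin m → ZMod p} (h : Eic (bil (a.map (PadicInt.toZMod (p := p)))) e v) :
    ∃ g : Matrix (Fin m) (Fin m) ℤ_[p], gᵀ * a * g = a ∧ g.map (PadicInt.toZMod (p := p)) =
      LinearMap.toMatrix' (Ee (bil (a.map (PadicInt.toZMod (p := p)))) e v) := by
  set f := PadicInt.toZMod (p := p) with hf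
  set ā := a.map f with hā
  have has : ā.IsSymm := by
    rw [Matrix.IsSymm, hā, ← Matrix.transpose_map, ha.eq]
  have h2 := p_two (p := p) hp5
  set q := bil ā v v with hq
  have hs := ZMod.ringHom_surjective f
  have key : ∀ x : Fin m → ZMod p, bil ā x x = q → ∃ g : Matrix (Fin m) (Fin m) ℤ_[p],
      gᵀ * a * g = a ∧ g.map f = Rf ā (2 / q) x := by
    intro x hx
    choose y hy using fun i => hs (x i)
    have h3 : f (y ⬝ᵥ a *ᵥ y) = q := by
      rw [← hx, bil_apply]
      rw [RingHom.map_dotProduct]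
      congr 1
      · funext i; exact hy i
      · funext i
        have h4 := RingHom.map_mulVec f a y i
        rw [Function.comp_apply, h4]
        congr 1
        funext i; exact hy i
    have h4 : IsUnit (y ⬝ᵥ a *ᵥ y) := by
      have h' : y ⬝ᵥ a *ᵥ y ∉ IsLocalRing.maximalIdeal ℤ_[p] := by
        rw [← PadicInt.ker_toZMod]
        exact fun hx => h.aa (by rw [← hq, ← h3]; exact RingHom.mem_ker.1 hx)
      exact IsLocalRing.notMem_maximalIdeal.1 h'
    obtain ⟨u, hu⟩ := h4
    refine ⟨Rf a (2 * (u⁻¹ : ℤ_[p]ˣ)) y, Rf_isom ha ?_, ?_⟩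
    · rw [← hu, mul_assoc, Units.inv_mul, mul_one]
    · rw [Rf_map]
      congr 1
      · have hq0 : q ≠ 0 := h.aa
        rw [map_mul, map_ofNat, eq_div_iff hq0, ← h3, ← hu, mul_assoc, ← map_mul, Units.inv_mul,
          map_one, mul_one]
      · funext i; exact hy i
  have hve : bil ā v e = 0 := by rw [bil_symm has, h.ea]
  obtain ⟨g1, hg1, hg1'⟩ := key v rfl
  obtain ⟨g2, hg2, hg2'⟩ := key (v - (q / 2) • e) (by
    simp only [map_sub, map_smul, LinearMap.sub_apply, LinearMap.smul_apply, h.ee, h.ea, hve,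
      smul_eq_mul, mul_zero, sub_zero]
    rfl)
  refine ⟨g1 * g2, ?_, ?_⟩
  · calc (g1 * g2)ᵀ * a * (g1 * g2) = g2ᵀ * (g1ᵀ * a * g1) * g2 := by
          rw [transpose_mul]; simp only [mul_assoc]
      _ = a := by rw [hg1, hg2]
  · rw [Matrix.map_mul, hg1', hg2', Rf_Rf has h2 h]

end Pool.Agent.Y127.I
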