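import Pool.Agent.Y127.I.Small3
import Pool.Agent.Y127.I.Refl

/-!
# Subgroups of bounded index
-/

set_option linter.unusedSectionVars false

namespace Pool.Agent.Y127.I

open Module Matrix

/-! ### Relative index and cosets -/

section idx

variable {G : Type} [Group G] {H K : Subgroup G}

theorem relIndex_le_of {C : ℕ} (h : ∀ (k : ℕ) (g : Fin k → G), (∀ a, g a ∈ K) →
    (∀ a b, a ≠ b → (g a)⁻¹ * g b ∉ H) → k ≤ C) : H.relIndex K ≠ 0 ∧ H.relIndex K ≤ C := by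
  classical
  have key : ∀ (k : ℕ) (f : Fin k → K ⧸ H.subgroupOf K), Function.Injective f → k ≤ C := by
    intro k f hf
    refine h k (fun a => ((f a).out : G)) (fun a => (f a).out.2) fun a b hab hmem => hab ?_
    apply hf
    rw [← QuotientGroup.out_eq' (f a), ← QuotientGroup.out_eq' (f b), QuotientGroup.eq]
    exact hmem
  have hfin : Finite (K ⧸ H.subgroupOf K) := by
    by_contra hinf
    rw [not_finite_iff_infinite] at hinf
    have h1 := key (C + 1) (fun a => Infinite.natEmbedding _ (a : ℕ)) fun a b hab =>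
      Fin.ext ((Infinite.natEmbedding (K ⧸ H.subgroupOf K)).injective hab)
    omega
  have hidx : H.relIndex K = Nat.card (K ⧸ H.subgroupOf K) := rfl
  rw [hidx]
  refine ⟨Nat.card_pos.ne', ?_⟩
  exact key _ (Finite.equivFin _).symm (Equiv.injective _)

theorem le_of_relIndex (h0 : H.relIndex K ≠ 0) {k : ℕ} (g : Fin k → G) (hg : ∀ a, g a ∈ K)
    (hne : ∀ a b, a ≠ b → (g a)⁻¹ * g b ∉ H) : k ≤ H.relIndex K := by
  have hidx : H.relIndex K = Nat.card (K ⧸ H.subgroupOf K) := rfl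
  rw [hidx] at h0 ⊢
  haveI : Finite (K ⧸ H.subgroupOf K) := Nat.finite_of_card_ne_zero h0
  have h1 : Function.Injective fun a : Fin k =>
      (QuotientGroup.mk (⟨g a, hg a⟩ : K) : K ⧸ H.subgroupOf K) := by
    intro a b hab
    by_contra h
    have h3 : (⟨g a, hg a⟩ : K)⁻¹ * ⟨g b, hg b⟩ ∈ H.subgroupOf K := QuotientGroup.eq.1 hab
    exact hne a b h h3
  have h2 := Nat.card_le_card_of_injective _ h1
  rwa [Nat.card_eq_fintype_card, Fintype.card_fin] at h2

end idx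

/-- The isometries of determinant one. -/
def SOg {R : Type} [CommRing R] {m : ℕ} (a : Matrix (Fin m) (Fin m) R) :
    Subgroup (GL (Fin m) R) where
  carrier := {g | (g : Matrix (Fin m) (Fin m) R)ᵀ * a * (g : Matrix (Fin m) (Fin m) R) = a ∧
    (g : Matrix (Fin m) (Fin m) R).det = 1}
  one_mem' := by simp
  mul_mem' := by
    rintro g h ⟨hg, hg1⟩ ⟨hh, hh1⟩
    refine ⟨?_, ?_⟩
    · rw [Units.val_mul, transpose_mul]
      calc (h : Matrix (Fin m) (Fin m) R)ᵀ * (g : Matrix (Fin m) (Fin m) R)ᵀ * a *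
            ((g : Matrix (Fin m) (Fin m) R) * (h : Matrix (Fin m) (Fin m) R)) =
            (h : Matrix (Fin m) (Fin m) R)ᵀ * ((g : Matrix (Fin m) (Fin m) R)ᵀ * a *
            (g : Matrix (Fin m) (Fin m) R)) * (h : Matrix (Fin m) (Fin m) R) := by
            simp only [mul_assoc]
        _ = a := by rw [hg, hh]
    · rw [Units.val_mul, det_mul, hg1, hh1, mul_one]
  inv_mem' := by
    rintro g ⟨hg, hg1⟩
    have h1 : (g : Matrix (Fin m) (Fin m) R) * ((g⁻¹ : GL (Fin m) R) : Matrix (Fin m) (Fin m) R) =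
      1 := Units.mul_inv g
    set x := ((g⁻¹ : GL (Fin m) R) : Matrix (Fin m) (Fin m) R) with hx
    refine ⟨?_, ?_⟩
    · calc xᵀ * a * x = xᵀ * ((g : Matrix (Fin m) (Fin m) R)ᵀ * a *
            (g : Matrix (Fin m) (Fin m) R)) * x := by rw [hg]
        _ = ((g : Matrix (Fin m) (Fin m) R) * x)ᵀ * a * ((g : Matrix (Fin m) (Fin m) R) * x) := by
          rw [transpose_mul]; simp only [mul_assoc]
        _ = a := by rw [h1, transpose_one, one_mul, mul_one]
    · have h2 := congrArg Matrix.det h1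
      rwa [det_mul, hg1, one_mul, det_one] at h2

theorem mem_SOg {R : Type} [CommRing R] {m : ℕ} {a : Matrix (Fin m) (Fin m) R}
    {g : GL (Fin m) R} : g ∈ SOg a ↔ (g : Matrix (Fin m) (Fin m) R)ᵀ * a *
      (g : Matrix (Fin m) (Fin m) R) = a ∧ (g : Matrix (Fin m) (Fin m) R).det = 1 := Iff.rfl

variable {p : ℕ} [hp : Fact p.Prime] {ι : Type} [Fintype ι] [DecidableEq ι] {n : ι → ℕ}
  {Γ : Type} [Group Γ] {A : Mx n ℤ_[p]}

/-- The homomorphism to the families of matrices. -/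
noncomputable def toM (ρ : ∀ i, Γ →* GL (Fin (n i)) ℤ_[p]) : Γ →* Mx n ℤ_[p] :=
  MonoidHom.pi fun i => (Units.coeHom _).comp (ρ i)

theorem toM_apply (ρ : ∀ i, Γ →* GL (Fin (n i)) ℤ_[p]) (γ : Γ) (i : ι) :
    toM ρ γ i = (ρ i γ : Matrix (Fin (n i)) (Fin (n i)) ℤ_[p]) := rfl

theorem toM_cont [TopologicalSpace Γ] {ρ : ∀ i, Γ →* GL (Fin (n i)) ℤ_[p]}
    (hc : ∀ i, Continuous (ρ i)) : Continuous (toM ρ) :=
  continuous_pi fun i => Units.continuous_val.comp (hc i)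

/-- From cosets of matrices to the index. -/
theorem bdd_of_cosets {ρ : ∀ i, Γ →* GL (Fin (n i)) ℤ_[p]} {C : ℕ}
    (h : ∀ (k : ℕ) (g g' : Fin k → Mx n ℤ_[p]), (∀ a, Isy A (g a)) →
      (∀ a, g a * g' a = 1) → (∀ a, g' a * g a = 1) →
      (∀ a b, a ≠ b → ¬ ∃ γ, g' a * g b = toM ρ γ) → k ≤ C) :
    (MonoidHom.pi ρ).range.relIndex (Subgroup.pi Set.univ fun i => SOg (A i)) ≠ 0 ∧
      (MonoidHom.pi ρ).range.relIndex (Subgroup.pi Set.univ fun i => SOg (A i)) ≤ C := by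
  refine relIndex_le_of fun k g hg hne => ?_
  refine h k (fun a i => (g a i : Matrix (Fin (n i)) (Fin (n i)) ℤ_[p]))
    (fun a i => ((g a i)⁻¹ : GL (Fin (n i)) ℤ_[p])) ?_ ?_ ?_ ?_
  · intro a i
    exact (mem_SOg.1 (hg a i (Set.mem_univ i))).1
  · intro a
    funext i
    exact Units.mul_inv (g a i)
  · intro a
    funext i
    exact Units.inv_mul (g a i)
  · rintro a b hab ⟨γ, hγ⟩
    apply hne a b hab
    refine ⟨γ, ?_⟩
    funext i
    apply Units.ext
    have h1 := congrFun hγ i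
    rw [toM_apply] at h1
    exact h1.symm

/-- The index of the projection. -/
theorem relIndex_proj {ρ : ∀ i, Γ →* GL (Fin (n i)) ℤ_[p]}
    {S : ∀ i, Subgroup (GL (Fin (n i)) ℤ_[p])} {C : ℕ}
    (h0 : (MonoidHom.pi ρ).range.relIndex (Subgroup.pi Set.univ S) ≠ 0)
    (hC : (MonoidHom.pi ρ).range.relIndex (Subgroup.pi Set.univ S) ≤ C) (i : ι) :
    (ρ i).range.relIndex (S i) ≠ 0 ∧ (ρ i).range.relIndex (S i) ≤ C := by
  refine relIndex_le_of fun k g hg hne => le_trans ?_ hC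
  refine le_of_relIndex h0 (fun a => Pi.mulSingle i (g a)) ?_ ?_
  · intro a j _
    by_cases hj : j = i
    · subst hj
      rw [Pi.mulSingle_eq_same]
      exact hg a
    · rw [Pi.mulSingle_eq_of_ne hj]
      exact (S j).one_mem
  · rintro a b hab ⟨γ, hγ⟩
    apply hne a b hab
    refine ⟨γ, ?_⟩
    have h1 := congrFun hγ i
    rw [Pi.mul_apply, Pi.inv_apply, Pi.mulSingle_eq_same, Pi.mulSingle_eq_same] at h1
    exact h1

section one

variable {m : ℕ} {a : Matrix (Fin m) (Fin m) ℤ_[p]} {ρ : Γ →* GL (Fin m) ℤ_[p]}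

/-- The powers of the isometries are in the image. -/
theorem pow_of_idx (had : a.det ≠ 0) {C : ℕ} (h0 : ρ.range.relIndex (SOg a) ≠ 0)
    (hC : ρ.range.relIndex (SOg a) ≤ C) {g : Matrix (Fin m) (Fin m) ℤ_[p]}
    (hg : gᵀ * a * g = a) : ∃ γ, (ρ γ : Matrix (Fin m) (Fin m) ℤ_[p]) =
      g ^ (2 * C.factorial) := by
  have h1 : g.det * g.det = 1 := by
    have h2 := congrArg Matrix.det hg
    rw [det_mul, det_mul, det_transpose] at h2
    have h3 : a.det * (g.det * g.det) = a.det * 1 := by linear_combination h2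
    exact mul_left_cancel₀ had h3
  have hu : IsUnit (g ^ 2) := by
    rw [Matrix.isUnit_iff_isUnit_det, det_pow, sq, h1]
    exact isUnit_one
  obtain ⟨u, hu⟩ := hu
  have hmem : u ∈ SOg a := by
    rw [mem_SOg, hu, det_pow, sq g.det, h1]
    refine ⟨?_, rfl⟩
    rw [sq, transpose_mul]
    calc gᵀ * gᵀ * a * (g * g) = gᵀ * (gᵀ * a * g) * g := by simp only [mul_assoc]
      _ = a := by rw [hg, hg]
  obtain ⟨γ, hγ⟩ := MonoidHom.mem_range.1 (Subgroup.pow_mem_of_relIndex_ne_zero_of_dvd h0 hmem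
    (n := C.factorial) fun m hm hm2 => Nat.dvd_factorial hm (hm2.trans hC)).1
  refine ⟨γ, ?_⟩
  rw [hγ, Units.val_pow_eq_pow_val, hu, ← pow_mul]

/-- The Eichler transformations are in the image modulo large primes. -/
theorem eich_of_idx (ha : a.IsSymm) (had : a.det ≠ 0) {C : ℕ} (hCp : C < p) (hp5 : 5 < p)
    (h0 : ρ.range.relIndex (SOg a) ≠ 0) (hC : ρ.range.relIndex (SOg a) ≤ C)
    {e v : Fin m → ZMod p} (h : Eic (bil (a.map (PadicInt.toZMod (p := p)))) e v) :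
    ∃ γ, (ρ γ : Matrix (Fin m) (Fin m) ℤ_[p]).map (PadicInt.toZMod (p := p)) =
      LinearMap.toMatrix' (Ee (bil (a.map (PadicInt.toZMod (p := p)))) e v) := by
  obtain ⟨g, hg, hg'⟩ := exists_lift hp5 ha h
  obtain ⟨γ, hγ⟩ := pow_of_idx had h0 hC hg
  set f := (PadicInt.toZMod (p := p)).mapMatrix (m := Fin m) with hf
  have hfa : ∀ x, x.map (PadicInt.toZMod (p := p)) = f x := fun x => rfl
  rw [hfa] at hg'
  have has : (a.map (PadicInt.toZMod (p := p))).IsSymm := by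
    rw [Matrix.IsSymm, ← Matrix.transpose_map, ha.eq]
  obtain ⟨_, hc3⟩ := lg_Ee has h le_rfl (p_two hp5)
  have hpow : (f g) ^ p = 1 := by
    rw [hg']
    exact pow_p_eq_one hc3 (by omega) (by norm_num)
  set q := 2 * C.factorial with hq
  have hqp : (q : ZMod p) ≠ 0 := by
    rw [Ne, ZMod.natCast_eq_zero_iff, hq, hp.out.dvd_mul, hp.out.dvd_factorial]
    rintro (h | h)
    · have := Nat.le_of_dvd (by norm_num) h
      omega
    · omega
  set t := ZMod.val ((q : ZMod p)⁻¹) with ht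
  have hM : (q * t) % p = 1 := by
    have h2 : ((q * t : ℕ) : ZMod p) = ((1 : ℕ) : ZMod p) := by
      rw [Nat.cast_mul, ht, ZMod.natCast_zmod_val, mul_inv_cancel₀ hqp, Nat.cast_one]
    have h3 := (ZMod.natCast_eq_natCast_iff' _ _ _).1 h2
    rw [h3]
    exact Nat.mod_eq_of_lt hp.out.one_lt
  refine ⟨γ ^ t, ?_⟩
  rw [hfa, map_pow, Units.val_pow_eq_pow_val, hγ, map_pow, map_pow, ← pow_mul, ← hg']
  conv_lhs => rw [← Nat.div_add_mod (q * t) p]
  rw [hM, pow_add, pow_mul, hpow, one_pow, one_mul, pow_one]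

end one

/-- **Large primes**: the number of cosets is bounded by a constant. -/
theorem cosets_large [TopologicalSpace Γ] [CompactSpace Γ] {r : Γ →* Mx n ℤ_[p]}
    (hc : Continuous r) (hAs : ∀ i, (A i).IsSymm)
    (hAd : ∀ i, (rd A i).det ≠ 0) (hn : ∀ i, n i = 3 ∨ 5 ≤ n i) (hA : ∀ γ, Isy A (r γ)) {N : ℕ}
    (hN3 : 3 ≤ N) (hNn : ∀ i, n i ≤ N) (h2N : 2 * N ≤ p)
    (hir : ∀ i, ∀ M : Submodule (ZMod p) (Matrix (Fin (n i)) (Fin (n i)) (ZMod p)),
      M ≤ soM (rd A i) → (∀ γ, ∀ X ∈ M, rd (r γ) i * X * rd (r γ⁻¹) i ∈ M) →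
      M = ⊥ ∨ M = soM (rd A i))
    (hord : ∀ i, ∃ γ, rd (r γ) i ≠ 1 ∧ (rd (r γ) i) ^ p = 1)
    (htr : ∀ i j, i ≠ j → ∃ γ, (rd (r γ) i).trace ^ 2 - (rd (r γ) i * rd (r γ) i).trace ≠
      (rd (r γ) j).trace ^ 2 - (rd (r γ) j * rd (r γ) j).trace)
    (k : ℕ) (g g' : Fin k → Mx n ℤ_[p]) (hg : ∀ a, Isy A (g a)) (hgg : ∀ a, g a * g' a = 1)
    (hgg' : ∀ a, g' a * g a = 1) (hne : ∀ a b, a ≠ b → ¬ ∃ γ, g' a * g b = r γ) :
    k ≤ 2 ^ (∑ i, n i) * ((∑ i, n i ^ 2 + 1) * ((∑ i, n i ^ 2 + 1) * N)) ^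
      (∑ i, n i ^ 2 + 1) := by
  have h2 : (2 : ZMod p) ≠ 0 := p_two (by omega)
  have hrs : ∀ i, (rd A i).IsSymm := by
    intro i
    rw [Matrix.IsSymm, rd_apply, ← Matrix.transpose_map, (hAs i).eq]
  have hspan := span_all hrs hAd hn hA hN3 hNn h2N hir hord htr
  have hlift : ∀ g : Mx n ℤ_[p], Isy A g → (∃ Y, g = 1 + (p : ℤ_[p]) • Y) → ∃ γ, r γ = g :=
    fun g hg hY => lift_all hc hA (by omega) h2N (by omega) hspan hg hY
  have h1 := cosets_le hA hlift g g' hg hgg hgg' hne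
  have h3 := isoFin_card_le hrs hAd h2
  have h4 := img_card_ge hA (by omega : 0 < N) h2N hspan
  have hd1 : finrank (ZMod p) (soF (rd A)) ≤ ∑ i, n i ^ 2 + 1 := by
    rw [finrank_soF]
    refine le_trans (Finset.sum_le_sum fun i _ => ?_) (Nat.le_succ _)
    refine (Submodule.finrank_le _).trans ?_
    rw [Module.finrank_matrix, Fintype.card_fin, Module.finrank_self, mul_one, sq]
  set d := finrank (ZMod p) (soF (rd A)) with hd
  set D := ∑ i, n i ^ 2 + 1 with hD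
  have hpos : 0 < (img r).card :=
    Finset.card_pos.2 ⟨1, mem_img.2 ⟨1, by rw [map_one, map_one]⟩⟩
  have h5 : (d * (d * N)) ^ d ≤ (D * (D * N)) ^ D := by
    refine (Nat.pow_le_pow_left (Nat.mul_le_mul hd1 (Nat.mul_le_mul_right _ hd1)) d).trans ?_
    refine Nat.pow_le_pow_right ?_ hd1
    have : 0 < D := by omega
    positivity
  refine Nat.le_of_mul_le_mul_right (c := (img r).card) ?_ hpos
  calc k * (img r).card ≤ (isoFin (rd A)).card := h1
    _ ≤ 2 ^ (∑ i, n i) * p ^ d := h3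
    _ ≤ 2 ^ (∑ i, n i) * ((img r).card * (d * (d * N)) ^ d) := Nat.mul_le_mul_left _ h4
    _ ≤ 2 ^ (∑ i, n i) * ((img r).card * (D * (D * N)) ^ D) :=
        Nat.mul_le_mul_left _ (Nat.mul_le_mul_left _ h5)
    _ = 2 ^ (∑ i, n i) * (D * (D * N)) ^ D * (img r).card := by ring

end Pool.Agent.Y127.I
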