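import Pool.Agent.Y127.I.Glob

/-!
# The criterion for one factor at one prime
-/

set_option linter.unusedSectionVars false

namespace Pool.Agent.Y127.I

open Module Matrix

theorem map_t {R S : Type} [CommRing R] [CommRing S] (f : R →+* S) {m : ℕ}
    (x : Matrix (Fin m) (Fin m) R) :
    (x.map f).trace ^ 2 - (x.map f * x.map f).trace = f (x.trace ^ 2 - (x * x).trace) := by
  have h1 : ∀ y : Matrix (Fin m) (Fin m) R, (y.map f).trace = f y.trace := by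
    intro y
    unfold Matrix.trace
    rw [map_sum]
    rfl
  rw [← Matrix.map_mul, h1, h1, map_sub, map_pow]

theorem map_cast {R S : Type} [CommRing R] [CommRing S] (f : R →+* S) {m : ℕ}
    (B : Matrix (Fin m) (Fin m) ℤ) :
    (B.map (Int.cast : ℤ → R)).map f = B.map (Int.cast : ℤ → S) := by
  ext i j
  rw [Matrix.map_apply, Matrix.map_apply, Matrix.map_apply, map_intCast]

theorem det_cast {R : Type} [CommRing R] {m : ℕ} (B : Matrix (Fin m) (Fin m) ℤ) :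
    (B.map (Int.cast : ℤ → R)).det = ((B.det : ℤ) : R) :=
  (RingHom.map_det (Int.castRingHom R) B).symm

theorem symm_cast {R : Type} [CommRing R] {m : ℕ} {B : Matrix (Fin m) (Fin m) ℤ} (h : B.IsSymm) :
    (B.map (Int.cast : ℤ → R)).IsSymm := by
  rw [Matrix.IsSymm, ← Matrix.transpose_map, h.eq]

variable {p : ℕ} [hp : Fact p.Prime] {Γ : Type} [Group Γ] {m : ℕ}

theorem det_cast_ne {B : Matrix (Fin m) (Fin m) ℤ} (h : B.det ≠ 0) :
    (B.map (Int.cast : ℤ → ℤ_[p])).det ≠ 0 := by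
  rw [det_cast]
  exact_mod_cast h

theorem int_cast_ne {z : ℤ} (h : z ≠ 0) (hp : z.natAbs < p) : ((z : ℤ) : ZMod p) ≠ 0 := by
  intro h0
  rw [ZMod.intCast_zmod_eq_zero_iff_dvd] at h0
  have h1 := Int.natAbs_dvd_natAbs.2 h0
  rw [Int.natAbs_natCast] at h1
  have h2 := Nat.le_of_dvd (Int.natAbs_pos.2 h) h1
  omega

/-- Rational numbers which are different are different modulo large primes. -/
theorem toZMod_ne {x y : ℤ_[p]} {c d : ℚ} (hx : (x : ℚ_[p]) = c) (hy : (y : ℚ_[p]) = d)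
    (hcd : c ≠ d) (hp : (c - d).num.natAbs < p) : PadicInt.toZMod x ≠ PadicInt.toZMod y := by
  intro h
  have h1 : ((c - d).num : ℤ_[p]) = (x - y) * ((c - d).den : ℤ_[p]) := by
    apply PadicInt.ext
    rw [PadicInt.coe_mul, PadicInt.coe_sub, hx, hy, PadicInt.coe_natCast, PadicInt.coe_intCast]
    have h2 : ((c - d) * ((c - d).den : ℚ)) = (c - d).num := Rat.mul_den_eq_num _
    have h3 := congrArg (fun q : ℚ => (q : ℚ_[p])) h2
    push_cast at h3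
    push_cast
    exact h3.symm
  have h2 := congrArg (PadicInt.toZMod (p := p)) h1
  rw [map_mul, map_sub, h, sub_self, zero_mul, map_intCast] at h2
  exact int_cast_ne (Rat.num_ne_zero.2 (sub_ne_zero.2 hcd)) hp h2

variable {B : Matrix (Fin m) (Fin m) ℤ} (hs : B.IsSymm) (hd : B.det ≠ 0) (hm : m = 3 ∨ 5 ≤ m)
  {ρ : Γ →* GL (Fin m) ℤ_[p]} {C : ℕ}
  (h0 : ρ.range.relIndex (SOg (B.map (Int.cast : ℤ → ℤ_[p]))) ≠ 0)
  (hC : ρ.range.relIndex (SOg (B.map (Int.cast : ℤ → ℤ_[p]))) ≤ C)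
include hs hd hm h0 hC

theorem crit_irrQ {M : Submodule ℚ_[p] (Matrix (Fin m) (Fin m) ℚ_[p])}
    (hM : M ≤ soM (B.map (Int.cast : ℤ → ℚ_[p])))
    (hst : ∀ γ, ∀ X ∈ M, (ρ γ : Matrix (Fin m) (Fin m) ℤ_[p]).map (PadicInt.Coe.ringHom (p := p)) *
      X * (ρ γ⁻¹ : Matrix (Fin m) (Fin m) ℤ_[p]).map (PadicInt.Coe.ringHom (p := p)) ∈ M) :
    M = ⊥ ∨ M = soM (B.map (Int.cast : ℤ → ℚ_[p])) := by
  have h1 := map_cast (PadicInt.Coe.ringHom (p := p)) B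
  rw [← h1] at hM ⊢
  exact irr_padic (Γ := Γ) (symm_cast hs) (det_cast_ne hd) hm (q := 2 * C.factorial)
    (Nat.mul_pos (by norm_num) (Nat.factorial_pos _))
    (ρ := fun γ => (ρ γ : Matrix (Fin m) (Fin m) ℤ_[p]))
    (ρ' := fun γ => (ρ γ⁻¹ : Matrix (Fin m) (Fin m) ℤ_[p]))
    (fun γ => by rw [map_inv]; exact Units.mul_inv (ρ γ))
    (fun g hg => pow_of_idx (det_cast_ne hd) h0 hC hg) hM hst

theorem crit_inf : (Set.range ρ).Infinite := by
  have h1 := inf_of_pow (symm_cast hs) (det_cast_ne hd) (by omega) (q := 2 * C.factorial)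
    (Nat.mul_pos (by norm_num) (Nat.factorial_pos _)) ((Units.coeHom _).comp ρ)
    (fun g hg => pow_of_idx (det_cast_ne hd) h0 hC hg)
  intro hfin
  apply h1
  refine (hfin.image fun u : GL (Fin m) ℤ_[p] => (u : Matrix (Fin m) (Fin m) ℤ_[p])).subset ?_
  rintro _ ⟨γ, rfl⟩
  exact ⟨ρ γ, ⟨γ, rfl⟩, rfl⟩

theorem crit_E (hCp : C < p) (hp5 : 5 < p) {e v : Fin m → ZMod p}
    (h : Eic (bil (B.map (Int.cast : ℤ → ZMod p))) e v) :
    ∃ γ, (ρ γ : Matrix (Fin m) (Fin m) ℤ_[p]).map (PadicInt.toZMod (p := p)) =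
      LinearMap.toMatrix' (Ee (bil (B.map (Int.cast : ℤ → ZMod p))) e v) := by
  have h1 := map_cast (PadicInt.toZMod (p := p)) B
  rw [← h1] at h ⊢
  exact eich_of_idx (symm_cast hs) (det_cast_ne hd) hCp hp5 h0 hC h

theorem crit_irrF (hCp : C < p) (hp5 : 5 < p) (hdp : B.det.natAbs < p)
    {M : Submodule (ZMod p) (Matrix (Fin m) (Fin m) (ZMod p))}
    (hM : M ≤ soM (B.map (Int.cast : ℤ → ZMod p)))
    (hst : ∀ γ, ∀ X ∈ M, (ρ γ : Matrix (Fin m) (Fin m) ℤ_[p]).map (PadicInt.toZMod (p := p)) *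
      X * (ρ γ⁻¹ : Matrix (Fin m) (Fin m) ℤ_[p]).map (PadicInt.toZMod (p := p)) ∈ M) :
    M = ⊥ ∨ M = soM (B.map (Int.cast : ℤ → ZMod p)) := by
  refine irr_of_E (Γ := Γ) hp5 (symm_cast hs) (by rw [det_cast]; exact int_cast_ne hd hdp) hm
    (ρ := fun γ => (ρ γ : Matrix (Fin m) (Fin m) ℤ_[p]).map (PadicInt.toZMod (p := p)))
    (ρ' := fun γ => (ρ γ⁻¹ : Matrix (Fin m) (Fin m) ℤ_[p]).map (PadicInt.toZMod (p := p)))
    ?_ (fun e v h => crit_E hs hd hm h0 hC hCp hp5 h) hM hst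
  intro γ
  have h1 : (ρ γ : Matrix (Fin m) (Fin m) ℤ_[p]) * (ρ γ⁻¹ : Matrix (Fin m) (Fin m) ℤ_[p]) = 1 := by
    rw [map_inv]; exact Units.mul_inv (ρ γ)
  rw [← Matrix.map_mul, h1, Matrix.map_one _ (map_zero _) (map_one _)]

theorem crit_ord (hCp : C < p) (hp5 : 5 < p) (hdp : B.det.natAbs < p) :
    ∃ γ, (ρ γ : Matrix (Fin m) (Fin m) ℤ_[p]).map (PadicInt.toZMod (p := p)) ≠ 1 ∧
      ((ρ γ : Matrix (Fin m) (Fin m) ℤ_[p]).map (PadicInt.toZMod (p := p))) ^ p = 1 :=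
  ord_of_E (Γ := Γ) hp5 (symm_cast hs) (by rw [det_cast]; exact int_cast_ne hd hdp) (by omega)
    (ρ := fun γ => (ρ γ : Matrix (Fin m) (Fin m) ℤ_[p]).map (PadicInt.toZMod (p := p)))
    (fun e v h => crit_E hs hd hm h0 hC hCp hp5 h)

end Pool.Agent.Y127.I
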