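import Pool.Agent.Y127.I.Cusp
import Pool.Agent.Y127.I.Crit

/-!
# Isometries with Jordan blocks 3, 1, ..., 1
-/

set_option linter.unusedSectionVars false

namespace Pool.Agent.Y127.I

open Module Matrix

section op

variable {F : Type} [Field F] {V : Type} [AddCommGroup V] [Module F V]
  {B : V →ₗ[F] V →ₗ[F] F}

theorem skew_dg (hsy : ∀ x y, B x y = B y x) (h2 : (2 : F) ≠ 0) {X : End F V}
    (hX : ∀ x y, B (X x) y + B x (X y) = 0) (x : V) : B x (X x) = 0 := by
  have h1 := hX x x
  rw [hsy (X x) x, ← two_mul] at h1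
  exact (mul_eq_zero.1 h1).resolve_left h2

/-- **Isometries with Jordan blocks 3, 1, ..., 1 are Eichler transformations.** -/
theorem exists_Ee [FiniteDimensional F V] (hsy : ∀ x y, B x y = B y x)
    (hnd : ∀ x, (∀ y, B x y = 0) → x = 0)
    (h2 : (2 : F) ≠ 0) {f : End F V} (hB : ∀ x y, B (f x) (f y) = B x y)
    (h3 : (f - 1) ^ 3 = 0) (h4 : (f - 1) ^ 2 ≠ 0)
    (hr : finrank F (LinearMap.range (f - 1)) = 2) :
    ∃ e a, Eic B e a ∧ e ≠ 0 ∧ f = Ee B e a := by
  set N : End F V := f - 1 with hN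
  have hf : ∀ x, f x = x + N x := by
    intro x
    rw [hN, LinearMap.sub_apply, Module.End.one_apply]
    abel
  have hN3 : ∀ x, N (N (N x)) = 0 := by
    intro x
    have h := LinearMap.congr_fun h3 x
    rw [pow_succ, pow_two] at h
    exact h
  obtain ⟨x₀, hx₀⟩ : ∃ x, N (N x) ≠ 0 := by
    by_contra hcon
    push Not at hcon
    apply h4
    apply LinearMap.ext
    intro x
    rw [pow_two]
    exact hcon x
  -- the adjoint
  have hadj : ∀ x y, B (N x) y = B x (-N y + N (N y)) := by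
    intro x y
    have h4 : f (y - N y + N (N y)) = y := by
      rw [hf, map_add, map_sub, hN3]
      abel
    have h5 := hB x (y - N y + N (N y))
    rw [h4, hf x, map_add, LinearMap.add_apply] at h5
    simp only [map_add, map_sub, map_neg] at h5 ⊢
    linear_combination h5
  set X : End F V := N - (2⁻¹ : F) • (N * N) with hX
  have hXa : ∀ x, X x = N x - (2⁻¹ : F) • N (N x) := by
    intro x
    rw [hX, LinearMap.sub_apply, LinearMap.smul_apply, Module.End.mul_apply]
  have hX2 : ∀ x, X (X x) = N (N x) := by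
    intro x
    rw [hXa, hXa]
    simp only [map_sub, map_smul, hN3, smul_zero, sub_zero]
  have hX3 : ∀ x, X (N (N x)) = 0 := by
    intro x
    rw [hXa, hN3, map_zero, smul_zero, sub_zero]
  have h22 : (2⁻¹ : F) * 2 = 1 := inv_mul_cancel₀ h2
  have sX : ∀ x y, B (X x) y + B x (X y) = 0 := by
    intro x y
    have h4 : B (N (N x)) y = B x (N (N y)) := by
      rw [hadj, hadj]
      simp only [map_add, map_neg, hN3, map_zero]
      ring
    rw [hXa, hXa, map_sub, map_smul, map_sub, map_smul, LinearMap.sub_apply, LinearMap.smul_apply,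
      h4, hadj]
    simp only [map_add, map_neg, smul_eq_mul]
    linear_combination - (B x (N (N y))) * h22
  set w := X x₀ with hw
  set u := N (N x₀) with hu
  have hXw : X w = u := hX2 x₀
  have hXu : X u = 0 := hX3 x₀
  have huw : B w u = 0 := by
    have h4 := skew_dg hsy h2 sX w
    rwa [hXw] at h4
  have huu : B u u = 0 := by
    have h4 := sX w u
    rw [hXw, hXu, map_zero, add_zero] at h4
    exact h4
  have hdec : ∀ x, ∃ a b : F, X x = a • w + b • u := by
    have hmem : ∀ x, X x ∈ LinearMap.range N := by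
      intro x
      rw [hXa]
      exact Submodule.sub_mem _ ⟨x, rfl⟩ (Submodule.smul_mem _ _ ⟨N x, rfl⟩)
    have hwR : w ∈ LinearMap.range N := hmem x₀
    have huR : u ∈ LinearMap.range N := ⟨N x₀, rfl⟩
    have hli : LinearIndependent F ![(⟨w, hwR⟩ : LinearMap.range N), ⟨u, huR⟩] := by
      rw [LinearIndependent.pair_iff]
      intro a b hab
      have h4 : a • w + b • u = 0 := congrArg Subtype.val hab
      have h5 := congrArg X h4
      rw [map_add, map_smul, map_smul, hXw, hXu, smul_zero, add_zero, map_zero] at h5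
      have ha := (smul_eq_zero.1 h5).resolve_right hx₀
      rw [ha, zero_smul, zero_add] at h4
      exact ⟨ha, (smul_eq_zero.1 h4).resolve_right hx₀⟩
    have hsp := hli.span_eq_top_of_card_eq_finrank (by rw [Fintype.card_fin, hr])
    intro x
    have h4 : (⟨X x, hmem x⟩ : LinearMap.range N) ∈
        Submodule.span F (Set.range ![(⟨w, hwR⟩ : LinearMap.range N), ⟨u, huR⟩]) := by
      rw [hsp]
      exact Submodule.mem_top
    rw [Matrix.range_cons, Matrix.range_cons, Matrix.range_empty, Set.union_empty,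
      Set.singleton_union, Submodule.mem_span_pair] at h4
    obtain ⟨a, b, hab⟩ := h4
    exact ⟨a, b, (congrArg Subtype.val hab).symm⟩
  set c := B w w with hc
  have hxu : B x₀ u = -c := by
    have h4 := sX x₀ w
    rw [hXw] at h4
    rw [hc]
    linear_combination h4
  have hxw : B x₀ w = 0 := skew_dg hsy h2 sX x₀
  have hua : ∀ (y : V) (a b : F), X y = a • w + b • u → B u y = -(a * c) := by
    intro y a b hab
    have h4 : X (X y) = a • u := by
      rw [hab, map_add, map_smul, map_smul, hXw, hXu, smul_zero, add_zero]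
    have h5 := sX w y
    have h6 := sX x₀ (X y)
    rw [h4, map_smul, hxu, smul_eq_mul] at h6
    rw [hXw] at h5
    linear_combination h5 - h6
  have hc0 : c ≠ 0 := by
    intro h0
    obtain ⟨y, hy⟩ : ∃ y, B u y ≠ 0 := by
      by_contra hcon
      push Not at hcon
      exact hx₀ (hnd _ hcon)
    obtain ⟨a, b, hab⟩ := hdec y
    apply hy
    rw [hua y a b hab, h0, mul_zero, neg_zero]
  have hXe : wl B (c⁻¹ • u) w = X := by
    apply LinearMap.ext
    intro y
    obtain ⟨a, b, hab⟩ := hdec y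
    have ha := hua y a b hab
    have hb : B w y = b * c := by
      have h4 := sX x₀ y
      rw [hab, map_add, map_smul, map_smul, hxw, hxu, smul_zero, zero_add, smul_eq_mul] at h4
      have h5 : B (X x₀) y = B w y := rfl
      rw [h5] at h4
      linear_combination h4
    rw [wl_apply, hab, hb, map_smul, LinearMap.smul_apply, ha, smul_smul, smul_eq_mul]
    have e1 : b * c * c⁻¹ = b := by rw [mul_assoc, mul_inv_cancel₀ hc0, mul_one]
    have e2 : c⁻¹ * -(a * c) = -a := by
      rw [mul_neg, mul_comm a c, ← mul_assoc, inv_mul_cancel₀ hc0, one_mul]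
    rw [e1, e2, neg_smul, sub_neg_eq_add, add_comm]
  refine ⟨c⁻¹ • u, w, ⟨?_, ?_, hc0⟩, smul_ne_zero (inv_ne_zero hc0) hx₀, ?_⟩
  · simp only [map_smul, LinearMap.smul_apply, huu, smul_zero]
  · simp only [map_smul, LinearMap.smul_apply, hsy u w, huw, smul_zero]
  · apply LinearMap.ext
    intro y
    unfold Ee
    rw [hXe, hf, LinearMap.add_apply, LinearMap.add_apply, Module.End.one_apply,
      LinearMap.smul_apply, Module.End.mul_apply, hX2, hXa]
    abel

theorem Ee_inj (hsy : ∀ x y, B x y = B y x) {e a : V} (h : Eic B e a) (he : e ≠ 0) {s t : F}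
    (hst : Ee B (s • e) a = Ee B (t • e) a) : s = t := by
  have h1 : ∀ s : F, Ee B (s • e) a a = a + (s * B a a) • e := by
    intro s
    have h2 : wl B (s • e) a a = (s * B a a) • e := by
      rw [wl_apply, map_smul, LinearMap.smul_apply, h.ea, smul_zero, zero_smul, sub_zero,
        smul_smul, mul_comm]
    have h3 : wl B (s • e) a e = 0 := by
      rw [wl_apply, map_smul, LinearMap.smul_apply, h.ee, smul_zero, zero_smul, sub_zero,
        hsy a e, h.ea, zero_smul]
    unfold Ee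
    rw [LinearMap.add_apply, LinearMap.add_apply, Module.End.one_apply, LinearMap.smul_apply,
      Module.End.mul_apply, h2, map_smul, h3, smul_zero, smul_zero, add_zero]
  have h2 := congrArg (fun f : End F V => f a) hst
  simp only [h1] at h2
  have h3 : (s * B a a - t * B a a) • e = 0 := by
    rw [sub_smul, sub_eq_zero]
    exact add_left_cancel h2
  have h4 := (smul_eq_zero.1 h3).resolve_right he
  rw [← sub_mul] at h4
  exact sub_eq_zero.1 ((mul_eq_zero.1 h4).resolve_right h.aa)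

end op

section mat

variable {F : Type} [Field F] {m : ℕ} {Γ : Type} [Group Γ]

/-- Irreducibility under the subgroups of index at most `m`. -/
def SIrrM (ρ : Γ → Matrix (Fin m) (Fin m) F) : Prop :=
  ∀ Δ : Subgroup Γ, Δ.index ≠ 0 → Δ.index ≤ m → ∀ W : Submodule F (Fin m → F),
    (∀ γ ∈ Δ, ∀ x ∈ W, ρ γ *ᵥ x ∈ W) → W = ⊥ ∨ W = ⊤

/-- Unipotent with Jordan blocks `3, 1, ..., 1`. -/
def IsCusp (U : Matrix (Fin m) (Fin m) F) : Prop :=
  (U - 1) ^ 3 = 0 ∧ (U - 1) ^ 2 ≠ 0 ∧ (U - 1).rank = 2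

theorem toLin_pow (U : Matrix (Fin m) (Fin m) F) (k : ℕ) : toLin' (U ^ k) = toLin' U ^ k := by
  induction k with
  | zero => rw [pow_zero, pow_zero, toLin'_one]; rfl
  | succ k ih => rw [pow_succ, pow_succ, toLin'_mul, ih]; rfl

theorem isom_of_matrix {A U : Matrix (Fin m) (Fin m) F} (hU : Uᵀ * A * U = A)
    (x y : Fin m → F) : bil A (toLin' U x) (toLin' U y) = bil A x y := by
  rw [bil_toLin, toLin'_apply, Matrix.mulVec_mulVec, hU, bil_apply]

theorem nd_of_det {A : Matrix (Fin m) (Fin m) F} (hd : A.det ≠ 0) (x : Fin m → F)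
    (h : ∀ y, bil A x y = 0) : x = 0 := by
  have hnd : (bil A).Nondegenerate := by
    unfold bil
    rw [Matrix.nondegenerate_toLinearMap₂'_iff]
    exact Matrix.nondegenerate_of_det_ne_zero hd
  exact hnd.1 x h

theorem exists_Ee_matrix {A : Matrix (Fin m) (Fin m) F} (hA : A.IsSymm) (hd : A.det ≠ 0)
    (h2 : (2 : F) ≠ 0) {U : Matrix (Fin m) (Fin m) F} (hU : Uᵀ * A * U = A) (hc : IsCusp U) :
    ∃ e a, Eic (bil A) e a ∧ e ≠ 0 ∧ toLin' U = Ee (bil A) e a := by
  have h1 : toLin' U - 1 = toLin' (U - 1) := by rw [map_sub, toLin'_one]; rfl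
  refine exists_Ee (bil_symm hA) (nd_of_det hd) h2 (isom_of_matrix hU) ?_ ?_ ?_
  · rw [h1, ← toLin_pow, hc.1, map_zero]
  · rw [h1, ← toLin_pow]
    intro h
    exact hc.2.1 (toLin'.map_eq_zero_iff.1 h)
  · rw [h1]
    exact hc.2.2

/-- **Irreducibility of the skew matrices from a cusp.** -/
theorem irr_of_cusp {A : Matrix (Fin m) (Fin m) F} (hA : A.IsSymm) (hd : A.det ≠ 0)
    (h24 : (24 : F) ≠ 0) (hm : m = 3 ∨ 5 ≤ m) {ρ : Γ →* Matrix (Fin m) (Fin m) F}
    (hρ : ∀ γ, (ρ γ)ᵀ * A * ρ γ = A) (hs : SIrrM ρ) (hc : ∃ γ, IsCusp (ρ γ))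
    {M : Submodule F (Matrix (Fin m) (Fin m) F)} (hM : M ≤ soM A)
    (hst : ∀ γ, ∀ X ∈ M, ρ γ * X * ρ γ⁻¹ ∈ M) : M = ⊥ ∨ M = soM A := by
  have h2 : (2 : F) ≠ 0 := by
    intro h0
    apply h24
    rw [show (24 : F) = 2 * 12 by norm_num, h0, zero_mul]
  obtain ⟨γ₀, hγ₀⟩ := hc
  obtain ⟨e, a, hea, he, hEe⟩ := exists_Ee_matrix hA hd h2 (hρ γ₀) hγ₀
  obtain ⟨v, hv, hb⟩ := exists_ob hA hd h2
  let g : Γ →* End F (Fin m → F) :=
    { toFun := fun γ => toLin' (ρ γ)
      map_one' := by rw [map_one, toLin'_one]; rfl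
      map_mul' := fun γ δ => by rw [map_mul, toLin'_mul]; rfl }
  have hg : ∀ γ x, g γ x = ρ γ *ᵥ x := fun γ x => toLin'_apply _ _
  have hgs : SIrr g := by
    intro Δ h0 hi W hW
    refine hs Δ h0 (by simpa using hi) W fun γ hγ x hx => ?_
    rw [← hg]
    exact hW γ hγ x hx
  refine soM_irr hA hd h2 hm hM fun Y hY X hX => ?_
  have hstab : ∀ γ, ∀ X ∈ opS M, g γ * X * g γ⁻¹ ∈ opS M := by
    intro γ X hX
    rw [mem_opS] at hX ⊢
    rw [LinearMap.toMatrix'_mul, LinearMap.toMatrix'_mul]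
    change LinearMap.toMatrix' (toLin' (ρ γ)) * LinearMap.toMatrix' X *
      LinearMap.toMatrix' (toLin' (ρ γ⁻¹)) ∈ M
    rw [LinearMap.toMatrix'_toLin', LinearMap.toMatrix'_toLin']
    exact hst γ _ hX
  have hwl := cusp_so (bil_symm hA) (nd_of_det hd) h24 (g := g)
    (fun γ x y => isom_of_matrix (hρ γ) x y) hgs hea he (γ₀ := γ₀) hEe hstab
  let L : Submodule F (End F (Fin m → F)) :=
    { carrier := {Y | ∀ X ∈ opS M, bk Y X ∈ opS M}
      zero_mem' := fun X _ => by rw [bk_zero_left]; exact (opS M).zero_mem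
      add_mem' := fun hY hY' X hX => by
        rw [bk_add_left]; exact (opS M).add_mem (hY X hX) (hY' X hX)
      smul_mem' := fun c Y hY X hX => by rw [bk_smul_left]; exact (opS M).smul_mem _ (hY X hX) }
  have hL : so (bil A) ≤ L :=
    so_le_of_wl v hv hb (bil_symm hA) h2 fun i j _ X hX => hwl (v i) (v j) hX
  have h4 := hL (toLin_mem_so.2 hY) (toLin' X) (toLin_mem_opS.2 hX)
  rw [mem_opS] at h4
  unfold bk at h4
  rw [map_sub, LinearMap.toMatrix'_mul, LinearMap.toMatrix'_mul, LinearMap.toMatrix'_toLin',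
    LinearMap.toMatrix'_toLin'] at h4
  exact h4

/-- **The standard representation is irreducible.** -/
theorem std_irr {A : Matrix (Fin m) (Fin m) F} (hA : A.IsSymm) (hd : A.det ≠ 0)
    (h2 : (2 : F) ≠ 0) (hm : 3 ≤ m) {W : Submodule F (Fin m → F)}
    (h : ∀ Y ∈ soM A, ∀ x ∈ W, Y *ᵥ x ∈ W) : W = ⊥ ∨ W = ⊤ := by
  by_cases h0 : W = ⊥
  · exact Or.inl h0
  right
  obtain ⟨v, hv, hb⟩ := exists_ob hA hd h2
  have hwl : ∀ i j, ∀ x ∈ W, wl (bil A) (v i) (v j) x ∈ W := by
    intro i j x hx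
    have h3 : LinearMap.toMatrix' (wl (bil A) (v i) (v j)) ∈ soM A := by
      rw [← toLin_mem_so, toLin'_toMatrix']
      exact wl_mem (bil_symm hA) _ _
    have h4 := h _ h3 x hx
    rwa [← toLin'_apply, toLin'_toMatrix'] at h4
  have hvi : ∀ i j, i ≠ j → wl (bil A) (v i) (v j) (v j) = bil A (v j) (v j) • v i := by
    intro i j hij
    rw [wl_apply, hv i j hij, zero_smul, sub_zero]
  -- one vector of the basis
  have hall : ∀ j, v j ∈ W → W = ⊤ := by
    intro j hj
    rw [eq_top_iff, ← v.span_eq, Submodule.span_le]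
    rintro _ ⟨i, rfl⟩
    by_cases hij : i = j
    · rw [hij]; exact hj
    · have h3 := W.smul_mem (bil A (v j) (v j))⁻¹ (hwl i j _ hj)
      rwa [hvi i j hij, smul_smul, inv_mul_cancel₀ (hb j), one_smul] at h3
  obtain ⟨x, hx, hx0⟩ := W.ne_bot_iff.1 h0
  obtain ⟨i, hi⟩ : ∃ i, bil A (v i) x ≠ 0 := by
    by_contra hcon
    push Not at hcon
    apply hx0
    refine nd_of_det hd x fun y => ?_
    rw [bil_symm hA, ← v.sum_repr y, map_sum, LinearMap.sum_apply]
    refine Finset.sum_eq_zero fun k _ => ?_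
    rw [map_smul, LinearMap.smul_apply, hcon k, smul_zero]
  obtain ⟨j, hj⟩ : ∃ j : Fin m, j ≠ i := by
    haveI : Nontrivial (Fin m) := Fin.nontrivial_iff_two_le.2 (by omega)
    exact exists_ne i
  obtain ⟨k, hk⟩ : ∃ k, k ∉ ({i, j} : Finset (Fin m)) := by
    by_contra hcon
    push Not at hcon
    have h6 : (Finset.univ : Finset (Fin m)) ⊆ {i, j} := fun x _ => hcon x
    have h7 := Finset.card_le_card h6
    have h8 : ({i, j} : Finset (Fin m)).card ≤ 2 := Finset.card_le_two
    rw [Finset.card_univ, Fintype.card_fin] at h7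
    omega
  rw [Finset.mem_insert, Finset.mem_singleton, not_or] at hk
  -- the vector in the plane
  have h5 := hwl i j x hx
  have h6 := hwl k j _ h5
  have h7 : wl (bil A) (v k) (v j) (wl (bil A) (v i) (v j) x) =
      (-(bil A (v i) x * bil A (v j) (v j))) • v k := by
    rw [wl_apply (v i), map_sub, map_smul, map_smul, hvi k j hk.2, wl_apply, hv j i hj,
      hv k i hk.1, zero_smul, zero_smul, sub_zero, smul_zero, zero_sub, smul_smul, neg_smul]
  rw [h7] at h6
  have hne : -(bil A (v i) x * bil A (v j) (v j)) ≠ 0 := neg_ne_zero.2 (mul_ne_zero hi (hb j))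
  have h8 := W.smul_mem (-(bil A (v i) x * bil A (v j) (v j)))⁻¹ h6
  rw [smul_smul, inv_mul_cancel₀ hne, one_smul] at h8
  exact hall k h8

end mat

end Pool.Agent.Y127.I
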