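import Pool.Agent.Y127.I.Padic

/-!
# Successive approximation
-/

set_option linter.unusedSectionVars false

namespace Pool.Agent.Y127.I

open Module Matrix Filter Topology

variable {p : ℕ} [hp : Fact p.Prime] {ι : Type} [Fintype ι] [DecidableEq ι] {n : ι → ℕ}

theorem tendsto_of_congr {x : ℕ → Mx n ℤ_[p]} {g : Mx n ℤ_[p]}
    (h : ∀ k, ∃ Y, x k = g + (p : ℤ_[p]) ^ k • Y) : Tendsto x atTop (𝓝 g) := by
  choose Y hY using h
  rw [tendsto_pi_nhds]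
  intro i
  have h1 : ∀ a b, Tendsto (fun k => x k i a b) atTop (𝓝 (g i a b)) := by
    intro a b
    have h2 : ∀ k, x k i a b = g i a b + (p : ℤ_[p]) ^ k * Y k i a b := by
      intro k
      rw [hY k]
      rfl
    simp only [h2]
    have h3 : Tendsto (fun k => (p : ℤ_[p]) ^ k * Y k i a b) atTop (𝓝 0) := by
      refine squeeze_zero_norm (a := fun k => (‖(p : ℤ_[p])‖) ^ k) (fun k => ?_) ?_
      · rw [norm_mul, norm_pow]
        exact mul_le_of_le_one_right (pow_nonneg (norm_nonneg _) _) (PadicInt.norm_le_one _)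
      · refine tendsto_pow_atTop_nhds_zero_of_lt_one (norm_nonneg _) ?_
        rw [PadicInt.norm_p]
        exact inv_lt_one_of_one_lt₀ (by exact_mod_cast hp.out.one_lt)
    have h4 := h3.const_add (g i a b)
    rwa [add_zero] at h4
  refine tendsto_pi_nhds.2 fun a => tendsto_pi_nhds.2 fun b => h1 a b

variable {Γ : Type} [Group Γ] [TopologicalSpace Γ] [CompactSpace Γ] {A : Mx n ℤ_[p]}
  {r : Γ →* Mx n ℤ_[p]} (hc : Continuous r) (hA : ∀ γ, Isy A (r γ))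

omit [TopologicalSpace Γ] [CompactSpace Γ] in
theorem r_inv_mul (γ : Γ) : r γ⁻¹ * r γ = 1 := by rw [← map_mul, inv_mul_cancel, map_one]

omit [TopologicalSpace Γ] [CompactSpace Γ] in
theorem r_mul_inv (γ : Γ) : r γ * r γ⁻¹ = 1 := by rw [← map_mul, mul_inv_cancel, map_one]

include hc hA in
/-- **Successive approximation.** -/
theorem approx {k0 : ℕ} (h : ∀ k, k0 ≤ k → ∀ g, Isy A g → (∃ Y, g = 1 + (p : ℤ_[p]) ^ k • Y) →
      ∃ γ Z, r γ = g + (p : ℤ_[p]) ^ (k + 1) • Z) {g : Mx n ℤ_[p]} (hg : Isy A g)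
    (hg1 : ∃ Y, g = 1 + (p : ℤ_[p]) ^ k0 • Y) : ∃ γ, r γ = g := by
  have step : ∀ k, ∃ γ Y, r γ⁻¹ * g = 1 + (p : ℤ_[p]) ^ (k0 + k) • Y := by
    intro k
    induction k with
    | zero =>
      obtain ⟨Y, hY⟩ := hg1
      exact ⟨1, Y, by rw [inv_one, map_one, one_mul, add_zero]; exact hY⟩
    | succ k ih =>
      obtain ⟨γ, Y, hY⟩ := ih
      have hi : Isy A (r γ⁻¹ * g) := (hA _).mul hg
      obtain ⟨δ, Z, hZ⟩ := h (k0 + k) (by omega) _ hi ⟨Y, hY⟩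
      refine ⟨γ * δ, -(r δ⁻¹ * Z), ?_⟩
      have h1 : r γ⁻¹ * g = r δ - (p : ℤ_[p]) ^ (k0 + k + 1) • Z := by rw [hZ]; abel
      rw [_root_.mul_inv_rev, map_mul, mul_assoc, h1, mul_sub, r_inv_mul, mul_smul_comm, smul_neg,
        sub_eq_add_neg, add_assoc k0 k 1]
  choose γ Y hY using step
  have h1 : ∀ k, ∃ Z, r (γ k) = g + (p : ℤ_[p]) ^ k • Z := by
    intro k
    refine ⟨-((p : ℤ_[p]) ^ k0 • (r (γ k) * Y k)), ?_⟩
    have h2 : r (γ k) * (r (γ k)⁻¹ * g) = g := by rw [← mul_assoc, r_mul_inv, one_mul]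
    rw [hY k, mul_add, mul_one, mul_smul_comm] at h2
    rw [smul_neg, smul_smul, ← pow_add, add_comm k k0]
    exact eq_add_neg_of_add_eq h2
  have h2 := tendsto_of_congr h1
  have h3 : IsClosed (Set.range r) := (isCompact_range hc).isClosed
  obtain ⟨δ, hδ⟩ := h3.mem_of_tendsto h2 (Filter.Eventually.of_forall fun k => ⟨γ k, rfl⟩)
  exact ⟨δ, hδ⟩

/-- Unipotent reduction. -/
def Unp (N : ℕ) (r : Γ →* Mx n ℤ_[p]) (γ : Γ) : Prop := (rd (r γ) - 1) ^ N = 0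

/-- The logarithm of the reduction. -/
noncomputable def lv (N : ℕ) (r : Γ →* Mx n ℤ_[p]) (γ : Γ) : Mx n (ZMod p) :=
  fun i => lg N (rd (r γ) i)

/-- The span of the logarithms. -/
noncomputable def LS (N : ℕ) (r : Γ →* Mx n ℤ_[p]) : Submodule (ZMod p) (Mx n (ZMod p)) :=
  Submodule.span (ZMod p) {X | ∃ γ, Unp N r γ ∧ X = lv N r γ}

/-- The residues of the elements congruent to one modulo `p ^ k`. -/
def Dk (r : Γ →* Mx n ℤ_[p]) (k : ℕ) (hk : 1 ≤ k) : AddSubmonoid (Mx n (ZMod p)) where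
  carrier := {Z | ∃ γ Y, r γ = 1 + (p : ℤ_[p]) ^ k • Y ∧ rd Y = Z}
  zero_mem' := ⟨1, 0, by rw [map_one, smul_zero, add_zero], map_zero _⟩
  add_mem' := by
    rintro _ _ ⟨γ, Y, hY, rfl⟩ ⟨γ', Y', hY', rfl⟩
    refine ⟨γ * γ', Y + Y' + (p : ℤ_[p]) ^ k • (Y * Y'), ?_, ?_⟩
    · rw [map_mul, hY, hY']
      simp only [mul_add, add_mul, mul_one, one_mul, smul_mul_assoc, mul_smul_comm, smul_add,
        smul_smul]
      abel
    · rw [map_add, map_add, rd_smul, map_pow, toZMod_eq_zero.2 ⟨1, (mul_one _).symm⟩,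
        zero_pow (by omega), zero_smul, add_zero]

omit [TopologicalSpace Γ] [CompactSpace Γ] in
theorem Dk_smul (r : Γ →* Mx n ℤ_[p]) (k : ℕ) (hk : 1 ≤ k) (c : ZMod p) {Z : Mx n (ZMod p)}
    (hZ : Z ∈ Dk r k hk) : c • Z ∈ Dk r k hk := by
  have h1 : c • Z = (ZMod.val c) • Z := by
    conv_lhs => rw [← ZMod.natCast_zmod_val c]
    rw [Nat.cast_smul_eq_nsmul]
  rw [h1]
  exact (Dk r k hk).nsmul_mem hZ _

omit [TopologicalSpace Γ] [CompactSpace Γ] in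
theorem Dk_succ (hp3 : 3 ≤ p) (r : Γ →* Mx n ℤ_[p]) (k : ℕ) (hk : 1 ≤ k) {Z : Mx n (ZMod p)}
    (hZ : Z ∈ Dk r k hk) : Z ∈ Dk r (k + 1) (by omega) := by
  obtain ⟨γ, Y, hY, rfl⟩ := hZ
  obtain ⟨W, hW⟩ := pow_step hp3 hk Y
  refine ⟨γ ^ p, Y + (p : ℤ_[p]) • W, ?_, ?_⟩
  · rw [map_pow, hY, hW]
  · rw [map_add, rd_p_smul, add_zero]

include hc hA in
/-- **Lifting**: if the logarithms of the unipotent elements of the reduction span, then the image
contains the whole congruence subgroup. -/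
theorem lift_all {N : ℕ} (hN : 0 < N) (h2N : 2 * N ≤ p) (hp3 : 3 ≤ p)
    (hspan : ∀ Z : Mx n (ZMod p), (∀ i, Z i ∈ soM (rd A i)) → Z ∈ LS N r) {g : Mx n ℤ_[p]}
    (hg : Isy A g) (hg1 : ∃ Y, g = 1 + (p : ℤ_[p]) • Y) : ∃ γ, r γ = g := by
  have hD1 : ∀ Z ∈ LS N r, Z ∈ Dk r 1 le_rfl := by
    intro Z hZ
    unfold LS at hZ
    induction hZ using Submodule.span_induction with
    | mem X hX =>
      obtain ⟨γ, hγ, rfl⟩ := hX
      obtain ⟨Y, hY, hY2⟩ := ell_pow hN h2N hγ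
      refine ⟨γ ^ p, Y, ?_, ?_⟩
      · rw [map_pow, hY, pow_one]
      · funext i
        exact hY2 i
    | zero => exact (Dk r 1 le_rfl).zero_mem
    | add X Y _ _ hX hY => exact (Dk r 1 le_rfl).add_mem hX hY
    | smul c X _ hX => exact Dk_smul r 1 le_rfl c hX
  have hD : ∀ k (hk : 1 ≤ k), ∀ Z ∈ LS N r, Z ∈ Dk r k hk := by
    intro k hk
    induction k, hk using Nat.le_induction with
    | base => exact hD1
    | succ k hk ih => exact fun Z hZ => Dk_succ hp3 r k hk (ih Z hZ)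
  refine approx hc hA (k0 := 1) (fun k hk g hg hY => ?_) hg (by rw [pow_one]; exact hg1)
  obtain ⟨Y, rfl⟩ := hY
  obtain ⟨γ, Y', h1, h2⟩ := hD k hk (rd Y) (hspan _ fun i => skew_of_isy hk hg i)
  obtain ⟨W, hW⟩ := rd_eq_iff.1 h2
  refine ⟨γ, W, ?_⟩
  rw [h1, hW, smul_add, smul_smul, ← pow_succ, add_assoc]

end Pool.Agent.Y127.I
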