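import Pool.Agent.Y127.I.Trc

/-!
# An upper bound for the order of an orthogonal group over a finite field
-/

set_option linter.unusedSectionVars false

namespace Pool.Agent.Y127.I

open Module Matrix

variable {F : Type} [Field F]

theorem exists_sign (h2 : (2 : F) ≠ 0) : ∀ (n : ℕ) (g : Matrix (Fin n) (Fin n) F),
    ∃ ε : Fin n → F, (∀ i, ε i = 1 ∨ ε i = -1) ∧ (diagonal ε + g).det ≠ 0 := by
  intro n
  induction n with
  | zero =>
    intro g
    exact ⟨fun _ => 1, fun i => i.elim0, by simp⟩
  | succ n ih =>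
    intro g
    obtain ⟨ε', h1, hd⟩ := ih (g.submatrix Fin.succ Fin.succ)
    set M0 : Matrix (Fin (n + 1)) (Fin (n + 1)) F :=
      diagonal (Fin.cons 0 ε' : Fin (n + 1) → F) + g with hM0
    have key : ∀ x : F, (diagonal (Fin.cons x ε' : Fin (n + 1) → F) + g).det =
        M0.det + x * (diagonal ε' + g.submatrix Fin.succ Fin.succ).det := by
      intro x
      have e1 : diagonal (Fin.cons x ε' : Fin (n + 1) → F) + g =
          M0.updateRow 0 (M0 0 + x • Pi.single 0 1) := by
        ext i j
        refine Fin.cases ?_ (fun i => ?_) i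
        · rw [Matrix.updateRow_self]
          refine Fin.cases ?_ (fun j => ?_) j
          · simp [hM0, add_comm]
          · simp [hM0, Matrix.diagonal_apply_ne _ (Fin.succ_ne_zero j).symm]
        · rw [Matrix.updateRow_ne (Fin.succ_ne_zero i)]
          refine Fin.cases ?_ (fun j => ?_) j
          · simp [hM0]
          · simp [hM0, Matrix.diagonal_apply]
      rw [e1, Matrix.det_updateRow_add, Matrix.updateRow_eq_self, Matrix.det_updateRow_smul,
        ← Matrix.adjugate_apply, Matrix.adjugate_fin_succ_eq_det_submatrix]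
      congr 2
      have e2 : M0.submatrix (Fin.succAbove 0) (Fin.succAbove 0) =
          diagonal ε' + g.submatrix Fin.succ Fin.succ := by
        ext i j
        simp [hM0, Matrix.diagonal_apply]
      rw [e2]
      simp
    by_cases h3 : (diagonal (Fin.cons 1 ε' : Fin (n + 1) → F) + g).det = 0
    · refine ⟨Fin.cons (-1) ε', ?_, ?_⟩
      · intro i
        refine Fin.cases ?_ (fun i => ?_) i
        · right; simp
        · simpa using h1 i
      · intro h4
        rw [key] at h3 h4
        have h5 : (2 : F) * (diagonal ε' + g.submatrix Fin.succ Fin.succ).det = 0 := by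
          linear_combination h3 - h4
        exact hd ((mul_eq_zero.1 h5).resolve_left h2)
    · refine ⟨Fin.cons 1 ε', ?_, h3⟩
      intro i
      refine Fin.cases ?_ (fun i => ?_) i
      · left; simp
      · simpa using h1 i

variable {n : ℕ}

theorem exists_diag {A : Matrix (Fin n) (Fin n) F} (hA : A.IsSymm) (hd : A.det ≠ 0)
    (h2 : (2 : F) ≠ 0) : ∃ (Q : Matrix (Fin n) (Fin n) F) (b : Fin n → F), IsUnit Q.det ∧
      Qᵀ * A * Q = diagonal b := by
  obtain ⟨v, hv, hb⟩ := exists_ob hA hd h2
  refine ⟨(Pi.basisFun F (Fin n)).toMatrix v, fun i => bil A (v i) (v i), ?_, ?_⟩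
  · have h1 := (Pi.basisFun F (Fin n)).toMatrix_mul_toMatrix_flip v
    have h3 := congrArg Matrix.det h1
    rw [Matrix.det_mul, Matrix.det_one] at h3
    exact IsUnit.of_mul_eq_one _ h3
  · ext i j
    have h1 : (((Pi.basisFun F (Fin n)).toMatrix v)ᵀ * A * (Pi.basisFun F (Fin n)).toMatrix v) i j =
        bil A (v i) (v j) := by
      rw [bil_apply, Matrix.dotProduct_mulVec]
      rfl
    rw [h1, Matrix.diagonal_apply]
    by_cases h : i = j
    · subst h; rw [if_pos rfl]
    · rw [if_neg h, hv i j h]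

/-- **Upper bound for the order of an orthogonal group.** -/
theorem card_O_le [Fintype F] [DecidableEq F] {A : Matrix (Fin n) (Fin n) F} (hA : A.IsSymm)
    (hd : A.det ≠ 0) (h2 : (2 : F) ≠ 0) :
    (Finset.univ.filter fun g : Matrix (Fin n) (Fin n) F => gᵀ * A * g = A).card ≤
      2 ^ n * Fintype.card F ^ finrank F (soM A) := by
  classical
  obtain ⟨Q, b, hQ, hQA⟩ := exists_diag hA hd h2
  have hQt : IsUnit Qᵀ.det := by rw [det_transpose]; exact hQ
  have hAQ : A = Qᵀ⁻¹ * diagonal b * Q⁻¹ := by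
    rw [← hQA]
    calc A = (Qᵀ⁻¹ * Qᵀ) * A * (Q * Q⁻¹) := by
          rw [nonsing_inv_mul _ hQt, mul_nonsing_inv _ hQ, one_mul, mul_one]
      _ = _ := by simp only [mul_assoc]
  let s : (Fin n → Bool) → Matrix (Fin n) (Fin n) F := fun ε =>
    Q * diagonal (fun i => if ε i then 1 else -1) * Q⁻¹
  have hsign : ∀ (ε : Fin n → Bool) i, (if ε i then (1 : F) else -1) * (if ε i then 1 else -1) = 1 := by
    intro ε i
    by_cases h : ε i <;> simp [h]
  have hss : ∀ ε, s ε * s ε = 1 := by
    intro ε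
    calc s ε * s ε = Q * (diagonal (fun i => if ε i then (1 : F) else -1) * (Q⁻¹ * Q) *
          diagonal (fun i => if ε i then (1 : F) else -1)) * Q⁻¹ := by
          simp only [s, mul_assoc]
      _ = 1 := by
          rw [nonsing_inv_mul _ hQ, mul_one, diagonal_mul_diagonal]
          simp only [hsign]
          rw [diagonal_one, mul_one, mul_nonsing_inv _ hQ]
  have hsA : ∀ ε, (s ε)ᵀ * A * s ε = A := by
    intro ε
    have h1 : (s ε)ᵀ = Qᵀ⁻¹ * diagonal (fun i => if ε i then (1 : F) else -1) * Qᵀ := by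
      simp only [s, transpose_mul, diagonal_transpose, transpose_nonsing_inv, mul_assoc]
    calc (s ε)ᵀ * A * s ε = Qᵀ⁻¹ * diagonal (fun i => if ε i then (1 : F) else -1) *
          (Qᵀ * A * Q) * diagonal (fun i => if ε i then (1 : F) else -1) * Q⁻¹ := by
          rw [h1]; simp only [s, mul_assoc]
      _ = Qᵀ⁻¹ * diagonal b * Q⁻¹ := by
          rw [hQA, mul_assoc Qᵀ⁻¹, mul_assoc Qᵀ⁻¹, diagonal_mul_diagonal, diagonal_mul_diagonal]
          congr 3
          funext i
          rw [mul_comm _ (b i), mul_assoc, hsign, mul_one]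
      _ = A := hAQ.symm
  have hex : ∀ g : Matrix (Fin n) (Fin n) F, ∃ ε : Fin n → Bool, IsUnit (1 + s ε * g).det := by
    intro g
    obtain ⟨ε, h1, h3⟩ := exists_sign h2 n (Q⁻¹ * g * Q)
    refine ⟨fun i => decide (ε i = 1), ?_⟩
    have hε : (fun i => if decide (ε i = 1) then (1 : F) else -1) = ε := by
      funext i
      rcases h1 i with h | h
      · simp [h]
      · have : ¬ (-1 : F) = 1 := by
          intro h4
          apply h2
          linear_combination -h4
        simp [h, this]
    have h4 : s (fun i => decide (ε i = 1)) = Q * diagonal ε * Q⁻¹ := by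
      simp only [s, hε]
    have h5 : (1 + s (fun i => decide (ε i = 1)) * g) =
        s (fun i => decide (ε i = 1)) * (Q * (diagonal ε + Q⁻¹ * g * Q) * Q⁻¹) := by
      rw [mul_add, add_mul, ← h4, mul_add, hss]
      congr 2
      calc g = (Q * Q⁻¹) * g * (Q * Q⁻¹) := by rw [mul_nonsing_inv _ hQ, one_mul, mul_one]
        _ = _ := by simp only [mul_assoc]
    rw [h5, Matrix.det_mul (s _), Matrix.det_mul (Q * (diagonal ε + Q⁻¹ * g * Q)),
      Matrix.det_mul Q (diagonal ε + Q⁻¹ * g * Q)]
    have h6 : IsUnit (s (fun i => decide (ε i = 1))).det := by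
      have h7 := congrArg Matrix.det (hss (fun i => decide (ε i = 1)))
      rw [Matrix.det_mul, Matrix.det_one] at h7
      exact IsUnit.of_mul_eq_one _ h7
    have h7 : IsUnit (Q⁻¹).det := by
      have h8 := congrArg Matrix.det (nonsing_inv_mul _ hQ)
      rw [Matrix.det_mul, Matrix.det_one] at h8
      exact IsUnit.of_mul_eq_one _ h8
    exact h6.mul ((hQ.mul (isUnit_iff_ne_zero.2 h3)).mul h7)
  choose ε hε using hex
  -- the Cayley transform
  let c : Matrix (Fin n) (Fin n) F → Matrix (Fin n) (Fin n) F := fun h => (1 - h) * (1 + h)⁻¹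
  have hc : ∀ h : Matrix (Fin n) (Fin n) F, IsUnit (1 + h).det → c h * (1 + h) = 1 - h := by
    intro h hu
    simp only [c]
    rw [mul_assoc, nonsing_inv_mul _ hu, mul_one]
  have hcS : ∀ h : Matrix (Fin n) (Fin n) F, hᵀ * A * h = A → IsUnit (1 + h).det →
      c h ∈ soM A := by
    intro h hh hu
    rw [mem_soM]
    have hut : IsUnit ((1 + h)ᵀ).det := by rw [det_transpose]; exact hu
    have h1 : (1 + h)ᵀ * ((c h)ᵀ * A + A * c h) * (1 + h) = 0 := by
      have h3 : (1 + h)ᵀ * (c h)ᵀ = (1 - h)ᵀ := by rw [← transpose_mul, hc h hu]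
      calc (1 + h)ᵀ * ((c h)ᵀ * A + A * c h) * (1 + h) =
            (1 + h)ᵀ * (c h)ᵀ * A * (1 + h) + (1 + h)ᵀ * A * (c h * (1 + h)) := by
            rw [mul_add (1 + h)ᵀ, add_mul _ _ (1 + h)]
            simp only [mul_assoc]
        _ = (1 - h)ᵀ * A * (1 + h) + (1 + h)ᵀ * A * (1 - h) := by rw [h3, hc h hu]
        _ = (A - hᵀ * A * h) + (A - hᵀ * A * h) := by
            rw [transpose_sub, transpose_add, transpose_one]
            simp only [mul_add, add_mul, mul_sub, sub_mul, one_mul, mul_one]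
            abel
        _ = 0 := by rw [hh]; abel
    calc (c h)ᵀ * A + A * c h = ((1 + h)ᵀ⁻¹ * (1 + h)ᵀ) * ((c h)ᵀ * A + A * c h) *
          ((1 + h) * (1 + h)⁻¹) := by
          rw [nonsing_inv_mul _ hut, mul_nonsing_inv _ hu, one_mul, mul_one]
      _ = (1 + h)ᵀ⁻¹ * ((1 + h)ᵀ * ((c h)ᵀ * A + A * c h) * (1 + h)) * (1 + h)⁻¹ := by
          simp only [mul_assoc]
      _ = 0 := by rw [h1, mul_zero, zero_mul]
  have hinj : ∀ h h' : Matrix (Fin n) (Fin n) F, IsUnit (1 + h).det → IsUnit (1 + h').det →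
      c h = c h' → h = h' := by
    intro h h' hu hu' he
    have e1 : (1 + c h) * (1 + h) = (2 : F) • (1 : Matrix (Fin n) (Fin n) F) := by
      rw [add_mul, one_mul, hc h hu, two_smul]
      abel
    have e2 : (1 + c h) * (1 + h') = (2 : F) • (1 : Matrix (Fin n) (Fin n) F) := by
      rw [he, add_mul, one_mul, hc h' hu', two_smul]
      abel
    have e3 : IsUnit (1 + c h).det := by
      have h3 := congrArg Matrix.det e1
      rw [Matrix.det_mul, Matrix.det_smul, Matrix.det_one, mul_one, Fintype.card_fin] at h3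
      have h4 : IsUnit ((1 + c h).det * (1 + h).det) := by
        rw [h3]
        exact isUnit_iff_ne_zero.2 (pow_ne_zero _ h2)
      exact isUnit_of_mul_isUnit_left h4
    have e4 : (1 + c h)⁻¹ * ((1 + c h) * (1 + h)) = (1 + c h)⁻¹ * ((1 + c h) * (1 + h')) := by
      rw [e1, e2]
    rw [← mul_assoc, ← mul_assoc, nonsing_inv_mul _ e3, one_mul, one_mul] at e4
    exact add_left_cancel e4
  let T : Finset (Matrix (Fin n) (Fin n) F) :=
    Finset.univ.filter fun g : Matrix (Fin n) (Fin n) F => gᵀ * A * g = A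
  have hT : ∀ g ∈ T, (s (ε g) * g)ᵀ * A * (s (ε g) * g) = A := by
    intro g hg
    have hg' : gᵀ * A * g = A := (Finset.mem_filter.1 hg).2
    calc (s (ε g) * g)ᵀ * A * (s (ε g) * g) = gᵀ * ((s (ε g))ᵀ * A * s (ε g)) * g := by
          rw [transpose_mul]; simp only [mul_assoc]
      _ = A := by rw [hsA, hg']
  let φ : T → (Fin n → Bool) × soM A := fun g =>
    (ε g.1, ⟨c (s (ε g.1) * g.1), hcS _ (hT g.1 g.2) (hε g.1)⟩)
  have hφ : Function.Injective φ := by
    intro g g' h
    have h1 : ε g.1 = ε g'.1 := congrArg Prod.fst h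
    have h3 : c (s (ε g.1) * g.1) = c (s (ε g'.1) * g'.1) :=
      congrArg (fun x : (Fin n → Bool) × soM A => (x.2 : Matrix (Fin n) (Fin n) F)) h
    have h4 := hinj _ _ (hε g.1) (hε g'.1) h3
    rw [← h1] at h4
    have h5 := congrArg (fun x => s (ε g.1) * x) h4
    simp only [← mul_assoc, hss, one_mul] at h5
    exact Subtype.ext h5
  have hcard := Fintype.card_le_of_injective φ hφ
  rw [Fintype.card_coe, Fintype.card_prod, Fintype.card_fun, Fintype.card_bool, Fintype.card_fin,
    Module.card_eq_pow_finrank (K := F) (V := soM A)] at hcard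
  exact hcard

end Pool.Agent.Y127.I
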