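import Mathlib

/-!
# A lower bound for finite matrix groups with many unipotent elements
-/

set_option linter.unusedSectionVars false

namespace Pool.Agent.Y127.I

open Module Matrix MvPolynomial

section low

variable {F : Type} [Field F] {d : ℕ}

/-- The polynomial has lowest part the monomial `α`. -/
def Low (q : MvPolynomial (Fin d) F) (α : Fin d →₀ ℕ) : Prop :=
  ∀ β : Fin d →₀ ℕ, β.degree ≤ α.degree → coeff β q = if β = α then 1 else 0

theorem Low.mul {q q' : MvPolynomial (Fin d) F} {α α' : Fin d →₀ ℕ} (h : Low q α)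
    (h' : Low q' α') : Low (q * q') (α + α') := by
  classical
  intro β hβ
  rw [coeff_mul]
  by_cases hab : β = α + α'
  · rw [if_pos hab, Finset.sum_eq_single (α, α')]
    · rw [h α le_rfl, h' α' le_rfl, if_pos rfl, if_pos rfl, one_mul]
    · rintro ⟨x, y⟩ hxy hne
      have hs : x + y = β := Finset.HasAntidiagonal.mem_antidiagonal.1 hxy
      have hd : x.degree + y.degree = α.degree + α'.degree := by
        rw [← map_add, ← map_add, hs, hab]
      by_cases hx : x.degree ≤ α.degree
      · by_cases hx' : x = α
        · exfalso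
          apply hne
          rw [hx', hab] at hs
          rw [hx', add_left_cancel hs]
        · change coeff x q * coeff y q' = 0
          rw [h x hx, if_neg hx', zero_mul]
      · change coeff x q * coeff y q' = 0
        rw [h' y (by omega), if_neg, mul_zero]
        rintro rfl
        omega
    · intro hn
      exfalso
      apply hn
      rw [Finset.HasAntidiagonal.mem_antidiagonal, hab]
  · rw [if_neg hab]
    apply Finset.sum_eq_zero
    rintro ⟨x, y⟩ hxy
    have hs : x + y = β := Finset.HasAntidiagonal.mem_antidiagonal.1 hxy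
    have hd : x.degree + y.degree ≤ α.degree + α'.degree := by
      rw [← map_add, ← map_add, hs]; exact hβ
    change coeff x q * coeff y q' = 0
    by_cases hx : x.degree ≤ α.degree
    · by_cases hx' : x = α
      · rw [h' y (by rw [hx'] at hd; omega), if_neg, mul_zero]
        rintro rfl
        exact hab (by rw [← hs, hx'])
      · rw [h x hx, if_neg hx', zero_mul]
    · rw [h' y (by omega), if_neg, mul_zero]
      rintro rfl
      omega

theorem Low.one : Low (1 : MvPolynomial (Fin d) F) 0 := by
  intro β hβ
  rw [coeff_one]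
  simp only [eq_comm]

theorem Low.pow {q : MvPolynomial (Fin d) F} {α : Fin d →₀ ℕ} (h : Low q α) (k : ℕ) :
    Low (q ^ k) (k • α) := by
  induction k with
  | zero => rw [pow_zero, zero_smul]; exact Low.one
  | succ k ih => rw [pow_succ, succ_nsmul]; exact ih.mul h

theorem Low.prod {κ : Type} (s : Finset κ) {q : κ → MvPolynomial (Fin d) F} {α : κ → Fin d →₀ ℕ}
    (h : ∀ i ∈ s, Low (q i) (α i)) : Low (∏ i ∈ s, q i) (∑ i ∈ s, α i) := by
  classical
  induction s using Finset.induction_on with
  | empty => rw [Finset.prod_empty, Finset.sum_empty]; exact Low.one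
  | insert a s ha ih =>
    rw [Finset.prod_insert ha, Finset.sum_insert ha]
    exact (h a (Finset.mem_insert_self _ _)).mul (ih fun i hi => h i (Finset.mem_insert_of_mem hi))

theorem coeff_zero_mul (p q : MvPolynomial (Fin d) F) :
    coeff 0 (p * q) = coeff 0 p * coeff 0 q := by
  rw [← constantCoeff_eq, map_mul]

theorem coeff_single_mul (j : Fin d) (p q : MvPolynomial (Fin d) F) :
    coeff (Finsupp.single j 1) (p * q) =
      coeff 0 p * coeff (Finsupp.single j 1) q + coeff (Finsupp.single j 1) p * coeff 0 q := by
  classical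
  rw [coeff_mul, Finsupp.antidiagonal_single, Finset.sum_map]
  simp [Finset.antidiagonal, Finset.Nat.antidiagonal_succ]

/-- Independence of the products of powers of polynomials with independent linear parts, as
functions on a finite field. -/
theorem indep_of_low [Fintype F] {p : Fin d → MvPolynomial (Fin d) F}
    (hp : ∀ i, Low (p i) (Finsupp.single i 1)) {D M : ℕ} (hD : ∀ i, (p i).totalDegree ≤ D)
    (hM : d * (M * D) ≤ Fintype.card F - 1) (c : (Fin d → Fin (M + 1)) → F)
    (h : ∀ t : Fin d → F, ∑ α, c α * ∏ i, (eval t (p i)) ^ (α i : ℕ) = 0) : ∀ α, c α = 0 := by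
  classical
  by_contra hcon
  push Not at hcon
  set Q : MvPolynomial (Fin d) F := ∑ α : Fin d → Fin (M + 1), C (c α) * ∏ i, p i ^ (α i : ℕ)
    with hQ
  have hQ0 : Q = 0 := by
    refine MvPolynomial.eq_zero_of_eval_eq_zero _ _ Q (fun t => ?_) ?_
    · rw [hQ, map_sum, ← h t]
      refine Finset.sum_congr rfl fun α _ => ?_
      rw [map_mul, eval_C, map_prod]
      simp only [map_pow]
    · rw [mem_restrictDegree]
      intro s hs i
      refine (monomial_le_degreeOf i hs).trans ((degreeOf_le_totalDegree Q i).trans ?_)
      refine (totalDegree_finsetSum_le (d := d * (M * D)) fun α _ => ?_).trans hM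
      refine (totalDegree_mul _ _).trans ?_
      rw [totalDegree_C, zero_add]
      refine (totalDegree_finsetProd _ _).trans ?_
      calc ∑ i, (p i ^ (α i : ℕ)).totalDegree ≤ ∑ _i : Fin d, M * D := by
            refine Finset.sum_le_sum fun i _ => (totalDegree_pow _ _).trans ?_
            exact Nat.mul_le_mul (Nat.lt_succ_iff.1 (α i).2) (hD i)
        _ = d * (M * D) := by rw [Finset.sum_const, Finset.card_univ, Fintype.card_fin, smul_eq_mul]
  -- the degree of an exponent
  let e : (Fin d → Fin (M + 1)) → (Fin d →₀ ℕ) := fun α => ∑ i, (α i : ℕ) • Finsupp.single i 1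
  have he : Function.Injective e := by
    intro α β hαβ
    funext i
    have h1 := DFunLike.congr_fun hαβ i
    simp only [e, Finsupp.coe_finset_sum, Finset.sum_apply, Finsupp.smul_apply, smul_eq_mul,
      Finsupp.single_apply, mul_ite, mul_one, mul_zero, Finset.sum_ite_eq', Finset.mem_univ,
      if_true] at h1
    exact Fin.ext h1
  have hlow : ∀ α : Fin d → Fin (M + 1), Low (∏ i, p i ^ (α i : ℕ)) (e α) := fun α =>
    Low.prod _ fun i _ => (hp i).pow _
  obtain ⟨α₀, hα₀, hmin⟩ := Finset.exists_min_image
    ((Finset.univ : Finset (Fin d → Fin (M + 1))).filter fun α => c α ≠ 0)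
    (fun α => (e α).degree) (by
      obtain ⟨α, hα⟩ := hcon
      exact ⟨α, Finset.mem_filter.2 ⟨Finset.mem_univ _, hα⟩⟩)
  have h1 : coeff (e α₀) Q = c α₀ := by
    rw [hQ, coeff_sum, Finset.sum_eq_single α₀]
    · rw [coeff_C_mul, hlow α₀ _ le_rfl, if_pos rfl, mul_one]
    · intro α _ hα
      rw [coeff_C_mul]
      by_cases hc : c α = 0
      · rw [hc, zero_mul]
      · rw [hlow α _ (hmin α (Finset.mem_filter.2 ⟨Finset.mem_univ _, hc⟩)),
          if_neg (fun h2 => hα (he h2).symm), mul_zero]
    · intro h2
      exact absurd (Finset.mem_univ _) h2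
  rw [hQ0, coeff_zero] at h1
  exact (Finset.mem_filter.1 hα₀).2 h1.symm

end low

section bin

variable {F : Type} [Field F] {d : ℕ}

/-- Binomial polynomials. -/
noncomputable def bn (F : Type) [Field F] {d : ℕ} (k : ℕ) (j : Fin d) : MvPolynomial (Fin d) F :=
  C ((k.factorial : F)⁻¹) * ∏ i ∈ Finset.range k, (X j - C (i : F))

theorem totalDegree_bn (k : ℕ) (j : Fin d) : (bn F k j).totalDegree ≤ k := by
  unfold bn
  refine (totalDegree_mul _ _).trans ?_
  rw [totalDegree_C, zero_add]
  refine (totalDegree_finsetProd _ _).trans ?_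
  calc ∑ i ∈ Finset.range k, ((X j - C (i : F) : MvPolynomial (Fin d) F)).totalDegree
      ≤ ∑ _i ∈ Finset.range k, 1 := by
        refine Finset.sum_le_sum fun i _ => (totalDegree_sub_C_le _ _).trans ?_
        rw [totalDegree_X]
    _ = k := by rw [Finset.sum_const, Finset.card_range, smul_eq_mul, mul_one]

theorem prod_sub_eq (a k : ℕ) :
    ∏ i ∈ Finset.range k, ((a : F) - (i : F)) = (a.descFactorial k : F) := by
  induction k with
  | zero => simp
  | succ k ih =>
    rw [Finset.prod_range_succ, ih, Nat.descFactorial_succ]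
    by_cases h : k ≤ a
    · push_cast [Nat.cast_sub h]
      ring
    · push Not at h
      rw [Nat.descFactorial_of_lt h]
      simp

theorem eval_bn (k : ℕ) (j : Fin d) (t : Fin d → F) {a : ℕ} (ht : t j = (a : F))
    (hk : (k.factorial : F) ≠ 0) : eval t (bn F k j) = (a.choose k : F) := by
  unfold bn
  rw [map_mul, eval_C, map_prod]
  simp only [map_sub, eval_X, eval_C, ht]
  rw [prod_sub_eq, Nat.descFactorial_eq_factorial_mul_choose, Nat.cast_mul, ← mul_assoc,
    inv_mul_cancel₀ hk, one_mul]

theorem coeff_zero_bn (k : ℕ) (j : Fin d) :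
    coeff 0 (bn F k j) = if k = 0 then 1 else 0 := by
  by_cases hk : k = 0
  · subst hk
    unfold bn
    simp
  · rw [if_neg hk, ← constantCoeff_eq]
    unfold bn
    rw [map_mul, map_prod]
    have h0 : (0 : ℕ) ∈ Finset.range k := Finset.mem_range.2 (Nat.pos_of_ne_zero hk)
    rw [Finset.prod_eq_zero h0, mul_zero]
    simp

theorem coeff_single_bn (k : ℕ) (i j : Fin d) (hk : (k.factorial : F) ≠ 0) :
    coeff (Finsupp.single i 1) (bn F k j) =
      if i = j then (if k = 0 then 0 else (-1) ^ (k - 1) * (k : F)⁻¹) else 0 := by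
  classical
  cases k with
  | zero =>
    unfold bn
    have h0 : ¬ (0 : Fin d →₀ ℕ) = Finsupp.single i 1 := by
      intro h
      have := DFunLike.congr_fun h i
      simp at this
    simp [coeff_one, h0]
  | succ k =>
    unfold bn
    rw [Finset.prod_range_succ', coeff_C_mul, Nat.cast_zero, C_0, sub_zero, coeff_single_mul]
    have h1 : coeff 0 (X j : MvPolynomial (Fin d) F) = 0 := by
      rw [← constantCoeff_eq, constantCoeff_X]
    have h2 : coeff (Finsupp.single i 1) (X j : MvPolynomial (Fin d) F) =
        if i = j then 1 else 0 := by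
      rw [coeff_X']
      by_cases h : i = j
      · subst h; simp
      · rw [if_neg h, if_neg]
        intro h3
        have := Finsupp.single_left_injective (one_ne_zero) h3
        exact h this.symm
    rw [h1, mul_zero, add_zero, h2]
    by_cases h : i = j
    · rw [if_pos h, if_pos h, mul_one, if_neg (Nat.succ_ne_zero _)]
      have h3 : coeff 0 (∏ i ∈ Finset.range k,
          ((X j : MvPolynomial (Fin d) F) - C ((i + 1 : ℕ) : F))) =
          (-1) ^ k * (k.factorial : F) := by
        rw [← constantCoeff_eq, map_prod]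
        simp only [map_sub, constantCoeff_X, constantCoeff_C, zero_sub]
        have h4 : ∀ i ∈ Finset.range k, -(((i + 1 : ℕ) : F)) = (-1) * ((i + 1 : ℕ) : F) :=
          fun i _ => by ring
        rw [Finset.prod_congr rfl h4, Finset.prod_mul_distrib, Finset.prod_const,
          Finset.card_range, ← Nat.cast_prod, Finset.prod_range_add_one_eq_factorial]
      rw [h3, Nat.factorial_succ, Nat.cast_mul, Nat.add_sub_cancel]
      have h5 : (k.factorial : F) ≠ 0 := by
        intro h0
        apply hk
        rw [Nat.factorial_succ, Nat.cast_mul, h0, mul_zero]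
      rw [mul_inv]
      field_simp
    · rw [if_neg h, if_neg h, mul_zero, mul_zero]

end bin

end Pool.Agent.Y127.I
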