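import Pool.Agent.Y127.I.Count

/-!
# The counting lemma
-/

set_option linter.unusedSectionVars false

namespace Pool.Agent.Y127.I

open Module Matrix MvPolynomial

variable {F : Type} [Field F] {m : Type} [Fintype m] [DecidableEq m] {d : ℕ}

/-- The truncated logarithm. -/
noncomputable def lg (N : ℕ) (x : Matrix m m F) : Matrix m m F :=
  ∑ k ∈ Finset.range N, (if k = 0 then (0 : F) else (-1) ^ (k - 1) * (k : F)⁻¹) • (x - 1) ^ k

/-- The one-parameter subgroup of a unipotent matrix. -/
noncomputable def G1 (N : ℕ) (g : Fin d → Matrix m m F) (j : Fin d) :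
    Matrix m m (MvPolynomial (Fin d) F) :=
  ∑ k ∈ Finset.range N, bn F k j • ((g j - 1) ^ k).map (C : F → MvPolynomial (Fin d) F)

theorem pow_eq_sum {N : ℕ} {x : Matrix m m F} (hx : (x - 1) ^ N = 0) (a : ℕ) :
    x ^ a = ∑ k ∈ Finset.range N, (a.choose k : F) • (x - 1) ^ k := by
  have h1 : x ^ a = ∑ k ∈ Finset.range (a + 1), (a.choose k : F) • (x - 1) ^ k := by
    conv_lhs => rw [show x = (x - 1) + 1 by abel]
    rw [(Commute.one_right _).add_pow]
    refine Finset.sum_congr rfl fun k _ => ?_
    rw [one_pow, mul_one, ← nsmul_eq_mul', ← Nat.cast_smul_eq_nsmul F]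
  rw [h1]
  have hz : ∀ k, N ≤ k → (a.choose k : F) • (x - 1) ^ k = 0 := by
    intro k hk
    rw [← Nat.sub_add_cancel hk, pow_add, hx, mul_zero, smul_zero]
  have hz' : ∀ k, a + 1 ≤ k → (a.choose k : F) • (x - 1) ^ k = 0 := by
    intro k hk
    rw [Nat.choose_eq_zero_of_lt (by omega), Nat.cast_zero, zero_smul]
  rcases le_total N (a + 1) with h | h
  · rw [← Finset.sum_range_add_sum_Ico _ h, Finset.sum_eq_zero (s := Finset.Ico N (a + 1)), add_zero]
    intro k hk
    exact hz k (Finset.mem_Ico.1 hk).1
  · rw [← Finset.sum_range_add_sum_Ico (fun k => (a.choose k : F) • (x - 1) ^ k) h,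
      Finset.sum_eq_zero (s := Finset.Ico (a + 1) N), add_zero]
    intro k hk
    exact hz' k (Finset.mem_Ico.1 hk).1

theorem eval_G1 {N : ℕ} {g : Fin d → Matrix m m F} {j : Fin d} (hg : (g j - 1) ^ N = 0)
    (hN : ∀ k < N, (k.factorial : F) ≠ 0) (t : Fin d → F) {a : ℕ} (ht : t j = (a : F)) :
    (eval t).mapMatrix (G1 N g j) = g j ^ a := by
  unfold G1
  rw [map_sum, pow_eq_sum hg]
  refine Finset.sum_congr rfl fun k hk => ?_
  ext x y
  rw [RingHom.mapMatrix_apply, Matrix.map_apply, Matrix.smul_apply, Matrix.smul_apply,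
    Matrix.map_apply, smul_eq_mul, smul_eq_mul, map_mul, eval_C,
    eval_bn k j t ht (hN k (Finset.mem_range.1 hk))]

/-- The lowest terms of a matrix of polynomials. -/
def LowM (Q : Matrix m m (MvPolynomial (Fin d) F)) (c : Matrix m m F)
    (v : Fin d → Matrix m m F) : Prop :=
  (∀ a b, coeff 0 (Q a b) = c a b) ∧ ∀ j a b, coeff (Finsupp.single j 1) (Q a b) = v j a b

theorem LowM.mul {Q Q' : Matrix m m (MvPolynomial (Fin d) F)} {c c' : Matrix m m F}
    {v v' : Fin d → Matrix m m F} (h : LowM Q c v) (h' : LowM Q' c' v') :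
    LowM (Q * Q') (c * c') (fun j => c * v' j + v j * c') := by
  constructor
  · intro a b
    rw [Matrix.mul_apply, coeff_sum, Matrix.mul_apply]
    refine Finset.sum_congr rfl fun k _ => ?_
    rw [coeff_zero_mul, h.1, h'.1]
  · intro j a b
    beta_reduce
    rw [Matrix.mul_apply, coeff_sum, Matrix.add_apply, Matrix.mul_apply, Matrix.mul_apply,
      ← Finset.sum_add_distrib]
    refine Finset.sum_congr rfl fun k _ => ?_
    rw [coeff_single_mul, h.1, h'.1, h.2, h'.2]

theorem LowM.one : LowM (1 : Matrix m m (MvPolynomial (Fin d) F)) 1 (fun _ => 0) := by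
  constructor
  · intro a b
    by_cases h : a = b
    · subst h; simp
    · simp [Matrix.one_apply_ne h]
  · intro j a b
    have h0 : ¬ (0 : Fin d →₀ ℕ) = Finsupp.single j 1 := by
      intro h
      have := DFunLike.congr_fun h j
      simp at this
    by_cases h : a = b
    · subst h; simp [coeff_one, h0]
    · simp [Matrix.one_apply_ne h]

theorem lowM_G1 {N : ℕ} (hN0 : 0 < N) {g : Fin d → Matrix m m F} (j : Fin d)
    (hN : ∀ k < N, (k.factorial : F) ≠ 0) :
    LowM (G1 N g j) 1 (fun i => if i = j then lg N (g j) else 0) := by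
  constructor
  · intro a b
    unfold G1
    rw [Matrix.sum_apply, coeff_sum, Finset.sum_eq_single 0]
    · rw [Matrix.smul_apply, smul_eq_mul, Matrix.map_apply, coeff_zero_mul, coeff_zero_bn,
        if_pos rfl, one_mul, coeff_zero_C, pow_zero]
    · intro k _ hk
      rw [Matrix.smul_apply, smul_eq_mul, coeff_zero_mul, coeff_zero_bn, if_neg hk, zero_mul]
    · intro h
      exact absurd (Finset.mem_range.2 hN0) h
  · intro i a b
    beta_reduce
    unfold G1 lg
    rw [Matrix.sum_apply, coeff_sum]
    by_cases h : i = j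
    · rw [if_pos h, Matrix.sum_apply]
      refine Finset.sum_congr rfl fun k hk => ?_
      rw [Matrix.smul_apply, smul_eq_mul, Matrix.map_apply, coeff_single_mul,
        coeff_single_bn k i j (hN k (Finset.mem_range.1 hk)), if_pos h, coeff_zero_C,
        Matrix.smul_apply, smul_eq_mul, coeff_C, if_neg, mul_zero, zero_add]
      intro h1
      have := DFunLike.congr_fun h1 i
      simp at this
    · rw [if_neg h, Matrix.zero_apply]
      refine Finset.sum_eq_zero fun k hk => ?_
      rw [Matrix.smul_apply, smul_eq_mul, Matrix.map_apply, coeff_single_mul,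
        coeff_single_bn k i j (hN k (Finset.mem_range.1 hk)), if_neg h, zero_mul, add_zero, coeff_C,
        if_neg, mul_zero]
      intro h1
      have := DFunLike.congr_fun h1 i
      simp at this

theorem lowM_list {N : ℕ} (hN0 : 0 < N) {g : Fin d → Matrix m m F}
    (hN : ∀ k < N, (k.factorial : F) ≠ 0) (L : List (Fin d)) (hL : L.Nodup) :
    LowM ((L.map (G1 N g)).prod) 1 (fun i => if i ∈ L then lg N (g i) else 0) := by
  induction L with
  | nil =>
    rw [List.map_nil, List.prod_nil]
    have h := LowM.one (F := F) (m := m) (d := d)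
    simpa using h
  | cons j L ih =>
    rw [List.nodup_cons] at hL
    rw [List.map_cons, List.prod_cons]
    have h := (lowM_G1 hN0 j hN (g := g)).mul (ih hL.2)
    rw [mul_one] at h
    refine ⟨h.1, fun i a b => ?_⟩
    rw [h.2 i a b]
    beta_reduce
    rw [one_mul, mul_one]
    simp only [List.mem_cons]
    by_cases h1 : i = j
    · subst h1
      simp [hL.1]
    · simp [h1]

theorem deg_G1 (N : ℕ) (g : Fin d → Matrix m m F) (j : Fin d) (a b : m) :
    (G1 N g j a b).totalDegree ≤ N := by
  unfold G1
  rw [Matrix.sum_apply]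
  refine totalDegree_finsetSum_le fun k hk => ?_
  rw [Matrix.smul_apply, smul_eq_mul, Matrix.map_apply]
  refine (totalDegree_mul _ _).trans ?_
  rw [totalDegree_C, add_zero]
  exact (totalDegree_bn k j).trans (Finset.mem_range.1 hk).le

theorem deg_list (N : ℕ) (g : Fin d → Matrix m m F) (L : List (Fin d)) (a b : m) :
    ((L.map (G1 N g)).prod a b).totalDegree ≤ L.length * N := by
  induction L generalizing a b with
  | nil =>
    rw [List.map_nil, List.prod_nil]
    by_cases h : a = b
    · subst h; simp
    · simp [Matrix.one_apply_ne h]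
  | cons j L ih =>
    rw [List.map_cons, List.prod_cons, Matrix.mul_apply]
    refine totalDegree_finsetSum_le fun k _ => ?_
    refine (totalDegree_mul _ _).trans ?_
    rw [List.length_cons, Nat.succ_mul, add_comm]
    exact Nat.add_le_add (ih k b) (deg_G1 N g j a k)

theorem degree_le_one {β : Fin d →₀ ℕ} (h : β.degree ≤ 1) :
    β = 0 ∨ ∃ j, β = Finsupp.single j 1 := by
  classical
  by_cases h0 : β = 0
  · exact Or.inl h0
  right
  obtain ⟨j, hj⟩ : ∃ j, β j ≠ 0 := by
    by_contra hcon
    push Not at hcon
    exact h0 (Finsupp.ext hcon)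
  refine ⟨j, Finsupp.ext fun i => ?_⟩
  have hs : β.degree = ∑ i, β i := by
    rw [Finsupp.degree_eq_sum]
  by_cases hij : i = j
  · subst hij
    have h1 : β i ≤ ∑ i, β i := Finset.single_le_sum (fun _ _ => Nat.zero_le _) (Finset.mem_univ i)
    rw [Finsupp.single_eq_same]
    omega
  · rw [Finsupp.single_apply, if_neg (fun h => hij h.symm)]
    have h1 : β i + β j ≤ ∑ i, β i := by
      rw [← Finset.sum_pair hij]
      exact Finset.sum_le_sum_of_subset (Finset.subset_univ _)
    omega

/-- **The counting lemma.** A finite multiplicatively closed set of matrices which contains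
unipotent matrices with linearly independent logarithms is large. -/
theorem card_ge [Fintype F] {N M : ℕ} (hN0 : 0 < N) (hN : ∀ k < N, (k.factorial : F) ≠ 0)
    (hF : ∀ t : F, ∃ a : ℕ, t = (a : F)) {g : Fin d → Matrix m m F}
    (hg : ∀ j, (g j - 1) ^ N = 0) (hli : LinearIndependent F fun j => lg N (g j))
    (S : Finset (Matrix m m F)) (h1 : 1 ∈ S) (hmul : ∀ x ∈ S, ∀ y ∈ S, x * y ∈ S)
    (hgS : ∀ j, g j ∈ S) (hM : d * (M * (d * N)) ≤ Fintype.card F - 1) : (M + 1) ^ d ≤ S.card := by
  classical
  have hpow : ∀ j (a : ℕ), g j ^ a ∈ S := by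
    intro j a
    induction a with
    | zero => rw [pow_zero]; exact h1
    | succ a ih => rw [pow_succ]; exact hmul _ ih _ (hgS j)
  have hlist : ∀ L : List (Matrix m m F), (∀ x ∈ L, x ∈ S) → L.prod ∈ S := by
    intro L
    induction L with
    | nil => intro _; rw [List.prod_nil]; exact h1
    | cons x L ih =>
      intro h
      rw [List.prod_cons]
      exact hmul _ (h x (List.mem_cons_self ..)) _ (ih fun y hy => h y (List.mem_cons_of_mem _ hy))
  -- the dual functionals
  obtain ⟨f, hf⟩ := LinearMap.exists_leftInverse_of_injective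
    (Fintype.linearCombination F fun j => lg N (g j)) (by
      rw [LinearMap.ker_eq_bot]
      exact hli.fintypeLinearCombination_injective)
  have hfl : ∀ j, f (lg N (g j)) = Pi.single j 1 := by
    intro j
    have h2 := LinearMap.congr_fun hf (Pi.single j 1)
    rw [LinearMap.comp_apply, Fintype.linearCombination_apply_single, one_smul,
      LinearMap.id_apply] at h2
    exact h2
  have hfs : ∀ (X : Matrix m m F) (i : Fin d),
      f X i = ∑ a, ∑ b, f (Matrix.single a b 1) i * X a b := by
    intro X i
    conv_lhs => rw [Matrix.matrix_eq_sum_single X]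
    rw [map_sum, Finset.sum_apply]
    refine Finset.sum_congr rfl fun a _ => ?_
    rw [map_sum, Finset.sum_apply]
    refine Finset.sum_congr rfl fun b _ => ?_
    have h3 : Matrix.single a b (X a b) = X a b • Matrix.single a b (1 : F) := by
      rw [Matrix.smul_single, smul_eq_mul, mul_one]
    rw [h3, map_smul, Pi.smul_apply, smul_eq_mul, mul_comm]
  set P := ((List.finRange d).map (G1 N g)).prod with hP
  have hPlow := lowM_list hN0 (g := g) hN (List.finRange d) (List.nodup_finRange d)
  rw [← hP] at hPlow
  let p : Fin d → MvPolynomial (Fin d) F := fun i =>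
    ∑ a, ∑ b, C (f (Matrix.single a b 1) i) * P a b - C (f 1 i)
  have hplow : ∀ i, Low (p i) (Finsupp.single i 1) := by
    intro i β hβ
    rw [Finsupp.degree_single] at hβ
    rcases degree_le_one hβ with rfl | ⟨j, rfl⟩
    · have h2 : (0 : Fin d →₀ ℕ) ≠ Finsupp.single i 1 := by
        intro h
        have := DFunLike.congr_fun h i
        simp at this
      rw [if_neg h2]
      change coeff 0 (∑ a, ∑ b, C (f (Matrix.single a b 1) i) * P a b - C (f 1 i)) = 0
      rw [coeff_sub, coeff_sum, coeff_zero_C, hfs 1 i, sub_eq_zero]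
      refine Finset.sum_congr rfl fun a _ => ?_
      rw [coeff_sum]
      refine Finset.sum_congr rfl fun b _ => ?_
      rw [coeff_C_mul, hPlow.1]
    · change coeff (Finsupp.single j 1)
        (∑ a, ∑ b, C (f (Matrix.single a b 1) i) * P a b - C (f 1 i)) = _
      have h3 : coeff (Finsupp.single j 1) (C (f 1 i) : MvPolynomial (Fin d) F) = 0 := by
        rw [coeff_C, if_neg]
        intro h
        have := DFunLike.congr_fun h j
        simp at this
      rw [coeff_sub, h3, sub_zero, coeff_sum]
      have h4 : ∑ a, coeff (Finsupp.single j 1) (∑ b, C (f (Matrix.single a b 1) i) * P a b) =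
          f (lg N (g j)) i := by
        rw [hfs]
        refine Finset.sum_congr rfl fun a _ => ?_
        rw [coeff_sum]
        refine Finset.sum_congr rfl fun b _ => ?_
        rw [coeff_C_mul, hPlow.2]
        beta_reduce
        rw [if_pos (List.mem_finRange j)]
      rw [h4, hfl, Pi.single_apply]
      by_cases h5 : i = j
      · subst h5; rw [if_pos rfl, if_pos rfl]
      · rw [if_neg h5, if_neg]
        intro h6
        exact h5 (Finsupp.single_left_injective one_ne_zero h6).symm
  have hpdeg : ∀ i, (p i).totalDegree ≤ d * N := by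
    intro i
    refine (totalDegree_sub_C_le _ _).trans ?_
    refine totalDegree_finsetSum_le fun a _ => totalDegree_finsetSum_le fun b _ => ?_
    refine (totalDegree_mul _ _).trans ?_
    rw [totalDegree_C, zero_add]
    refine (deg_list N g _ a b).trans ?_
    rw [List.length_finRange]
  let φ : (Fin d → Fin (M + 1)) → (S → F) := fun α s => ∏ i, (f s.1 i - f 1 i) ^ (α i : ℕ)
  have hφ : LinearIndependent F φ := by
    rw [Fintype.linearIndependent_iff]
    intro c hc
    refine indep_of_low hplow hpdeg hM c fun t => ?_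
    choose a ha using fun j => hF (t j)
    have hE : (eval t).mapMatrix P = ((List.finRange d).map fun j => g j ^ a j).prod := by
      rw [hP, map_list_prod, List.map_map]
      congr 1
      refine List.map_congr_left fun j _ => ?_
      exact eval_G1 (hg j) hN t (ha j)
    have hmem : (eval t).mapMatrix P ∈ S := by
      rw [hE]
      apply hlist
      intro x hx
      rw [List.mem_map] at hx
      obtain ⟨j, _, rfl⟩ := hx
      exact hpow j _
    have h2 := congrFun hc ⟨_, hmem⟩
    rw [Finset.sum_apply] at h2
    rw [Pi.zero_apply] at h2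
    rw [← h2]
    refine Finset.sum_congr rfl fun α _ => ?_
    rw [Pi.smul_apply, smul_eq_mul]
    congr 1
    refine Finset.prod_congr rfl fun i _ => ?_
    congr 1
    change eval t (∑ a, ∑ b, C (f (Matrix.single a b 1) i) * P a b - C (f 1 i)) = _
    rw [map_sub, eval_C, map_sum, hfs ((eval t).mapMatrix P) i]
    congr 1
    refine Finset.sum_congr rfl fun x _ => ?_
    rw [map_sum]
    refine Finset.sum_congr rfl fun y _ => ?_
    rw [map_mul, eval_C, RingHom.mapMatrix_apply, Matrix.map_apply]
  have h2 := hφ.fintype_card_le_finrank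
  rw [Fintype.card_fun, Fintype.card_fin, Fintype.card_fin, Module.finrank_fintype_fun_eq_card,
    Fintype.card_coe] at h2
  exact h2

end Pool.Agent.Y127.I
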