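import Pool.Agent.Y127.I.Diff

/-!
# Groups which contain an Eichler transformation
-/

set_option linter.unusedSectionVars false

namespace Pool.Agent.Y127.I

open Module

section lin

variable {F : Type} [Field F] {V : Type} [AddCommGroup V] [Module F V]
  {B : V →ₗ[F] V →ₗ[F] F}

theorem bk_mem_of4 {M : Submodule F (End F V)} {N X : End F V} (h24 : (24 : F) ≠ 0)
    (h : ∀ s : F, s = 1 ∨ s = -1 ∨ s = 2 ∨ s = -2 →
      (1 + (2 * s) • N + (2 * s ^ 2) • (N * N)) * X *
      (1 + (2 * -s) • N + (2 * (-s) ^ 2) • (N * N)) ∈ M) : bk N X ∈ M := by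
  have h1 := h 1 (Or.inl rfl)
  have h2 := h (-1) (Or.inr (Or.inl rfl))
  have h3 := h 2 (Or.inr (Or.inr (Or.inl rfl)))
  have h4 := h (-2) (Or.inr (Or.inr (Or.inr rfl)))
  have key : (24 : F) • bk N X =
      (8 : F) • ((1 + (2 * (1 : F)) • N + (2 * (1 : F) ^ 2) • (N * N)) * X *
      (1 + (2 * -(1 : F)) • N + (2 * (-(1 : F)) ^ 2) • (N * N)) -
      (1 + (2 * (-1 : F)) • N + (2 * (-1 : F) ^ 2) • (N * N)) * X *
      (1 + (2 * -(-1 : F)) • N + (2 * (-(-1 : F)) ^ 2) • (N * N))) -
      ((1 + (2 * (2 : F)) • N + (2 * (2 : F) ^ 2) • (N * N)) * X *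
      (1 + (2 * -(2 : F)) • N + (2 * (-(2 : F)) ^ 2) • (N * N)) -
      (1 + (2 * (-2 : F)) • N + (2 * (-2 : F) ^ 2) • (N * N)) * X *
      (1 + (2 * -(-2 : F)) • N + (2 * (-(-2 : F)) ^ 2) • (N * N))) := by
    unfold bk
    simp only [mul_add, add_mul, one_mul, mul_one, smul_mul_assoc, mul_smul_comm, smul_smul,
      mul_assoc]
    module
  have h5 : (24 : F) • bk N X ∈ M := by
    rw [key]
    exact M.sub_mem (M.smul_mem _ (M.sub_mem h1 h2)) (M.sub_mem h3 h4)
  have h6 := M.smul_mem (24 : F)⁻¹ h5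
  rwa [smul_smul, inv_mul_cancel₀ h24, one_smul] at h6

theorem Ee_add (hsy : ∀ x y, B x y = B y x) (h2 : (2 : F) ≠ 0) {e a : V} (h : Eic B e a)
    (s t : F) : Ee B (s • e) a * Ee B (t • e) a = Ee B ((s + t) • e) a := by
  unfold Ee
  have h3 := wl_cube hsy h
  simp only [map_smul, LinearMap.smul_apply]
  set N := wl B e a with hN
  have h4 : N * N * N = 0 := by rw [mul_assoc, h3]
  have h5 : N * N * (N * N) = 0 := by rw [mul_assoc, h3, mul_zero]
  simp only [mul_add, add_mul, mul_one, one_mul, smul_mul_assoc, mul_smul_comm, smul_smul, h3, h4,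
    h5, smul_zero, add_zero]
  have h6 : (2 : F)⁻¹ * (s * s) + 2⁻¹ * (t * s) + (2⁻¹ * (s * t) + 2⁻¹ * (t * t)) =
      2⁻¹ * (s * s) + t * s + 2⁻¹ * (t * t) := by
    field_simp
    ring
  rw [h6]
  module

theorem Ee_nat (hsy : ∀ x y, B x y = B y x) (h2 : (2 : F) ≠ 0) {e a : V} (h : Eic B e a) (k : ℕ) :
    Ee B ((k : F) • e) a = Ee B e a ^ k := by
  induction k with
  | zero =>
    rw [Nat.cast_zero, zero_smul, pow_zero]
    unfold Ee
    rw [map_zero, LinearMap.zero_apply, mul_zero, smul_zero, add_zero, add_zero]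
  | succ k ih =>
    rw [Nat.cast_succ, ← Ee_add hsy h2 h, one_smul, ih, pow_succ]

variable {Γ : Type} [Group Γ]

theorem conj_Ee {g g' : End F V} (hg : ∀ x y, B (g x) (g y) = B x y) (hgg : g * g' = 1)
    (hgg' : g' * g = 1) (e a : V) : g * Ee B e a * g' = Ee B (g e) (g a) := by
  have h1 := conj_wl hg hgg e a
  have h2 : g * (wl B e a * wl B e a) * g' = wl B (g e) (g a) * wl B (g e) (g a) := by
    rw [← h1]
    calc g * (wl B e a * wl B e a) * g' = g * wl B e a * (g' * g) * wl B e a * g' := by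
          rw [hgg', mul_one]; simp only [mul_assoc]
      _ = _ := by simp only [mul_assoc]
  unfold Ee
  rw [mul_add, mul_add, add_mul, add_mul, mul_one, hgg, h1, mul_smul_comm, smul_mul_assoc, h2]

theorem g_inv_mul (g : Γ →* End F V) (γ : Γ) : g γ⁻¹ * g γ = 1 := by
  rw [← map_mul, inv_mul_cancel, map_one]

theorem g_mul_inv (g : Γ →* End F V) (γ : Γ) : g γ * g γ⁻¹ = 1 := by
  rw [← map_mul, mul_inv_cancel, map_one]

theorem Eic.map {g : End F V} (hg : ∀ x y, B (g x) (g y) = B x y) {e a : V} (h : Eic B e a) :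
    Eic B (g e) (g a) :=
  ⟨by rw [hg, h.ee], by rw [hg, h.ea], by rw [hg]; exact h.aa⟩

/-- Stability under the group gives stability under the Eichler operators. -/
theorem ad_cusp (hsy : ∀ x y, B x y = B y x) (h24 : (24 : F) ≠ 0) (g : Γ →* End F V)
    (hg : ∀ γ x y, B (g γ x) (g γ y) = B x y) {γ₀ : Γ} {e a : V} (h : Eic B e a)
    (h0 : g γ₀ = Ee B e a) {M : Submodule F (End F V)}
    (hst : ∀ γ, ∀ X ∈ M, g γ * X * g γ⁻¹ ∈ M) (γ : Γ) {X : End F V} (hX : X ∈ M) :
    bk (wl B (g γ e) (g γ a)) X ∈ M := by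
  have h2 : (2 : F) ≠ 0 := by
    intro h0
    apply h24
    rw [show (24 : F) = 2 * 12 by norm_num, h0, zero_mul]
  set e' := g γ e with he'
  set a' := g γ a with ha'
  have hE : Eic B e' a' := h.map (hg γ)
  set δ := γ * γ₀ * γ⁻¹ with hδ
  have hgδ : g δ = Ee B e' a' := by
    rw [hδ, map_mul, map_mul, h0, conj_Ee (hg γ) (g_mul_inv g γ) (g_inv_mul g γ)]
  have hk : ∀ k : ℕ, g (δ ^ k) = Ee B ((k : F) • e') a' := by
    intro k
    rw [map_pow, hgδ, Ee_nat hsy h2 hE]
  have hk' : ∀ k : ℕ, g (δ ^ k)⁻¹ = Ee B (-((k : F) • e')) a' := by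
    intro k
    have h3 : Ee B (-((k : F) • e')) a' * g (δ ^ k) = 1 := by
      rw [hk]
      have h4 := Ee_mul hsy h2 (hE.smul (-(k : F)))
      rwa [neg_smul, neg_neg] at h4
    calc g (δ ^ k)⁻¹ = Ee B (-((k : F) • e')) a' * g (δ ^ k) * g (δ ^ k)⁻¹ := by rw [h3, one_mul]
      _ = _ := by rw [mul_assoc, g_mul_inv, mul_one]
  refine bk_mem_of4 h24 fun s hs => ?_
  rw [← Ee_smul h2 s, ← Ee_smul h2 (-s)]
  rcases hs with rfl | rfl | rfl | rfl
  · have h3 := hst (δ ^ 2) X hX
    rw [hk, hk', Nat.cast_ofNat] at h3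
    rw [mul_one, mul_neg, mul_one, neg_smul]
    exact h3
  · have h3 := hst (δ ^ 2)⁻¹ X hX
    rw [inv_inv, hk, hk', Nat.cast_ofNat] at h3
    rw [mul_neg, mul_one, neg_smul, neg_neg, mul_one]
    exact h3
  · have h3 := hst (δ ^ 4) X hX
    rw [hk, hk', Nat.cast_ofNat] at h3
    rw [show (2 : F) * 2 = 4 by norm_num, mul_neg, show (2 : F) * 2 = 4 by norm_num, neg_smul]
    exact h3
  · have h3 := hst (δ ^ 4)⁻¹ X hX
    rw [inv_inv, hk, hk', Nat.cast_ofNat] at h3
    rw [mul_neg, show (2 : F) * 2 = 4 by norm_num, neg_smul, neg_neg,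
      show (2 : F) * 2 = 4 by norm_num]
    exact h3

/-- Propagation. -/
theorem wl_prop (hsy : ∀ x y, B x y = B y x) {L : Submodule F (End F V)} {x w y z : V}
    (hx : Eic B x w) (hX : wl B x w ∈ L) (hadX : ∀ Z ∈ L, bk (wl B x w) Z ∈ L)
    (hyz : wl B y z ∈ L) (hxy : B x y ≠ 0) (hxz : B x z = 0) : wl B x z ∈ L := by
  set X := wl B x w with hXd
  have hXs : X ∈ so B := wl_mem hsy x w
  have hwx : B w x = 0 := by rw [hsy, hx.ea]
  have e1 : X x = 0 := by
    rw [hXd, wl_apply, hwx, hx.ee, zero_smul, zero_smul, sub_zero]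
  have e2 : X w = B w w • x := by
    rw [hXd, wl_apply, hx.ea, zero_smul, sub_zero]
  have e3 : X y = B w y • x - B x y • w := by rw [hXd, wl_apply]
  have e4 : X z = B w z • x := by rw [hXd, wl_apply, hxz, zero_smul, sub_zero]
  have key : bk X (bk X (wl B y z)) = -(B x y * B w w) • wl B x z +
      (2 * (B x y * B w z)) • wl B x w := by
    rw [bk_wl hXs, bk_add, bk_wl hXs, bk_wl hXs, e3, e4]
    simp only [map_sub, map_smul, e1, e2, LinearMap.sub_apply, LinearMap.smul_apply, smul_zero,
      map_zero, LinearMap.zero_apply, zero_sub, map_neg, LinearMap.neg_apply, add_zero, wl_self]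
    rw [wl_swap x w]
    module
  have h1 := hadX _ (hadX _ hyz)
  rw [key] at h1
  have h2 := L.sub_mem h1 (L.smul_mem (2 * (B x y * B w z)) hX)
  rw [add_sub_cancel_right] at h2
  have h3 := L.smul_mem (-(B x y * B w w))⁻¹ h2
  rwa [smul_smul, inv_mul_cancel₀ (neg_ne_zero.2 (mul_ne_zero hxy hx.aa)), one_smul] at h3

/-- The base case. -/
theorem wl_base (hsy : ∀ x y, B x y = B y x) {L : Submodule F (End F V)} {x w y w' : V}
    (hx : Eic B x w) (hy : Eic B y w') (hX : wl B x w ∈ L) (hY : wl B y w' ∈ L)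
    (hadX : ∀ Z ∈ L, bk (wl B x w) Z ∈ L) (hadY : ∀ Z ∈ L, bk (wl B y w') Z ∈ L)
    (hxy : B x y ≠ 0) : wl B x y ∈ L := by
  set X := wl B x w with hXd
  set Y := wl B y w' with hYd
  have hXs : X ∈ so B := wl_mem hsy x w
  have hYs : Y ∈ so B := wl_mem hsy y w'
  have hwx : B w x = 0 := by rw [hsy, hx.ea]
  have hwy : B w' y = 0 := by rw [hsy, hy.ea]
  have hyx : B y x = B x y := hsy y x
  have hwx' : B w' x = B x w' := hsy w' x
  have e1 : X x = 0 := by
    rw [hXd, wl_apply, hwx, hx.ee, zero_smul, zero_smul, sub_zero]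
  have e2 : X w = B w w • x := by
    rw [hXd, wl_apply, hx.ea, zero_smul, sub_zero]
  have e3 : X y = B w y • x - B x y • w := by rw [hXd, wl_apply]
  have e4 : X w' = B w w' • x - B x w' • w := by rw [hXd, wl_apply]
  have key : bk X (bk X (wl B y w')) = (B w w) • (B x w' • wl B x y - B x y • wl B x w') +
      (2 * (B x y * B w w' - B w y * B x w')) • wl B x w := by
    rw [bk_wl hXs, bk_add, bk_wl hXs, bk_wl hXs, e3, e4]
    simp only [map_sub, map_smul, e1, e2, LinearMap.sub_apply, LinearMap.smul_apply, smul_zero,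
      map_zero, LinearMap.zero_apply, zero_sub, map_neg, LinearMap.neg_apply, sub_zero, wl_self]
    rw [wl_swap x w, wl_swap x y]
    module
  have h1 := hadX _ (hadX _ hY)
  rw [key] at h1
  have h2 := L.sub_mem h1 (L.smul_mem (2 * (B x y * B w w' - B w y * B x w')) hX)
  rw [add_sub_cancel_right] at h2
  have h3 := L.smul_mem (B w w)⁻¹ h2
  rw [smul_smul, inv_mul_cancel₀ hx.aa, one_smul] at h3
  have h4 : B x w' • wl B x y - B x y • wl B x w' = wl B x (Y x) := by
    rw [hYd, wl_apply, map_sub, map_smul, map_smul, hyx, hwx']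
  rw [h4] at h3
  have h5 := hadY _ h3
  rw [bk_wl hYs, wl_self, zero_add] at h5
  have h6 : Y (Y x) = -(B x y * B w' w') • y := by
    have f1 : Y x = B w' x • y - B y x • w' := by rw [hYd, wl_apply]
    have f2 : Y y = 0 := by rw [hYd, wl_apply, hwy, hy.ee, zero_smul, zero_smul, sub_zero]
    have f3 : Y w' = B w' w' • y := by rw [hYd, wl_apply, hy.ea, zero_smul, sub_zero]
    rw [f1, map_sub, map_smul, map_smul, f2, f3, smul_zero, zero_sub, smul_smul, hyx, neg_smul]
  rw [h6, map_smul] at h5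
  have h7 := L.smul_mem (-(B x y * B w' w'))⁻¹ h5
  rwa [smul_smul, inv_mul_cancel₀ (neg_ne_zero.2 (mul_ne_zero hxy hy.aa)), one_smul] at h7

/-- All the operators `x ∧ y` are obtained. -/
theorem wl_all (hsy : ∀ x y, B x y = B y x) (g : Γ →* End F V)
    (hg : ∀ γ x y, B (g γ x) (g γ y) = B x y) {e a : V} (h : Eic B e a)
    (hspan : Submodule.span F (Set.range fun γ => g γ e) = ⊤)
    (hconn : ∀ γ δ, Relation.ReflTransGen (fun γ δ => B (g γ e) (g δ e) ≠ 0) γ δ)
    {L : Submodule F (End F V)} (hX : ∀ γ, wl B (g γ e) (g γ a) ∈ L)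
    (had : ∀ γ, ∀ Z ∈ L, bk (wl B (g γ e) (g γ a)) Z ∈ L) (x y : V) : wl B x y ∈ L := by
  have h1 : ∀ γ δ, wl B (g γ e) (g δ e) ∈ L := by
    intro γ δ
    induction hconn δ γ with
    | refl => rw [wl_self]; exact L.zero_mem
    | @tail β γ _ hβγ ih =>
      have hne : B (g γ e) (g β e) ≠ 0 := by rw [hsy]; exact hβγ
      by_cases h0 : B (g γ e) (g δ e) = 0
      · exact wl_prop hsy (h.map (hg γ)) (hX γ) (had γ) ih hne h0
      · exact wl_base hsy (h.map (hg γ)) (h.map (hg δ)) (hX γ) (hX δ) (had γ) (had δ) h0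
  have h2 : ∀ δ (x : V), wl B x (g δ e) ∈ L := by
    intro δ x
    have hx : x ∈ Submodule.span F (Set.range fun γ => g γ e) := by rw [hspan]; trivial
    induction hx using Submodule.span_induction with
    | mem x hx => obtain ⟨γ, rfl⟩ := hx; exact h1 γ δ
    | zero => rw [map_zero, LinearMap.zero_apply]; exact L.zero_mem
    | add x y _ _ hx hy => rw [map_add, LinearMap.add_apply]; exact L.add_mem hx hy
    | smul c x _ hx => rw [map_smul, LinearMap.smul_apply]; exact L.smul_mem _ hx
  have hy : y ∈ Submodule.span F (Set.range fun γ => g γ e) := by rw [hspan]; trivial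
  induction hy using Submodule.span_induction with
  | mem y hy => obtain ⟨γ, rfl⟩ := hy; exact h2 γ x
  | zero => rw [map_zero]; exact L.zero_mem
  | add y z _ _ hy hz => rw [map_add]; exact L.add_mem hy hz
  | smul c y _ hy => rw [map_smul]; exact L.smul_mem _ hy

/-- Irreducibility under the subgroups of small index. -/
def SIrr (g : Γ →* End F V) : Prop :=
  ∀ Δ : Subgroup Γ, Δ.index ≠ 0 → Δ.index ≤ finrank F V →
    ∀ W : Submodule F V, (∀ γ ∈ Δ, ∀ x ∈ W, g γ x ∈ W) → W = ⊥ ∨ W = ⊤

theorem span_of_sirr [FiniteDimensional F V] {g : Γ →* End F V} (hs : SIrr g) {e : V}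
    (he : e ≠ 0) : Submodule.span F (Set.range fun γ => g γ e) = ⊤ := by
  have hV : 0 < finrank F V := by
    haveI : Nontrivial V := ⟨⟨e, 0, he⟩⟩
    exact finrank_pos
  rcases hs ⊤ (by rw [Subgroup.index_top]; exact one_ne_zero)
    (by rw [Subgroup.index_top]; exact hV) (Submodule.span F (Set.range fun γ => g γ e)) (by
      intro γ _ x hx
      induction hx using Submodule.span_induction with
      | mem x hx =>
        obtain ⟨δ, rfl⟩ := hx
        exact Submodule.subset_span ⟨γ * δ, by change g (γ * δ) e = g γ (g δ e); rw [map_mul]; rfl⟩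
      | zero => rw [map_zero]; exact Submodule.zero_mem _
      | add x y _ _ hx hy => rw [map_add]; exact Submodule.add_mem _ hx hy
      | smul c x _ hx => rw [map_smul]; exact Submodule.smul_mem _ _ hx) with h | h
  · exfalso
    apply he
    have h1 : e ∈ Submodule.span F (Set.range fun γ => g γ e) :=
      Submodule.subset_span ⟨1, by change g 1 e = e; rw [map_one]; rfl⟩
    rwa [h, Submodule.mem_bot] at h1
  · exact h

theorem conn_of_sirr [FiniteDimensional F V] (hsy : ∀ x y, B x y = B y x)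
    (hnd : ∀ x, (∀ y, B x y = 0) → x = 0) {g : Γ →* End F V}
    (hg : ∀ γ x y, B (g γ x) (g γ y) = B x y) (hs : SIrr g) {e : V} (he : e ≠ 0) (γ δ : Γ) :
    Relation.ReflTransGen (fun γ δ => B (g γ e) (g δ e) ≠ 0) γ δ := by
  set R : Γ → Γ → Prop := fun γ δ => B (g γ e) (g δ e) ≠ 0 with hR
  have hRs : ∀ a b, R a b → R b a := by
    intro a b h
    rw [hR] at h ⊢
    simp only at h ⊢
    rwa [hsy]
  have hsymm : ∀ a b, Relation.ReflTransGen R a b → Relation.ReflTransGen R b a := by
    intro a b h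
    induction h with
    | refl => exact Relation.ReflTransGen.refl
    | @tail b c _ hbc ih => exact Relation.ReflTransGen.head (hRs b c hbc) ih
  have hinv : ∀ c a b, Relation.ReflTransGen R a b → Relation.ReflTransGen R (c * a) (c * b) := by
    intro c a b h
    induction h with
    | refl => exact Relation.ReflTransGen.refl
    | @tail b d _ hbd ih =>
      refine ih.tail ?_
      rw [hR] at hbd ⊢
      simp only at hbd ⊢
      rw [map_mul, map_mul]
      change B (g c (g b e)) (g c (g d e)) ≠ 0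
      rwa [hg]
  let Δ : Subgroup Γ :=
    { carrier := {γ | Relation.ReflTransGen R 1 γ}
      one_mem' := Relation.ReflTransGen.refl
      mul_mem' := by
        intro a b ha hb
        have h1 := hinv a 1 b hb
        rw [mul_one] at h1
        exact Relation.ReflTransGen.trans ha h1
      inv_mem' := by
        intro a ha
        have h1 := hinv a⁻¹ 1 a ha
        rw [mul_one, inv_mul_cancel] at h1
        exact hsymm _ _ h1 }
  have hmem : ∀ a b, Relation.ReflTransGen R a b ↔ a⁻¹ * b ∈ Δ := by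
    intro a b
    constructor
    · intro h
      have h1 := hinv a⁻¹ a b h
      rw [inv_mul_cancel] at h1
      exact h1
    · intro h
      have h1 := hinv a 1 (a⁻¹ * b) h
      rwa [mul_one, mul_inv_cancel_left] at h1
  have hspan := span_of_sirr hs he
  have hpart : ∀ a, ∃ b, R a b := by
    intro a
    by_contra hcon
    push Not at hcon
    have h1 : g a e = 0 := by
      refine hnd _ fun y => ?_
      have hy : y ∈ Submodule.span F (Set.range fun γ => g γ e) := by rw [hspan]; trivial
      induction hy using Submodule.span_induction with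
      | mem y hy =>
        obtain ⟨b, rfl⟩ := hy
        have h2 := hcon b
        rw [hR] at h2
        simpa using h2
      | zero => rw [map_zero]
      | add y z _ _ hy hz => rw [map_add, hy, hz, add_zero]
      | smul c y _ hy => rw [map_smul, hy, smul_zero]
    apply he
    have h2 : g a⁻¹ (g a e) = e := by
      have h3 := congrArg (fun f : End F V => f e) (g_inv_mul g a)
      exact h3
    rw [← h2, h1, map_zero]
  choose P hP using hpart
  have hidx := relIndex_le_of (H := Δ) (K := (⊤ : Subgroup Γ)) (C := finrank F V)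
    fun k c _ hc => by
      have hli : LinearIndependent F fun i => g (c i) e := by
        rw [Fintype.linearIndependent_iff]
        intro f hf j
        have h1 := congrArg (fun x => B x (g (P (c j)) e)) hf
        simp only [map_sum, map_smul, map_zero, LinearMap.zero_apply] at h1
        rw [LinearMap.sum_apply, Finset.sum_eq_single j] at h1
        · rw [LinearMap.smul_apply, smul_eq_mul] at h1
          exact (mul_eq_zero.1 h1).resolve_right (hP (c j))
        · intro i _ hij
          rw [LinearMap.smul_apply, smul_eq_mul]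
          have h2 : B (g (c i) e) (g (P (c j)) e) = 0 := by
            by_contra hne
            apply hc i j hij
            rw [← hmem]
            exact (Relation.ReflTransGen.single hne).tail (hRs _ _ (hP (c j)))
          rw [h2, mul_zero]
        · intro h
          exact absurd (Finset.mem_univ j) h
      have h1 := hli.fintype_card_le_finrank
      rwa [Fintype.card_fin] at h1
  rw [Subgroup.relIndex_top_right] at hidx
  set W : Submodule F V := Submodule.span F {x | ∃ γ ∈ Δ, x = g γ e} with hW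
  have hWtop : W = ⊤ := by
    rcases hs Δ hidx.1 hidx.2 W (by
      intro γ hγ x hx
      induction hx using Submodule.span_induction with
      | mem x hx =>
        obtain ⟨δ, hδ, rfl⟩ := hx
        exact Submodule.subset_span ⟨γ * δ, Δ.mul_mem hγ hδ, by rw [map_mul]; rfl⟩
      | zero => rw [map_zero]; exact Submodule.zero_mem _
      | add x y _ _ hx hy => rw [map_add]; exact Submodule.add_mem _ hx hy
      | smul c x _ hx => rw [map_smul]; exact Submodule.smul_mem _ _ hx) with h | h
    · exfalso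
      apply he
      have h1 : e ∈ W := Submodule.subset_span ⟨1, Δ.one_mem, by rw [map_one]; rfl⟩
      rwa [h, Submodule.mem_bot] at h1
    · exact h
  have hall : ∀ γ, γ ∈ Δ := by
    intro γ
    by_contra hγ
    have h1 : g γ e = 0 := by
      refine hnd _ fun y => ?_
      have hy : y ∈ W := by rw [hWtop]; trivial
      induction hy using Submodule.span_induction with
      | mem y hy =>
        obtain ⟨δ, hδ, rfl⟩ := hy
        by_contra hne
        apply hγ
        exact Relation.ReflTransGen.tail hδ (hRs _ _ hne)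
      | zero => rw [map_zero]
      | add y z _ _ hy hz => rw [map_add, hy, hz, add_zero]
      | smul c y _ hy => rw [map_smul, hy, smul_zero]
    apply he
    have h2 : g γ⁻¹ (g γ e) = e := congrArg (fun f : End F V => f e) (g_inv_mul g γ)
    rw [← h2, h1, map_zero]
  rw [hmem]
  exact hall _

/-- **Irreducibility of `so` from an Eichler transformation.** -/
theorem cusp_so [FiniteDimensional F V] (hsy : ∀ x y, B x y = B y x)
    (hnd : ∀ x, (∀ y, B x y = 0) → x = 0) (h24 : (24 : F) ≠ 0) {g : Γ →* End F V}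
    (hg : ∀ γ x y, B (g γ x) (g γ y) = B x y) (hs : SIrr g) {γ₀ : Γ} {e a : V}
    (h : Eic B e a) (he : e ≠ 0) (h0 : g γ₀ = Ee B e a) {M : Submodule F (End F V)}
    (hst : ∀ γ, ∀ X ∈ M, g γ * X * g γ⁻¹ ∈ M) (x y : V) {X : End F V} (hX : X ∈ M) :
    bk (wl B x y) X ∈ M := by
  let L : Submodule F (End F V) :=
    { carrier := {Y | ∀ X ∈ M, bk Y X ∈ M}
      zero_mem' := fun X _ => by rw [bk_zero_left]; exact M.zero_mem
      add_mem' := fun hY hY' X hX => by rw [bk_add_left]; exact M.add_mem (hY X hX) (hY' X hX)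
      smul_mem' := fun c Y hY X hX => by rw [bk_smul_left]; exact M.smul_mem _ (hY X hX) }
  have hXL : ∀ γ, wl B (g γ e) (g γ a) ∈ L := fun γ X hX =>
    ad_cusp hsy h24 g hg h h0 hst γ hX
  have had : ∀ γ, ∀ Z ∈ L, bk (wl B (g γ e) (g γ a)) Z ∈ L := by
    intro γ Z hZ X hX
    have h1 : bk (bk (wl B (g γ e) (g γ a)) Z) X = bk (wl B (g γ e) (g γ a)) (bk Z X) -
        bk Z (bk (wl B (g γ e) (g γ a)) X) := by
      unfold bk
      simp only [mul_sub, sub_mul, mul_assoc]
      abel
    rw [h1]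
    exact M.sub_mem (hXL γ _ (hZ X hX)) (hZ _ (hXL γ X hX))
  exact wl_all hsy g hg h (span_of_sirr hs he) (conn_of_sirr hsy hnd hg hs he) hXL had x y X hX

end lin

end Pool.Agent.Y127.I
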