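import Pool.Agent.Y127.I.Crit

/-!
# If the index is finite the characters are different
-/

set_option linter.unusedSectionVars false

namespace Pool.Agent.Y127.I

open Module Matrix Filter Topology

section field

variable {F : Type} [Field F] {m : ℕ}

theorem trace_smulR (f : (Fin m → F) →ₗ[F] F) (x : Fin m → F) :
    (LinearMap.toMatrix' (f.smulRight x)).trace = f x := by
  unfold Matrix.trace
  have h1 : x = ∑ i, x i • (Pi.single i (1 : F) : Fin m → F) := by
    ext j
    rw [Finset.sum_apply, Finset.sum_eq_single j]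
    · simp
    · intro i _ hij
      rw [Pi.smul_apply, Pi.single_eq_of_ne (Ne.symm hij), smul_zero]
    · intro h
      exact absurd (Finset.mem_univ j) h
  conv_rhs => rw [h1, map_sum]
  refine Finset.sum_congr rfl fun i _ => ?_
  rw [Matrix.diag_apply, LinearMap.toMatrix'_apply, map_smul, smul_eq_mul, mul_comm]
  have h2 : (fun j => if j = i then (1 : F) else 0) = Pi.single i (1 : F) := by
    ext j
    by_cases h : j = i
    · subst h; simp
    · rw [if_neg h, Pi.single_eq_of_ne h]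
  first
    | rw [h2]; rfl
    | rfl

/-- There is a skew matrix with nonzero trace of the square. -/
theorem exists_skew_sq {A : Matrix (Fin m) (Fin m) F}
    (hA : A.IsSymm) (hd : A.det ≠ 0) (h2 : (2 : F) ≠ 0) (hm : 3 ≤ m) :
    ∃ X ∈ soM A, (X * X).trace ≠ 0 := by
  obtain ⟨v, hv, hb⟩ := exists_ob hA hd h2
  set a0 : Fin m := ⟨0, by omega⟩
  set a1 : Fin m := ⟨1, by omega⟩
  have h01 : a0 ≠ a1 := by simp [a0, a1]
  refine ⟨LinearMap.toMatrix' (wl (bil A) (v a0) (v a1)), ?_, ?_⟩
  · rw [← toLin_mem_so, Matrix.toLin'_toMatrix']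
    exact wl_mem (bil_symm hA) _ _
  · set x := v a0
    set y := v a1
    have hxy : bil A x y = 0 := hv _ _ h01
    have hyx : bil A y x = 0 := hv _ _ (Ne.symm h01)
    have h3 : wl (bil A) x y * wl (bil A) x y =
        -((bil A x x) • (bil A y).smulRight y + (bil A y y) • (bil A x).smulRight x) := by
      apply LinearMap.ext
      intro z
      simp only [Module.End.mul_apply, wl_apply, map_sub, map_smul, hxy, hyx, smul_zero, sub_zero,
        LinearMap.neg_apply, LinearMap.add_apply, LinearMap.smul_apply, LinearMap.smulRight_apply,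
        zero_sub, zero_smul, smul_eq_mul, mul_zero]
      module
    rw [← LinearMap.toMatrix'_mul, h3, map_neg, map_add, map_smul, map_smul, Matrix.trace_neg,
      Matrix.trace_add, Matrix.trace_smul, Matrix.trace_smul, trace_smulR, trace_smulR,
      smul_eq_mul, smul_eq_mul]
    have h4 : -(bil A x x * bil A y y + bil A y y * bil A x x) = -(2 * (bil A x x * bil A y y)) := by
      ring
    rw [h4]
    exact neg_ne_zero.2 (mul_ne_zero h2 (mul_ne_zero (hb a0) (hb a1)))

/-- The second order identity. -/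
theorem second_order {α β U : Matrix (Fin m) (Fin m) F} {t : F} (ht : t ≠ 0) (h2 : (2 : F) ≠ 0)
    (hβ : β * α = 1) (hiso : (1 + t • U)ᵀ * α * (1 + t • U) = α)
    (htr : (1 + t • U).trace ^ 2 - ((1 + t • U) * (1 + t • U)).trace = (m : F) ^ 2 - m) :
    ((m : F) - 2) * (U * U).trace + ((m : F) - 1) * (t * (β * Uᵀ * α * (U * U)).trace) +
      U.trace ^ 2 = 0 := by
  have hα : α * β = 1 := mul_eq_one_comm.1 hβ
  have h1 : Uᵀ * α + α * U + t • (Uᵀ * α * U) = 0 := by
    have h3 : (1 + t • U)ᵀ * α * (1 + t • U) = α + t • (Uᵀ * α + α * U + t • (Uᵀ * α * U)) := by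
      rw [transpose_add, transpose_one, transpose_smul]
      simp only [add_mul, mul_add, one_mul, mul_one, Matrix.smul_mul, Matrix.mul_smul, smul_add,
        smul_smul]
      abel
    rw [h3] at hiso
    exact (smul_eq_zero.1 (add_eq_left.1 hiso)).resolve_left ht
  set V := β * Uᵀ * α with hV
  have h3 : V + U + t • (V * U) = 0 := by
    have h4 : β * (Uᵀ * α + α * U + t • (Uᵀ * α * U)) = V + U + t • (V * U) := by
      rw [mul_add, mul_add, ← mul_assoc β α, hβ, one_mul, Matrix.mul_smul, hV]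
      simp only [mul_assoc]
    rw [← h4, h1, mul_zero]
  have hVt : V.trace = U.trace := by
    rw [hV, Matrix.trace_mul_comm, ← mul_assoc, hα, one_mul, Matrix.trace_transpose]
  have e1 : 2 * U.trace + t * (V * U).trace = 0 := by
    have h4 := congrArg Matrix.trace h3
    rw [Matrix.trace_add, Matrix.trace_add, Matrix.trace_smul, hVt, Matrix.trace_zero,
      smul_eq_mul] at h4
    linear_combination h4
  have e2 : (V * U).trace + (U * U).trace + t * (V * (U * U)).trace = 0 := by
    have h4 := congrArg (fun x => (x * U).trace) h3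
    simp only [add_mul, zero_mul, Matrix.smul_mul, Matrix.trace_add, Matrix.trace_smul,
      Matrix.trace_zero, smul_eq_mul, mul_assoc] at h4
    exact h4
  have e3 : (2 * (m : F) - 2) * (t * U.trace) + t ^ 2 * (U.trace ^ 2 - (U * U).trace) = 0 := by
    have h5 : (1 + t • U).trace = (m : F) + t * U.trace := by
      rw [Matrix.trace_add, Matrix.trace_smul, Matrix.trace_one, Fintype.card_fin, smul_eq_mul]
    have h6 : ((1 + t • U) * (1 + t • U)).trace = (m : F) + 2 * (t * U.trace) +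
        t ^ 2 * (U * U).trace := by
      have h7 : (1 + t • U) * (1 + t • U) = 1 + (2 * t) • U + t ^ 2 • (U * U) := by
        simp only [add_mul, mul_add, one_mul, mul_one, Matrix.smul_mul, Matrix.mul_smul, smul_smul]
        module
      rw [h7, Matrix.trace_add, Matrix.trace_add, Matrix.trace_smul, Matrix.trace_smul,
        Matrix.trace_one, Fintype.card_fin, smul_eq_mul, smul_eq_mul]
      ring
    rw [h5, h6] at htr
    linear_combination htr
  have e4 : t ^ 2 * (((m : F) - 2) * (U * U).trace + ((m : F) - 1) * (t * (V * (U * U)).trace) +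
      U.trace ^ 2) = 0 := by
    linear_combination e3 - ((m : F) - 1) * t * e1 + ((m : F) - 1) * t ^ 2 * e2
  exact (mul_eq_zero.1 e4).resolve_left (pow_ne_zero _ ht)

end field

variable {p : ℕ} [hp : Fact p.Prime] {m : ℕ}

theorem diff_of_pow {a : Matrix (Fin m) (Fin m) ℤ_[p]} (ha : a.IsSymm) (had : a.det ≠ 0)
    (hm : 3 ≤ m) {q : ℕ} (hq : 0 < q) : ¬ ∀ g : Matrix (Fin m) (Fin m) ℤ_[p], gᵀ * a * g = a →
      (g ^ q).trace ^ 2 - (g ^ q * g ^ q).trace = (m : ℤ_[p]) ^ 2 - m := by
  intro hall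
  have has : (cm a).IsSymm := by
    rw [Matrix.IsSymm, ← cm_transpose, ha.eq]
  have hd : (cm a).det ≠ 0 := by
    have h1 : (cm a).det = ((a.det : ℤ_[p]) : ℚ_[p]) :=
      (RingHom.map_det (PadicInt.Coe.ringHom (p := p)) a).symm
    rw [h1]
    exact fun h => had (PadicInt.ext h)
  obtain ⟨Y, hY, hYne⟩ := exists_skew_sq has hd two_ne_zero hm
  set α := cm a with hα
  set β := α⁻¹ with hβ
  have hβα : β * α = 1 := nonsing_inv_mul _ (isUnit_iff_ne_zero.2 hd)
  have hαβ : α * β = 1 := mul_nonsing_inv _ (isUnit_iff_ne_zero.2 hd)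
  have key : ∀ e : ℕ, ∃ (k : ℕ) (Z : Matrix (Fin m) (Fin m) ℤ_[p]), e ≤ k ∧
      ((m : ℚ_[p]) - 2) * ((Y + (p : ℚ_[p]) ^ e • cm Z) * (Y + (p : ℚ_[p]) ^ e • cm Z)).trace +
      ((m : ℚ_[p]) - 1) * ((p : ℚ_[p]) ^ k * (β * (Y + (p : ℚ_[p]) ^ e • cm Z)ᵀ * α *
      ((Y + (p : ℚ_[p]) ^ e • cm Z) * (Y + (p : ℚ_[p]) ^ e • cm Z))).trace) +
      (Y + (p : ℚ_[p]) ^ e • cm Z).trace ^ 2 = 0 := by
    intro e
    obtain ⟨k1, hk1⟩ := tan_of_pow hq (a := a)
      (G := {h | ∃ g : Matrix (Fin m) (Fin m) ℤ_[p], gᵀ * a * g = a ∧ h = g ^ q})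
      (fun g hg => ⟨g, hg, rfl⟩) hY e
    obtain ⟨_, ⟨g, hg, rfl⟩, Z, hZ⟩ := hk1 (k1 + e) (by omega)
    refine ⟨k1 + e, Z, by omega, ?_⟩
    have hU : cm (g ^ q) = 1 + (p : ℚ_[p]) ^ (k1 + e) • (Y + (p : ℚ_[p]) ^ e • cm Z) := by
      rw [hZ, smul_add, smul_smul, ← pow_add, add_assoc]
    refine second_order (pow_ne_zero _ P_ne) two_ne_zero hβα ?_ ?_
    · rw [← hU, hα, ← cm_transpose, ← map_mul, ← map_mul]
      congr 1
      -- isometries are closed under powers
      have hpow : ∀ s : ℕ, (g ^ s)ᵀ * a * g ^ s = a := by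
        intro s
        induction s with
        | zero => rw [pow_zero, transpose_one, one_mul, mul_one]
        | succ s ih =>
          rw [pow_succ, transpose_mul]
          calc gᵀ * (g ^ s)ᵀ * a * (g ^ s * g) = gᵀ * ((g ^ s)ᵀ * a * g ^ s) * g := by
                simp only [mul_assoc]
            _ = a := by rw [ih, hg]
      exact hpow q
    · rw [← hU, ← map_mul, cm_trace, cm_trace]
      have h1 := congrArg (fun x : ℤ_[p] => (x : ℚ_[p])) (hall g hg)
      push_cast at h1
      exact h1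
  choose k Z hk hkey using key
  have hU : Tendsto (fun e => Y + (p : ℚ_[p]) ^ e • cm (Z e)) atTop (𝓝 Y) := by
    refine tendsto_pi_nhds.2 fun a => tendsto_pi_nhds.2 fun b => ?_
    have h2 : Tendsto (fun e => (p : ℚ_[p]) ^ e * ((Z e a b : ℤ_[p]) : ℚ_[p])) atTop (𝓝 0) := by
      refine squeeze_zero_norm (a := fun k => ((p : ℝ)⁻¹) ^ k) (fun k => ?_) ?_
      · rw [norm_mul, norm_pow, Padic.norm_p]
        refine mul_le_of_le_one_right (pow_nonneg ?_ _) (Z k a b).2
        exact inv_nonneg.2 (by exact_mod_cast hp.out.pos.le)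
      · exact tendsto_pow_atTop_nhds_zero_of_lt_one
          (inv_nonneg.2 (by exact_mod_cast hp.out.pos.le))
          (inv_lt_one_of_one_lt₀ (by exact_mod_cast hp.out.one_lt))
    have h3 := h2.const_add (Y a b)
    rw [add_zero] at h3
    exact h3
  have ht : Tendsto (fun e => (p : ℚ_[p]) ^ k e) atTop (𝓝 0) := by
    refine squeeze_zero_norm (a := fun e => ((p : ℝ)⁻¹) ^ e) (fun e => ?_) ?_
    · rw [norm_pow, Padic.norm_p]
      refine pow_le_pow_of_le_one (inv_nonneg.2 (by exact_mod_cast hp.out.pos.le)) ?_ (hk e)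
      exact inv_le_one_of_one_le₀ (by exact_mod_cast hp.out.one_lt.le)
    · exact tendsto_pow_atTop_nhds_zero_of_lt_one
        (inv_nonneg.2 (by exact_mod_cast hp.out.pos.le))
        (inv_lt_one_of_one_lt₀ (by exact_mod_cast hp.out.one_lt))
  have hcont : Continuous fun x : Matrix (Fin m) (Fin m) ℚ_[p] × ℚ_[p] =>
      ((m : ℚ_[p]) - 2) * (x.1 * x.1).trace +
      ((m : ℚ_[p]) - 1) * (x.2 * (β * x.1ᵀ * α * (x.1 * x.1)).trace) + x.1.trace ^ 2 := by
    have h1 : Continuous fun x : Matrix (Fin m) (Fin m) ℚ_[p] × ℚ_[p] => x.1 := continuous_fst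
    have h2 : Continuous fun x : Matrix (Fin m) (Fin m) ℚ_[p] × ℚ_[p] => x.1 * x.1 :=
      h1.matrix_mul h1
    have h3 : Continuous fun x : Matrix (Fin m) (Fin m) ℚ_[p] × ℚ_[p] =>
        β * x.1ᵀ * α * (x.1 * x.1) :=
      ((continuous_const.matrix_mul h1.matrix_transpose).matrix_mul continuous_const).matrix_mul h2
    exact ((continuous_const.mul h2.matrix_trace).add (continuous_const.mul
      (continuous_snd.mul h3.matrix_trace))).add (h1.matrix_trace.pow 2)
  have hlim := (hcont.tendsto (Y, 0)).comp (hU.prodMk_nhds ht)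
  have h0 : ((m : ℚ_[p]) - 2) * (Y * Y).trace +
      ((m : ℚ_[p]) - 1) * (0 * (β * Yᵀ * α * (Y * Y)).trace) + Y.trace ^ 2 = 0 := by
    refine tendsto_nhds_unique hlim ?_
    refine Tendsto.congr (fun e => (hkey e).symm) tendsto_const_nhds
  have hYt : Y.trace = 0 := by
    have h1 : Yᵀ * α + α * Y = 0 := hY
    have h3 : β * Yᵀ * α + Y = 0 := by
      have h4 : β * (Yᵀ * α + α * Y) = β * Yᵀ * α + Y := by
        rw [mul_add, ← mul_assoc β α, hβα, one_mul, mul_assoc β]
      rw [← h4, h1, mul_zero]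
    have h5 := congrArg Matrix.trace h3
    rw [Matrix.trace_add, Matrix.trace_mul_comm, ← mul_assoc, hαβ, one_mul,
      Matrix.trace_transpose, Matrix.trace_zero, ← two_mul] at h5
    exact (mul_eq_zero.1 h5).resolve_left two_ne_zero
  rw [hYt, zero_mul, mul_zero, add_zero, zero_pow two_ne_zero, add_zero] at h0
  rcases mul_eq_zero.1 h0 with h1 | h1
  · have h3 : (m : ℚ_[p]) = (2 : ℕ) := by
      rw [Nat.cast_ofNat]
      exact sub_eq_zero.1 h1
    have h4 : m = 2 := Nat.cast_injective h3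
    omega
  · exact hYne h1

variable {ι : Type} [Fintype ι] [DecidableEq ι] {n : ι → ℕ} {Γ : Type} [Group Γ] {A : Mx n ℤ_[p]}
  {ρ : ∀ i, Γ →* GL (Fin (n i)) ℤ_[p]}

/-- Elements of the product group supported on one factor. -/
theorem pow_of_idx_prod {C : ℕ}
    (h0 : (MonoidHom.pi ρ).range.relIndex (Subgroup.pi Set.univ fun i => SOg (A i)) ≠ 0)
    (hC : (MonoidHom.pi ρ).range.relIndex (Subgroup.pi Set.univ fun i => SOg (A i)) ≤ C)
    {i : ι} (had : (A i).det ≠ 0) {g : Matrix (Fin (n i)) (Fin (n i)) ℤ_[p]}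
    (hg : gᵀ * A i * g = A i) : ∃ γ, (ρ i γ : Matrix (Fin (n i)) (Fin (n i)) ℤ_[p]) =
      g ^ (2 * C.factorial) ∧ ∀ j, j ≠ i → ρ j γ = 1 := by
  have h1 : g.det * g.det = 1 := by
    have h2 := congrArg Matrix.det hg
    rw [det_mul, det_mul, det_transpose] at h2
    have h3 : (A i).det * (g.det * g.det) = (A i).det * 1 := by linear_combination h2
    exact mul_left_cancel₀ had h3
  have hu : IsUnit (g ^ 2) := by
    rw [Matrix.isUnit_iff_isUnit_det, det_pow, sq, h1]
    exact isUnit_one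
  obtain ⟨u, hu⟩ := hu
  have hmem : u ∈ SOg (A i) := by
    rw [mem_SOg, hu, det_pow, sq g.det, h1]
    refine ⟨?_, rfl⟩
    rw [sq, transpose_mul]
    calc gᵀ * gᵀ * A i * (g * g) = gᵀ * (gᵀ * A i * g) * g := by simp only [mul_assoc]
      _ = A i := by rw [hg, hg]
  have hmem2 : Pi.mulSingle i u ∈ Subgroup.pi Set.univ fun i => SOg (A i) := by
    intro j _
    by_cases hj : j = i
    · subst hj
      rw [Pi.mulSingle_eq_same]
      exact hmem
    · rw [Pi.mulSingle_eq_of_ne hj]
      exact (SOg (A j)).one_mem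
  obtain ⟨γ, hγ⟩ := MonoidHom.mem_range.1 (Subgroup.pow_mem_of_relIndex_ne_zero_of_dvd h0 hmem2
    (n := C.factorial) fun m hm hm2 => Nat.dvd_factorial hm (hm2.trans hC)).1
  refine ⟨γ, ?_, ?_⟩
  · have h2 := congrFun hγ i
    rw [Pi.pow_apply, Pi.mulSingle_eq_same] at h2
    have h3 : ρ i γ = u ^ C.factorial := h2
    rw [h3, Units.val_pow_eq_pow_val, hu, ← pow_mul]
  · intro j hj
    have h2 := congrFun hγ j
    rw [Pi.pow_apply, Pi.mulSingle_eq_of_ne hj, one_pow] at h2
    exact h2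

end Pool.Agent.Y127.I
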