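import Pool.Agent.Y127.I.So

/-!
# Eichler transformations and irreducibility of the adjoint representation
-/

set_option linter.unusedSectionVars false

namespace Pool.Agent.Y127.I

open Module

variable {F : Type} [Field F] {V : Type} [AddCommGroup V] [Module F V]
  {B : V →ₗ[F] V →ₗ[F] F}

/-- The Eichler transformation `exp (wl e a)`. -/
def Ee (B : V →ₗ[F] V →ₗ[F] F) (e a : V) : End F V :=
  1 + wl B e a + (2 : F)⁻¹ • (wl B e a * wl B e a)

/-- `e` isotropic, `a` anisotropic and orthogonal to `e`. -/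
structure Eic (B : V →ₗ[F] V →ₗ[F] F) (e a : V) : Prop where
  ee : B e e = 0
  ea : B e a = 0
  aa : B a a ≠ 0

theorem Eic.smul {e a : V} (h : Eic B e a) (t : F) : Eic B (t • e) a :=
  ⟨by simp [h.ee], by simp [h.ea], h.aa⟩

theorem Ee_smul {e a : V} (h2 : (2 : F) ≠ 0) (s : F) :
    Ee B ((2 * s) • e) a = 1 + (2 * s) • wl B e a + (2 * s ^ 2) • (wl B e a * wl B e a) := by
  unfold Ee
  rw [map_smul, LinearMap.smul_apply, smul_mul_smul_comm, smul_smul]
  congr 2
  field_simp

/-- Recovering the bracket from four conjugations. -/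
theorem bk_mem_of {M : Submodule F (End F V)} {N X : End F V} (h24 : (24 : F) ≠ 0)
    (h : ∀ s : F, (1 + (2 * s) • N + (2 * s ^ 2) • (N * N)) * X *
      (1 + (2 * -s) • N + (2 * (-s) ^ 2) • (N * N)) ∈ M) : bk N X ∈ M := by
  have h1 := h 1
  have h2 := h (-1)
  have h3 := h 2
  have h4 := h (-2)
  have key : (24 : F) • bk N X =
      (8 : F) • ((1 + (2 * (1 : F)) • N + (2 * (1 : F) ^ 2) • (N * N)) * X *
      (1 + (2 * -(1 : F)) • N + (2 * (-(1 : F)) ^ 2) • (N * N)) -
      (1 + (2 * (-1 : F)) • N + (2 * (-1 : F) ^ 2) • (N * N)) * X *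
      (1 + (2 * -(-1 : F)) • N + (2 * (-(-1 : F)) ^ 2) • (N * N))) -
      ((1 + (2 * (2 : F)) • N + (2 * (2 : F) ^ 2) • (N * N)) * X *
      (1 + (2 * -(2 : F)) • N + (2 * (-(2 : F)) ^ 2) • (N * N)) -
      (1 + (2 * (-2 : F)) • N + (2 * (-2 : F) ^ 2) • (N * N)) * X *
      (1 + (2 * -(-2 : F)) • N + (2 * (-(-2 : F)) ^ 2) • (N * N))) := by
    unfold bk
    simp only [mul_add, add_mul, one_mul, mul_one, smul_mul_assoc, mul_smul_comm, smul_smul,
      mul_assoc]
    module
  have h5 : (24 : F) • bk N X ∈ M := by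
    rw [key]
    exact M.sub_mem (M.smul_mem _ (M.sub_mem h1 h2)) (M.sub_mem h3 h4)
  have h6 := M.smul_mem (24 : F)⁻¹ h5
  rwa [smul_smul, inv_mul_cancel₀ h24, one_smul] at h6

theorem wl_cube (hsy : ∀ x y, B x y = B y x) {e a : V} (h : Eic B e a) :
    wl B e a * (wl B e a * wl B e a) = 0 := by
  ext x
  have hae : B a e = 0 := by rw [hsy, h.ea]
  simp only [Module.End.mul_apply, wl_apply, map_sub, map_smul, h.ee, h.ea, hae, zero_smul,
    smul_zero, sub_zero, map_zero, LinearMap.zero_apply]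

theorem Ee_mul (hsy : ∀ x y, B x y = B y x) (h2 : (2 : F) ≠ 0) {e a : V} (h : Eic B e a) :
    Ee B e a * Ee B (-e) a = 1 := by
  unfold Ee
  have h3 := wl_cube hsy h
  rw [map_neg, LinearMap.neg_apply]
  set N := wl B e a with hN
  have h4 : N * N * N = 0 := by rw [mul_assoc, h3]
  have h5 : N * N * (N * N) = 0 := by rw [mul_assoc, h3, mul_zero]
  have h6 : (2 : F)⁻¹ • (N * N) + (2 : F)⁻¹ • (N * N) = N * N := by
    rw [← add_smul, ← two_mul, mul_inv_cancel₀ h2, one_smul]
  have h7 : (1 + N + (2 : F)⁻¹ • (N * N)) * (1 + -N + (2 : F)⁻¹ • (-N * -N)) =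
      1 + ((2 : F)⁻¹ • (N * N) + (2 : F)⁻¹ • (N * N)) - N * N +
      (2 : F)⁻¹ • (N * (N * N)) - (2 : F)⁻¹ • (N * N * N) +
      (2 : F)⁻¹ • (2 : F)⁻¹ • (N * N * (N * N)) := by
    simp only [mul_add, add_mul, mul_one, one_mul, smul_mul_assoc, mul_smul_comm, neg_mul, mul_neg,
      neg_neg, smul_neg]
    module
  rw [h7, h3, h4, h5, h6]
  simp

theorem Ee_isom (hsy : ∀ x y, B x y = B y x) (h2 : (2 : F) ≠ 0) {e a : V} (h : Eic B e a)
    (x y : V) : B (Ee B e a x) (Ee B e a y) = B x y := by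
  have hs : ∀ x y, B (wl B e a x) y = - B x (wl B e a y) := by
    intro x y
    linear_combination wl_mem hsy e a x y
  have h3 : ∀ z, wl B e a (wl B e a (wl B e a z)) = 0 := by
    intro z
    have := congrArg (fun f : End F V => f z) (wl_cube hsy h)
    simpa using this
  unfold Ee
  simp only [LinearMap.add_apply, Module.End.one_apply, LinearMap.smul_apply, Module.End.mul_apply,
    map_add, map_smul, smul_eq_mul]
  simp only [hs, h3, map_zero]
  have h4 : (2 : F)⁻¹ * 2 = 1 := inv_mul_cancel₀ h2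
  linear_combination (B x (wl B e a (wl B e a y))) * h4

/-- The span of the Eichler operators. -/
def Es (B : V →ₗ[F] V →ₗ[F] F) : Submodule F (End F V) :=
  Submodule.span F {X | ∃ e a, Eic B e a ∧ X = wl B e a}

theorem mem_Es {e a : V} (h : Eic B e a) : wl B e a ∈ Es B :=
  Submodule.subset_span ⟨e, a, h, rfl⟩

theorem Es_conj {g g' : End F V} (hg : ∀ x y, B (g x) (g y) = B x y) (hgg : g * g' = 1)
    {X : End F V} (hX : X ∈ Es B) : g * X * g' ∈ Es B := by
  unfold Es at hX
  induction hX using Submodule.span_induction with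
  | mem X hX =>
    obtain ⟨e, a, h, rfl⟩ := hX
    rw [conj_wl hg hgg]
    exact mem_Es ⟨by rw [hg, h.ee], by rw [hg, h.ea], by rw [hg]; exact h.aa⟩
  | zero => rw [mul_zero, zero_mul]; exact (Es B).zero_mem
  | add X Y _ _ hX hY => rw [mul_add, add_mul]; exact (Es B).add_mem hX hY
  | smul c X _ hX => rw [mul_smul_comm, smul_mul_assoc]; exact (Es B).smul_mem _ hX

/-- A subspace stable under the Eichler transformations is stable under the Eichler operators. -/
theorem bk_of_stable (h24 : (24 : F) ≠ 0) {M : Submodule F (End F V)}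
    (hM : ∀ e a, Eic B e a → ∀ X ∈ M, Ee B e a * X * Ee B (-e) a ∈ M) {e a : V} (h : Eic B e a)
    {X : End F V} (hX : X ∈ M) : bk (wl B e a) X ∈ M := by
  have h2 : (2 : F) ≠ 0 := by
    intro h0
    apply h24
    rw [show (24 : F) = 2 * 12 by norm_num, h0, zero_mul]
  refine bk_mem_of h24 fun s => ?_
  have h1 := hM _ _ (h.smul (2 * s)) X hX
  rw [← neg_smul, ← mul_neg, Ee_smul h2, Ee_smul h2] at h1
  exact h1

theorem Es_bk (hsy : ∀ x y, B x y = B y x) (h24 : (24 : F) ≠ 0) {e a : V} (h : Eic B e a)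
    {X : End F V} (hX : X ∈ Es B) : bk (wl B e a) X ∈ Es B := by
  have h2 : (2 : F) ≠ 0 := by
    intro h0
    apply h24
    rw [show (24 : F) = 2 * 12 by norm_num, h0, zero_mul]
  exact bk_of_stable h24 (fun e a h X hX => Es_conj (Ee_isom hsy h2 h) (Ee_mul hsy h2 h) hX) h hX

section span

variable {ι : Type} [Fintype ι] [DecidableEq ι] (v : Basis ι F V)
  (hv : ∀ i j, i ≠ j → B (v i) (v j) = 0) (hb : ∀ i, B (v i) (v i) ≠ 0)
include hv hb

theorem exists_pair (hsy : ∀ x y, B x y = B y x) (h2 : (2 : F) ≠ 0) {e : V} (he : e ≠ 0)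
    (hee : B e e = 0) : ∃ f, B f f = 0 ∧ B e f = 1 := by
  obtain ⟨k, hk⟩ : ∃ k, B e (v k) ≠ 0 := by
    by_contra hcon
    push Not at hcon
    apply he
    have h1 : ∀ k, v.repr e k = 0 := by
      intro k
      have h3 := hcon k
      rw [← v.sum_repr e, map_sum, LinearMap.sum_apply, Finset.sum_eq_single k] at h3
      · rw [map_smul, LinearMap.smul_apply, smul_eq_mul] at h3
        exact (mul_eq_zero.1 h3).resolve_right (hb k)
      · intro j _ hj
        rw [map_smul, LinearMap.smul_apply, hv j k hj, smul_zero]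
      · intro hk
        exact absurd (Finset.mem_univ k) hk
    rw [← v.sum_repr e]
    exact Finset.sum_eq_zero fun k _ => by rw [h1 k, zero_smul]
  obtain ⟨y, h1⟩ : ∃ y, B e y = 1 :=
    ⟨(B e (v k))⁻¹ • v k, by rw [map_smul, smul_eq_mul, inv_mul_cancel₀ hk]⟩
  refine ⟨y - (B y y * (2 : F)⁻¹) • e, ?_, ?_⟩
  · simp only [map_sub, map_smul, LinearMap.sub_apply, LinearMap.smul_apply, smul_eq_mul, hee, h1,
      hsy y e]
    field_simp
    ring
  · rw [map_sub, map_smul, hee, smul_zero, sub_zero, h1]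

/-- **The Eichler operators span.** -/
theorem so_le_Es (hsy : ∀ x y, B x y = B y x) (h24 : (24 : F) ≠ 0) (hn : 3 ≤ Fintype.card ι)
    {e : V} (he : e ≠ 0) (hee : B e e = 0) : so B ≤ Es B := by
  have h2 : (2 : F) ≠ 0 := by
    intro h0
    apply h24
    rw [show (24 : F) = 2 * 12 by norm_num, h0, zero_mul]
  obtain ⟨f, hff, hef⟩ := exists_pair v hv hb hsy h2 he hee
  have hfe : B f e = 1 := by rw [hsy, hef]
  -- the projection to the orthogonal complement of `e`, `f`
  set W : Set V := {w | B e w = 0 ∧ B f w = 0} with hW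
  have hdec : ∀ x : V, ∃ w ∈ W, x = B f x • e + B e x • f + w := by
    intro x
    refine ⟨x - (B f x • e + B e x • f), ⟨?_, ?_⟩, by abel⟩
    · simp only [map_sub, map_add, map_smul, smul_eq_mul, hee, hef]
      ring
    · simp only [map_sub, map_add, map_smul, smul_eq_mul, hfe, hff]
      ring
  have hWadd : ∀ w ∈ W, ∀ w' ∈ W, w + w' ∈ W := by
    intro w hw w' hw'
    exact ⟨by rw [map_add, hw.1, hw'.1, add_zero], by rw [map_add, hw.2, hw'.2, add_zero]⟩
  have hWsmul : ∀ (c : F), ∀ w ∈ W, c • w ∈ W := by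
    intro c w hw
    exact ⟨by rw [map_smul, hw.1, smul_zero], by rw [map_smul, hw.2, smul_zero]⟩
  -- an anisotropic vector
  obtain ⟨a, haW, haa⟩ : ∃ a ∈ W, B a a ≠ 0 := by
    by_contra hcon
    push Not at hcon
    have hWW : ∀ w ∈ W, ∀ w' ∈ W, B w w' = 0 := by
      intro w hw w' hw'
      have h3 := hcon _ (hWadd w hw w' hw')
      simp only [map_add, LinearMap.add_apply, hcon w hw, hcon w' hw', hsy w' w] at h3
      have h4 : (2 : F) * B w w' = 0 := by linear_combination h3
      exact (mul_eq_zero.1 h4).resolve_left h2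
    have hW0 : ∀ w ∈ W, w = 0 := by
      intro w hw
      have h5 : ∀ x, B w x = 0 := by
        intro x
        obtain ⟨w', hw', hx⟩ := hdec x
        rw [hx, map_add, map_add, map_smul, map_smul, hsy w e, hsy w f, hw.1, hw.2, hWW w hw w' hw']
        simp
      have h1 : ∀ k, v.repr w k = 0 := by
        intro k
        have h3 := h5 (v k)
        rw [← v.sum_repr w, map_sum, LinearMap.sum_apply, Finset.sum_eq_single k] at h3
        · rw [map_smul, LinearMap.smul_apply, smul_eq_mul] at h3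
          exact (mul_eq_zero.1 h3).resolve_right (hb k)
        · intro j _ hj
          rw [map_smul, LinearMap.smul_apply, hv j k hj, smul_zero]
        · intro hk
          exact absurd (Finset.mem_univ k) hk
      rw [← v.sum_repr w]
      exact Finset.sum_eq_zero fun k _ => by rw [h1 k, zero_smul]
    classical
    have h6 : (⊤ : Submodule F V) ≤ Submodule.span F (({e, f} : Finset V) : Set V) := by
      intro x _
      obtain ⟨w, hw, hx⟩ := hdec x
      rw [hx, hW0 w hw, add_zero]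
      exact Submodule.add_mem _ (Submodule.smul_mem _ _ (Submodule.subset_span (by simp)))
        (Submodule.smul_mem _ _ (Submodule.subset_span (by simp)))
    haveI : FiniteDimensional F V := v.finiteDimensional_of_finite
    have h7 : finrank F V ≤ ({e, f} : Finset V).card := by
      rw [← finrank_top F V]
      exact (Submodule.finrank_mono h6).trans (finrank_span_finset_le_card _)
    rw [finrank_eq_card_basis v] at h7
    have h8 : ({e, f} : Finset V).card ≤ 2 := Finset.card_le_two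
    omega
  have hspan : ∀ w ∈ W, ∃ w₁ ∈ W, ∃ w₂ ∈ W, B w₁ w₁ ≠ 0 ∧ B w₂ w₂ ≠ 0 ∧ w = w₁ - w₂ := by
    intro w hw
    by_cases hww : B w w = 0
    · by_cases h3 : 2 * B w a + B a a = 0
      · refine ⟨w + (-1 : F) • a, hWadd _ hw _ (hWsmul _ _ haW), (-1 : F) • a, hWsmul _ _ haW, ?_, ?_,
          by abel⟩
        · intro h4
          simp only [map_add, LinearMap.add_apply, map_smul, LinearMap.smul_apply, smul_eq_mul,
            hww, hsy a w] at h4
          apply haa
          have h5 : (2 : F) * B a a = 0 := by linear_combination h4 + h3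
          exact (mul_eq_zero.1 h5).resolve_left h2
        · simp only [map_smul, LinearMap.smul_apply, smul_eq_mul]
          intro h4
          apply haa
          linear_combination h4
      · refine ⟨w + a, hWadd _ hw _ haW, a, haW, ?_, haa, by abel⟩
        intro h4
        simp only [map_add, LinearMap.add_apply, hww, hsy a w] at h4
        apply h3
        linear_combination h4
    · refine ⟨(2 : F) • w, hWsmul _ _ hw, w, hw, ?_, hww, by rw [two_smul]; abel⟩
      simp only [map_smul, LinearMap.smul_apply, smul_eq_mul]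
      exact mul_ne_zero h2 (mul_ne_zero h2 hww)
  have heW : ∀ w ∈ W, wl B e w ∈ Es B := by
    intro w hw
    obtain ⟨w₁, hw₁, w₂, hw₂, h3, h4, rfl⟩ := hspan w hw
    rw [map_sub]
    exact (Es B).sub_mem (mem_Es ⟨hee, hw₁.1, h3⟩) (mem_Es ⟨hee, hw₂.1, h4⟩)
  have hfW : ∀ w ∈ W, wl B f w ∈ Es B := by
    intro w hw
    obtain ⟨w₁, hw₁, w₂, hw₂, h3, h4, rfl⟩ := hspan w hw
    rw [map_sub]
    exact (Es B).sub_mem (mem_Es ⟨hff, hw₁.2, h3⟩) (mem_Es ⟨hff, hw₂.2, h4⟩)
  have hbr : ∀ w ∈ W, ∀ w' ∈ W, bk (wl B e w) (wl B f w') ∈ Es B := by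
    intro w hw w' hw'
    obtain ⟨w₁, hw₁, w₂, hw₂, h3, h4, rfl⟩ := hspan w hw
    have h5 : bk (wl B e (w₁ - w₂)) (wl B f w') =
        bk (wl B e w₁) (wl B f w') + (-1 : F) • bk (wl B e w₂) (wl B f w') := by
      rw [← bk_smul_left, ← bk_add_left, map_sub, neg_one_smul, sub_eq_add_neg]
    rw [h5]
    exact (Es B).add_mem (Es_bk hsy h24 ⟨hee, hw₁.1, h3⟩ (hfW w' hw'))
      ((Es B).smul_mem _ (Es_bk hsy h24 ⟨hee, hw₂.1, h4⟩ (hfW w' hw')))
  have hbr' : ∀ w ∈ W, ∀ w' ∈ W, - wl B w w' + B w w' • wl B f e ∈ Es B := by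
    intro w hw w' hw'
    have h3 := hbr w hw w' hw'
    rw [bk_wl (wl_mem hsy _ _), wl_apply, wl_apply, hsy w f, hw.2, hef, hw'.1] at h3
    simpa using h3
  have hfe' : wl B f e ∈ Es B := by
    have h3 := hbr' a haW a haW
    rw [wl_self, neg_zero, zero_add] at h3
    have h4 := (Es B).smul_mem (B a a)⁻¹ h3
    rwa [smul_smul, inv_mul_cancel₀ haa, one_smul] at h4
  have hWW : ∀ w ∈ W, ∀ w' ∈ W, wl B w w' ∈ Es B := by
    intro w hw w' hw'
    have h3 := (Es B).sub_mem ((Es B).smul_mem (B w w') hfe') (hbr' w hw w' hw')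
    have h4 : B w w' • wl B f e - (- wl B w w' + B w w' • wl B f e) = wl B w w' := by abel
    rwa [h4] at h3
  refine so_le_of_wl v hv hb hsy h2 fun i j _ => ?_
  obtain ⟨w, hw, hx⟩ := hdec (v i)
  obtain ⟨w', hw', hy⟩ := hdec (v j)
  rw [hx, hy]
  have hef' : wl B e f ∈ Es B := by rw [wl_swap]; exact (Es B).neg_mem hfe'
  have hWe : ∀ w ∈ W, wl B w e ∈ Es B := fun w hw => by
    rw [wl_swap]; exact (Es B).neg_mem (heW w hw)
  have hWf : ∀ w ∈ W, wl B w f ∈ Es B := fun w hw => by
    rw [wl_swap]; exact (Es B).neg_mem (hfW w hw)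
  have h0 : ∀ x, wl B x x ∈ Es B := fun x => by rw [wl_self]; exact (Es B).zero_mem
  simp only [map_add, LinearMap.add_apply, map_smul, LinearMap.smul_apply]
  repeat' first | apply (Es B).add_mem | apply (Es B).smul_mem
  all_goals first
    | exact h0 _
    | exact hfe'
    | exact hef'
    | exact heW _ hw'
    | exact hfW _ hw'
    | exact hWe _ hw
    | exact hWf _ hw
    | exact hWW _ hw _ hw'

end span

end Pool.Agent.Y127.I
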