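import Pool.Agent.Y127.I.Node2

/-!
# Operators with a simple eigenvalue `1` and without relations between the other eigenvalues
-/

set_option linter.unusedSectionVars false

namespace Pool.Agent.Y127.I

open Module Polynomial

theorem intertwine {F L : Type} [Field F] [Field L] {V W : Type} [AddCommGroup V] [Module F V]
    [AddCommGroup W] [Module L W] {σ : F →+* L} (φ : V →ₛₗ[σ] W) (f : End F V) (g : End L W)
    (h : ∀ x, φ (f x) = g (φ x)) (R : F[X]) (x : V) :
    φ (aeval f R x) = aeval g (R.map σ) (φ x) := by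
  have hpow : ∀ n : ℕ, φ ((f ^ n) x) = (g ^ n) (φ x) := by
    intro n
    induction n with
    | zero => rw [pow_zero, pow_zero]; rfl
    | succ n ih =>
      rw [pow_succ', pow_succ', Module.End.mul_apply, Module.End.mul_apply, h, ih]
  induction R using Polynomial.induction_on' with
  | add p q hp hq =>
    rw [Polynomial.map_add, map_add, map_add, LinearMap.add_apply, LinearMap.add_apply, map_add,
      hp, hq]
  | monomial n a =>
    rw [Polynomial.map_monomial, aeval_monomial, aeval_monomial, Module.End.mul_apply,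
      Module.End.mul_apply, Module.algebraMap_end_apply, Module.algebraMap_end_apply,
      map_smulₛₗ, hpow]

section lin

variable {F : Type} [Field F] {V : Type} [AddCommGroup V] [Module F V]
  {B : V →ₗ[F] V →ₗ[F] F}

/-- The conjugation. -/
def cj (f f' : End F V) : End F (End F V) := LinearMap.mulLeft F f ∘ₗ LinearMap.mulRight F f'

theorem cj_apply (f f' X : End F V) : cj f f' X = f * X * f' := (mul_assoc _ _ _).symm

/-- The projection to the fixed line. -/
theorem exists_fix [FiniteDimensional F V] (hnd : ∀ x, (∀ y, B x y = 0) → x = 0)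
    {f : End F V} (hf : ∀ x y, B (f x) (f y) = B x y) {R : F[X]}
    (hch : f.charpoly = (X - C 1) * R) (h1 : R.eval 1 ≠ 0) :
    ∃ e, f e = e ∧ B e e ≠ 0 ∧ ∀ x, aeval f R x = (R.eval 1 * B e x * (B e e)⁻¹) • e := by
  have hroot : f.charpoly.IsRoot 1 := by
    rw [hch, IsRoot.def, eval_mul, eval_sub, eval_X, eval_C, sub_self, zero_mul]
  obtain ⟨e, he⟩ := ((Module.End.hasEigenvalue_iff_isRoot_charpoly f 1).2 hroot).exists_hasEigenvector
  have hfe : f e = e := by have := he.apply_eq_smul; rwa [one_smul] at this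
  have he0 : e ≠ 0 := he.2
  have hR0 : R ≠ 0 := by
    rintro rfl
    exact h1 eval_zero
  have hdim : finrank F (f.maxGenEigenspace 1) = 1 := by
    rw [LinearMap.finrank_maxGenEigenspace_eq, hch,
      rootMultiplicity_mul (mul_ne_zero (X_sub_C_ne_zero 1) hR0), rootMultiplicity_X_sub_C_self,
      rootMultiplicity_eq_zero h1]
  have hline : ∀ y, f y = y → ∃ c : F, y = c • e := by
    intro y hy
    have hmem : ∀ z, f z = z → z ∈ f.maxGenEigenspace 1 := by
      intro z hz
      refine Module.End.mem_maxGenEigenspace _ _ _ |>.2 ⟨1, ?_⟩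
      rw [pow_one, LinearMap.sub_apply, hz, one_smul, Module.End.one_apply, sub_self]
    obtain ⟨c, hc⟩ := (finrank_eq_one_iff_of_nonzero' (⟨e, hmem e hfe⟩ : f.maxGenEigenspace 1)
      (fun h => he0 (congrArg Subtype.val h))).1 hdim ⟨y, hmem y hy⟩
    exact ⟨c, (congrArg Subtype.val hc).symm⟩
  have hfix : ∀ x, f (aeval f R x) = aeval f R x := by
    intro x
    have h2 := LinearMap.congr_fun (LinearMap.aeval_self_charpoly f) x
    rw [hch, map_mul, Module.End.mul_apply, map_sub, aeval_X, aeval_C, map_one,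
      LinearMap.sub_apply, Module.End.one_apply, LinearMap.zero_apply, sub_eq_zero] at h2
    exact h2
  have hBe : ∀ x, B e (aeval f R x) = R.eval 1 * B e x := by
    intro x
    have h3 := intertwine (σ := RingHom.id F) (B e) f (1 : End F F) (fun y => by
      rw [Module.End.one_apply]
      conv_lhs => rw [← hfe]
      exact hf e y) R x
    rw [Polynomial.map_id] at h3
    rw [h3]
    have h4 : aeval (1 : End F F) R = (R.eval 1) • (1 : End F F) := by
      have h5 : (1 : End F F) = algebraMap F (End F F) 1 := (map_one _).symm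
      rw [h5, aeval_algebraMap_apply]
      rw [Algebra.algebraMap_eq_smul_one, ← h5]
      simp
    rw [h4]
    rfl
  have hee : B e e ≠ 0 := by
    intro h
    apply he0
    refine hnd e fun x => ?_
    obtain ⟨c, hc⟩ := hline _ (hfix x)
    have h2 := hBe x
    rw [hc, map_smul, h, smul_zero] at h2
    exact (mul_eq_zero.1 h2.symm).resolve_left h1
  refine ⟨e, hfe, hee, fun x => ?_⟩
  obtain ⟨c, hc⟩ := hline _ (hfix x)
  have h2 := hBe x
  rw [hc, map_smul, smul_eq_mul] at h2
  rw [hc]
  congr 1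
  rw [← h2, mul_assoc, mul_inv_cancel₀ hee, mul_one]

/-- The skew operators which kill `e`. -/
def soe (B : V →ₗ[F] V →ₗ[F] F) (e : V) : Submodule F (End F V) :=
  so B ⊓ LinearMap.ker (LinearMap.applyₗ (R := F) (M := V) (M₂ := V) e)

theorem mem_soe {e : V} {X : End F V} : X ∈ soe B e ↔ X ∈ so B ∧ X e = 0 := Iff.rfl

theorem cj_soe {f f' : End F V} (hf : ∀ x y, B (f x) (f y) = B x y) (hff : f * f' = 1)
    (hff' : f' * f = 1) {e : V} (he : f e = e) {X : End F V} (hX : X ∈ soe B e) :
    cj f f' X ∈ soe B e := by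
  rw [mem_soe, cj_apply]
  refine ⟨conj_mem hf hff hX.1, ?_⟩
  have h1 : f' e = e := by
    have h2 := LinearMap.congr_fun hff' e
    rw [Module.End.mul_apply, he] at h2
    exact h2
  have h3 : X e = 0 := hX.2
  rw [Module.End.mul_apply, Module.End.mul_apply, h1, h3, map_zero]

/-- No relations: `R(Ad f)` is injective on the skew operators killing `e`, algebraically closed
field. -/
theorem inj_closed [IsAlgClosed F] [FiniteDimensional F V]
    {f f' : End F V} (hf : ∀ x y, B (f x) (f y) = B x y) (hff : f * f' = 1)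
    (hff' : f' * f = 1) {e : V} (he : f e = e) {R : F[X]}
    (hRe : ∀ x, ∃ c : F, aeval f R x = (c * B e x) • e)
    (hR : ∀ b c : F, R.eval b = 0 → R.eval c = 0 → R.eval (b * c) ≠ 0)
    {X : End F V} (hX : X ∈ soe B e) (h : aeval (cj f f') R X = 0) : X = 0 := by
  by_contra hX0
  set N : Submodule F (End F V) := soe B e ⊓ LinearMap.ker (aeval (cj f f') R) with hN
  have hcomm : ∀ Y, aeval (cj f f') R (cj f f' Y) = cj f f' (aeval (cj f f') R Y) := by
    intro Y
    have h2 : aeval (cj f f') R * cj f f' = cj f f' * aeval (cj f f') R := by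
      have h3 : aeval (cj f f') (R * Polynomial.X) = aeval (cj f f') (Polynomial.X * R) := by
        rw [mul_comm]
      rw [map_mul, map_mul, aeval_X] at h3
      exact h3
    exact LinearMap.congr_fun h2 Y
  have hNst : ∀ Y ∈ N, cj f f' Y ∈ N := by
    rintro Y ⟨h1, h2⟩
    refine ⟨cj_soe hf hff hff' he h1, ?_⟩
    have h2' : aeval (cj f f') R Y = 0 := h2
    change aeval (cj f f') R (cj f f' Y) = 0
    rw [hcomm, h2', map_zero]
  haveI : Nontrivial N := ⟨⟨⟨X, hX, h⟩, 0, fun h' => hX0 (congrArg Subtype.val h')⟩⟩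
  obtain ⟨d, hd⟩ := Module.End.exists_eigenvalue ((cj f f').restrict hNst)
  obtain ⟨⟨Y, hYN⟩, hY⟩ := hd.exists_hasEigenvector
  have hY0 : Y ≠ 0 := fun h' => hY.2 (Subtype.ext h')
  have hYd : cj f f' Y = d • Y := congrArg Subtype.val hY.apply_eq_smul
  have hYe : Y e = 0 := hYN.1.2
  have hYs : Y ∈ so B := hYN.1.1
  have hRd : R.eval d = 0 := by
    have h2 : aeval (cj f f') R Y = 0 := hYN.2
    rw [Module.End.aeval_apply_of_hasEigenvector (f := cj f f') (μ := d)
      ⟨Module.End.mem_eigenspace_iff.2 hYd, hY0⟩] at h2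
    exact (smul_eq_zero.1 h2).resolve_right hY0
  have hfY : ∀ w, f (Y w) = d • Y (f w) := by
    intro w
    have h2 : f * Y = d • (Y * f) := by
      rw [cj_apply] at hYd
      calc f * Y = f * Y * (f' * f) := by rw [hff', mul_one]
        _ = f * Y * f' * f := by rw [mul_assoc (f * Y)]
        _ = _ := by rw [hYd, smul_mul_assoc]
    exact LinearMap.congr_fun h2 w
  have hd0 : d ≠ 0 := by
    rintro rfl
    apply hY0
    rw [zero_smul, cj_apply] at hYd
    calc Y = f' * (f * Y * f') * f := by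
          calc Y = (f' * f) * Y * (f' * f) := by rw [hff', one_mul, mul_one]
            _ = _ := by simp only [mul_assoc]
      _ = 0 := by rw [hYd, mul_zero, zero_mul]
  have hrst : ∀ z ∈ LinearMap.range Y, f z ∈ LinearMap.range Y := by
    rintro _ ⟨w, rfl⟩
    rw [hfY]
    exact Submodule.smul_mem _ _ ⟨_, rfl⟩
  haveI : Nontrivial (LinearMap.range Y) := by
    obtain ⟨w, hw⟩ : ∃ w, Y w ≠ 0 := by
      by_contra hcon
      push Not at hcon
      exact hY0 (LinearMap.ext hcon)
    exact ⟨⟨⟨Y w, w, rfl⟩, 0, fun h' => hw (congrArg Subtype.val h')⟩⟩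
  obtain ⟨b, hb⟩ := Module.End.exists_eigenvalue (f.restrict hrst)
  obtain ⟨⟨z, w, hw⟩, hz⟩ := hb.exists_hasEigenvector
  have hz0 : z ≠ 0 := fun h' => hz.2 (Subtype.ext h')
  have hfz : f z = b • z := congrArg Subtype.val hz.apply_eq_smul
  have hRb : R.eval b = 0 := by
    obtain ⟨c, hc⟩ := hRe z
    have h2 : B e z = 0 := by
      rw [← hw]
      have h3 := hYs e w
      rw [hYe, map_zero, LinearMap.zero_apply, zero_add] at h3
      exact h3
    rw [h2, mul_zero, zero_smul, Module.End.aeval_apply_of_hasEigenvector (f := f) (μ := b)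
      ⟨Module.End.mem_eigenspace_iff.2 hfz, hz0⟩] at hc
    exact (smul_eq_zero.1 hc).resolve_right hz0
  have hRc : R.eval (b * d⁻¹) = 0 := by
    have h2 := intertwine (σ := RingHom.id F) Y f (d⁻¹ • f) (fun x => by
      rw [LinearMap.smul_apply, hfY, smul_smul, inv_mul_cancel₀ hd0, one_smul]) R w
    rw [Polynomial.map_id, hw] at h2
    obtain ⟨c, hc⟩ := hRe w
    rw [hc, map_smul, hYe, smul_zero] at h2
    have h3 : (d⁻¹ • f) z = (b * d⁻¹) • z := by
      rw [LinearMap.smul_apply, hfz, smul_smul, mul_comm]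
    rw [Module.End.aeval_apply_of_hasEigenvector (f := d⁻¹ • f) (μ := b * d⁻¹)
      ⟨Module.End.mem_eigenspace_iff.2 h3, hz0⟩] at h2
    exact (smul_eq_zero.1 h2.symm).resolve_right hz0
  refine hR (b * d⁻¹) d hRc hRd ?_
  rw [mul_assoc, inv_mul_cancel₀ hd0, mul_one]
  exact hRb

/-- Projection to `V ∧ e` inside a stable subspace. -/
theorem wl_of_stable [FiniteDimensional F V] (hsy : ∀ x y, B x y = B y x) (h2 : (2 : F) ≠ 0)
    {f f' : End F V} (hf : ∀ x y, B (f x) (f y) = B x y) (hff : f * f' = 1)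
    (hff' : f' * f = 1) {e : V} (he : f e = e) (hee : B e e ≠ 0) {R : F[X]}
    (hRe : ∀ x, ∃ c : F, aeval f R x = (c * B e x) • e)
    (hinj : ∀ X ∈ soe B e, aeval (cj f f') R X = 0 → X = 0)
    {M : Submodule F (End F V)} (hM : M ≤ so B) (hst : ∀ X ∈ M, f * X * f' ∈ M)
    {X : End F V} (hX : X ∈ M) : wl B (X e) e ∈ M := by
  have hd : B e (X e) = 0 := by
    have h1 := hM hX e e
    rw [hsy (X e) e, ← two_mul] at h1
    exact (mul_eq_zero.1 h1).resolve_left h2
  set X₀ := (B e e)⁻¹ • wl B (X e) e with hX0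
  have hX₀ : aeval (cj f f') R X₀ = 0 := by
    have h3 := intertwine (σ := RingHom.id F) ((wl B).flip e) f (cj f f') (fun x => by
      rw [cj_apply, LinearMap.flip_apply, LinearMap.flip_apply, conj_wl hf hff, he]) R (X e)
    obtain ⟨c, hc⟩ := hRe (X e)
    rw [hc, hd, mul_zero, zero_smul, map_zero, Polynomial.map_id, LinearMap.flip_apply] at h3
    rw [hX0, map_smul, ← h3, smul_zero]
  have hX₁ : X - X₀ ∈ soe B e := by
    refine ⟨(so B).sub_mem (hM hX) ((so B).smul_mem _ (wl_mem hsy _ _)), ?_⟩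
    change (X - X₀) e = 0
    rw [LinearMap.sub_apply, hX0, LinearMap.smul_apply, wl_apply, hsy (X e) e, hd, zero_smul,
      sub_zero, smul_smul, inv_mul_cancel₀ hee, one_smul, sub_self]
  have hMst : ∀ Y ∈ M, cj f f' Y ∈ M := fun Y hY => by rw [cj_apply]; exact hst Y hY
  have haev : ∀ (S : Submodule F (End F V)), (∀ Y ∈ S, cj f f' Y ∈ S) → ∀ Y ∈ S,
      aeval (cj f f') R Y ∈ S := by
    intro S hS Y hY
    have hpow : ∀ n : ℕ, ((cj f f') ^ n) Y ∈ S := by
      intro n
      induction n with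
      | zero => exact hY
      | succ n ih => rw [pow_succ', Module.End.mul_apply]; exact hS _ ih
    rw [aeval_eq_sum_range, LinearMap.sum_apply]
    exact S.sum_mem fun n _ => S.smul_mem _ (hpow n)
  set S : Submodule F (End F V) := M ⊓ soe B e with hS
  have hSst : ∀ Y ∈ S, cj f f' Y ∈ S := fun Y hY => ⟨hMst Y hY.1, cj_soe hf hff hff' he hY.2⟩
  have hZ : aeval (cj f f') R X ∈ S := by
    refine ⟨haev M hMst X hX, ?_⟩
    have h3 : aeval (cj f f') R X = aeval (cj f f') R (X - X₀) := by
      rw [map_sub, hX₀, sub_zero]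
    rw [h3]
    exact haev _ (fun Y hY => cj_soe hf hff hff' he hY) _ hX₁
  let ψ : S →ₗ[F] S := (aeval (cj f f') R).restrict (haev S hSst)
  have hψ : Function.Injective ψ := by
    rw [injective_iff_map_eq_zero]
    intro Y hY
    exact Subtype.ext (hinj Y.1 Y.2.2 (congrArg Subtype.val hY))
  obtain ⟨⟨Y, hYS⟩, hY⟩ := (LinearMap.injective_iff_surjective.1 hψ) ⟨_, hZ⟩
  have hY' : aeval (cj f f') R Y = aeval (cj f f') R X := congrArg Subtype.val hY
  have h4 : X - X₀ - Y = 0 := by
    refine hinj _ ((soe B e).sub_mem hX₁ hYS.2) ?_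
    rw [map_sub, map_sub, hX₀, hY', sub_zero, sub_self]
  have h5 : X₀ ∈ M := by
    have h6 : X₀ = X - Y := by
      rw [← sub_eq_zero.1 h4]
      abel
    rw [h6]
    exact M.sub_mem hX hYS.1
  have h7 := M.smul_mem (B e e) h5
  rwa [hX0, smul_smul, mul_inv_cancel₀ hee, one_smul] at h7

end lin

end Pool.Agent.Y127.I
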