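import Pool.Agent.Y127.I.Gen1
import Pool.Agent.Y127.I.Node3

/-!
# Irreducibility of the skew matrices from a generic isometry
-/

set_option linter.unusedSectionVars false

namespace Pool.Agent.Y127.I

open Module Polynomial

section bc

variable {F L : Type} [Field F] [Field L] {m : ℕ}

/-- Base change of operators. -/
def bc (σ : F →+* L) : End F (Fin m → F) →ₛₗ[σ] End L (Fin m → L) where
  toFun X := Matrix.toLin' ((LinearMap.toMatrix' X).map σ)
  map_add' X Y := by
    rw [map_add, Matrix.map_add σ (map_add σ), map_add]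
  map_smul' c X := by
    rw [map_smul]
    have h1 : (c • LinearMap.toMatrix' X).map σ = σ c • (LinearMap.toMatrix' X).map σ := by
      ext i j
      simp
    rw [h1, map_smul]

theorem bc_apply (σ : F →+* L) (X : End F (Fin m → F)) :
    bc σ X = Matrix.toLin' ((LinearMap.toMatrix' X).map σ) := rfl

theorem bc_toLin (σ : F →+* L) (U : Matrix (Fin m) (Fin m) F) :
    bc σ (Matrix.toLin' U) = Matrix.toLin' (U.map σ) := by
  rw [bc_apply, LinearMap.toMatrix'_toLin']

theorem bc_mul (σ : F →+* L) (X Y : End F (Fin m → F)) : bc σ (X * Y) = bc σ X * bc σ Y := by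
  rw [bc_apply, bc_apply, bc_apply, LinearMap.toMatrix'_mul, Matrix.map_mul, Matrix.toLin'_mul]
  rfl

theorem bc_vec (σ : F →+* L) (X : End F (Fin m → F)) (x : Fin m → F) :
    bc σ X (fun i => σ (x i)) = fun i => σ (X x i) := by
  rw [bc_apply, Matrix.toLin'_apply]
  funext i
  have h1 := RingHom.map_mulVec σ (LinearMap.toMatrix' X) x i
  rw [LinearMap.toMatrix'_mulVec] at h1
  exact h1.symm

theorem bc_inj (σ : F →+* L) {X : End F (Fin m → F)} (h : bc σ X = 0) : X = 0 := by
  rw [bc_apply, map_eq_zero_iff _ (Matrix.toLin' : Matrix (Fin m) (Fin m) L ≃ₗ[L] _).injective] at h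
  have h1 : LinearMap.toMatrix' X = 0 := by
    ext i j
    have h2 := congrFun (congrFun h i) j
    rw [Matrix.map_apply, Matrix.zero_apply, map_eq_zero] at h2
    rw [h2, Matrix.zero_apply]
  exact (LinearMap.toMatrix' : _ ≃ₗ[F] Matrix (Fin m) (Fin m) F).map_eq_zero_iff.1 h1

theorem bc_so (σ : F →+* L) {A : Matrix (Fin m) (Fin m) F} {X : End F (Fin m → F)}
    (hX : X ∈ so (bil A)) : bc σ X ∈ so (bil (A.map σ)) := by
  rw [bc_apply, toLin_mem_so, mem_soM]
  rw [← Matrix.toLin'_toMatrix' X, toLin_mem_so, mem_soM] at hX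
  have h1 := congrArg (fun Y : Matrix (Fin m) (Fin m) F => Y.map σ) hX
  simp only [Matrix.map_add σ (map_add σ), Matrix.map_mul] at h1
  rw [Matrix.transpose_map] at h1
  rw [h1]
  ext i j
  simp

end bc

variable {F : Type} [Field F] {m : ℕ} {Γ : Type} [Group Γ]

/-- `1` is a simple root of the characteristic polynomial of `U`, and the product of two of the other
roots is not a root different from `1`. -/
def IsGen (U : Matrix (Fin m) (Fin m) F) : Prop :=
  ∃ R : F[X], U.charpoly = (X - C 1) * R ∧ R.eval 1 ≠ 0 ∧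
    ∀ b c : AlgebraicClosure F, aeval b R = 0 → aeval c R = 0 → aeval (b * c) R ≠ 0

theorem inj_gen {A : Matrix (Fin m) (Fin m) F} (hd : A.det ≠ 0)
    {U U' : Matrix (Fin m) (Fin m) F} (hU : U.transpose * A * U = A) (hUU : U * U' = 1)
    (hUU' : U' * U = 1) {R : F[X]} (hch : U.charpoly = (Polynomial.X - C 1) * R)
    (h1 : R.eval 1 ≠ 0)
    (hR : ∀ b c : AlgebraicClosure F, aeval b R = 0 → aeval c R = 0 → aeval (b * c) R ≠ 0)
    {e : Fin m → F} (he : Matrix.toLin' U e = e) (he0 : e ≠ 0) {X : End F (Fin m → F)}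
    (hX : X ∈ soe (bil A) e)
    (h : aeval (cj (Matrix.toLin' U) (Matrix.toLin' U')) R X = 0) : X = 0 := by
  set σ := algebraMap F (AlgebraicClosure F) with hσ
  have hd' : (A.map σ).det ≠ 0 := by
    have h3 : (A.map σ).det = σ A.det := (RingHom.map_det σ A).symm
    rw [h3]
    exact (map_ne_zero σ).2 hd
  have hU' : (U.map σ).transpose * A.map σ * U.map σ = A.map σ := by
    have h3 := congrArg (fun Y : Matrix (Fin m) (Fin m) F => Y.map σ) hU
    simp only [Matrix.map_mul] at h3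
    exact h3
  have hf := fun x y => isom_of_matrix hU' x y
  have hff : Matrix.toLin' (U.map σ) * Matrix.toLin' (U'.map σ) = 1 := by
    have h3 := congrArg (bc σ) (congrArg Matrix.toLin' hUU)
    have h4 : Matrix.toLin' (U * U') = Matrix.toLin' U * Matrix.toLin' U' := by
      rw [Matrix.toLin'_mul]; rfl
    rw [h4, bc_mul, bc_toLin, bc_toLin, bc_toLin, Matrix.map_one σ (map_zero σ) (map_one σ),
      Matrix.toLin'_one] at h3
    exact h3
  have hff' : Matrix.toLin' (U'.map σ) * Matrix.toLin' (U.map σ) = 1 := by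
    have h3 := congrArg (bc σ) (congrArg Matrix.toLin' hUU')
    have h4 : Matrix.toLin' (U' * U) = Matrix.toLin' U' * Matrix.toLin' U := by
      rw [Matrix.toLin'_mul]; rfl
    rw [h4, bc_mul, bc_toLin, bc_toLin, bc_toLin, Matrix.map_one σ (map_zero σ) (map_one σ),
      Matrix.toLin'_one] at h3
    exact h3
  have hev1 : (R.map σ).eval 1 = σ (R.eval 1) := by
    have h3 := Polynomial.eval₂_at_apply σ (1 : F) (p := R)
    rw [map_one] at h3
    rw [eval_map]
    exact h3
  have hch' : (Matrix.toLin' (U.map σ)).charpoly = (Polynomial.X - C 1) * R.map σ := by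
    rw [Matrix.charpoly_toLin', Matrix.charpoly_map, hch, Polynomial.map_mul, Polynomial.map_sub,
      map_X, map_C, map_one]
  obtain ⟨e', he', hee', hRe'⟩ := exists_fix (nd_of_det hd') hf hch'
    (by rw [hev1]; exact (map_ne_zero σ).2 h1)
  set eb : Fin m → AlgebraicClosure F := fun i => σ (e i) with heb
  have hfeb : Matrix.toLin' (U.map σ) eb = eb := by
    rw [← bc_toLin, heb, bc_vec, he]
  have h5 : aeval (Matrix.toLin' (U.map σ)) (R.map σ) eb = (R.map σ).eval 1 • eb :=
    Module.End.aeval_apply_of_mem_apply_eq_smul (by rw [one_smul]; exact hfeb)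
  have heb0 : eb ≠ 0 := by
    intro h6
    apply he0
    funext i
    have h7 := congrFun h6 i
    exact (map_eq_zero σ).1 h7
  have hXeb : bc σ X eb = 0 := by
    rw [heb, bc_vec]
    have h6 : X e = 0 := hX.2
    funext i
    rw [h6, Pi.zero_apply, map_zero, Pi.zero_apply]
  have hXe' : bc σ X e' = 0 := by
    have h6 := h5.symm.trans (hRe' eb)
    have h7 := congrArg (bc σ X) h6
    rw [map_smul, map_smul, hXeb, smul_zero] at h7
    refine (smul_eq_zero.1 h7.symm).resolve_left fun h8 => heb0 ?_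
    rw [h8, zero_smul, hev1] at h6
    exact (smul_eq_zero.1 h6).resolve_left ((map_ne_zero σ).2 h1)
  apply bc_inj σ
  refine inj_closed hf hff hff' he' (R := R.map σ)
    (fun x => ⟨(R.map σ).eval 1 * (bil (A.map σ) e' e')⁻¹, ?_⟩) ?_
    (⟨bc_so σ hX.1, hXe'⟩ : bc σ X ∈ soe (bil (A.map σ)) e') ?_
  · rw [hRe']
    congr 1
    ring
  · intro b c hb hc
    rw [eval_map_algebraMap] at hb hc ⊢
    exact hR b c hb hc
  · rw [← intertwine (bc σ) (cj (Matrix.toLin' U) (Matrix.toLin' U'))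
      (cj (Matrix.toLin' (U.map σ)) (Matrix.toLin' (U'.map σ))) (fun Y => by
        rw [cj_apply, cj_apply, bc_mul, bc_mul, bc_toLin, bc_toLin]) R X, h, map_zero]

/-- **Irreducibility of the skew matrices from a generic isometry.** -/
theorem irr_of_gen {A : Matrix (Fin m) (Fin m) F} (hA : A.IsSymm) (hd : A.det ≠ 0)
    (h2 : (2 : F) ≠ 0) {ρ : Γ →* Matrix (Fin m) (Fin m) F}
    (hρ : ∀ γ, (ρ γ).transpose * A * ρ γ = A) (hs : SIrrM ρ) (hc : ∃ γ, IsGen (ρ γ))
    {M : Submodule F (Matrix (Fin m) (Fin m) F)} (hM : M ≤ soM A)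
    (hst : ∀ γ, ∀ X ∈ M, ρ γ * X * ρ γ⁻¹ ∈ M) : M = ⊥ ∨ M = soM A := by
  obtain ⟨γ₀, R, hch, h1, hR⟩ := hc
  obtain ⟨v, hv, hb⟩ := exists_ob hA hd h2
  have hsy := bil_symm hA
  let g : Γ →* End F (Fin m → F) :=
    { toFun := fun γ => Matrix.toLin' (ρ γ)
      map_one' := by rw [map_one, Matrix.toLin'_one]; rfl
      map_mul' := fun γ δ => by rw [map_mul, Matrix.toLin'_mul]; rfl }
  have hgM : ∀ γ, g γ = Matrix.toLin' (ρ γ) := fun γ => rfl
  have hg : ∀ γ x, g γ x = (ρ γ).mulVec x := fun γ x => Matrix.toLin'_apply _ _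
  have hgi : ∀ γ x y, bil A (g γ x) (g γ y) = bil A x y := fun γ x y => isom_of_matrix (hρ γ) x y
  have hgs : SIrr g := by
    intro Δ h0 hi W hW
    refine hs Δ h0 (by simpa using hi) W fun γ hγ x hx => ?_
    rw [← hg]
    exact hW γ hγ x hx
  have hMo : opS M ≤ so (bil A) := by
    intro X hX
    rw [mem_opS] at hX
    have h3 := toLin_mem_so.2 (hM hX)
    rwa [Matrix.toLin'_toMatrix'] at h3
  have hstM : ∀ γ, ∀ X ∈ opS M, g γ * X * g γ⁻¹ ∈ opS M := by
    intro γ X hX
    rw [mem_opS] at hX ⊢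
    rw [LinearMap.toMatrix'_mul, LinearMap.toMatrix'_mul, hgM, hgM,
      LinearMap.toMatrix'_toLin', LinearMap.toMatrix'_toLin']
    exact hst γ _ hX
  obtain ⟨e, he, hee, hRe⟩ := exists_fix (B := bil A) (f := g γ₀) (nd_of_det hd)
    (hgi γ₀) (R := R) (by rw [hgM, Matrix.charpoly_toLin', hch]) h1
  have he0 : e ≠ 0 := by
    rintro rfl
    apply hee
    rw [map_zero]
  have hff : g γ₀ * g γ₀⁻¹ = 1 := g_mul_inv g γ₀
  have hff' : g γ₀⁻¹ * g γ₀ = 1 := g_inv_mul g γ₀
  have hρρ : ρ γ₀ * ρ γ₀⁻¹ = 1 := by rw [← map_mul, mul_inv_cancel, map_one]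
  have hρρ' : ρ γ₀⁻¹ * ρ γ₀ = 1 := by rw [← map_mul, inv_mul_cancel, map_one]
  have hwl : ∀ X ∈ opS M, wl (bil A) (X e) e ∈ opS M := by
    intro X hX
    refine wl_of_stable hsy h2 (hgi γ₀) hff hff' he hee (R := R)
      (fun x => ⟨R.eval 1 * (bil A e e)⁻¹, ?_⟩) ?_ hMo (hstM γ₀) hX
    · rw [hRe]
      congr 1
      ring
    · intro Y hY h3
      exact inj_gen hd (hρ γ₀) hρρ hρρ' hch h1 hR he he0 hY h3
  have hrf : ∀ X ∈ opS M, rf (bil A) e * X * rf (bil A) e ∈ opS M := by
    intro X hX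
    have h3 := sub_conj hsy h2 hee (hMo hX)
    have h4 : rf (bil A) e * X * rf (bil A) e =
        X - (2 * (bil A e e)⁻¹) • wl (bil A) (X e) e := by
      rw [← h3]
      abel
    rw [h4]
    exact (opS M).sub_mem hX ((opS M).smul_mem _ (hwl X hX))
  have hall : ∀ γ, ∀ X ∈ opS M, rf (bil A) (g γ e) * X * rf (bil A) (g γ e) ∈ opS M := by
    intro γ X hX
    have h3 := hstM γ⁻¹ X hX
    rw [inv_inv] at h3
    have h4 := hstM γ _ (hrf _ h3)
    have h5 : rf (bil A) (g γ e) * X * rf (bil A) (g γ e) =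
        g γ * (rf (bil A) e * (g γ⁻¹ * X * g γ) * rf (bil A) e) * g γ⁻¹ := by
      rw [← conj_rf (hgi γ) (g_mul_inv g γ) e]
      simp only [mul_assoc]
    rw [h5]
    exact h4
  rcases node_so (r := fun γ => g γ e) hsy (nd_of_det hd) h2 (1 : Γ)
    (fun γ => by rw [hgi]; exact hee) (span_of_sirr hgs he0)
    (fun γ δ => conn_of_sirr hsy (nd_of_det hd) hgi hgs he0 γ δ) hMo hall with h | h
  · left
    rw [eq_bot_iff]
    intro Y hY
    have h3 : Matrix.toLin' Y ∈ opS M := toLin_mem_opS.2 hY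
    rw [h, Submodule.mem_bot] at h3
    rw [Submodule.mem_bot]
    exact (Matrix.toLin' : Matrix (Fin m) (Fin m) F ≃ₗ[F] _).map_eq_zero_iff.1 h3
  · right
    refine le_antisymm hM fun X hX => ?_
    rw [← toLin_mem_opS]
    exact so_le_of_wl v hv hb hsy h2 (fun i j _ => h _ _) (toLin_mem_so.2 hX)

/-- **A virtually abelian group is not strongly irreducible in odd dimension.** -/
theorem odd_not_abelian {A : Matrix (Fin m) (Fin m) F} (hd : A.det ≠ 0)
    (h2 : (2 : F) ≠ 0) (hodd : Odd m) (hm : 2 ≤ m) {ρ : Γ →* Matrix (Fin m) (Fin m) F}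
    (hρ : ∀ γ, (ρ γ).transpose * A * ρ γ = A) {D : Subgroup Γ}
    (hD : ∀ a ∈ D, ∀ b ∈ D, ρ a * ρ b = ρ b * ρ a)
    (hs : ∀ W : Submodule F (Fin m → F), (∀ γ ∈ D, ∀ x ∈ W, (ρ γ).mulVec x ∈ W) →
      W = ⊥ ∨ W = ⊤) : False := by
  have hinv : ∀ γ, ρ γ * ρ γ⁻¹ = 1 := fun γ => by rw [← map_mul, mul_inv_cancel, map_one]
  have hinv' : ∀ γ, ρ γ⁻¹ * ρ γ = 1 := fun γ => by rw [← map_mul, inv_mul_cancel, map_one]
  haveI : Nonempty (Fin m) := ⟨⟨0, by omega⟩⟩
  -- a matrix which commutes with `D` and has determinant `0` is `0`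
  have hcomm : ∀ S : Matrix (Fin m) (Fin m) F, (∀ a ∈ D, ρ a * S = S * ρ a) → S.det = 0 →
      S = 0 := by
    intro S hS hdet
    obtain ⟨x, hx0, hx⟩ := Matrix.exists_mulVec_eq_zero_iff.2 hdet
    rcases hs (LinearMap.ker (Matrix.toLin' S)) (fun γ hγ y hy => by
      rw [LinearMap.mem_ker, Matrix.toLin'_apply] at hy ⊢
      rw [Matrix.mulVec_mulVec, ← hS γ hγ, ← Matrix.mulVec_mulVec, hy, Matrix.mulVec_zero])
      with h | h
    · exfalso
      apply hx0
      have h3 : x ∈ LinearMap.ker (Matrix.toLin' S) := by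
        rw [LinearMap.mem_ker, Matrix.toLin'_apply, hx]
      rwa [h, Submodule.mem_bot] at h3
    · have h3 : Matrix.toLin' S = 0 := by
        rw [LinearMap.ker_eq_top] at h
        exact h
      exact (Matrix.toLin' : Matrix (Fin m) (Fin m) F ≃ₗ[F] _).map_eq_zero_iff.1 h3
  have hsq : ∀ a ∈ D, ρ a = 1 ∨ ρ a = -1 := by
    intro a ha
    have hcom : ∀ b ∈ D, ρ b * ρ a = ρ a * ρ b := fun b hb => hD b hb a ha
    have hcom' : ∀ b ∈ D, ρ b * ρ a⁻¹ = ρ a⁻¹ * ρ b := fun b hb => hD b hb _ (D.inv_mem ha)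
    have h3 : ρ a - ρ a⁻¹ = 0 := by
      refine hcomm _ (fun b hb => by rw [mul_sub, sub_mul, hcom b hb, hcom' b hb]) ?_
      -- `A (ρ a - ρ a⁻¹)` is skew
      have h4 : (ρ a - ρ a⁻¹).transpose * A = - (A * (ρ a - ρ a⁻¹)) := by
        have e1 : (ρ a).transpose * A = A * ρ a⁻¹ := by
          have e2 := congrArg (fun Y => Y * ρ a⁻¹) (hρ a)
          simp only [mul_assoc, hinv, mul_one] at e2
          exact e2
        have e3 : (ρ a⁻¹).transpose * A = A * ρ a := by
          have e2 := congrArg (fun Y => Y * ρ a) (hρ a⁻¹)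
          simp only [mul_assoc, hinv', mul_one] at e2
          exact e2
        rw [Matrix.transpose_sub, sub_mul, e1, e3, mul_sub]
        abel
      have h5 := congrArg Matrix.det h4
      rw [Matrix.det_mul, Matrix.det_transpose, Matrix.det_neg, Fintype.card_fin,
        Odd.neg_one_pow hodd, Matrix.det_mul] at h5
      have h6 : 2 * (A.det * (ρ a - ρ a⁻¹).det) = 0 := by linear_combination h5
      exact (mul_eq_zero.1 ((mul_eq_zero.1 h6).resolve_left h2)).resolve_left hd
    have h4 : (ρ a - 1) * (ρ a + 1) = 0 := by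
      have h5 : ρ a * ρ a = 1 := by
        conv_lhs => rhs; rw [sub_eq_zero.1 h3]
        exact hinv a
      calc (ρ a - 1) * (ρ a + 1) = ρ a * ρ a - 1 := by noncomm_ring
        _ = 0 := by rw [h5, sub_self]
    have h5 : (ρ a - 1).det = 0 ∨ (ρ a + 1).det = 0 := by
      have h6 := congrArg Matrix.det h4
      rw [Matrix.det_mul, Matrix.det_zero] at h6
      exact mul_eq_zero.1 h6
    rcases h5 with h5 | h5
    · left
      exact sub_eq_zero.1 (hcomm _ (fun b hb => by
        rw [mul_sub, sub_mul, hcom b hb, mul_one, one_mul]) h5)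
    · right
      exact eq_neg_of_add_eq_zero_left (hcomm _ (fun b hb => by
        rw [mul_add, add_mul, hcom b hb, mul_one, one_mul]) h5)
  set x : Fin m → F := Pi.single ⟨0, by omega⟩ 1 with hx
  rcases hs (Submodule.span F {x}) (fun γ hγ y hy => by
    rcases hsq γ hγ with h | h
    · rw [h, Matrix.one_mulVec]
      exact hy
    · rw [h, Matrix.neg_mulVec, Matrix.one_mulVec]
      exact Submodule.neg_mem _ hy) with h | h
  · rw [Submodule.span_singleton_eq_bot] at h
    have h3 := congrFun h ⟨0, by omega⟩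
    rw [hx, Pi.single_eq_same] at h3
    exact one_ne_zero h3
  · have h3 : (Pi.single ⟨1, by omega⟩ 1 : Fin m → F) ∈ Submodule.span F {x} := by
      rw [h]
      trivial
    obtain ⟨c, hc⟩ := Submodule.mem_span_singleton.1 h3
    have h4 := congrFun hc ⟨1, by omega⟩
    rw [Pi.smul_apply, hx, Pi.single_eq_same, Pi.single_eq_of_ne (by
      intro h5
      have := congrArg Fin.val h5
      simp at this), smul_zero] at h4
    exact zero_ne_one h4

end Pool.Agent.Y127.I
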