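import Pool.Agent.Y127.I.Node
import Pool.Agent.Helper561.FomJordan

/-!
# Abelian subgroups of bounded index
-/

set_option linter.unusedSectionVars false

namespace Pool.Agent.Y127.I

open Module Matrix Cardinal

section embed

variable (p : ℕ) [hp : Fact p.Prime]

theorem mk_padic_le : #(ℚ_[p]) ≤ 𝔠 := by
  have h1 : #(ℚ_[p]) ≤ #(CauSeq ℚ (padicNorm p)) :=
    Cardinal.mk_le_of_surjective (f := fun x : CauSeq ℚ (padicNorm p) => (Quotient.mk _ x : ℚ_[p]))
      Quotient.mk_surjective
  have h2 : #(CauSeq ℚ (padicNorm p)) ≤ #(ℕ → ℚ) :=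
    Cardinal.mk_le_of_injective (f := fun x : CauSeq ℚ (padicNorm p) => (x : ℕ → ℚ))
      (fun x y h => Subtype.ext h)
  refine h1.trans (h2.trans ?_)
  rw [← Cardinal.power_def]
  simp

/-- The `p`-adic numbers embed into the complex numbers. -/
theorem exists_embed : ∃ f : ℤ_[p] →+* ℂ, Function.Injective f := by
  have h1 : #(AlgebraicClosure ℚ_[p]) = 𝔠 := by
    refine le_antisymm ?_ ?_
    · refine (Algebra.IsAlgebraic.cardinalMk_le_max ℚ_[p] (AlgebraicClosure ℚ_[p])).trans ?_
      exact max_le (mk_padic_le p) Cardinal.aleph0_le_continuum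
    · refine (continuum_le_cardinal_of_nontriviallyNormedField ℚ_[p]).trans ?_
      exact Cardinal.mk_le_of_injective (algebraMap ℚ_[p] (AlgebraicClosure ℚ_[p])).injective
  have h2 : Nonempty (AlgebraicClosure ℚ_[p] ≃ ℂ) := by
    rw [← Cardinal.eq, h1, Cardinal.mk_complex]
  haveI : CharZero (AlgebraicClosure ℚ_[p]) :=
    charZero_of_injective_algebraMap (algebraMap ℚ_[p] (AlgebraicClosure ℚ_[p])).injective
  obtain ⟨e⟩ := IsAlgClosed.ringEquiv_of_equiv_of_charZero
    (K := AlgebraicClosure ℚ_[p]) (L := ℂ) (by rw [h1]; exact Cardinal.aleph0_lt_continuum) h2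
  refine ⟨(e : AlgebraicClosure ℚ_[p] →+* ℂ).comp ((algebraMap ℚ_[p] (AlgebraicClosure ℚ_[p])).comp
    (PadicInt.Coe.ringHom (p := p))), ?_⟩
  intro x y hxy
  have h3 := e.injective hxy
  have h4 := (algebraMap ℚ_[p] (AlgebraicClosure ℚ_[p])).injective h3
  exact PadicInt.ext h4

end embed

section jor

variable {p : ℕ} [hp : Fact p.Prime] {m : ℕ}

/-- **Jordan's theorem over the `p`-adic integers.** -/
theorem jordan_padic {G : Type} [Group G] [Finite G] (σ : G →* Matrix (Fin m) (Fin m) ℤ_[p])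
    (hσ : Function.Injective σ) : ∃ A : Subgroup G, (∀ a ∈ A, ∀ b ∈ A, a * b = b * a) ∧
      A.index ≤ 5 ^ (2 * (m * m)) := by
  obtain ⟨f, hf⟩ := exists_embed p
  let τ : G →* ((Fin m → ℂ) →ₗ[ℂ] (Fin m → ℂ)) :=
    { toFun := fun x => toLin' ((σ x).map f)
      map_one' := by
        rw [map_one, Matrix.map_one _ (map_zero _) (map_one _), toLin'_one]
        rfl
      map_mul' := fun x y => by
        rw [map_mul, Matrix.map_mul, toLin'_mul]
        rfl }
  have hτ : Function.Injective τ := by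
    intro x y hxy
    apply hσ
    have h1 : (σ x).map f = (σ y).map f := toLin'.injective hxy
    exact Matrix.map_injective hf h1
  obtain ⟨A, hA, hi⟩ := Pool.Agent.Helper561.FOM.jordan_linear τ hτ
  refine ⟨A, hA, hi.trans (le_of_eq ?_)⟩
  rw [finrank_fin_fun]

end jor

section nodal

variable {F : Type} [Field F] {V : Type} [AddCommGroup V] [Module F V]
  {B : V →ₗ[F] V →ₗ[F] F} {Γ : Type} [Group Γ]

/-- **A group with a reflection is not virtually abelian.** -/
theorem node_not_abelian [FiniteDimensional F V] (hsy : ∀ x y, B x y = B y x)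
    (h2 : (2 : F) ≠ 0) (hn : 3 ≤ finrank F V)
    {g : Γ →* End F V} (hg : ∀ γ x y, B (g γ x) (g γ y) = B x y)
    {γ₀ : Γ} {e : V} (he : B e e ≠ 0) (h0 : g γ₀ = rf B e) {A : Subgroup Γ} {J : ℕ}
    (hA0 : A.index ≠ 0) (hAJ : A.index ≤ J) (hA : ∀ a ∈ A, ∀ b ∈ A, g a * g b = g b * g a)
    (hs : ∀ Δ : Subgroup Γ, Δ.index ≠ 0 → Δ.index ≤ J * J →
      ∀ W : Submodule F V, (∀ γ ∈ Δ, ∀ x ∈ W, g γ x ∈ W) → W = ⊥ ∨ W = ⊤) : False := by
  set ρ := rf B e with hρ
  have hρρ : ρ * ρ = 1 := rf_rf he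
  have hinv : g γ₀⁻¹ = ρ := by
    calc g γ₀⁻¹ = g γ₀⁻¹ * (g γ₀ * ρ) := by rw [h0, hρρ, mul_one]
      _ = ρ := by rw [← mul_assoc, g_inv_mul, one_mul]
  -- the saturation
  let A' : Subgroup Γ := (A.map g.toHomUnits).comap g.toHomUnits
  have hAA : A ≤ A' := Subgroup.le_comap_map _ _
  have hA'0 : A'.index ≠ 0 := ne_zero_of_dvd_ne_zero hA0 (Subgroup.index_dvd_of_le hAA)
  have hA'J : A'.index ≤ J := (Nat.le_of_dvd (Nat.pos_of_ne_zero hA0)
    (Subgroup.index_dvd_of_le hAA)).trans hAJ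
  have hA'mem : ∀ γ, γ ∈ A' → ∃ a ∈ A, g a = g γ := by
    rintro γ ⟨a, ha, hag⟩
    exact ⟨a, ha, congrArg Units.val hag⟩
  have hA'sat : ∀ γ δ, γ ∈ A' → g γ = g δ → δ ∈ A' := by
    intro γ δ hγ hγδ
    obtain ⟨a, ha, hag⟩ := hA'mem γ hγ
    exact ⟨a, ha, Units.ext (hag.trans hγδ)⟩
  have hA'c : ∀ a ∈ A', ∀ b ∈ A', g a * g b = g b * g a := by
    intro a ha b hb
    obtain ⟨a', ha', h1⟩ := hA'mem a ha
    obtain ⟨b', hb', h3⟩ := hA'mem b hb
    rw [← h1, ← h3]
    exact hA a' ha' b' hb'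
  let D : Subgroup Γ := A' ⊓ A'.comap (MulAut.conj γ₀).toMonoidHom
  have hcidx : (A'.comap (MulAut.conj γ₀).toMonoidHom).index = A'.index :=
    Subgroup.index_comap_of_surjective _ (MulAut.conj γ₀).surjective
  have hD0 : D.index ≠ 0 := Subgroup.index_inf_ne_zero hA'0 (by rw [hcidx]; exact hA'0)
  have hDJ : D.index ≤ J * J := by
    refine Subgroup.index_inf_le.trans ?_
    rw [hcidx]
    exact Nat.mul_le_mul hA'J hA'J
  have hDs := hs D hD0 hDJ
  have hDc : ∀ b ∈ D, γ₀ * b * γ₀⁻¹ ∈ D := by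
    intro b hb
    refine ⟨hb.2, ?_⟩
    change γ₀ * (γ₀ * b * γ₀⁻¹) * γ₀⁻¹ ∈ A'
    refine hA'sat b _ hb.1 ?_
    simp only [map_mul, h0, hinv]
    calc g b = (ρ * ρ) * g b * (ρ * ρ) := by rw [hρρ, one_mul, mul_one]
      _ = _ := by simp only [mul_assoc]
  -- the commutators are trivial
  have hcomm : ∀ b ∈ D, rf B (g b e) = ρ := by
    intro b hb
    set c := b * γ₀ * b⁻¹ * γ₀⁻¹ with hc
    have hcD : c ∈ D := by
      have h1 := D.mul_mem hb (hDc _ (D.inv_mem hb))
      have h3 : b * (γ₀ * b⁻¹ * γ₀⁻¹) = c := by rw [hc]; simp only [mul_assoc]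
      rwa [h3] at h1
    have hgc : g c = rf B (g b e) * ρ := by
      rw [hc, map_mul, map_mul, map_mul, hinv, h0, conj_rf (hg b) (g_mul_inv g b)]
    set W : Submodule F V := LinearMap.ker (g c - 1) with hW
    have hWD : ∀ γ ∈ D, ∀ x ∈ W, g γ x ∈ W := by
      intro γ hγ x hx
      rw [hW, LinearMap.mem_ker, LinearMap.sub_apply, Module.End.one_apply, sub_eq_zero] at hx ⊢
      have h1 := congrArg (fun f : End F V => f x) (hA'c c hcD.1 γ hγ.1)
      simp only [Module.End.mul_apply] at h1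
      rw [h1, hx]
    have hne : W ≠ ⊥ := by
      intro hbot
      have h3 : LinearMap.ker (B e) ⊓ LinearMap.ker (B (g b e)) ≤ W := by
        rintro x ⟨hx1, hx2⟩
        have f1 : ρ x = x := by
          rw [hρ, rf_apply, LinearMap.mem_ker.1 hx1, mul_zero, zero_smul, sub_zero]
        have f2 : rf B (g b e) x = x := by
          rw [rf_apply, LinearMap.mem_ker.1 hx2, mul_zero, zero_smul, sub_zero]
        rw [hW, LinearMap.mem_ker, LinearMap.sub_apply, Module.End.one_apply, sub_eq_zero, hgc,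
          Module.End.mul_apply, f1, f2]
      have h4 := finrank_inf_ker (⊤ : Submodule F V) (B e) (u := e) trivial he
      rw [finrank_top, top_inf_eq] at h4
      have h5 : finrank F (LinearMap.ker (B e)) ≤
          finrank F ↥(LinearMap.ker (B e) ⊓ LinearMap.ker (B (g b e))) + 1 := by
        by_cases h6 : ∃ u ∈ LinearMap.ker (B e), B (g b e) u ≠ 0
        · obtain ⟨u, hu, hu'⟩ := h6
          exact (finrank_inf_ker _ (B (g b e)) hu hu').le
        · push Not at h6
          have h7 : LinearMap.ker (B e) ≤ LinearMap.ker (B e) ⊓ LinearMap.ker (B (g b e)) :=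
            le_inf le_rfl fun u hu => h6 u hu
          exact (Submodule.finrank_mono h7).trans (Nat.le_succ _)
      have h8 := Submodule.finrank_mono h3
      rw [hbot, finrank_bot] at h8
      omega
    have htop := (hDs W hWD).resolve_left hne
    have h1 : g c = 1 := by
      apply LinearMap.ext
      intro x
      have hx : x ∈ W := by rw [htop]; trivial
      rw [hW, LinearMap.mem_ker, LinearMap.sub_apply, sub_eq_zero] at hx
      exact hx
    calc rf B (g b e) = rf B (g b e) * (ρ * ρ) := by rw [hρρ, mul_one]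
      _ = ρ := by rw [← mul_assoc, ← hgc, h1, one_mul]
  -- the line is stable
  have hline : ∀ γ ∈ D, ∀ x ∈ Submodule.span F {e}, g γ x ∈ Submodule.span F {e} := by
    intro b hb x hx
    have h1 : g b e ∈ Submodule.span F {e} := by
      have h3 : rf B (g b e) e = ρ e := by rw [hcomm b hb]
      rw [hρ, rf_self he, rf_apply] at h3
      set c := 2 * (B (g b e) (g b e))⁻¹ * B (g b e) e with hc
      have h4 : c • g b e = (2 : F) • e := by
        rw [two_smul]
        have h5 : c • g b e = e - (e - c • g b e) := by abel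
        rw [h5, h3]
        abel
      have he0 : e ≠ 0 := by
        rintro rfl
        apply he
        rw [map_zero]
      have hc0 : c ≠ 0 := by
        intro h5
        rw [h5, zero_smul] at h4
        exact smul_ne_zero h2 he0 h4.symm
      rw [Submodule.mem_span_singleton]
      refine ⟨c⁻¹ * 2, ?_⟩
      rw [mul_smul, ← h4, smul_smul, inv_mul_cancel₀ hc0, one_smul]
    rw [Submodule.mem_span_singleton] at hx
    obtain ⟨t, rfl⟩ := hx
    rw [map_smul]
    exact Submodule.smul_mem _ _ h1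
  have he0 : e ≠ 0 := by
    rintro rfl
    apply he
    rw [map_zero]
  rcases hDs _ hline with h | h
  · rw [Submodule.span_singleton_eq_bot] at h
    exact he0 h
  · have h1 := finrank_span_singleton (K := F) he0
    rw [h, finrank_top] at h1
    omega

end nodal

end Pool.Agent.Y127.I
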