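import Pool.Agent.Y127.I.JorA

/-!
# Lifting representations of finite groups of order prime to `p`
-/

set_option linter.unusedSectionVars false

namespace Pool.Agent.Y127.I

open Module Matrix

section step

variable {p : ℕ} [hp : Fact p.Prime] {m : ℕ}

/-- The reduction modulo `p`. -/
noncomputable def red : Matrix (Fin m) (Fin m) ℤ_[p] →+* Matrix (Fin m) (Fin m) (ZMod p) :=
  (PadicInt.toZMod (p := p)).mapMatrix

theorem red_smul (Z : Matrix (Fin m) (Fin m) ℤ_[p]) {k : ℕ} (hk : 1 ≤ k) :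
    red ((p : ℤ_[p]) ^ k • Z) = 0 := by
  ext a b
  change PadicInt.toZMod ((p : ℤ_[p]) ^ k * Z a b) = 0
  rw [map_mul, map_pow, toZMod_eq_zero.2 ⟨1, (mul_one _).symm⟩, zero_pow (by omega), zero_mul]

theorem of_red {x : Matrix (Fin m) (Fin m) ℤ_[p]} (h : red x = 0) :
    ∃ Z, x = (p : ℤ_[p]) • Z := by
  have h1 : ∀ a b, ∃ y, x a b = (p : ℤ_[p]) * y := fun a b =>
    toZMod_eq_zero.1 (congrFun (congrFun h a) b)
  choose Z hZ using h1
  exact ⟨Z, by ext a b; exact hZ a b⟩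

theorem red_surj : Function.Surjective (red (p := p) (m := m)) := by
  intro y
  have hs := ZMod.ringHom_surjective (PadicInt.toZMod (p := p))
  choose f hf using hs
  refine ⟨y.map f, ?_⟩
  ext a b
  exact hf _

theorem smul_cancelM {k : ℕ} {x y : Matrix (Fin m) (Fin m) ℤ_[p]}
    (h : (p : ℤ_[p]) ^ k • x = (p : ℤ_[p]) ^ k • y) : x = y := by
  ext a b
  have h1 : (p : ℤ_[p]) ^ k * x a b = (p : ℤ_[p]) ^ k * y a b := congrFun (congrFun h a) b
  have hp0 : (p : ℤ_[p]) ^ k ≠ 0 := pow_ne_zero _ (by exact_mod_cast hp.out.ne_zero)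
  exact mul_left_cancel₀ hp0 h1

variable {G : Type} [Group G] [Fintype G]

/-- One step. -/
theorem lift_step (hG : ((Fintype.card G : ℕ) : ZMod p) ≠ 0)
    {τ : G →* Matrix (Fin m) (Fin m) (ZMod p)}
    {f : G → Matrix (Fin m) (Fin m) ℤ_[p]} {k : ℕ} (hk : 1 ≤ k) (hred : ∀ g, red (f g) = τ g)
    (hf : ∀ g h, ∃ Z, f g * f h = f (g * h) + (p : ℤ_[p]) ^ k • Z) :
    ∃ f' : G → Matrix (Fin m) (Fin m) ℤ_[p], (∀ g, red (f' g) = τ g) ∧
      ∀ g h, ∃ Z, f' g * f' h = f' (g * h) + (p : ℤ_[p]) ^ (k + 1) • Z := by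
  choose c hc using hf
  have hcoc : ∀ g h x, c (g * h) x + c g h * f x = c g (h * x) + f g * c h x := by
    intro g h x
    apply smul_cancelM (k := k)
    have h1 : f g * f h * f x = f (g * h * x) + (p : ℤ_[p]) ^ k • c (g * h) x +
        (p : ℤ_[p]) ^ k • (c g h * f x) := by
      rw [hc g h, add_mul, hc, smul_mul_assoc]
    have h2 : f g * f h * f x = f (g * h * x) + (p : ℤ_[p]) ^ k • c g (h * x) +
        (p : ℤ_[p]) ^ k • (f g * c h x) := by
      rw [mul_assoc, hc h x, mul_add, hc, mul_smul_comm, mul_assoc g h x]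
    rw [h1, add_assoc, add_assoc] at h2
    have h3 := add_left_cancel h2
    rw [← smul_add, ← smul_add] at h3
    exact h3
  set C : G → G → Matrix (Fin m) (Fin m) (ZMod p) := fun g h => red (c g h) with hC
  have hCoc : ∀ g h x, C (g * h) x + C g h * τ x = C g (h * x) + τ g * C h x := by
    intro g h x
    have h1 := congrArg red (hcoc g h x)
    rw [map_add, map_add, map_mul, map_mul, hred, hred] at h1
    exact h1
  set S : G → Matrix (Fin m) (Fin m) (ZMod p) := fun g => ∑ x, C g x * τ x⁻¹ with hS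
  have hSS : ∀ g h, S (g * h) + ((Fintype.card G : ℕ) : ZMod p) • C g h =
      S g * τ h + τ g * S h := by
    intro g h
    have h1 : ∀ x, C (g * h) x * τ x⁻¹ + C g h = C g (h * x) * τ (h * x)⁻¹ * τ h +
        τ g * (C h x * τ x⁻¹) := by
      intro x
      have h2 := congrArg (fun y => y * τ x⁻¹) (hCoc g h x)
      simp only [add_mul] at h2
      have h3 : τ x * τ x⁻¹ = 1 := by rw [← map_mul, mul_inv_cancel, map_one]
      have h4 : τ (h * x)⁻¹ * τ h = τ x⁻¹ := by
        rw [← map_mul]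
        congr 1
        group
      rw [mul_assoc (C g h), h3, mul_one] at h2
      rw [h2, mul_assoc (C g (h * x)), h4, mul_assoc (τ g)]
    have h5 := Finset.sum_congr rfl fun (x : G) (_ : x ∈ Finset.univ) => h1 x
    rw [Finset.sum_add_distrib, Finset.sum_add_distrib, Finset.sum_const, Finset.card_univ,
      ← Finset.sum_mul, ← Finset.mul_sum] at h5
    have h6 : ∑ x, C g (h * x) * τ (h * x)⁻¹ = S g :=
      Fintype.sum_equiv (Equiv.mulLeft h) _ _ fun x => rfl
    rw [h6] at h5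
    rw [Nat.cast_smul_eq_nsmul]
    exact h5
  set N := ((Fintype.card G : ℕ) : ZMod p) with hN
  have hb : ∀ g, ∃ b, red b = -(N⁻¹ • S g) := fun g => red_surj _
  choose b hb using hb
  refine ⟨fun g => f g + (p : ℤ_[p]) ^ k • b g, fun g => ?_, fun g h => ?_⟩
  · rw [map_add, red_smul _ hk, add_zero, hred]
  · have h1 : red (c g h + f g * b h + b g * f h - b (g * h)) = 0 := by
      rw [map_sub, map_add, map_add, map_mul, map_mul, hb, hb, hb, hred, hred]
      change C g h + _ + _ - _ = 0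
      have h2 : C g h = N⁻¹ • (S g * τ h + τ g * S h - S (g * h)) := by
        rw [← hSS g h, add_sub_cancel_left, smul_smul, inv_mul_cancel₀ hG, one_smul]
      rw [h2]
      simp only [smul_sub, smul_add, mul_neg, neg_mul, mul_smul_comm, smul_mul_assoc]
      abel
    obtain ⟨Z, hZ⟩ := of_red h1
    refine ⟨Z + (p : ℤ_[p]) ^ (k - 1) • (b g * b h), ?_⟩
    have e1 : (f g + (p : ℤ_[p]) ^ k • b g) * (f h + (p : ℤ_[p]) ^ k • b h) =
        f (g * h) + (p : ℤ_[p]) ^ k • b (g * h) +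
        (p : ℤ_[p]) ^ k • (c g h + f g * b h + b g * f h - b (g * h)) +
        ((p : ℤ_[p]) ^ k * (p : ℤ_[p]) ^ k) • (b g * b h) := by
      rw [add_mul, mul_add, mul_add, hc g h, smul_mul_smul_comm, mul_smul_comm, smul_mul_assoc]
      simp only [smul_add, smul_sub]
      abel
    have e2 : (p : ℤ_[p]) ^ k * (p : ℤ_[p]) ^ k = (p : ℤ_[p]) ^ (k + 1) * (p : ℤ_[p]) ^ (k - 1) := by
      rw [← pow_add, ← pow_add]
      congr 1
      omega
    rw [e1, hZ, e2, smul_smul, smul_add, smul_smul, ← pow_succ, add_assoc]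

theorem exists_approx (hG : ((Fintype.card G : ℕ) : ZMod p) ≠ 0)
    (τ : G →* Matrix (Fin m) (Fin m) (ZMod p)) (k : ℕ) :
    ∃ f : G → Matrix (Fin m) (Fin m) ℤ_[p], (∀ g, red (f g) = τ g) ∧
      ∀ g h, ∃ Z, f g * f h = f (g * h) + (p : ℤ_[p]) ^ (k + 1) • Z := by
  induction k with
  | zero =>
    choose f hf using red_surj (p := p) (m := m)
    refine ⟨fun g => f (τ g), fun g => hf _, fun g h => ?_⟩
    have h1 : red (f (τ g) * f (τ h) - f (τ (g * h))) = 0 := by
      rw [map_sub, map_mul, hf, hf, hf, map_mul, sub_self]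
    obtain ⟨Z, hZ⟩ := of_red h1
    exact ⟨Z, by rw [zero_add, pow_one, ← hZ]; abel⟩
  | succ k ih =>
    obtain ⟨f, hf, hf'⟩ := ih
    exact lift_step hG (by omega) hf hf'

theorem eq_zero_of_div {x : Matrix (Fin m) (Fin m) ℤ_[p]}
    (h : ∀ k : ℕ, ∃ Z, x = (p : ℤ_[p]) ^ (k + 1) • Z) : x = 0 := by
  ext a b
  change x a b = 0
  by_contra hne
  have h1 : ∀ k : ℕ, ‖x a b‖ ≤ (p : ℝ) ^ (-((k + 1 : ℕ) : ℤ)) := by
    intro k
    obtain ⟨Z, hZ⟩ := h k
    rw [PadicInt.norm_le_pow_iff_mem_span_pow, Ideal.mem_span_singleton]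
    exact ⟨Z a b, by rw [hZ]; rfl⟩
  have h2 : 0 < ‖x a b‖ := norm_pos_iff.2 hne
  have h3 : (1 : ℝ) < p := by exact_mod_cast hp.out.one_lt
  obtain ⟨k, hk⟩ := exists_pow_lt_of_lt_one h2 (inv_lt_one_of_one_lt₀ h3)
  have h4 := h1 k
  rw [_root_.zpow_neg, _root_.zpow_natCast, ← _root_.inv_pow] at h4
  have h5 : ((p : ℝ)⁻¹) ^ (k + 1) ≤ ((p : ℝ)⁻¹) ^ k :=
    pow_le_pow_of_le_one (by positivity) (inv_lt_one_of_one_lt₀ h3).le (Nat.le_succ k)
  linarith

/-- **Lifting to characteristic zero.** -/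
theorem exists_lift_hom (hG : ((Fintype.card G : ℕ) : ZMod p) ≠ 0)
    (τ : G →* Matrix (Fin m) (Fin m) (ZMod p)) :
    ∃ σ : G →* Matrix (Fin m) (Fin m) ℤ_[p], ∀ g, red (σ g) = τ g := by
  choose f₀ hf₀ using red_surj (p := p) (m := m)
  haveI hcs : CompactSpace (Matrix (Fin m) (Fin m) ℤ_[p]) :=
    inferInstanceAs (CompactSpace (Fin m → Fin m → ℤ_[p]))
  set P : ℕ → Set (Matrix (Fin m) (Fin m) ℤ_[p]) := fun k =>
    Set.range fun Z => (p : ℤ_[p]) ^ k • Z with hP
  have hPc : ∀ k, IsClosed (P k) := fun k =>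
    (isCompact_range (continuous_const_smul _)).isClosed
  set Cs : ℕ → Set (G → Matrix (Fin m) (Fin m) ℤ_[p]) := fun k =>
    {f | (∀ g, f g - f₀ (τ g) ∈ P 1) ∧ ∀ g h, f g * f h - f (g * h) ∈ P (k + 1)} with hCs
  have hmemP1 : ∀ (f : G → Matrix (Fin m) (Fin m) ℤ_[p]) (g : G),
      f g - f₀ (τ g) ∈ P 1 ↔ red (f g) = τ g := by
    intro f g
    constructor
    · rintro ⟨Z, hZ⟩
      have h1 := congrArg red hZ
      simp only at h1
      rw [red_smul _ le_rfl, map_sub, hf₀] at h1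
      exact (sub_eq_zero.1 h1.symm)
    · intro h
      obtain ⟨Z, hZ⟩ := of_red (x := f g - f₀ (τ g)) (by rw [map_sub, hf₀, h, sub_self])
      exact ⟨Z, by simp only [pow_one]; exact hZ.symm⟩
  have hclosed : ∀ k, IsClosed (Cs k) := by
    intro k
    have h1 : Cs k = (⋂ g, {f | f g - f₀ (τ g) ∈ P 1}) ∩
        ⋂ g, ⋂ h, {f | f g * f h - f (g * h) ∈ P (k + 1)} := by
      ext f
      simp only [hCs, Set.mem_setOf_eq, Set.mem_inter_iff, Set.mem_iInter]
    rw [h1]
    refine IsClosed.inter (isClosed_iInter fun g => ?_)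
      (isClosed_iInter fun g => isClosed_iInter fun h => ?_)
    · exact (hPc 1).preimage ((continuous_apply g).sub continuous_const)
    · exact (hPc (k + 1)).preimage (((continuous_apply g).matrix_mul (continuous_apply h)).sub
        (continuous_apply (g * h)))
  have hne : ∀ k, (Cs k).Nonempty := by
    intro k
    obtain ⟨f, hf, hf'⟩ := exists_approx hG τ k
    refine ⟨f, fun g => (hmemP1 f g).2 (hf g), fun g h => ?_⟩
    obtain ⟨Z, hZ⟩ := hf' g h
    exact ⟨Z, by simp only; rw [hZ, add_sub_cancel_left]⟩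
  have hanti : ∀ k, Cs (k + 1) ⊆ Cs k := by
    rintro k f ⟨hf, hf'⟩
    refine ⟨hf, fun g h => ?_⟩
    obtain ⟨Z, hZ⟩ := hf' g h
    refine ⟨(p : ℤ_[p]) • Z, ?_⟩
    simp only at hZ ⊢
    rw [← hZ, smul_smul, ← pow_succ]
  obtain ⟨f, hf⟩ := IsCompact.nonempty_iInter_of_sequence_nonempty_isCompact_isClosed Cs hanti hne
    (hclosed 0).isCompact hclosed
  rw [Set.mem_iInter] at hf
  have hmul : ∀ g h, f (g * h) = f g * f h := by
    intro g h
    have h1 : f g * f h - f (g * h) = 0 := by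
      refine eq_zero_of_div fun k => ?_
      obtain ⟨Z, hZ⟩ := (hf k).2 g h
      exact ⟨Z, hZ.symm⟩
    exact (sub_eq_zero.1 h1).symm
  have hfr : ∀ g, red (f g) = τ g := fun g => (hmemP1 f g).1 ((hf 0).1 g)
  have hone : f 1 = 1 := by
    have h1 : f 1 * f 1 = f 1 := by rw [← hmul, mul_one]
    have h2 : IsUnit (f 1) := by
      rw [Matrix.isUnit_iff_isUnit_det]
      apply isUnit_of_toZMod
      have h3 : PadicInt.toZMod (f 1).det = (red (f 1)).det := RingHom.map_det _ _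
      rw [h3, hfr, map_one, det_one]
      exact one_ne_zero
    obtain ⟨u, hu⟩ := h2
    rw [← hu] at h1 ⊢
    have h3 := congrArg (fun y => ((u⁻¹ : (Matrix (Fin m) (Fin m) ℤ_[p])ˣ) :
      Matrix (Fin m) (Fin m) ℤ_[p]) * y) h1
    simp only [Units.inv_mul_cancel_left, Units.inv_mul] at h3
    exact h3
  exact ⟨{ toFun := f, map_one' := hone, map_mul' := hmul }, hfr⟩

end step

end Pool.Agent.Y127.I
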