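import Pool.Agent.Y127.I.Large
import Pool.Agent.Y127.I.Card

/-!
# Large primes: the index is bounded
-/

set_option linter.unusedSectionVars false

namespace Pool.Agent.Y127.I

open Module Matrix

variable {p : ℕ} [hp : Fact p.Prime] {ι : Type} [Fintype ι] [DecidableEq ι] {n : ι → ℕ}
  {Γ : Type} [Group Γ] {A : Mx n ℤ_[p]} {r : Γ →* Mx n ℤ_[p]}

/-- The skew families. -/
def soF (A : Mx n (ZMod p)) : Submodule (ZMod p) (Mx n (ZMod p)) :=
  Submodule.pi Set.univ fun i => soM (A i)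

theorem mem_soF {A : Mx n (ZMod p)} {Z : Mx n (ZMod p)} : Z ∈ soF A ↔ ∀ i, Z i ∈ soM (A i) := by
  unfold soF
  rw [Submodule.mem_pi]
  simp

theorem finrank_soF (A : Mx n (ZMod p)) :
    finrank (ZMod p) (soF A) = ∑ i, finrank (ZMod p) (soM (A i)) := by
  rw [← Module.finrank_pi_fintype (ZMod p)]
  let f : (∀ i, soM (A i)) →ₗ[ZMod p] Mx n (ZMod p) :=
    LinearMap.pi fun i => (soM (A i)).subtype ∘ₗ LinearMap.proj i
  have hf : Function.Injective f := by
    intro x y h
    funext i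
    exact Subtype.ext (congrFun h i)
  have hr : LinearMap.range f = soF A := by
    ext Z
    rw [mem_soF, LinearMap.mem_range]
    constructor
    · rintro ⟨x, rfl⟩ i
      exact (x i).2
    · intro h
      exact ⟨fun i => ⟨Z i, h i⟩, rfl⟩
  rw [← hr]
  exact (LinearMap.finrank_range_of_inj hf)

theorem lg_block (N : ℕ) (x : Mx n (ZMod p)) :
    lg N (Matrix.blockDiagonal' x) = Matrix.blockDiagonal' fun i => lg N (x i) := by
  have h1 : Matrix.blockDiagonal' x =
      Matrix.blockDiagonal'RingHom (fun i => Fin (n i)) (ZMod p) x := rfl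
  have h2 : (fun i => lg N (x i)) =
      ∑ k ∈ Finset.range N, (if k = 0 then (0 : ZMod p) else (-1) ^ (k - 1) * (k : ZMod p)⁻¹) •
        (x - 1) ^ k := by
    funext i
    rw [Finset.sum_apply]
    rfl
  rw [h2]
  have h3 : Matrix.blockDiagonal' (∑ k ∈ Finset.range N,
      (if k = 0 then (0 : ZMod p) else (-1) ^ (k - 1) * (k : ZMod p)⁻¹) • (x - 1) ^ k) =
      Matrix.blockDiagonal'RingHom (fun i => Fin (n i)) (ZMod p) (∑ k ∈ Finset.range N,
      (if k = 0 then (0 : ZMod p) else (-1) ^ (k - 1) * (k : ZMod p)⁻¹) • (x - 1) ^ k) := rfl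
  rw [h3, map_sum]
  unfold lg
  refine Finset.sum_congr rfl fun k _ => ?_
  rw [h1, ← map_one (Matrix.blockDiagonal'RingHom (fun i => Fin (n i)) (ZMod p)), ← map_sub,
    ← map_pow]
  exact (Matrix.blockDiagonal'_smul _ _).symm

/-- The image modulo `p`. -/
noncomputable def img (r : Γ →* Mx n ℤ_[p]) : Finset (Mx n (ZMod p)) :=
  (Set.toFinite (Set.range fun γ => rd (r γ))).toFinset

theorem mem_img {x : Mx n (ZMod p)} : x ∈ img r ↔ ∃ γ, rd (r γ) = x := by
  unfold img
  rw [Set.Finite.mem_toFinset, Set.mem_range]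

theorem img_card_ge (hA : ∀ γ, Isy A (r γ)) {N : ℕ} (hN : 0 < N) (h2N : 2 * N ≤ p)
    (hspan : ∀ Z : Mx n (ZMod p), (∀ i, Z i ∈ soM (rd A i)) → Z ∈ LS N r) :
    p ^ (finrank (ZMod p) (soF (rd A))) ≤ (img r).card *
      (finrank (ZMod p) (soF (rd A)) * (finrank (ZMod p) (soF (rd A)) * N)) ^
        (finrank (ZMod p) (soF (rd A))) := by
  classical
  set d := finrank (ZMod p) (soF (rd A)) with hd
  have hLS : LS N r = soF (rd A) := by
    apply le_antisymm
    · intro Z hZ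
      rw [mem_soF]
      exact fun i => LS_le hA hN h2N hZ i
    · intro Z hZ
      exact hspan Z (mem_soF.1 hZ)
  obtain ⟨b, hbs, hsp, hli⟩ := exists_linearIndependent (ZMod p)
    {X : Mx n (ZMod p) | ∃ γ, Unp N r γ ∧ X = lv N r γ}
  have hfin : Finite b := Set.toFinite b
  haveI : Fintype b := Fintype.ofFinite b
  have hcard : Fintype.card b = d := by
    have h1 : finrank (ZMod p) (Submodule.span (ZMod p) (b : Set (Mx n (ZMod p)))) =
        Fintype.card b := by
      have h2 := finrank_span_eq_card hli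
      rwa [Subtype.range_coe] at h2
    rw [← h1, hsp]
    exact (congrArg (fun M : Submodule (ZMod p) (Mx n (ZMod p)) => finrank (ZMod p) M) hLS)
  let e : Fin d ≃ b := (Fintype.equivFinOfCardEq hcard).symm
  have hch : ∀ j : Fin d, ∃ γ, Unp N r γ ∧ (e j : Mx n (ZMod p)) = lv N r γ := fun j =>
    hbs (e j).2
  choose γ hγ1 hγ2 using hch
  let D := Matrix.blockDiagonal'RingHom (fun i => Fin (n i)) (ZMod p)
  have hDinj : Function.Injective D := Matrix.blockDiagonal'_injective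
  let g : Fin d → Matrix (Σ i, Fin (n i)) (Σ i, Fin (n i)) (ZMod p) := fun j => D (rd (r (γ j)))
  have hlg : ∀ j, lg N (g j) = D (e j : Mx n (ZMod p)) := by
    intro j
    have h1 : lg N (g j) = D (fun i => lg N (rd (r (γ j)) i)) := lg_block N _
    rw [h1, hγ2 j]
    rfl
  have hli2 : LinearIndependent (ZMod p) fun j => lg N (g j) := by
    have h1 : (fun j => lg N (g j)) = fun j => (Matrix.blockDiagonal'AddMonoidHom
      (fun i => Fin (n i)) (fun i => Fin (n i)) (ZMod p)) (e j : Mx n (ZMod p)) := by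
      funext j
      exact hlg j
    let DL : Mx n (ZMod p) →ₗ[ZMod p] Matrix (Σ i, Fin (n i)) (Σ i, Fin (n i)) (ZMod p) :=
      { toFun := fun x => Matrix.blockDiagonal' x
        map_add' := fun x y => Matrix.blockDiagonal'_add _ _
        map_smul' := fun c x => Matrix.blockDiagonal'_smul _ _ }
    have h2 : LinearIndependent (ZMod p) (fun j : Fin d => (e j : Mx n (ZMod p))) :=
      hli.comp e e.injective
    have h3 := h2.map' DL (LinearMap.ker_eq_bot.2 Matrix.blockDiagonal'_injective)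
    rw [h1]
    exact h3
  let S : Finset (Matrix (Σ i, Fin (n i)) (Σ i, Fin (n i)) (ZMod p)) := (img r).image D
  have hScard : S.card = (img r).card := Finset.card_image_of_injective _ hDinj
  have hfac : ∀ k < N, (k.factorial : ZMod p) ≠ 0 := by
    intro k hk h0
    rw [ZMod.natCast_eq_zero_iff, hp.out.dvd_factorial] at h0
    omega
  have key : ∀ M : ℕ, d * (M * (d * N)) ≤ p - 1 → (M + 1) ^ d ≤ (img r).card := by
    intro M hM
    rw [← hScard]
    refine card_ge hN hfac (fun t => ⟨t.val, (ZMod.natCast_zmod_val t).symm⟩) (g := g) ?_ hli2 S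
      ?_ ?_ ?_ (by rw [ZMod.card]; exact hM)
    · intro j
      have h1 : (g j - 1) ^ N = D ((rd (r (γ j)) - 1) ^ N) := by
        rw [map_pow, map_sub, map_one]
      rw [h1, show (rd (r (γ j)) - 1) ^ N = 0 from hγ1 j, map_zero]
    · refine Finset.mem_image.2 ⟨1, mem_img.2 ⟨1, by rw [map_one, map_one]⟩, map_one _⟩
    · intro x hx y hy
      obtain ⟨x', hx', rfl⟩ := Finset.mem_image.1 hx
      obtain ⟨y', hy', rfl⟩ := Finset.mem_image.1 hy
      obtain ⟨a, rfl⟩ := mem_img.1 hx'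
      obtain ⟨c, rfl⟩ := mem_img.1 hy'
      exact Finset.mem_image.2 ⟨_, mem_img.2 ⟨a * c, by rw [map_mul, map_mul]⟩, map_mul _ _ _⟩
    · intro j
      exact Finset.mem_image.2 ⟨_, mem_img.2 ⟨γ j, rfl⟩, rfl⟩
  rcases Nat.eq_zero_or_pos d with h0 | hpos
  · rw [h0, pow_zero, pow_zero, mul_one]
    exact Finset.card_pos.2 ⟨1, mem_img.2 ⟨1, by rw [map_one, map_one]⟩⟩
  · set D0 := d * (d * N) with hD0
    have hD0pos : 0 < D0 := Nat.mul_pos hpos (Nat.mul_pos hpos hN)
    have h1 := key ((p - 1) / D0) (by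
      calc d * ((p - 1) / D0 * (d * N)) = (p - 1) / D0 * D0 := by rw [hD0]; ring
        _ ≤ p - 1 := Nat.div_mul_le_self _ _)
    have h2 : p ≤ ((p - 1) / D0 + 1) * D0 := by
      have h3 := Nat.lt_mul_div_succ (p - 1) hD0pos
      have h4 : p - 1 < ((p - 1) / D0 + 1) * D0 := by
        rw [mul_comm]
        exact h3
      omega
    calc p ^ d ≤ (((p - 1) / D0 + 1) * D0) ^ d := Nat.pow_le_pow_left h2 d
      _ = ((p - 1) / D0 + 1) ^ d * D0 ^ d := mul_pow _ _ _
      _ ≤ (img r).card * D0 ^ d := Nat.mul_le_mul_right _ h1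

/-- The finite group of isometries. -/
noncomputable def isoFin (A : Mx n (ZMod p)) : Finset (Mx n (ZMod p)) :=
  (Set.toFinite {x : Mx n (ZMod p) | Isy A x}).toFinset

theorem mem_isoFin {A x : Mx n (ZMod p)} : x ∈ isoFin A ↔ Isy A x := by
  unfold isoFin
  rw [Set.Finite.mem_toFinset]
  rfl

theorem isoFin_card_le {A : Mx n (ZMod p)} (hAs : ∀ i, (A i).IsSymm) (hAd : ∀ i, (A i).det ≠ 0)
    (h2 : (2 : ZMod p) ≠ 0) :
    (isoFin A).card ≤ 2 ^ (∑ i, n i) * p ^ (finrank (ZMod p) (soF A)) := by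
  classical
  have h1 : isoFin A = Fintype.piFinset fun i =>
      Finset.univ.filter fun g : Matrix (Fin (n i)) (Fin (n i)) (ZMod p) => gᵀ * A i * g = A i := by
    ext x
    rw [mem_isoFin, Fintype.mem_piFinset]
    simp only [Finset.mem_filter, Finset.mem_univ, true_and]
    rfl
  rw [h1, Fintype.card_piFinset, finrank_soF, ← Finset.prod_pow_eq_pow_sum,
    ← Finset.prod_pow_eq_pow_sum, ← Finset.prod_mul_distrib]
  refine Finset.prod_le_prod' fun i _ => ?_
  have h3 := card_O_le (hAs i) (hAd i) h2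
  rwa [ZMod.card] at h3

/-- **Counting cosets.** -/
theorem cosets_le (hA : ∀ γ, Isy A (r γ))
    (hlift : ∀ g : Mx n ℤ_[p], Isy A g → (∃ Y, g = 1 + (p : ℤ_[p]) • Y) → ∃ γ, r γ = g)
    {k : ℕ} (g g' : Fin k → Mx n ℤ_[p]) (hg : ∀ a, Isy A (g a)) (hgg : ∀ a, g a * g' a = 1)
    (hgg' : ∀ a, g' a * g a = 1)
    (hne : ∀ a b, a ≠ b → ¬ ∃ γ, g' a * g b = r γ) :
    k * (img r).card ≤ (isoFin (rd A)).card := by
  classical
  rw [← Fintype.card_fin k, ← Fintype.card_coe (img r), ← Fintype.card_coe (isoFin (rd A)),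
    ← Fintype.card_prod]
  let f : Fin k × img r → isoFin (rd A) := fun x =>
    ⟨rd (g x.1) * x.2.1, by
      obtain ⟨γ, hγ⟩ := mem_img.1 x.2.2
      rw [mem_isoFin, ← hγ]
      exact (hg _).rd.mul (hA γ).rd⟩
  refine Fintype.card_le_of_injective f ?_
  rintro ⟨a, x, hx⟩ ⟨b, y, hy⟩ h
  have h1 : rd (g a) * x = rd (g b) * y := congrArg Subtype.val h
  obtain ⟨γ, rfl⟩ := mem_img.1 hx
  obtain ⟨δ, rfl⟩ := mem_img.1 hy
  have hab : a = b := by
    by_contra hab
    apply hne a b hab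
    -- u = r γ⁻¹ * g' a * g b * r δ is congruent to one
    have hrr : ∀ γ, r γ⁻¹ * r γ = 1 := r_inv_mul
    have h3 : rd (r γ⁻¹ * g' a * (g b * r δ)) = 1 := by
      rw [map_mul, map_mul, map_mul, ← h1, ← map_mul, ← map_mul, ← map_mul]
      rw [show r γ⁻¹ * g' a * (g a * r γ) = r γ⁻¹ * (g' a * g a) * r γ by simp only [mul_assoc],
        hgg' a, mul_one, hrr, map_one]
    have h4 : Isy A (r γ⁻¹ * g' a * (g b * r δ)) :=
      ((hA _).mul ((hg a).inv (hgg a))).mul ((hg b).mul (hA _))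
    obtain ⟨Y, hY⟩ := rd_eq_iff.1 (show rd (r γ⁻¹ * g' a * (g b * r δ)) = rd 1 by rw [h3, map_one])
    obtain ⟨η, hη⟩ := hlift _ h4 ⟨Y, hY⟩
    refine ⟨γ * η * δ⁻¹, ?_⟩
    rw [map_mul, map_mul, hη]
    calc g' a * g b = (r γ * r γ⁻¹) * g' a * g b * (r δ * r δ⁻¹) := by
          rw [r_mul_inv, r_mul_inv, one_mul, mul_one]
      _ = _ := by simp only [mul_assoc]
  subst hab
  have h5 : rd (r γ) = rd (r δ) := by
    calc rd (r γ) = rd (g' a * g a) * rd (r γ) := by rw [hgg' a, map_one, one_mul]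
      _ = rd (g' a) * (rd (g a) * rd (r γ)) := by rw [map_mul, mul_assoc]
      _ = rd (g' a) * (rd (g a) * rd (r δ)) := by rw [h1]
      _ = rd (g' a * g a) * rd (r δ) := by rw [map_mul, mul_assoc]
      _ = rd (r δ) := by rw [hgg' a, map_one, one_mul]
  simp only [h5]

end Pool.Agent.Y127.I
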