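import Pool.Agent.Y127.I.Approx

/-!
# Large primes: the logarithms of the unipotent elements span
-/

set_option linter.unusedSectionVars false

namespace Pool.Agent.Y127.I

open Module Matrix

section uni

variable {p : ℕ} [hp : Fact p.Prime] {m : ℕ}

theorem nil_pow {X : Matrix (Fin m) (Fin m) (ZMod p)} (h : IsNilpotent X) {N : ℕ} (hN : m ≤ N) :
    X ^ N = 0 := by
  have h1 := Matrix.isNilpotent_charpoly_sub_pow_of_isNilpotent h
  have h2 : X.charpoly = Polynomial.X ^ m := by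
    have h3 := h1.eq_zero
    rw [Fintype.card_fin] at h3
    exact sub_eq_zero.1 h3
  have h4 := Matrix.aeval_self_charpoly X
  rw [h2, map_pow, Polynomial.aeval_X] at h4
  rw [← Nat.sub_add_cancel hN, pow_add, h4, mul_zero]

theorem uni_of_pow (hm : 0 < m) {x : Matrix (Fin m) (Fin m) (ZMod p)} {s : ℕ}
    (h : x ^ p ^ s = 1) {N : ℕ} (hN : m ≤ N) : (x - 1) ^ N = 0 := by
  haveI : Nonempty (Fin m) := ⟨⟨0, hm⟩⟩
  refine nil_pow ⟨p ^ s, ?_⟩ hN
  rw [sub_pow_char_pow_of_commute p _ (Commute.one_right x), h, one_pow, sub_self]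

theorem pow_p_eq_one {x : Matrix (Fin m) (Fin m) (ZMod p)} {N : ℕ} (hN : (x - 1) ^ N = 0)
    (hNp : N ≤ p) (hN0 : 0 < N) : x ^ p = 1 := by
  rw [pow_eq_sum (F := ZMod p) hN, Finset.sum_eq_single 0]
  · rw [Nat.choose_zero_right, Nat.cast_one, one_smul, pow_zero]
  · intro k hk hk0
    have h1 : ((p.choose k : ℕ) : ZMod p) = 0 := by
      rw [ZMod.natCast_eq_zero_iff]
      exact hp.out.dvd_choose_self hk0 (lt_of_lt_of_le (Finset.mem_range.1 hk) hNp)
    rw [h1, zero_smul]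
  · intro h
    exact absurd (Finset.mem_range.2 hN0) h

theorem lg_conj {N : ℕ} {g g' x : Matrix (Fin m) (Fin m) (ZMod p)} (hg : g * g' = 1)
    (hg' : g' * g = 1) : lg N (g * x * g') = g * lg N x * g' := by
  unfold lg
  rw [Finset.mul_sum, Finset.sum_mul]
  refine Finset.sum_congr rfl fun k _ => ?_
  have h1 : g * x * g' - 1 = g * (x - 1) * g' := by
    rw [mul_sub, sub_mul, mul_one, hg]
  have h2 : ∀ k : ℕ, (g * (x - 1) * g') ^ k = g * (x - 1) ^ k * g' := by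
    intro k
    induction k with
    | zero => rw [pow_zero, pow_zero, mul_one, hg]
    | succ k ih =>
      rw [pow_succ, pow_succ, ih]
      calc g * (x - 1) ^ k * g' * (g * (x - 1) * g') =
            g * (x - 1) ^ k * (g' * g) * (x - 1) * g' := by simp only [mul_assoc]
        _ = g * ((x - 1) ^ k * (x - 1)) * g' := by rw [hg', mul_one]; simp only [mul_assoc]
  rw [h1, h2, mul_smul_comm, smul_mul_assoc]

/-- The logarithm of an Eichler transformation. -/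
theorem lg_Ee {A : Matrix (Fin m) (Fin m) (ZMod p)} (hA : A.IsSymm) {e a : Fin m → ZMod p}
    (h : Eic (bil A) e a) {N : ℕ} (hN : 3 ≤ N) (h2 : (2 : ZMod p) ≠ 0) :
    lg N (LinearMap.toMatrix' (Ee (bil A) e a)) = LinearMap.toMatrix' (wl (bil A) e a) ∧
      (LinearMap.toMatrix' (Ee (bil A) e a) - 1) ^ 3 = 0 := by
  set X := LinearMap.toMatrix' (wl (bil A) e a) with hX
  have h3 : X * (X * X) = 0 := by
    rw [hX, ← LinearMap.toMatrix'_mul, ← LinearMap.toMatrix'_mul, wl_cube (bil_symm hA) h, map_zero]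
  have h4 : LinearMap.toMatrix' (Ee (bil A) e a) - 1 = X + (2 : ZMod p)⁻¹ • (X * X) := by
    unfold Ee
    rw [map_add, map_add, map_smul, LinearMap.toMatrix'_mul, LinearMap.toMatrix'_one, ← hX]
    abel
  have h5 : X * X * X = 0 := by rw [mul_assoc, h3]
  have h6 : X * X * (X * X) = 0 := by rw [mul_assoc, h3, mul_zero]
  have e2 : (X + (2 : ZMod p)⁻¹ • (X * X)) ^ 2 = X * X := by
    rw [sq, mul_add, add_mul, add_mul, smul_mul_assoc, mul_smul_comm, smul_mul_smul_comm, h3, h5,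
      h6]
    simp
  have e3 : (X + (2 : ZMod p)⁻¹ • (X * X)) ^ 3 = 0 := by
    rw [pow_succ, e2, mul_add, mul_smul_comm, h5, h6, smul_zero, add_zero]
  refine ⟨?_, by rw [h4, e3]⟩
  unfold lg
  rw [h4]
  have h7 : ∀ k, 3 ≤ k → (X + (2 : ZMod p)⁻¹ • (X * X)) ^ k = 0 := by
    intro k hk
    rw [← Nat.sub_add_cancel hk, pow_add, e3, mul_zero]
  rw [← Finset.sum_range_add_sum_Ico _ hN, Finset.sum_eq_zero (s := Finset.Ico 3 N), add_zero,
    Finset.sum_range_succ, Finset.sum_range_succ, Finset.sum_range_succ, Finset.sum_range_zero,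
    if_pos rfl, zero_smul, if_neg (by norm_num), if_neg (by norm_num), pow_one, e2]
  · norm_num
  · intro k hk
    rw [h7 k (Finset.mem_Ico.1 hk).1, smul_zero]

end uni

variable {p : ℕ} [hp : Fact p.Prime] {ι : Type} [Fintype ι] [DecidableEq ι] {n : ι → ℕ}
  {Γ : Type} [Group Γ] {A : Mx n ℤ_[p]} {r : Γ →* Mx n ℤ_[p]}

/-- From an element with prescribed unipotent coordinate to a unipotent element. -/
theorem exists_unp (hn0 : ∀ i, 0 < n i) {N : ℕ} (hN0 : 0 < N) (hNn : ∀ i, n i ≤ N) (hNp : N ≤ p)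
    (γ₀ : Γ) (i : ι) (hi : (rd (r γ₀) i - 1) ^ N = 0) :
    ∃ γ, Unp N r γ ∧ rd (r γ) i = rd (r γ₀) i := by
  obtain ⟨a, b, hab, h1⟩ := Finite.exists_ne_map_eq_of_infinite fun k : ℕ => rd (r (γ₀ ^ k))
  wlog hlt : a < b generalizing a b
  · exact this b a hab.symm h1.symm (lt_of_le_of_ne (not_lt.1 hlt) hab.symm)
  have ho : (rd (r γ₀)) ^ (b - a) = 1 := by
    have h2 : rd (r (γ₀ ^ b)) = rd (r (γ₀ ^ a)) * (rd (r γ₀)) ^ (b - a) := by
      rw [← map_pow, ← map_pow, ← map_mul, ← map_mul, ← pow_add]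
      congr 3
      omega
    have h3 : rd (r (γ₀ ^ a)⁻¹) * rd (r (γ₀ ^ a)) = 1 := by
      rw [← map_mul, ← map_mul, inv_mul_cancel, map_one, map_one]
    have h4 : rd (r (γ₀ ^ a)) = rd (r (γ₀ ^ b)) := h1
    calc (rd (r γ₀)) ^ (b - a) = rd (r (γ₀ ^ a)⁻¹) * rd (r (γ₀ ^ a)) * (rd (r γ₀)) ^ (b - a) := by
          rw [h3, one_mul]
      _ = rd (r (γ₀ ^ a)⁻¹) * rd (r (γ₀ ^ b)) := by rw [mul_assoc, ← h2]
      _ = 1 := by rw [← h4, h3]
  obtain ⟨s, m', hm', ho'⟩ := Nat.exists_eq_pow_mul_and_not_dvd (show b - a ≠ 0 by omega) p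
    hp.out.ne_one
  set t := ZMod.val ((m' : ZMod p)⁻¹) with ht
  have hm0 : (m' : ZMod p) ≠ 0 := fun h => hm' ((ZMod.natCast_eq_zero_iff _ _).1 h)
  have hM1 : ((m' * t : ℕ) : ZMod p) = 1 := by
    rw [Nat.cast_mul, ht, ZMod.natCast_zmod_val, mul_inv_cancel₀ hm0]
  have hM : (m' * t) % p = 1 := by
    have h2 : ((m' * t : ℕ) : ZMod p) = ((1 : ℕ) : ZMod p) := by rw [hM1, Nat.cast_one]
    have h3 := (ZMod.natCast_eq_natCast_iff' _ _ _).1 h2
    rw [h3]
    exact Nat.mod_eq_of_lt hp.out.one_lt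
  refine ⟨γ₀ ^ (m' * t), ?_, ?_⟩
  · have h2 : (rd (r (γ₀ ^ (m' * t)))) ^ p ^ s = 1 := by
      rw [map_pow, map_pow, ← pow_mul, show m' * t * p ^ s = (p ^ s * m') * t by ring, ← ho',
        pow_mul, ho, one_pow]
    unfold Unp
    funext j
    have h3 : (rd (r (γ₀ ^ (m' * t))) j) ^ p ^ s = 1 := congrFun h2 j
    exact uni_of_pow (hn0 j) h3 (hNn j)
  · have h2 : (rd (r γ₀) i) ^ p = 1 := pow_p_eq_one hi hNp hN0
    have h3 : rd (r (γ₀ ^ (m' * t))) i = (rd (r γ₀) i) ^ (m' * t) := by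
      rw [map_pow, map_pow]
      rfl
    rw [h3]
    conv_lhs => rw [← Nat.div_add_mod (m' * t) p]
    rw [hM, pow_add, pow_mul, h2, one_pow, one_mul, pow_one]

theorem lv_mem (hA : ∀ γ, Isy A (r γ)) {N : ℕ} (hN : 0 < N) (h2N : 2 * N ≤ p) {γ : Γ}
    (hγ : Unp N r γ) (i : ι) : lv N r γ i ∈ soM (rd A i) := by
  obtain ⟨Y, hY, hY2⟩ := ell_pow hN h2N hγ
  have h1 : Isy A (1 + (p : ℤ_[p]) ^ 1 • Y) := by
    rw [pow_one, ← hY, ← map_pow]
    exact hA _
  have h2 := skew_of_isy le_rfl h1 i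
  rw [hY2 i] at h2
  exact h2

theorem LS_le (hA : ∀ γ, Isy A (r γ)) {N : ℕ} (hN : 0 < N) (h2N : 2 * N ≤ p)
    {Z : Mx n (ZMod p)} (hZ : Z ∈ LS N r) (i : ι) : Z i ∈ soM (rd A i) := by
  unfold LS at hZ
  induction hZ using Submodule.span_induction with
  | mem X hX =>
    obtain ⟨γ, hγ, rfl⟩ := hX
    exact lv_mem hA hN h2N hγ i
  | zero => exact (soM _).zero_mem
  | add X Y _ _ hX hY => exact (soM _).add_mem hX hY
  | smul c X _ hX => exact (soM _).smul_mem _ hX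

theorem LS_conj {N : ℕ} (γ : Γ) {Z : Mx n (ZMod p)} (hZ : Z ∈ LS N r) :
    rd (r γ) * Z * rd (r γ⁻¹) ∈ LS N r := by
  have e1 : rd (r γ) * rd (r γ⁻¹) = 1 := by
    rw [← map_mul, ← map_mul, mul_inv_cancel, map_one, map_one]
  have e2 : rd (r γ⁻¹) * rd (r γ) = 1 := by
    rw [← map_mul, ← map_mul, inv_mul_cancel, map_one, map_one]
  unfold LS at hZ
  induction hZ using Submodule.span_induction with
  | mem X hX =>
    obtain ⟨δ, hδ, rfl⟩ := hX
    refine Submodule.subset_span ⟨γ * δ * γ⁻¹, ?_, ?_⟩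
    · unfold Unp at hδ ⊢
      have h1 : rd (r (γ * δ * γ⁻¹)) - 1 = rd (r γ) * (rd (r δ) - 1) * rd (r γ⁻¹) := by
        rw [map_mul, map_mul, map_mul, map_mul, mul_sub, sub_mul, mul_one, e1]
      have h2 : ∀ k : ℕ, (rd (r γ) * (rd (r δ) - 1) * rd (r γ⁻¹)) ^ k =
          rd (r γ) * (rd (r δ) - 1) ^ k * rd (r γ⁻¹) := by
        intro k
        induction k with
        | zero => rw [pow_zero, pow_zero, mul_one, e1]
        | succ k ih =>
          rw [pow_succ, pow_succ, ih]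
          calc rd (r γ) * (rd (r δ) - 1) ^ k * rd (r γ⁻¹) *
                (rd (r γ) * (rd (r δ) - 1) * rd (r γ⁻¹)) = rd (r γ) * (rd (r δ) - 1) ^ k *
                (rd (r γ⁻¹) * rd (r γ)) * (rd (r δ) - 1) * rd (r γ⁻¹) := by
                simp only [mul_assoc]
            _ = _ := by rw [e2, mul_one]; simp only [mul_assoc]
      rw [h1, h2, hδ, mul_zero, zero_mul]
    · funext i
      have h3 : rd (r (γ * δ * γ⁻¹)) i = rd (r γ) i * rd (r δ) i * rd (r γ⁻¹) i := by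
        rw [map_mul, map_mul, map_mul, map_mul]
        rfl
      change rd (r γ) i * lg N (rd (r δ) i) * rd (r γ⁻¹) i = lg N (rd (r (γ * δ * γ⁻¹)) i)
      rw [h3, lg_conj (congrFun e1 i) (congrFun e2 i)]
  | zero => rw [mul_zero, zero_mul]; exact Submodule.zero_mem _
  | add X Y _ _ hX hY => rw [mul_add, add_mul]; exact Submodule.add_mem _ hX hY
  | smul c X _ hX => rw [mul_smul_comm, smul_mul_assoc]; exact Submodule.smul_mem _ _ hX

/-- The logarithm of a nontrivial unipotent matrix does not vanish. -/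
theorem lg_ne {m : ℕ} {x : Matrix (Fin m) (Fin m) (ZMod p)} {N : ℕ} (hx : x ≠ 1)
    (hN : (x - 1) ^ N = 0) : lg N x ≠ 0 := by
  classical
  intro h
  have hex : ∃ j, (x - 1) ^ j = 0 := ⟨N, hN⟩
  set j := Nat.find hex with hj
  have hj0 : (x - 1) ^ j = 0 := Nat.find_spec hex
  have hjN : j ≤ N := Nat.find_min' hex hN
  have hj2 : 2 ≤ j := by
    by_contra hlt
    apply hx
    apply sub_eq_zero.1
    rw [← pow_one (x - 1), show (1 : ℕ) = j + (1 - j) by omega, pow_add, hj0, zero_mul]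
  have h1 : (x - 1) ^ (j - 2) * lg N x = (x - 1) ^ (j - 1) := by
    unfold lg
    rw [Finset.mul_sum, Finset.sum_eq_single 1]
    · rw [if_neg one_ne_zero, Nat.sub_self, pow_zero, Nat.cast_one, inv_one, one_mul, one_smul,
        pow_one, ← pow_succ, show j - 2 + 1 = j - 1 by omega]
    · intro k _ hk
      rcases Nat.eq_zero_or_pos k with rfl | hk0
      · rw [if_pos rfl, zero_smul, mul_zero]
      · rw [mul_smul_comm, ← pow_add, show j - 2 + k = j + (k - 2) by omega, pow_add, hj0, zero_mul,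
          smul_zero]
    · intro h1
      exact absurd (Finset.mem_range.2 (by omega)) h1
  rw [h, mul_zero] at h1
  exact Nat.find_min hex (m := j - 1) (by omega) h1.symm

/-- **Large primes**: the logarithms of the unipotent elements of the reduction span. -/
theorem span_all (hAs : ∀ i, (rd A i).IsSymm) (hAd : ∀ i, (rd A i).det ≠ 0)
    (hn : ∀ i, n i = 3 ∨ 5 ≤ n i) (hA : ∀ γ, Isy A (r γ)) {N : ℕ} (hN3 : 3 ≤ N)
    (hNn : ∀ i, n i ≤ N) (h2N : 2 * N ≤ p)
    (hir : ∀ i, ∀ M : Submodule (ZMod p) (Matrix (Fin (n i)) (Fin (n i)) (ZMod p)),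
      M ≤ soM (rd A i) → (∀ γ, ∀ X ∈ M, rd (r γ) i * X * rd (r γ⁻¹) i ∈ M) →
      M = ⊥ ∨ M = soM (rd A i))
    (hord : ∀ i, ∃ γ, rd (r γ) i ≠ 1 ∧ (rd (r γ) i) ^ p = 1)
    (htr : ∀ i j, i ≠ j → ∃ γ, (rd (r γ) i).trace ^ 2 - (rd (r γ) i * rd (r γ) i).trace ≠
      (rd (r γ) j).trace ^ 2 - (rd (r γ) j * rd (r γ) j).trace)
    (Z : Mx n (ZMod p)) (hZ : ∀ i, Z i ∈ soM (rd A i)) : Z ∈ LS N r := by
  have h2 : (2 : ZMod p) ≠ 0 := by
    intro h0
    have h1 : ((2 : ℕ) : ZMod p) = 0 := by exact_mod_cast h0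
    rw [ZMod.natCast_eq_zero_iff] at h1
    have := Nat.le_of_dvd (by norm_num) h1
    omega
  have e1 : ∀ γ i, rd (r γ) i * rd (r γ⁻¹) i = 1 := by
    intro γ i
    have h3 : rd (r γ) * rd (r γ⁻¹) = 1 := by
      rw [← map_mul, ← map_mul, mul_inv_cancel, map_one, map_one]
    exact congrFun h3 i
  let R : ∀ i, Γ → (soM (rd A i) →ₗ[ZMod p] soM (rd A i)) := fun i γ =>
    cjS (hAs i) ((hA γ).rd i) (e1 γ i)
  let inc : (∀ i, soM (rd A i)) →ₗ[ZMod p] Mx n (ZMod p) :=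
    LinearMap.pi fun i => (soM (rd A i)).subtype ∘ₗ LinearMap.proj i
  have hinc : ∀ (x : ∀ i, soM (rd A i)) i, inc x i = (x i : Matrix _ _ (ZMod p)) := fun x i => rfl
  let S : Submodule (ZMod p) (∀ i, soM (rd A i)) := (LS N r).comap inc
  have hirr : ∀ i, ∀ M : Submodule (ZMod p) (soM (rd A i)), (∀ γ, ∀ x ∈ M, R i γ x ∈ M) →
      M = ⊥ ∨ M = ⊤ := by
    intro i M hM
    have h3 := hir i (M.map (soM (rd A i)).subtype) (Submodule.map_subtype_le _ _) (by
        rintro γ _ ⟨x, hx, rfl⟩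
        exact ⟨R i γ x, hM γ x hx, cjS_apply (hAs i) ((hA γ).rd i) (e1 γ i) x⟩)
    rcases h3 with h3 | h3
    · left
      rw [eq_bot_iff]
      intro x hx
      have h4 : (x : Matrix _ _ (ZMod p)) ∈ M.map (soM (rd A i)).subtype :=
        Submodule.mem_map_of_mem hx
      rw [h3, Submodule.mem_bot] at h4
      rw [Submodule.mem_bot]
      exact Subtype.ext h4
    · right
      rw [eq_top_iff]
      intro x _
      have h4 : (x : Matrix _ _ (ZMod p)) ∈ M.map (soM (rd A i)).subtype := by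
        rw [h3]; exact x.2
      obtain ⟨y, hy, hyx⟩ := h4
      rwa [Subtype.ext hyx] at hy
  have hne : ∀ i j, i ≠ j → ∃ γ, LinearMap.trace (ZMod p) _ (R i γ) ≠
      LinearMap.trace (ZMod p) _ (R j γ) := by
    intro i j hij
    obtain ⟨γ, hγ⟩ := htr i j hij
    refine ⟨γ, fun h => hγ ?_⟩
    rw [← trace_cjS (hAs i) (hAd i) h2 ((hA γ).rd i) (e1 γ i),
      ← trace_cjS (hAs j) (hAd j) h2 ((hA γ).rd j) (e1 γ j)]
    rw [show LinearMap.trace (ZMod p) _ (cjS (hAs i) ((hA γ).rd i) (e1 γ i)) =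
      LinearMap.trace (ZMod p) _ (cjS (hAs j) ((hA γ).rd j) (e1 γ j)) from h]
  have hS : ∀ γ, ∀ x ∈ S, (fun i => R i γ (x i)) ∈ S := by
    intro γ x hx
    have h3 := LS_conj γ (show inc x ∈ LS N r from hx)
    change inc (fun i => R i γ (x i)) ∈ LS N r
    have h4 : inc (fun i => R i γ (x i)) = rd (r γ) * inc x * rd (r γ⁻¹) := by
      funext i
      exact cjS_apply (hAs i) ((hA γ).rd i) (e1 γ i) (x i)
    rw [h4]
    exact h3
  have h0 : ∀ i, ∃ x ∈ S, x i ≠ 0 := by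
    intro i
    obtain ⟨γ₀, hne1, hpow⟩ := hord i
    have hni : 0 < n i := by have := hn i; omega
    have huni : (rd (r γ₀) i - 1) ^ N = 0 :=
      uni_of_pow hni (s := 1) (by rw [pow_one]; exact hpow) (hNn i)
    obtain ⟨γ, hγ, hγi⟩ := exists_unp (r := r) (fun j => by have := hn j; omega)
      (by omega : 0 < N) hNn (by omega) γ₀ i huni
    refine ⟨fun j => ⟨lv N r γ j, lv_mem hA (by omega) h2N hγ j⟩, ?_, ?_⟩
    · exact Submodule.subset_span ⟨γ, hγ, rfl⟩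
    · intro h3
      have h4 : lv N r γ i = 0 := congrArg Subtype.val h3
      unfold lv at h4
      rw [hγi] at h4
      exact lg_ne hne1 huni h4
  have htop := goursat hirr hne hS h0
  have h3 : (fun i => (⟨Z i, hZ i⟩ : soM (rd A i))) ∈ S := by
    rw [htop]; exact Submodule.mem_top
  exact h3

section eich

theorem p_24 (hp5 : 5 < p) : (24 : ZMod p) ≠ 0 := by
  intro h0
  have h1 : ((24 : ℕ) : ZMod p) = 0 := by exact_mod_cast h0
  rw [ZMod.natCast_eq_zero_iff] at h1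
  have h2 : p ∣ 2 ^ 3 * 3 := by norm_num; exact h1
  rcases (Nat.Prime.dvd_mul hp.out).1 h2 with h3 | h3
  · have := (Nat.prime_dvd_prime_iff_eq hp.out Nat.prime_two).1 (hp.out.dvd_of_dvd_pow h3)
    omega
  · have := (Nat.prime_dvd_prime_iff_eq hp.out Nat.prime_three).1 h3
    omega

theorem p_two (hp5 : 5 < p) : (2 : ZMod p) ≠ 0 := by
  intro h0
  apply p_24 hp5
  rw [show (24 : ZMod p) = 2 * 12 by norm_num, h0, zero_mul]

variable {m : ℕ} {a : Matrix (Fin m) (Fin m) (ZMod p)} {ρ : Γ → Matrix (Fin m) (Fin m) (ZMod p)}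
  {ρ' : Γ → Matrix (Fin m) (Fin m) (ZMod p)}

/-- Irreducibility from the Eichler transformations. -/
theorem irr_of_E (hp5 : 5 < p) (ha : a.IsSymm) (had : a.det ≠ 0) (hm : m = 3 ∨ 5 ≤ m)
    (hρ : ∀ γ, ρ γ * ρ' γ = 1)
    (hE : ∀ e v, Eic (bil a) e v → ∃ γ, ρ γ = LinearMap.toMatrix' (Ee (bil a) e v))
    {M : Submodule (ZMod p) (Matrix (Fin m) (Fin m) (ZMod p))} (hM : M ≤ soM a)
    (hst : ∀ γ, ∀ X ∈ M, ρ γ * X * ρ' γ ∈ M) : M = ⊥ ∨ M = soM a := by
  have hodd : p % 2 = 1 := by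
    rcases hp.out.eq_two_or_odd with h | h
    · omega
    · exact h
  refine soM_irr_fin ha had (p_24 hp5) (by rw [ZMod.card]; exact hodd) hm hM ?_
  intro e v hev X hX
  obtain ⟨γ, hγ⟩ := hE e v hev
  have h1 := hst γ X hX
  have h4 := hρ γ
  rw [hγ] at h4
  have h5 : LinearMap.toMatrix' (Ee (bil a) (-e) v) *
      LinearMap.toMatrix' (Ee (bil a) e v) = 1 := by
    have h6 := Ee_mul (bil_symm ha) (p_two hp5) (hev.smul (-1))
    rw [neg_one_smul, neg_neg] at h6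
    rw [← LinearMap.toMatrix'_mul, h6, LinearMap.toMatrix'_one]
  have h7 : ρ' γ = LinearMap.toMatrix' (Ee (bil a) (-e) v) := by
    calc ρ' γ = LinearMap.toMatrix' (Ee (bil a) (-e) v) *
          LinearMap.toMatrix' (Ee (bil a) e v) * ρ' γ := by rw [h5, one_mul]
      _ = _ := by rw [mul_assoc, h4, mul_one]
  rwa [hγ, h7] at h1

/-- Elements of order `p` from the Eichler transformations. -/
theorem ord_of_E (hp5 : 5 < p) (ha : a.IsSymm) (had : a.det ≠ 0) (hm : 3 ≤ m)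
    (hE : ∀ e v, Eic (bil a) e v → ∃ γ, ρ γ = LinearMap.toMatrix' (Ee (bil a) e v)) :
    ∃ γ, ρ γ ≠ 1 ∧ (ρ γ) ^ p = 1 := by
  have hodd : p % 2 = 1 := by
    rcases hp.out.eq_two_or_odd with h | h
    · omega
    · exact h
  have h2 := p_two hp5
  obtain ⟨v, hv, hb⟩ := exists_ob ha had h2
  obtain ⟨e, he, hee⟩ := exists_isotropic ha had h2 (by omega)
    (by rw [ZMod.card]; exact hodd)
  have hEs := so_le_Es v hv hb (bil_symm ha) (p_24 hp5)
    (by rw [Fintype.card_fin]; omega) he hee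
  obtain ⟨e, w, hea, hne0⟩ : ∃ e w, Eic (bil a) e w ∧ wl (bil a) e w ≠ 0 := by
    by_contra hcon
    push Not at hcon
    have h3 : Es (bil a) ≤ ⊥ := by
      unfold Es
      rw [Submodule.span_le]
      rintro X ⟨e, w, hea, rfl⟩
      rw [hcon e w hea]
      exact Submodule.zero_mem _
    set a0 : Fin m := ⟨0, by omega⟩
    set a1 : Fin m := ⟨1, by omega⟩
    have h01 : a0 ≠ a1 := by simp [a0, a1]
    have h4 : wl (bil a) (v a0) (v a1) ∈ (⊥ : Submodule (ZMod p) _) :=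
      h3 (hEs (wl_mem (bil_symm ha) _ _))
    rw [Submodule.mem_bot] at h4
    have h5 := c_wl v hv hb (bil_symm ha) a0 a1 a0 a1
    rw [h4, LinearMap.zero_apply, map_zero, if_pos ⟨rfl, rfl⟩, if_neg (fun h => h01 h.1),
      sub_zero] at h5
    exact mul_ne_zero (hb a0) (hb a1) h5.symm
  obtain ⟨γ, hγ⟩ := hE e w hea
  obtain ⟨hl, hc3⟩ := lg_Ee ha hea le_rfl h2
  refine ⟨γ, ?_, ?_⟩
  · intro h1
    rw [← hγ, h1] at hl
    apply hne0
    apply LinearMap.toMatrix'.map_eq_zero_iff.1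
    rw [← hl]
    unfold lg
    refine Finset.sum_eq_zero fun k _ => ?_
    rcases Nat.eq_zero_or_pos k with rfl | hk
    · rw [if_pos rfl, zero_smul]
    · rw [sub_self, zero_pow (by omega), smul_zero]
  · rw [hγ]
    exact pow_p_eq_one hc3 (by omega) (by norm_num)

end eich

end Pool.Agent.Y127.I
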