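import Pool.Agent.Y127.I.Eic

/-!
# Matrix form: irreducibility and the trace on skew matrices
-/

set_option linter.unusedSectionVars false

namespace Pool.Agent.Y127.I

open Module Matrix

variable {F : Type} [Field F] {n : ℕ}

/-- The bilinear form of a matrix. -/
def bil (A : Matrix (Fin n) (Fin n) F) : (Fin n → F) →ₗ[F] (Fin n → F) →ₗ[F] F :=
  Matrix.toLinearMap₂' F A

theorem bil_apply (A : Matrix (Fin n) (Fin n) F) (x y : Fin n → F) : bil A x y = x ⬝ᵥ A *ᵥ y :=
  Matrix.toLinearMap₂'_apply' _ _ _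

theorem bil_symm {A : Matrix (Fin n) (Fin n) F} (hA : A.IsSymm) (x y : Fin n → F) :
    bil A x y = bil A y x := by
  rw [bil_apply, bil_apply, dotProduct_comm, ← Matrix.vecMul_transpose, hA.eq,
    ← Matrix.dotProduct_mulVec]

theorem exists_ob {A : Matrix (Fin n) (Fin n) F} (hA : A.IsSymm) (hd : A.det ≠ 0)
    (h2 : (2 : F) ≠ 0) : ∃ v : Basis (Fin n) F (Fin n → F),
      (∀ i j, i ≠ j → bil A (v i) (v j) = 0) ∧ ∀ i, bil A (v i) (v i) ≠ 0 := by
  haveI : Invertible (2 : F) := invertibleOfNonzero h2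
  have hs : LinearMap.IsSymm (bil A) := ⟨fun x y => bil_symm hA x y⟩
  obtain ⟨v, hv⟩ := LinearMap.BilinForm.exists_orthogonal_basis hs
  have hf : finrank F (Fin n → F) = n := by simp
  have hnd : (bil A).Nondegenerate := by
    unfold bil
    rw [Matrix.nondegenerate_toLinearMap₂'_iff]
    exact Matrix.nondegenerate_of_det_ne_zero hd
  refine ⟨v.reindex (finCongr hf), fun i j hij => ?_, fun i => ?_⟩
  · rw [Basis.reindex_apply, Basis.reindex_apply]
    exact hv (fun h => hij ((finCongr hf).symm.injective h))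
  · rw [Basis.reindex_apply]
    exact hv.not_isOrtho_basis_self_of_separatingLeft hnd.1 _

/-- Skew matrices. -/
def soM (A : Matrix (Fin n) (Fin n) F) : Submodule F (Matrix (Fin n) (Fin n) F) where
  carrier := {X | Xᵀ * A + A * X = 0}
  zero_mem' := by simp
  add_mem' := by
    intro X Y hX hY
    change (X + Y)ᵀ * A + A * (X + Y) = 0
    rw [transpose_add, add_mul, mul_add, show Xᵀ * A + Yᵀ * A + (A * X + A * Y) =
      (Xᵀ * A + A * X) + (Yᵀ * A + A * Y) by abel, hX, hY, add_zero]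
  smul_mem' := by
    intro c X hX
    change (c • X)ᵀ * A + A * (c • X) = 0
    rw [transpose_smul, Matrix.smul_mul, Matrix.mul_smul, ← smul_add, hX, smul_zero]

theorem mem_soM {A X : Matrix (Fin n) (Fin n) F} : X ∈ soM A ↔ Xᵀ * A + A * X = 0 := Iff.rfl

theorem bil_toLin (A X : Matrix (Fin n) (Fin n) F) (x y : Fin n → F) :
    bil A (toLin' X x) y = x ⬝ᵥ (Xᵀ * A) *ᵥ y := by
  rw [bil_apply, toLin'_apply, ← Matrix.mulVec_mulVec, Matrix.dotProduct_mulVec x Xᵀ,
    Matrix.vecMul_transpose]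

theorem bil_toLin' (A X : Matrix (Fin n) (Fin n) F) (x y : Fin n → F) :
    bil A x (toLin' X y) = x ⬝ᵥ (A * X) *ᵥ y := by
  rw [bil_apply, toLin'_apply, Matrix.mulVec_mulVec]

theorem toLin_mem_so {A X : Matrix (Fin n) (Fin n) F} : toLin' X ∈ so (bil A) ↔ X ∈ soM A := by
  constructor
  · intro h
    rw [mem_soM]
    have h1 : ∀ x y : Fin n → F, x ⬝ᵥ (Xᵀ * A + A * X) *ᵥ y = 0 := by
      intro x y
      rw [Matrix.add_mulVec, dotProduct_add, ← bil_toLin, ← bil_toLin']
      exact h x y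
    ext i j
    have h2 := h1 (Pi.single i 1) (Pi.single j 1)
    simpa using h2
  · intro h x y
    rw [bil_toLin, bil_toLin', ← dotProduct_add, ← Matrix.add_mulVec, mem_soM.1 h]
    simp

/-- The image of a subspace of matrices in the operators. -/
def opS (M : Submodule F (Matrix (Fin n) (Fin n) F)) : Submodule F (End F (Fin n → F)) :=
  M.map (toLin' : Matrix (Fin n) (Fin n) F ≃ₗ[F] _).toLinearMap

theorem mem_opS {M : Submodule F (Matrix (Fin n) (Fin n) F)} {X : End F (Fin n → F)} :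
    X ∈ opS M ↔ LinearMap.toMatrix' X ∈ M := by
  unfold opS
  rw [Submodule.mem_map]
  constructor
  · rintro ⟨Y, hY, rfl⟩
    simpa using hY
  · intro h
    exact ⟨_, h, by simp⟩

theorem toLin_mem_opS {M : Submodule F (Matrix (Fin n) (Fin n) F)}
    {X : Matrix (Fin n) (Fin n) F} : toLin' X ∈ opS M ↔ X ∈ M := by
  rw [mem_opS, LinearMap.toMatrix'_toLin']

/-- **Ideals of skew matrices.** -/
theorem soM_irr {A : Matrix (Fin n) (Fin n) F} (hA : A.IsSymm) (hd : A.det ≠ 0)
    (h2 : (2 : F) ≠ 0) (hn : n = 3 ∨ 5 ≤ n) {M : Submodule F (Matrix (Fin n) (Fin n) F)}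
    (hM : M ≤ soM A) (hst : ∀ Y ∈ soM A, ∀ X ∈ M, Y * X - X * Y ∈ M) : M = ⊥ ∨ M = soM A := by
  by_cases h0 : M = ⊥
  · exact Or.inl h0
  right
  obtain ⟨v, hv, hb⟩ := exists_ob hA hd h2
  refine le_antisymm hM fun X hX => ?_
  rw [← toLin_mem_opS]
  refine simple_so v hv hb (M := opS M) ?_ ?_ (bil_symm hA) h2 ?_ ?_ (toLin_mem_so.2 hX)
  · intro Y hY
    rw [mem_opS] at hY
    have h1 := toLin_mem_so.2 (hM hY)
    simpa using h1
  · intro Y hY X hX
    rw [mem_opS] at hX ⊢
    have h1 : LinearMap.toMatrix' Y ∈ soM A := by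
      rw [← toLin_mem_so]
      simpa using hY
    have h3 := hst _ h1 _ hX
    unfold bk
    rw [map_sub, LinearMap.toMatrix'_mul, LinearMap.toMatrix'_mul]
    exact h3
  · simpa using hn
  · intro h1
    apply h0
    rw [eq_bot_iff]
    intro Y hY
    have h3 : toLin' Y ∈ opS M := toLin_mem_opS.2 hY
    rw [h1, Submodule.mem_bot] at h3
    rw [Submodule.mem_bot]
    exact (toLin' : Matrix (Fin n) (Fin n) F ≃ₗ[F] _).map_eq_zero_iff.1 h3

theorem exists_isotropic [Fintype F] {A : Matrix (Fin n) (Fin n) F} (hA : A.IsSymm)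
    (hd : A.det ≠ 0) (h2 : (2 : F) ≠ 0) (hn : 3 ≤ n) (hc : Fintype.card F % 2 = 1) :
    ∃ e : Fin n → F, e ≠ 0 ∧ bil A e e = 0 := by
  obtain ⟨v, hv, hb⟩ := exists_ob hA hd h2
  set i : Fin n := ⟨0, by omega⟩ with hi
  set j : Fin n := ⟨1, by omega⟩ with hj
  set k : Fin n := ⟨2, by omega⟩ with hk
  have hij : i ≠ j := by simp [hi, hj]
  have hik : i ≠ k := by simp [hi, hk]
  have hjk : j ≠ k := by simp [hj, hk]
  obtain ⟨a, b, hab⟩ := FiniteField.exists_root_sum_quadratic
    (f := Polynomial.C (bil A (v i) (v i)) * Polynomial.X ^ 2 + Polynomial.C (bil A (v k) (v k)))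
    (g := Polynomial.C (bil A (v j) (v j)) * Polynomial.X ^ 2)
    (by
      rw [Polynomial.degree_add_eq_left_of_degree_lt]
      · exact Polynomial.degree_C_mul_X_pow 2 (hb i)
      · rw [Polynomial.degree_C_mul_X_pow 2 (hb i)]
        exact lt_of_le_of_lt Polynomial.degree_C_le (by norm_num))
    (Polynomial.degree_C_mul_X_pow 2 (hb j)) hc
  simp only [Polynomial.eval_add, Polynomial.eval_mul, Polynomial.eval_C, Polynomial.eval_pow,
    Polynomial.eval_X] at hab
  refine ⟨a • v i + b • v j + v k, ?_, ?_⟩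
  · intro h0
    have h1 := congrArg (fun x => v.repr x k) h0
    simp [Finsupp.single_apply, hik, hjk] at h1
  · simp only [map_add, map_smul, LinearMap.add_apply, LinearMap.smul_apply, smul_eq_mul,
      hv i j hij, hv j i hij.symm, hv i k hik, hv k i hik.symm, hv j k hjk, hv k j hjk.symm]
    linear_combination hab

/-- **Irreducibility of the skew matrices over a finite field.** -/
theorem soM_irr_fin [Fintype F] {A : Matrix (Fin n) (Fin n) F} (hA : A.IsSymm) (hd : A.det ≠ 0)
    (h24 : (24 : F) ≠ 0) (hc : Fintype.card F % 2 = 1) (hn : n = 3 ∨ 5 ≤ n)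
    {M : Submodule F (Matrix (Fin n) (Fin n) F)} (hM : M ≤ soM A)
    (hst : ∀ e a, Eic (bil A) e a → ∀ X ∈ M, LinearMap.toMatrix' (Ee (bil A) e a) * X *
      LinearMap.toMatrix' (Ee (bil A) (-e) a) ∈ M) : M = ⊥ ∨ M = soM A := by
  have h2 : (2 : F) ≠ 0 := by
    intro h0
    apply h24
    rw [show (24 : F) = 2 * 12 by norm_num, h0, zero_mul]
  obtain ⟨v, hv, hb⟩ := exists_ob hA hd h2
  obtain ⟨e, he, hee⟩ := exists_isotropic hA hd h2 (by omega) hc
  have hE := so_le_Es v hv hb (bil_symm hA) h24 (by rw [Fintype.card_fin]; omega) he hee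
  refine soM_irr hA hd h2 hn hM fun Y hY X hX => ?_
  have h3 : ∀ Z ∈ Es (bil A), ∀ X ∈ opS M, bk Z X ∈ opS M := by
    intro Z hZ X hX
    unfold Es at hZ
    induction hZ using Submodule.span_induction with
    | mem Z hZ =>
      obtain ⟨e, a, h, rfl⟩ := hZ
      refine bk_of_stable h24 (fun e a h X hX => ?_) h hX
      rw [mem_opS] at hX ⊢
      rw [LinearMap.toMatrix'_mul, LinearMap.toMatrix'_mul]
      exact hst e a h _ hX
    | zero => rw [bk_zero_left]; exact (opS M).zero_mem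
    | add Z Z' _ _ hZ hZ' => rw [bk_add_left]; exact (opS M).add_mem hZ hZ'
    | smul c Z _ hZ => rw [bk_smul_left]; exact (opS M).smul_mem _ hZ
  have h4 := h3 (toLin' Y) (hE (toLin_mem_so.2 hY)) (toLin' X) (toLin_mem_opS.2 hX)
  rw [mem_opS] at h4
  unfold bk at h4
  rw [map_sub, LinearMap.toMatrix'_mul, LinearMap.toMatrix'_mul, LinearMap.toMatrix'_toLin',
    LinearMap.toMatrix'_toLin'] at h4
  exact h4

/-! ### The trace -/

theorem trace_eq_sum (f : Matrix (Fin n) (Fin n) F →ₗ[F] Matrix (Fin n) (Fin n) F) :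
    LinearMap.trace F _ f = ∑ i, ∑ j, f (Matrix.single i j 1) i j := by
  rw [LinearMap.trace_eq_matrix_trace F (Matrix.stdBasis F (Fin n) (Fin n)), Matrix.trace,
    Fintype.sum_prod_type]
  refine Finset.sum_congr rfl fun i _ => Finset.sum_congr rfl fun j _ => ?_
  rw [Matrix.diag_apply, LinearMap.toMatrix_apply, Matrix.stdBasis_eq_single]
  simp [Matrix.stdBasis]

theorem trace_conj (P Q : Matrix (Fin n) (Fin n) F) :
    LinearMap.trace F _ (LinearMap.mulLeft F P ∘ₗ LinearMap.mulRight F Q) = P.trace * Q.trace := by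
  rw [trace_eq_sum, Matrix.trace, Matrix.trace, Finset.sum_mul_sum]
  refine Finset.sum_congr rfl fun i _ => Finset.sum_congr rfl fun j _ => ?_
  rw [LinearMap.comp_apply, LinearMap.mulRight_apply, LinearMap.mulLeft_apply, ← mul_assoc,
    Matrix.diag_apply, Matrix.diag_apply]
  rw [Matrix.mul_apply, Finset.sum_eq_single j]
  · rw [Matrix.mul_apply, Finset.sum_eq_single i]
    · simp
    · intro k _ hk
      simp [Matrix.single_apply, hk.symm]
    · simp
  · intro k _ hk
    rw [Matrix.mul_apply, Finset.sum_eq_zero, zero_mul]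
    intro l _
    simp [Matrix.single_apply, hk.symm]
  · simp

/-- `X ↦ P Xᵀ Q`. -/
def trL (P Q : Matrix (Fin n) (Fin n) F) : Matrix (Fin n) (Fin n) F →ₗ[F] Matrix (Fin n) (Fin n) F where
  toFun X := P * Xᵀ * Q
  map_add' X Y := by rw [transpose_add, mul_add, add_mul]
  map_smul' c X := by rw [transpose_smul, Matrix.mul_smul, Matrix.smul_mul, RingHom.id_apply]

theorem trace_trL (P Q : Matrix (Fin n) (Fin n) F) :
    LinearMap.trace F _ (trL P Q) = (Pᵀ * Q).trace := by
  rw [trace_eq_sum, Matrix.trace]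
  rw [Finset.sum_comm]
  refine Finset.sum_congr rfl fun j _ => ?_
  rw [Matrix.diag_apply, Matrix.mul_apply]
  refine Finset.sum_congr rfl fun i _ => ?_
  change (P * (Matrix.single i j (1 : F))ᵀ * Q) i j = _
  rw [Matrix.mul_apply, Finset.sum_eq_single i]
  · rw [Matrix.mul_apply, Finset.sum_eq_single j]
    · simp [Matrix.transpose_apply]
    · intro k _ hk
      simp [Matrix.single_apply, hk.symm]
    · simp
  · intro k _ hk
    rw [Matrix.mul_apply, Finset.sum_eq_zero, zero_mul]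
    intro l _
    simp [Matrix.single_apply, hk.symm]
  · simp

end Pool.Agent.Y127.I
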