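import Pool.Agent.Y127.I.Cusp3

/-!
# Subspaces stable under reflections
-/

set_option linter.unusedSectionVars false

namespace Pool.Agent.Y127.I

open Module

section lin

variable {F : Type} [Field F] {V : Type} [AddCommGroup V] [Module F V]
  {B : V →ₗ[F] V →ₗ[F] F}

/-- The reflection with the root `e`. -/
def rf (B : V →ₗ[F] V →ₗ[F] F) (e : V) : End F V := 1 - (2 * (B e e)⁻¹) • (B e).smulRight e

theorem rf_apply (e x : V) : rf B e x = x - (2 * (B e e)⁻¹ * B e x) • e := by
  unfold rf
  rw [LinearMap.sub_apply, Module.End.one_apply, LinearMap.smul_apply, LinearMap.smulRight_apply,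
    smul_smul]

theorem rf_self {e : V} (he : B e e ≠ 0) : rf B e e = - e := by
  rw [rf_apply, mul_assoc, inv_mul_cancel₀ he, mul_one, two_smul]
  abel

theorem rf_rf {e : V} (he : B e e ≠ 0) : rf B e * rf B e = 1 := by
  apply LinearMap.ext
  intro x
  rw [Module.End.mul_apply, rf_apply e x, map_sub, map_smul, rf_self he, rf_apply, smul_neg,
    Module.End.one_apply]
  abel

theorem rf_isom (hsy : ∀ x y, B x y = B y x) {e : V} (he : B e e ≠ 0) (x y : V) :
    B (rf B e x) (rf B e y) = B x y := by
  rw [rf_apply, rf_apply]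
  simp only [map_sub, map_smul, LinearMap.sub_apply, LinearMap.smul_apply, smul_eq_mul]
  rw [hsy x e]
  field_simp
  ring

theorem conj_rf {g g' : End F V} (hg : ∀ x y, B (g x) (g y) = B x y) (hgg : g * g' = 1) (e : V) :
    g * rf B e * g' = rf B (g e) := by
  apply LinearMap.ext
  intro x
  have h1 : ∀ y, g (g' y) = y := fun y => by
    rw [← Module.End.mul_apply, hgg, Module.End.one_apply]
  have h2 : B (g e) x = B e (g' x) := by
    rw [← hg e (g' x), h1]
  rw [Module.End.mul_apply, Module.End.mul_apply, rf_apply, map_sub, map_smul, h1, rf_apply, hg,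
    h2]

/-- The difference of a skew operator and its conjugate. -/
theorem sub_conj (hsy : ∀ x y, B x y = B y x) (h2 : (2 : F) ≠ 0) {e : V} (he : B e e ≠ 0)
    {X : End F V} (hX : X ∈ so B) :
    X - rf B e * X * rf B e = (2 * (B e e)⁻¹) • wl B (X e) e := by
  have hd : B e (X e) = 0 := by
    have h1 := hX e e
    rw [hsy (X e) e, ← two_mul] at h1
    exact (mul_eq_zero.1 h1).resolve_left h2
  apply LinearMap.ext
  intro x
  rw [LinearMap.sub_apply, Module.End.mul_apply, Module.End.mul_apply, rf_apply e x, map_sub,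
    map_smul, map_sub, map_smul, rf_apply, rf_apply e (X e), hd, LinearMap.smul_apply, wl_apply]
  have h3 : B e (X x) = - B (X e) x := by linear_combination hX e x
  rw [h3]
  module

variable {I : Type} {r : I → V}

/-- `w` with `w ∧ r_i ∈ M`. -/
def Uu (B : V →ₗ[F] V →ₗ[F] F) (M : Submodule F (End F V)) (e : V) : Submodule F V :=
  M.comap ((wl B).flip e)

theorem mem_Uu {M : Submodule F (End F V)} {e w : V} : w ∈ Uu B M e ↔ wl B w e ∈ M := Iff.rfl

theorem self_mem_Uu (M : Submodule F (End F V)) (e : V) : e ∈ Uu B M e := by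
  rw [mem_Uu, wl_self]
  exact M.zero_mem

theorem finrank_inf_ker [FiniteDimensional F V] (U : Submodule F V) (f : V →ₗ[F] F) {u : V}
    (hu : u ∈ U) (hf : f u ≠ 0) : finrank F U = finrank F ↥(U ⊓ LinearMap.ker f) + 1 := by
  have h1 := LinearMap.finrank_range_add_finrank_ker (f.domRestrict U)
  have h2 : finrank F (LinearMap.range (f.domRestrict U)) = 1 := by
    have h3 : LinearMap.range (f.domRestrict U) = ⊤ := by
      rw [LinearMap.range_eq_top]
      intro c
      refine ⟨⟨(c * (f u)⁻¹) • u, U.smul_mem _ hu⟩, ?_⟩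
      rw [LinearMap.domRestrict_apply, map_smul, smul_eq_mul, mul_assoc, inv_mul_cancel₀ hf,
        mul_one]
    rw [h3, finrank_top, finrank_self]
  have h4 : finrank F (LinearMap.ker (f.domRestrict U)) = finrank F ↥(U ⊓ LinearMap.ker f) := by
    have h5 : (LinearMap.ker (f.domRestrict U)).map U.subtype = U ⊓ LinearMap.ker f := by
      ext x
      constructor
      · rintro ⟨y, hy, rfl⟩
        exact ⟨y.2, hy⟩
      · rintro ⟨hx, hx'⟩
        exact ⟨⟨x, hx⟩, hx', rfl⟩
    rw [← h5]
    exact (LinearEquiv.finrank_eq (Submodule.equivMapOfInjective _ U.injective_subtype _))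
  omega

/-- **Subspaces stable under the reflections of a connected system of roots which spans.** -/
theorem node_so [FiniteDimensional F V] (hsy : ∀ x y, B x y = B y x)
    (hnd : ∀ x, (∀ y, B x y = 0) → x = 0) (h2 : (2 : F) ≠ 0) (i₀ : I)
    (hr : ∀ i, B (r i) (r i) ≠ 0) (hspan : Submodule.span F (Set.range r) = ⊤)
    (hconn : ∀ i j, Relation.ReflTransGen (fun i j => B (r i) (r j) ≠ 0) i j)
    {M : Submodule F (End F V)} (hM : M ≤ so B)
    (hst : ∀ i, ∀ X ∈ M, rf B (r i) * X * rf B (r i) ∈ M) :
    M = ⊥ ∨ ∀ x y, wl B x y ∈ M := by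
  have hperp : ∀ x, (∀ i, B (r i) x = 0) → x = 0 := by
    intro x hx
    refine hnd x fun y => ?_
    have hy : y ∈ Submodule.span F (Set.range r) := by rw [hspan]; trivial
    rw [hsy]
    induction hy using Submodule.span_induction with
    | mem y hy => obtain ⟨i, rfl⟩ := hy; exact hx i
    | zero => rw [map_zero]; rfl
    | add y z _ _ hy hz => rw [map_add, LinearMap.add_apply, hy, hz, add_zero]
    | smul c y _ hy => rw [map_smul, LinearMap.smul_apply, hy, smul_zero]
  have hkey : ∀ i, ∀ X ∈ M, X (r i) ∈ Uu B M (r i) := by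
    intro i X hX
    have h1 := M.sub_mem hX (hst i X hX)
    rw [sub_conj hsy h2 (hr i) (hM hX)] at h1
    have h3 := M.smul_mem (2 * (B (r i) (r i))⁻¹)⁻¹ h1
    rwa [smul_smul, inv_mul_cancel₀ (mul_ne_zero h2 (inv_ne_zero (hr i))), one_smul] at h3
  set U : I → Submodule F V := fun i => Uu B M (r i) with hU
  set K : I → Submodule F V := fun i => LinearMap.ker (B (r i)) with hK
  have hself : ∀ i, r i ∈ U i := fun i => self_mem_Uu M (r i)
  have hphi : ∀ i j, ∀ w ∈ U i, B (r i) (r j) • w - B w (r j) • r i ∈ U j := by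
    intro i j w hw
    have h1 := hkey j _ hw
    rw [LinearMap.flip_apply, wl_apply] at h1
    exact h1
  have hle : ∀ i j, B (r i) (r j) ≠ 0 → U i ⊓ K j ≤ U j ⊓ K j := by
    rintro i j hij w ⟨hw, hwK⟩
    refine ⟨?_, hwK⟩
    have h1 := hphi i j w hw
    have h3 : B w (r j) = 0 := by rw [hsy]; exact hwK
    rw [h3, zero_smul, sub_zero] at h1
    have h4 := (U j).smul_mem (B (r i) (r j))⁻¹ h1
    rwa [smul_smul, inv_mul_cancel₀ hij, one_smul] at h4
  have hfi : ∀ i j, B (r i) (r j) ≠ 0 → finrank F (U i) = finrank F ↥(U i ⊓ K j) + 1 := by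
    intro i j hij
    exact finrank_inf_ker (U i) (B (r j)) (hself i) (by rw [hsy]; exact hij)
  have hfle : ∀ i j, B (r i) (r j) ≠ 0 → finrank F (U i) ≤ finrank F (U j) := by
    intro i j hij
    rw [hfi i j hij, hfi j j (hr j)]
    exact Nat.add_le_add_right (Submodule.finrank_mono (hle i j hij)) 1
  have hadj : ∀ i j, B (r i) (r j) ≠ 0 → B (r j) (r i) ≠ 0 := fun i j h => by rwa [hsy]
  have hfeq : ∀ i j, B (r i) (r j) ≠ 0 → finrank F (U i) = finrank F (U j) := fun i j h =>
    le_antisymm (hfle i j h) (hfle j i (hadj i j h))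
  have hWeq : ∀ i j, B (r i) (r j) ≠ 0 → U i ⊓ K j = U j ⊓ K j := by
    intro i j hij
    refine Submodule.eq_of_le_of_finrank_eq (hle i j hij) ?_
    have h1 := hfi i j hij
    have h3 := hfi j j (hr j)
    have h4 := hfeq i j hij
    omega
  have hdich : ∀ i j, B (r i) (r j) ≠ 0 → U i = U j ∨ U i ⊓ K i = U j ⊓ K j := by
    intro i j hij
    by_contra hcon
    push Not at hcon
    have h1 : U i ⊓ K i ≤ U j := by
      rw [← hWeq j i (hadj i j hij)]
      exact inf_le_left
    have h3 : U j ⊓ K j ≤ U i := by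
      rw [← hWeq i j hij]
      exact inf_le_left
    have h4 : U i ⊓ K i ⊔ U j ⊓ K j ≤ U i ⊓ U j :=
      sup_le (le_inf inf_le_left h1) (le_inf h3 inf_le_left)
    have h5 : U i ⊓ K i < U i ⊓ K i ⊔ U j ⊓ K j := by
      refine lt_of_le_of_ne le_sup_left fun h => ?_
      have h6 : U j ⊓ K j ≤ U i ⊓ K i := by rw [h]; exact le_sup_right
      apply hcon.2
      symm
      refine Submodule.eq_of_le_of_finrank_eq h6 ?_
      have e1 := hfi i i (hr i)
      have e2 := hfi j j (hr j)
      have e3 := hfeq i j hij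
      omega
    have h7 := Submodule.finrank_lt_finrank_of_lt h5
    have h8 := Submodule.finrank_mono h4
    have h9 : finrank F ↥(U i ⊓ U j) ≤ finrank F (U i) := Submodule.finrank_mono inf_le_left
    have e1 := hfi i i (hr i)
    have e4 : U i ⊓ U j = U i := Submodule.eq_of_le_of_finrank_eq inf_le_left (by omega)
    have e5 : U i ≤ U j := by rw [← e4]; exact inf_le_right
    exact hcon.1 (Submodule.eq_of_le_of_finrank_eq e5 (hfeq i j hij))
  have hdec : ∀ i, ∀ w ∈ U i, ∃ c : F, w - c • r i ∈ U i ⊓ K i := by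
    intro i w hw
    refine ⟨B (r i) w * (B (r i) (r i))⁻¹, (U i).sub_mem hw ((U i).smul_mem _ (hself i)), ?_⟩
    change B (r i) _ = 0
    rw [map_sub, map_smul, smul_eq_mul, mul_assoc, inv_mul_cancel₀ (hr i), mul_one, sub_self]
  by_cases hall : ∀ i j, B (r i) (r j) ≠ 0 → U i = U j
  · right
    have hconst : ∀ i j, U i = U j := by
      intro i j
      induction hconn i j with
      | refl => rfl
      | @tail b c _ hbc ih => rw [ih, hall b c hbc]
    have htop : ∀ i, U i = ⊤ := by
      intro i
      rw [eq_top_iff, ← hspan, Submodule.span_le]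
      rintro _ ⟨j, rfl⟩
      change r j ∈ U i
      rw [hconst i j]
      exact hself j
    intro x y
    have hy : y ∈ Submodule.span F (Set.range r) := by rw [hspan]; trivial
    induction hy using Submodule.span_induction with
    | mem y hy =>
      obtain ⟨i, rfl⟩ := hy
      have h1 : x ∈ U i := by rw [htop]; trivial
      exact h1
    | zero => rw [map_zero]; exact M.zero_mem
    | add y z _ _ hy hz => rw [map_add]; exact M.add_mem hy hz
    | smul c y _ hy => rw [map_smul]; exact M.smul_mem _ hy
  · left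
    push Not at hall
    obtain ⟨i₁, j₁, hij₁, hne₁⟩ := hall
    have hclaim : ∀ k, U k ⊓ K k = U i₁ ⊓ K i₁ ∧ ∃ l, B (r k) (r l) ≠ 0 ∧ U k ≠ U l := by
      intro k
      induction hconn i₁ k with
      | refl => exact ⟨rfl, j₁, hij₁, hne₁⟩
      | @tail k k' _ hkk' ih =>
        obtain ⟨ih1, l, hl, hne⟩ := ih
        by_cases hUk : U k = U k'
        · have hWl : U k ⊓ K k = U l ⊓ K l := (hdich k l hl).resolve_left hne
          have h1 : r k' ∈ U k := by rw [hUk]; exact hself k'
          obtain ⟨c, hc⟩ := hdec k _ h1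
          have h3 : B (r k) (r k') = c * B (r k) (r k) := by
            have h4 : B (r k) (r k' - c • r k) = 0 := hc.2
            rw [map_sub, map_smul, smul_eq_mul, sub_eq_zero] at h4
            exact h4
          have h5 : B (r l) (r k') = c * B (r l) (r k) := by
            have h4 : r k' - c • r k ∈ K l := by
              rw [hWl] at hc
              exact hc.2
            rw [LinearMap.mem_ker, map_sub, map_smul, smul_eq_mul, sub_eq_zero] at h4
            exact h4
          have hc0 : c ≠ 0 := by
            rintro rfl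
            rw [zero_mul] at h3
            exact hkk' h3
          have h6 : B (r k') (r l) ≠ 0 := by
            rw [hsy, h5, hsy (r l) (r k)]
            exact mul_ne_zero hc0 hl
          have h7 : U k' ≠ U l := by rw [← hUk]; exact hne
          refine ⟨?_, l, h6, h7⟩
          rw [(hdich k' l h6).resolve_left h7, ← hWl, ih1]
        · refine ⟨?_, k, hadj k k' hkk', fun h => hUk h.symm⟩
          rw [← (hdich k k' hkk').resolve_left hUk, ih1]
    have hW0 : ∀ k, U k ⊓ K k = ⊥ := by
      intro k
      rw [eq_bot_iff]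
      intro x hx
      rw [Submodule.mem_bot]
      refine hperp x fun i => ?_
      rw [(hclaim k).1, ← (hclaim i).1] at hx
      exact hx.2
    rw [eq_bot_iff]
    intro X hX
    rw [Submodule.mem_bot]
    have h1 : ∀ i, X (r i) = 0 := by
      intro i
      have h3 : X (r i) ∈ U i ⊓ K i := by
        refine ⟨hkey i X hX, ?_⟩
        change B (r i) _ = 0
        have h4 := hM hX (r i) (r i)
        rw [hsy (X (r i)) (r i), ← two_mul] at h4
        exact (mul_eq_zero.1 h4).resolve_left h2
      rwa [hW0 i, Submodule.mem_bot] at h3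
    apply LinearMap.ext
    intro x
    have hx : x ∈ Submodule.span F (Set.range r) := by rw [hspan]; trivial
    rw [LinearMap.zero_apply]
    induction hx using Submodule.span_induction with
    | mem y hy => obtain ⟨i, rfl⟩ := hy; exact h1 i
    | zero => rw [map_zero]
    | add y z _ _ hy hz => rw [map_add, hy, hz, add_zero]
    | smul c y _ hy => rw [map_smul, hy, smul_zero]

end lin

end Pool.Agent.Y127.I
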