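import Pool.Agent.Y127.I.Node

/-!
# Subspaces stable under a subgroup which contains the products of two reflections
-/

set_option linter.unusedSectionVars false

namespace Pool.Agent.Y127.I

open Module

section fin

variable {F : Type} [Field F] {V : Type} [AddCommGroup V] [Module F V]
  {B : V →ₗ[F] V →ₗ[F] F}

/-- The dimension of the Lie algebra. -/
theorem finrank_so {n : ℕ} (v : Basis (Fin n) F V) (hv : ∀ i j, i ≠ j → B (v i) (v j) = 0)
    (hb : ∀ i, B (v i) (v i) ≠ 0) (hsy : ∀ x y, B x y = B y x) (h2 : (2 : F) ≠ 0) :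
    finrank F (so B) * 2 = n * (n - 1) := by
  classical
  let c : (Σ j : Fin n, Fin j.val) → Fin n := fun s => ⟨s.2.val, s.2.isLt.trans s.1.isLt⟩
  let w : (Σ j : Fin n, Fin j.val) → End F V := fun s => wl B (v (c s)) (v s.1)
  have hlt : ∀ s, c s < s.1 := fun s => s.2.isLt
  have hcinj : ∀ s t : (Σ j : Fin n, Fin j.val), c s = c t → s.1 = t.1 → s = t := by
    rintro ⟨a, b⟩ ⟨a', b'⟩ h1 h2
    simp only at h2
    subst h2
    have h3 : b = b' := Fin.ext (Fin.mk.inj_iff.1 h1)
    rw [h3]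
  have hli : LinearIndependent F w := by
    rw [Fintype.linearIndependent_iff]
    intro f hf t
    have h1 := congrArg (fun X : End F V => B (v (c t)) (X (v t.1))) hf
    simp only [LinearMap.sum_apply, map_sum, LinearMap.smul_apply, map_smul, LinearMap.zero_apply,
      map_zero] at h1
    rw [Finset.sum_eq_single t] at h1
    · rw [smul_eq_mul, mul_eq_zero] at h1
      refine h1.resolve_right ?_
      change B (v (c t)) (wl B (v (c t)) (v t.1) (v t.1)) ≠ 0
      rw [wl_apply, hv _ _ (ne_of_lt (hlt t)), zero_smul, sub_zero, map_smul, smul_eq_mul]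
      exact mul_ne_zero (hb _) (hb _)
    · intro s _ hst
      change f s • B (v (c t)) (wl B (v (c s)) (v s.1) (v t.1)) = 0
      rw [wl_apply, map_sub, map_smul, map_smul, smul_eq_mul, smul_eq_mul, smul_eq_mul]
      by_cases e1 : s.1 = t.1
      · have e2 : c s ≠ c t := fun h => hst (hcinj s t h e1)
        have e3 : c s ≠ t.1 := by rw [← e1]; exact ne_of_lt (hlt s)
        rw [hv _ _ e3, hv _ _ (Ne.symm e2)]
        ring
      · rw [hv _ _ e1]
        by_cases e2 : c s = t.1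
        · have e3 : c t ≠ s.1 := by
            have e4 := hlt s
            have e5 := hlt t
            rw [e2] at e4
            exact ne_of_lt (e5.trans e4)
          rw [hv _ _ e3]
          ring
        · rw [hv _ _ e2]
          ring
    · intro h
      exact absurd (Finset.mem_univ t) h
  have hsp : Submodule.span F (Set.range w) = so B := by
    refine le_antisymm ?_ ?_
    · rw [Submodule.span_le]
      rintro _ ⟨s, rfl⟩
      exact wl_mem hsy _ _
    · refine so_le_of_wl v hv hb hsy h2 fun i j hij => ?_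
      rcases lt_or_gt_of_ne hij with h | h
      · exact Submodule.subset_span ⟨⟨j, ⟨i.val, h⟩⟩, rfl⟩
      · rw [wl_swap]
        exact Submodule.neg_mem _ (Submodule.subset_span ⟨⟨i, ⟨j.val, h⟩⟩, rfl⟩)
  rw [← hsp, finrank_span_eq_card hli, Fintype.card_sigma]
  simp only [Fintype.card_fin]
  rw [Fin.sum_univ_eq_sum_range (fun i => i) n]
  exact Finset.sum_range_id_mul_two n

end fin

section grp

variable {F : Type} [Field F] {V : Type} [AddCommGroup V] [Module F V]
  {B : V →ₗ[F] V →ₗ[F] F} {Γ : Type} [Group Γ]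

/-- **Irreducibility of the skew operators under a subgroup with abelian quotient.** -/
theorem node_irr {n : ℕ} (v : Basis (Fin n) F V) (hv : ∀ i j, i ≠ j → B (v i) (v j) = 0)
    (hb : ∀ i, B (v i) (v i) ≠ 0) (hsy : ∀ x y, B x y = B y x) (h2 : (2 : F) ≠ 0)
    (hnd : ∀ x, (∀ y, B x y = 0) → x = 0) (hn : n = 3 ∨ 5 ≤ n)
    {g : Γ →* End F V} (hg : ∀ γ x y, B (g γ x) (g γ y) = B x y) (hs : SIrr g)
    {γ₀ : Γ} {e : V} (he : B e e ≠ 0) (h0 : g γ₀ = rf B e) {Δ : Subgroup Γ}
    (hΔ : ∀ a b : Γ, a * b * a⁻¹ * b⁻¹ ∈ Δ)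
    {M : Submodule F (End F V)} (hM : M ≤ so B)
    (hst : ∀ γ ∈ Δ, ∀ X ∈ M, g γ * X * g γ⁻¹ ∈ M) : M = ⊥ ∨ M = so B := by
  haveI : FiniteDimensional F V := v.finiteDimensional_of_finite
  have he0 : e ≠ 0 := by
    rintro rfl
    apply he
    rw [map_zero]
  have hspan := span_of_sirr hs he0
  have hconn := conn_of_sirr hsy hnd hg hs he0
  have hr : ∀ γ, B (g γ e) (g γ e) ≠ 0 := fun γ => by rw [hg]; exact he
  set ρ := rf B e with hρ
  have hρρ : ρ * ρ = 1 := rf_rf he
  have hinv : g γ₀⁻¹ = ρ := by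
    calc g γ₀⁻¹ = g γ₀⁻¹ * (g γ₀ * ρ) := by rw [h0, hρρ, mul_one]
      _ = ρ := by rw [← mul_assoc, g_inv_mul, one_mul]
  -- the conjugation
  let cj : End F V →ₗ[F] End F V := LinearMap.mulLeft F ρ ∘ₗ LinearMap.mulRight F ρ
  have hcj : ∀ X, cj X = ρ * X * ρ := fun X => by
    change ρ * (X * ρ) = _
    rw [mul_assoc]
  have hcc : ∀ X, cj (cj X) = X := by
    intro X
    rw [hcj, hcj]
    calc ρ * (ρ * X * ρ) * ρ = (ρ * ρ) * X * (ρ * ρ) := by simp only [mul_assoc]
      _ = X := by rw [hρρ, one_mul, mul_one]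
  set M' := M.map cj with hM'
  have hmem' : ∀ X, X ∈ M' ↔ ρ * X * ρ ∈ M := by
    intro X
    constructor
    · rintro ⟨Y, hY, rfl⟩
      rw [← hcj, hcc]
      exact hY
    · intro h
      exact ⟨_, h, by rw [← hcj, hcc]⟩
  have hnorm : ∀ a, a ∈ Δ → ∀ b : Γ, b * a * b⁻¹ ∈ Δ := by
    intro a ha b
    have h1 := Δ.mul_mem (hΔ b a) ha
    rwa [inv_mul_cancel_right] at h1
  have hM'so : M' ≤ so B := by
    rintro X ⟨Y, hY, rfl⟩
    rw [hcj]
    exact conj_mem (rf_isom hsy he) hρρ (hM hY)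
  have hst' : ∀ γ ∈ Δ, ∀ X ∈ M', g γ * X * g γ⁻¹ ∈ M' := by
    intro γ hγ X hX
    rw [hmem'] at hX ⊢
    have h1 := hst _ (hnorm γ hγ γ₀) _ hX
    have h3 : g (γ₀ * γ * γ₀⁻¹) * (ρ * X * ρ) * g (γ₀ * γ * γ₀⁻¹)⁻¹ =
        ρ * (g γ * X * g γ⁻¹) * ρ := by
      have e1 : (γ₀ * γ * γ₀⁻¹)⁻¹ = γ₀ * γ⁻¹ * γ₀⁻¹ := by group
      rw [e1, map_mul, map_mul, map_mul, map_mul, h0, hinv]
      calc ρ * g γ * ρ * (ρ * X * ρ) * (ρ * g γ⁻¹ * ρ) =
            ρ * g γ * (ρ * ρ) * X * (ρ * ρ) * g γ⁻¹ * ρ := by simp only [mul_assoc]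
        _ = _ := by rw [hρρ, mul_one, mul_one]; simp only [mul_assoc]
    rwa [h3] at h1
  -- the conjugates of the reflection
  have hsplit : ∀ γ, rf B (g γ e) = g (γ * γ₀ * γ⁻¹ * γ₀⁻¹) * ρ := by
    intro γ
    rw [← conj_rf (hg γ) (g_mul_inv g γ), map_mul, map_mul, map_mul, hinv, h0, mul_assoc _ ρ ρ,
      hρρ, mul_one]
  have hsplit' : ∀ γ, rf B (g γ e) = ρ * g (γ * γ₀ * γ⁻¹ * γ₀⁻¹)⁻¹ := by
    intro γ
    have h1 := hsplit γ
    have h3 := rf_rf (hr γ)
    set κ := γ * γ₀ * γ⁻¹ * γ₀⁻¹ with hκ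
    have h4 : ρ * g κ⁻¹ * (g κ * ρ) = 1 := by
      calc ρ * g κ⁻¹ * (g κ * ρ) = ρ * (g κ⁻¹ * g κ) * ρ := by simp only [mul_assoc]
        _ = 1 := by rw [g_inv_mul, mul_one, hρρ]
    rw [← h1] at h4
    calc rf B (g γ e) = ρ * g κ⁻¹ * rf B (g γ e) * rf B (g γ e) := by rw [h4, one_mul]
      _ = _ := by rw [mul_assoc, h3, mul_one]
  have hswap : ∀ γ, ∀ X ∈ M, rf B (g γ e) * X * rf B (g γ e) ∈ M' := by
    intro γ X hX
    have h1 : rf B (g γ e) * X * rf B (g γ e) = g (γ * γ₀ * γ⁻¹ * γ₀⁻¹) * (ρ * X * ρ) *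
        g (γ * γ₀ * γ⁻¹ * γ₀⁻¹)⁻¹ := by
      conv_lhs => rw [hsplit γ]
      rw [← hsplit γ, hsplit' γ, ← hsplit' γ, hsplit γ]
      conv_lhs => rhs; rw [← hsplit γ, hsplit' γ]
      simp only [mul_assoc]
    rw [h1]
    refine hst' _ (hΔ γ γ₀) _ ?_
    rw [hmem', ← hcj, ← hcj, hcc]
    exact hX
  have hswap' : ∀ γ, ∀ X ∈ M', rf B (g γ e) * X * rf B (g γ e) ∈ M := by
    intro γ X hX
    have h1 : rf B (g γ e) * X * rf B (g γ e) = g (γ * γ₀ * γ⁻¹ * γ₀⁻¹) * (ρ * X * ρ) *
        g (γ * γ₀ * γ⁻¹ * γ₀⁻¹)⁻¹ := by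
      conv_lhs => rhs; rw [hsplit' γ]
      rw [hsplit γ]
      simp only [mul_assoc]
    rw [h1]
    exact hst _ (hΔ γ γ₀) _ ((hmem' X).1 hX)
  have hwl_top : ∀ N : Submodule F (End F V), (∀ x y, wl B x y ∈ N) → so B ≤ N := fun N h =>
    so_le_of_wl v hv hb hsy h2 fun i j _ => h _ _
  rcases node_so (r := fun γ => g γ e) hsy hnd h2 (1 : Γ) hr hspan hconn
    (M := M ⊓ M') (inf_le_left.trans hM) (fun γ X hX => ⟨hswap' γ X hX.2, hswap γ X hX.1⟩) with h | h
  · rcases node_so (r := fun γ => g γ e) hsy hnd h2 (1 : Γ) hr hspan hconn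
      (M := M ⊔ M') (sup_le hM hM'so) (fun γ X hX => by
        obtain ⟨Y, hY, Z, hZ, rfl⟩ := Submodule.mem_sup.1 hX
        rw [mul_add, add_mul]
        exact Submodule.add_mem _ (Submodule.mem_sup_right (hswap γ Y hY))
          (Submodule.mem_sup_left (hswap' γ Z hZ))) with h' | h'
    · left
      rw [eq_bot_iff, ← h']
      exact le_sup_left
    · exfalso
      have hso : M ⊔ M' = so B := le_antisymm (sup_le hM hM'so) (hwl_top _ h')
      have hd := Submodule.finrank_sup_add_finrank_inf_eq M M'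
      rw [h, hso, finrank_bot, add_zero] at hd
      have hMM : finrank F M' = finrank F M := by
        refine le_antisymm (Submodule.finrank_map_le cj M) ?_
        have h3 : M = M'.map cj := by
          ext X
          constructor
          · intro hX
            exact ⟨cj X, ⟨X, hX, rfl⟩, hcc X⟩
          · rintro ⟨_, ⟨Y, hY, rfl⟩, rfl⟩
            rw [hcc]
            exact hY
        conv_lhs => rw [h3]
        exact Submodule.finrank_map_le cj M'
      have hso2 := finrank_so v hv hb hsy h2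
      have hV : finrank F V = n := by rw [finrank_eq_card_basis v, Fintype.card_fin]
      -- the evaluation at `e`
      let ev : M →ₗ[F] LinearMap.ker (B e) :=
        { toFun := fun X => ⟨X.1 e, by
            rw [LinearMap.mem_ker]
            have h4 := hM X.2 e e
            rw [hsy (X.1 e) e, ← two_mul] at h4
            exact (mul_eq_zero.1 h4).resolve_left h2⟩
          map_add' := fun X Y => rfl
          map_smul' := fun c X => rfl }
      have hinj : Function.Injective ev := by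
        rw [injective_iff_map_eq_zero]
        intro X hX
        have h4 : X.1 e = 0 := congrArg Subtype.val hX
        have h5 := sub_conj hsy h2 he (hM X.2)
        rw [h4, map_zero, LinearMap.zero_apply, smul_zero, sub_eq_zero] at h5
        have h6 : X.1 ∈ M ⊓ M' := by
          refine ⟨X.2, (hmem' _).2 ?_⟩
          rw [← h5]
          exact X.2
        rw [h, Submodule.mem_bot] at h6
        exact Subtype.ext h6
      have h7 := LinearMap.finrank_le_finrank_of_injective hinj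
      have h8 := finrank_inf_ker (⊤ : Submodule F V) (B e) (u := e) trivial he
      rw [finrank_top, hV, top_inf_eq] at h8
      rw [hMM] at hd
      set d := finrank F M with hdd
      set k := finrank F (LinearMap.ker (B e)) with hk
      rcases hn with rfl | hn
      · omega
      · obtain ⟨t, rfl⟩ : ∃ t, n = t + 5 := ⟨n - 5, by omega⟩
        have h9 : t + 5 - 1 = t + 4 := rfl
        rw [h9] at hso2
        nlinarith
  · right
    exact le_antisymm hM ((hwl_top _ h).trans inf_le_left)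

end grp

end Pool.Agent.Y127.I
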