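import Pool.Agent.Y127.I.Trc
import Pool.Agent.Y127.I.Count2

/-!
# Matrices over the p-adic integers: congruences, p-th powers and approximation
-/

set_option linter.unusedSectionVars false

namespace Pool.Agent.Y127.I

open Module Matrix Filter Topology

variable {p : ℕ} [hp : Fact p.Prime] {ι : Type} [Fintype ι] [DecidableEq ι] {n : ι → ℕ}

/-- Families of square matrices. -/
abbrev Mx {ι : Type} (n : ι → ℕ) (R : Type) : Type := ∀ i, Matrix (Fin (n i)) (Fin (n i)) R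

/-- Reduction modulo `p`. -/
noncomputable def rd : Mx n ℤ_[p] →+* Mx n (ZMod p) :=
  Pi.ringHom fun i => ((PadicInt.toZMod (p := p)).mapMatrix).comp
    (Pi.evalRingHom (fun i => Matrix (Fin (n i)) (Fin (n i)) ℤ_[p]) i)

theorem rd_apply (x : Mx n ℤ_[p]) (i : ι) : rd x i = (x i).map PadicInt.toZMod := rfl

theorem toZMod_eq_zero {x : ℤ_[p]} : PadicInt.toZMod x = 0 ↔ ∃ y, x = (p : ℤ_[p]) * y := by
  rw [← RingHom.mem_ker, PadicInt.ker_toZMod, PadicInt.maximalIdeal_eq_span_p,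
    Ideal.mem_span_singleton]
  rfl

theorem rd_smul (c : ℤ_[p]) (Y : Mx n ℤ_[p]) : rd (c • Y) = PadicInt.toZMod c • rd Y := by
  funext i
  ext a b
  change PadicInt.toZMod (c * Y i a b) = PadicInt.toZMod c * PadicInt.toZMod (Y i a b)
  rw [map_mul]

theorem rd_p_smul (Y : Mx n ℤ_[p]) : rd ((p : ℤ_[p]) • Y) = 0 := by
  rw [rd_smul, toZMod_eq_zero.2 ⟨1, (mul_one _).symm⟩, zero_smul]

theorem rd_eq_zero {x : Mx n ℤ_[p]} : rd x = 0 ↔ ∃ Y, x = (p : ℤ_[p]) • Y := by
  constructor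
  · intro h
    have h1 : ∀ i a b, ∃ y, x i a b = (p : ℤ_[p]) * y := by
      intro i a b
      apply toZMod_eq_zero.1
      have h2 := congrFun h i
      have h3 := congrFun (congrFun h2 a) b
      exact h3
    choose Y hY using h1
    refine ⟨fun i => Matrix.of (Y i), ?_⟩
    funext i
    ext a b
    exact hY i a b
  · rintro ⟨Y, rfl⟩
    exact rd_p_smul Y

theorem rd_surj : Function.Surjective (rd (n := n) (p := p)) := by
  intro y
  have hs := ZMod.ringHom_surjective (PadicInt.toZMod (p := p))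
  choose f hf using hs
  refine ⟨fun i => (y i).map f, ?_⟩
  funext i
  ext a b
  exact hf _

theorem rd_eq_iff {x y : Mx n ℤ_[p]} : rd x = rd y ↔ ∃ Y, x = y + (p : ℤ_[p]) • Y := by
  rw [← sub_eq_zero, ← map_sub, rd_eq_zero]
  refine exists_congr fun Y => ?_
  rw [sub_eq_iff_eq_add, add_comm]

theorem smul_cancel {k : ℕ} {x y : Mx n ℤ_[p]} (h : (p : ℤ_[p]) ^ k • x = (p : ℤ_[p]) ^ k • y) :
    x = y := by
  funext i
  ext a b
  have h1 := congrFun (congrFun (congrFun h i) a) b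
  have h2 : (p : ℤ_[p]) ^ k * x i a b = (p : ℤ_[p]) ^ k * y i a b := h1
  exact mul_left_cancel₀ (pow_ne_zero _ (by exact_mod_cast hp.out.ne_zero)) h2

/-! ### Isometries -/

/-- Isometries of the forms with matrices `A i`. -/
def Isy {R : Type} [CommRing R] (A g : Mx n R) : Prop := ∀ i, (g i)ᵀ * A i * g i = A i

theorem Isy.one {R : Type} [CommRing R] (A : Mx n R) : Isy A 1 := by
  intro i
  rw [Pi.one_apply, transpose_one, one_mul, mul_one]

theorem Isy.mul {R : Type} [CommRing R] {A g h : Mx n R} (hg : Isy A g) (hh : Isy A h) :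
    Isy A (g * h) := by
  intro i
  rw [Pi.mul_apply, transpose_mul]
  calc (h i)ᵀ * (g i)ᵀ * A i * (g i * h i) = (h i)ᵀ * ((g i)ᵀ * A i * g i) * h i := by
        simp only [mul_assoc]
    _ = A i := by rw [hg i, hh i]

theorem Isy.inv {R : Type} [CommRing R] {A g g' : Mx n R} (hg : Isy A g) (h : g * g' = 1) :
    Isy A g' := by
  intro i
  have h1 : g i * g' i = 1 := congrFun h i
  calc (g' i)ᵀ * A i * g' i = (g' i)ᵀ * ((g i)ᵀ * A i * g i) * g' i := by rw [hg i]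
    _ = (g i * g' i)ᵀ * A i * (g i * g' i) := by rw [transpose_mul]; simp only [mul_assoc]
    _ = A i := by rw [h1, transpose_one, one_mul, mul_one]

theorem Isy.rd {A g : Mx n ℤ_[p]} (hg : Isy A g) : Isy (rd A) (rd g) := by
  intro i
  have h1 := congrArg (fun M => M.map (PadicInt.toZMod (p := p))) (hg i)
  simp only [Matrix.map_mul, Matrix.transpose_map] at h1
  exact h1

theorem skew_of_isy {A Y : Mx n ℤ_[p]} {k : ℕ} (hk : 1 ≤ k)
    (h : Isy A (1 + (p : ℤ_[p]) ^ k • Y)) (i : ι) : rd Y i ∈ soM (rd A i) := by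
  have h1 := h i
  have h2 : (p : ℤ_[p]) ^ k • ((Y i)ᵀ * A i + A i * Y i + (p : ℤ_[p]) ^ k •
      ((Y i)ᵀ * A i * Y i)) = 0 := by
    have h3 : (((1 : Mx n ℤ_[p]) + (p : ℤ_[p]) ^ k • Y) i)ᵀ * A i *
        ((1 : Mx n ℤ_[p]) + (p : ℤ_[p]) ^ k • Y) i = A i + (p : ℤ_[p]) ^ k •
        ((Y i)ᵀ * A i + A i * Y i + (p : ℤ_[p]) ^ k • ((Y i)ᵀ * A i * Y i)) := by
      rw [Pi.add_apply, Pi.smul_apply, Pi.one_apply, transpose_add, transpose_one,
        transpose_smul]
      simp only [add_mul, mul_add, one_mul, mul_one, Matrix.smul_mul, Matrix.mul_smul, smul_add,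
        smul_smul]
      abel
    rw [h3] at h1
    exact left_eq_add.1 h1.symm
  have h4 : (Y i)ᵀ * A i + A i * Y i + (p : ℤ_[p]) ^ k • ((Y i)ᵀ * A i * Y i) = 0 := by
    ext a b
    have h5 := congrFun (congrFun h2 a) b
    have h6 : (p : ℤ_[p]) ^ k * ((Y i)ᵀ * A i + A i * Y i + (p : ℤ_[p]) ^ k •
      ((Y i)ᵀ * A i * Y i)) a b = 0 := h5
    exact (mul_eq_zero.1 h6).resolve_left
      (pow_ne_zero _ (by exact_mod_cast hp.out.ne_zero))
  rw [mem_soM]
  have h7 := congrArg (fun M => M.map (PadicInt.toZMod (p := p))) h4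
  have h8 : ((p : ℤ_[p]) ^ k • ((Y i)ᵀ * A i * Y i)).map (PadicInt.toZMod (p := p)) = 0 := by
    ext a b
    change PadicInt.toZMod ((p : ℤ_[p]) ^ k * ((Y i)ᵀ * A i * Y i) a b) = 0
    rw [map_mul, map_pow, toZMod_eq_zero.2 ⟨1, (mul_one _).symm⟩, zero_pow (by omega), zero_mul]
  rw [Matrix.map_add _ (map_add _), h8, add_zero, Matrix.map_add _ (map_add _), Matrix.map_mul,
    Matrix.map_mul, Matrix.transpose_map] at h7
  rw [Matrix.map_zero _ (map_zero _)] at h7
  exact h7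

/-! ### Binomial coefficients -/

theorem choose_eq {k : ℕ} (h1 : 1 ≤ k) (h2 : k < p) : p.choose k = p * (p.choose k / p) :=
  (Nat.mul_div_cancel' (hp.out.dvd_choose_self (by omega) h2)).symm

theorem choose_pred (j : ℕ) (hj : j < p) : ((p - 1).choose j : ZMod p) = (-1) ^ j := by
  induction j with
  | zero => simp
  | succ j ih =>
    have hp1 : 1 ≤ p := hp.out.one_le
    have h1 : p.choose (j + 1) = (p - 1).choose j + (p - 1).choose (j + 1) := by
      conv_lhs => rw [show p = (p - 1) + 1 by omega]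
      rw [Nat.choose_succ_succ]
    have h2 : ((p.choose (j + 1) : ℕ) : ZMod p) = 0 := by
      rw [ZMod.natCast_eq_zero_iff]
      exact hp.out.dvd_choose_self (by omega) hj
    rw [h1, Nat.cast_add, ih (by omega)] at h2
    rw [pow_succ]
    linear_combination h2

theorem cast_choose_div {k : ℕ} (h1 : 1 ≤ k) (h2 : k < p) :
    ((p.choose k / p : ℕ) : ZMod p) = (-1) ^ (k - 1) * (k : ZMod p)⁻¹ := by
  have hp1 : 1 ≤ p := hp.out.one_le
  have h3 : k * (p.choose k / p) = (p - 1).choose (k - 1) := by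
    have h4 : p * (p - 1).choose (k - 1) = p.choose k * k := by
      have h5 := Nat.add_one_mul_choose_eq (p - 1) (k - 1)
      rwa [show p - 1 + 1 = p by omega, show k - 1 + 1 = k by omega] at h5
    have h6 : p * (k * (p.choose k / p)) = p * (p - 1).choose (k - 1) := by
      rw [h4]
      conv_rhs => rw [choose_eq h1 h2]
      ring
    exact Nat.eq_of_mul_eq_mul_left hp.out.pos h6
  have hk : (k : ZMod p) ≠ 0 := by
    intro h0
    rw [ZMod.natCast_eq_zero_iff] at h0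
    exact absurd (Nat.le_of_dvd (by omega) h0) (by omega)
  have h7 := congrArg (fun x : ℕ => (x : ZMod p)) h3
  simp only [Nat.cast_mul] at h7
  rw [choose_pred (k - 1) (by omega)] at h7
  rw [← h7]
  field_simp

/-- The `p`-th power of a lift of a unipotent matrix. -/
theorem ell_pow {a : Mx n ℤ_[p]} {N : ℕ} (hN : 0 < N) (h2N : 2 * N ≤ p)
    (ha : (rd a - 1) ^ N = 0) :
    ∃ Y : Mx n ℤ_[p], a ^ p = 1 + (p : ℤ_[p]) • Y ∧ ∀ i, rd Y i = lg N (rd a i) := by
  have hp1 : 1 ≤ p := hp.out.one_le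
  set x : Mx n ℤ_[p] := a - 1 with hx
  have hrx : rd x = rd a - 1 := by rw [hx, map_sub, map_one]
  obtain ⟨w, hw⟩ := rd_eq_zero.1 (show rd (x ^ N) = 0 by rw [map_pow, hrx, ha])
  have e1 : a ^ p = ∑ k ∈ Finset.range (p + 1), (p.choose k : ℤ_[p]) • x ^ k := by
    conv_lhs => rw [show a = x + 1 by rw [hx]; abel]
    rw [(Commute.one_right _).add_pow]
    refine Finset.sum_congr rfl fun k _ => ?_
    rw [one_pow, mul_one, ← nsmul_eq_mul', ← Nat.cast_smul_eq_nsmul ℤ_[p]]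
  have e2 : x ^ p = (p : ℤ_[p]) • ((p : ℤ_[p]) • (w * w * x ^ (p - 2 * N))) := by
    have h1 : x ^ p = x ^ N * x ^ N * x ^ (p - 2 * N) := by
      rw [← pow_add, ← pow_add]
      congr 1
      omega
    rw [h1, hw, smul_mul_smul_comm, smul_mul_assoc, smul_smul]
  refine ⟨∑ k ∈ Finset.Ico 1 p, ((p.choose k / p : ℕ) : ℤ_[p]) • x ^ k +
    (p : ℤ_[p]) • (w * w * x ^ (p - 2 * N)), ?_, ?_⟩
  · rw [e1, Finset.sum_range_succ, Nat.choose_self, Nat.cast_one, one_smul, e2,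
      Finset.range_eq_Ico, Finset.sum_eq_sum_Ico_succ_bot (by omega), Nat.choose_zero_right,
      Nat.cast_one, one_smul, pow_zero, smul_add, zero_add, add_assoc]
    congr 2
    rw [Finset.smul_sum]
    refine Finset.sum_congr rfl fun k hk => ?_
    rw [Finset.mem_Ico] at hk
    rw [smul_smul, ← Nat.cast_mul, ← choose_eq hk.1 hk.2]
  · intro i
    have h3 : rd (∑ k ∈ Finset.Ico 1 p, ((p.choose k / p : ℕ) : ℤ_[p]) • x ^ k +
        (p : ℤ_[p]) • (w * w * x ^ (p - 2 * N))) =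
        ∑ k ∈ Finset.Ico 1 p, ((-1) ^ (k - 1) * (k : ZMod p)⁻¹) • (rd a - 1) ^ k := by
      rw [map_add, rd_p_smul, add_zero, map_sum]
      refine Finset.sum_congr rfl fun k hk => ?_
      rw [Finset.mem_Ico] at hk
      rw [rd_smul, map_pow, hrx, map_natCast, cast_choose_div hk.1 hk.2]
    rw [h3]
    unfold lg
    have h4 : ∑ k ∈ Finset.Ico 1 p, ((-1) ^ (k - 1) * (k : ZMod p)⁻¹) • (rd a - 1) ^ k =
        ∑ k ∈ Finset.Ico 1 N, ((-1) ^ (k - 1) * (k : ZMod p)⁻¹) • (rd a - 1) ^ k := by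
      rw [← Finset.sum_Ico_consecutive _ (show 1 ≤ N by omega) (show N ≤ p by omega)]
      rw [Finset.sum_eq_zero (s := Finset.Ico N p), add_zero]
      intro k hk
      rw [Finset.mem_Ico] at hk
      rw [← Nat.sub_add_cancel hk.1, pow_add, ha, mul_zero, smul_zero]
    rw [h4, Finset.range_eq_Ico, Finset.sum_eq_sum_Ico_succ_bot hN, if_pos rfl, zero_smul, zero_add,
      Finset.sum_apply]
    refine Finset.sum_congr rfl fun k hk => ?_
    rw [Finset.mem_Ico] at hk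
    rw [if_neg (by omega)]
    rfl

/-- The `p`-th power of an element congruent to one. -/
theorem pow_step (hp3 : 3 ≤ p) {k : ℕ} (hk : 1 ≤ k) (Y : Mx n ℤ_[p]) :
    ∃ W : Mx n ℤ_[p], (1 + (p : ℤ_[p]) ^ k • Y) ^ p =
      1 + (p : ℤ_[p]) ^ (k + 1) • (Y + (p : ℤ_[p]) • W) := by
  have e1 : (1 + (p : ℤ_[p]) ^ k • Y) ^ p =
      ∑ j ∈ Finset.range (p + 1), (p.choose j : ℤ_[p]) • ((p : ℤ_[p]) ^ (k * j) • Y ^ j) := by
    rw [add_comm, (Commute.one_right _).add_pow]
    refine Finset.sum_congr rfl fun j _ => ?_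
    rw [one_pow, mul_one, ← nsmul_eq_mul', ← Nat.cast_smul_eq_nsmul ℤ_[p], smul_pow, ← pow_mul]
  refine ⟨∑ j ∈ Finset.Ico 2 p, (((p.choose j / p : ℕ) : ℤ_[p]) * (p : ℤ_[p]) ^ (k * j - k - 1)) •
    Y ^ j + (p : ℤ_[p]) ^ (k * p - k - 2) • Y ^ p, ?_⟩
  rw [e1, Finset.sum_range_succ, Nat.choose_self, Nat.cast_one, one_smul,
    Finset.range_eq_Ico, Finset.sum_eq_sum_Ico_succ_bot (by omega),
    Finset.sum_eq_sum_Ico_succ_bot (by omega), Nat.choose_zero_right,
    Nat.cast_one, one_smul, pow_zero, mul_zero, pow_zero, one_smul, zero_add, Nat.choose_one_right,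
    mul_one, pow_one, smul_smul, ← pow_succ', smul_add, smul_add, smul_smul, smul_add, smul_smul,
    Finset.smul_sum, ← pow_succ]
  have h1 : k * p = k + 1 + 1 + (k * p - k - 2) := by
    have : k * p ≥ k * 3 := Nat.mul_le_mul_left k hp3
    omega
  have h2 : ∑ j ∈ Finset.Ico (1 + 1) p, (p.choose j : ℤ_[p]) • (p : ℤ_[p]) ^ (k * j) • Y ^ j =
      ∑ j ∈ Finset.Ico 2 p, (p : ℤ_[p]) ^ (k + 1 + 1) •
        (((p.choose j / p : ℕ) : ℤ_[p]) * (p : ℤ_[p]) ^ (k * j - k - 1)) • Y ^ j := by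
    refine Finset.sum_congr rfl fun j hj => ?_
    rw [Finset.mem_Ico] at hj
    have h3 : 1 + k * j = k + 1 + 1 + (k * j - k - 1) := by
      have : k * j ≥ k * 2 := Nat.mul_le_mul_left k (by omega)
      omega
    rw [smul_smul, smul_smul]
    congr 1
    conv_lhs => rw [choose_eq (by omega) hj.2, Nat.cast_mul]
    calc (p : ℤ_[p]) * ((p.choose j / p : ℕ) : ℤ_[p]) * (p : ℤ_[p]) ^ (k * j) =
          ((p.choose j / p : ℕ) : ℤ_[p]) * (p : ℤ_[p]) ^ (1 + k * j) := by ring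
      _ = _ := by rw [h3]; ring
  have h4 : (p : ℤ_[p]) ^ (k + 1) • ((p : ℤ_[p]) * (p : ℤ_[p]) ^ (k * p - k - 2)) • Y ^ p =
      (p : ℤ_[p]) ^ (k * p) • Y ^ p := by
    rw [smul_smul]
    congr 1
    conv_rhs => rw [h1]
    ring
  rw [h2, h4]
  abel

end Pool.Agent.Y127.I
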