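import Pool.Agent.Y127.I.Approx

/-!
# The tangent space of a compact group of p-adic matrices
-/

set_option linter.unusedSectionVars false

namespace Pool.Agent.Y127.I

open Module Matrix Filter Topology

variable {p : ℕ} [hp : Fact p.Prime] {m : ℕ}

/-- Matrices over `ℤ_p` in the matrices over `ℚ_p`. -/
noncomputable def cm : Matrix (Fin m) (Fin m) ℤ_[p] →+* Matrix (Fin m) (Fin m) ℚ_[p] :=
  (PadicInt.Coe.ringHom (p := p)).mapMatrix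

theorem cm_apply (X : Matrix (Fin m) (Fin m) ℤ_[p]) (a b : Fin m) :
    cm X a b = ((X a b : ℤ_[p]) : ℚ_[p]) := rfl

theorem cm_smul (c : ℤ_[p]) (X : Matrix (Fin m) (Fin m) ℤ_[p]) :
    cm (c • X) = (c : ℚ_[p]) • cm X := by
  ext a b
  change (((c * X a b : ℤ_[p])) : ℚ_[p]) = (c : ℚ_[p]) * ((X a b : ℤ_[p]) : ℚ_[p])
  rw [PadicInt.coe_mul]

theorem cm_psmul (k : ℕ) (X : Matrix (Fin m) (Fin m) ℤ_[p]) :
    cm ((p : ℤ_[p]) ^ k • X) = (p : ℚ_[p]) ^ k • cm X := by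
  rw [cm_smul, PadicInt.coe_pow, PadicInt.coe_natCast]

theorem cm_inj : Function.Injective (cm (p := p) (m := m)) := by
  intro X Y h
  ext a b
  have h1 := congrFun (congrFun h a) b
  rw [cm_apply, cm_apply] at h1
  exact PadicInt.ext h1

theorem cm_transpose (X : Matrix (Fin m) (Fin m) ℤ_[p]) : cm Xᵀ = (cm X)ᵀ := rfl

theorem P_ne : (p : ℚ_[p]) ≠ 0 := by exact_mod_cast hp.out.ne_zero

theorem exists_int (x : ℚ_[p]) : ∃ s : ℕ, ∀ t, s ≤ t → ∃ w : ℤ_[p], (p : ℚ_[p]) ^ t * x = w := by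
  obtain ⟨s, hs⟩ := pow_unbounded_of_one_lt ‖x‖ (show (1 : ℝ) < p by exact_mod_cast hp.out.one_lt)
  refine ⟨s, fun t ht => ⟨⟨(p : ℚ_[p]) ^ t * x, ?_⟩, rfl⟩⟩
  have hp0 : (0 : ℝ) < p := by exact_mod_cast hp.out.pos
  have hp1 : (1 : ℝ) ≤ p := by exact_mod_cast hp.out.one_lt.le
  rw [norm_mul, norm_pow, Padic.norm_p]
  have h1 : ‖x‖ ≤ (p : ℝ) ^ t := hs.le.trans (pow_le_pow_right₀ hp1 ht)
  calc ((p : ℝ)⁻¹) ^ t * ‖x‖ ≤ ((p : ℝ)⁻¹) ^ t * (p : ℝ) ^ t :=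
        mul_le_mul_of_nonneg_left h1 (pow_nonneg (inv_nonneg.2 hp0.le) _)
    _ = 1 := by rw [← mul_pow, inv_mul_cancel₀ hp0.ne', one_pow]

theorem exists_intM (X : Matrix (Fin m) (Fin m) ℚ_[p]) :
    ∃ s : ℕ, ∀ t, s ≤ t → ∃ W : Matrix (Fin m) (Fin m) ℤ_[p], (p : ℚ_[p]) ^ t • X = cm W := by
  choose s hs using fun (a b : Fin m) => exists_int (X a b)
  refine ⟨∑ a, ∑ b, s a b, fun t ht => ?_⟩
  have h1 : ∀ a b, ∃ w : ℤ_[p], (p : ℚ_[p]) ^ t * X a b = w := by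
    intro a b
    refine hs a b t (le_trans ?_ ht)
    exact (Finset.single_le_sum (f := fun b => s a b) (fun _ _ => Nat.zero_le _)
      (Finset.mem_univ b)).trans (Finset.single_le_sum (f := fun a => ∑ b, s a b)
      (fun _ _ => Nat.zero_le _) (Finset.mem_univ a))
  choose W hW using h1
  refine ⟨Matrix.of W, ?_⟩
  ext a b
  exact hW a b

theorem zero_of_congr {X : Matrix (Fin m) (Fin m) ℚ_[p]}
    (h : ∀ k : ℕ, ∃ V : Matrix (Fin m) (Fin m) ℤ_[p], X = (p : ℚ_[p]) ^ k • cm V) : X = 0 := by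
  ext a b
  rw [Matrix.zero_apply]
  by_contra hne
  have h1 : 0 < ‖X a b‖ := norm_pos_iff.2 hne
  have hlt : (p : ℝ)⁻¹ < 1 := inv_lt_one_of_one_lt₀ (by exact_mod_cast hp.out.one_lt)
  obtain ⟨k, hk⟩ := exists_pow_lt_of_lt_one h1 hlt
  obtain ⟨V, hV⟩ := h k
  have h2 : X a b = (p : ℚ_[p]) ^ k * ((V a b : ℤ_[p]) : ℚ_[p]) := by
    rw [hV]
    rfl
  rw [h2, norm_mul, norm_pow, Padic.norm_p] at hk
  have h3 : ((p : ℝ)⁻¹) ^ k * ‖((V a b : ℤ_[p]) : ℚ_[p])‖ ≤ ((p : ℝ)⁻¹) ^ k := by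
    refine mul_le_of_le_one_right (pow_nonneg ?_ _) (V a b).2
    exact inv_nonneg.2 (by exact_mod_cast hp.out.pos.le)
  exact absurd hk (not_lt.2 h3)

theorem mem_of_congr {M : Submodule ℚ_[p] (Matrix (Fin m) (Fin m) ℚ_[p])}
    {x : Matrix (Fin m) (Fin m) ℚ_[p]}
    (h : ∀ k : ℕ, ∃ V : Matrix (Fin m) (Fin m) ℤ_[p], x + (p : ℚ_[p]) ^ k • cm V ∈ M) :
    x ∈ M := by
  choose V hV using h
  have h1 : Tendsto (fun k => x + (p : ℚ_[p]) ^ k • cm (V k)) atTop (𝓝 x) := by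
    refine tendsto_pi_nhds.2 fun a => tendsto_pi_nhds.2 fun b => ?_
    have h2 : Tendsto (fun k => (p : ℚ_[p]) ^ k * ((V k a b : ℤ_[p]) : ℚ_[p])) atTop (𝓝 0) := by
      refine squeeze_zero_norm (a := fun k => ((p : ℝ)⁻¹) ^ k) (fun k => ?_) ?_
      · rw [norm_mul, norm_pow, Padic.norm_p]
        refine mul_le_of_le_one_right (pow_nonneg ?_ _) (V k a b).2
        exact inv_nonneg.2 (by exact_mod_cast hp.out.pos.le)
      · exact tendsto_pow_atTop_nhds_zero_of_lt_one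
          (inv_nonneg.2 (by exact_mod_cast hp.out.pos.le))
          (inv_lt_one_of_one_lt₀ (by exact_mod_cast hp.out.one_lt))
    have h3 := h2.const_add (x a b)
    rw [add_zero] at h3
    exact h3
  exact (Submodule.closed_of_finiteDimensional M).mem_of_tendsto h1
    (Filter.Eventually.of_forall hV)

variable {ι : Type} [Fintype ι] [DecidableEq ι] {n : ι → ℕ}

/-- Families over `ℤ_p` in the families over `ℚ_p`. -/
noncomputable def cq : Mx n ℤ_[p] →+* Mx n ℚ_[p] :=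
  Pi.ringHom fun i => (cm (p := p) (m := n i)).comp
    (Pi.evalRingHom (fun i => Matrix (Fin (n i)) (Fin (n i)) ℤ_[p]) i)

theorem cq_apply (X : Mx n ℤ_[p]) (i : ι) : cq X i = cm (X i) := rfl

theorem cq_psmul (k : ℕ) (X : Mx n ℤ_[p]) :
    cq ((p : ℤ_[p]) ^ k • X) = (p : ℚ_[p]) ^ k • cq X := by
  funext i
  exact cm_psmul k (X i)

theorem cq_smul (c : ℤ_[p]) (X : Mx n ℤ_[p]) : cq (c • X) = (c : ℚ_[p]) • cq X := by
  funext i
  exact cm_smul c (X i)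

theorem cq_inj : Function.Injective (cq (p := p) (n := n)) := by
  intro X Y h
  funext i
  exact cm_inj (congrFun h i)

theorem exists_intF (X : Mx n ℚ_[p]) :
    ∃ s : ℕ, ∀ t, s ≤ t → ∃ W : Mx n ℤ_[p], (p : ℚ_[p]) ^ t • X = cq W := by
  choose s hs using fun i => exists_intM (X i)
  refine ⟨∑ i, s i, fun t ht => ?_⟩
  have h1 : ∀ i, ∃ W : Matrix (Fin (n i)) (Fin (n i)) ℤ_[p], (p : ℚ_[p]) ^ t • X i = cm W :=
    fun i => hs i t ((Finset.single_le_sum (f := s) (fun _ _ => Nat.zero_le _)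
      (Finset.mem_univ i)).trans ht)
  choose W hW using h1
  exact ⟨W, funext hW⟩

variable {Γ : Type} [Group Γ]

/-- The tangent space. -/
def TTs (r : Γ →* Mx n ℤ_[p]) : Set (Mx n ℚ_[p]) :=
  {X | ∀ m : ℕ, ∃ k1 : ℕ, ∀ k, k1 ≤ k → ∃ (γ : Γ) (Z : Mx n ℤ_[p]),
    cq (r γ) = 1 + (p : ℚ_[p]) ^ k • X + (p : ℚ_[p]) ^ (k + m) • cq Z}

theorem TTs_add {r : Γ →* Mx n ℤ_[p]} {X X' : Mx n ℚ_[p]} (hX : X ∈ TTs r) (hX' : X' ∈ TTs r) :
    X + X' ∈ TTs r := by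
  intro m
  obtain ⟨k1, h1⟩ := hX m
  obtain ⟨k2, h2⟩ := hX' m
  obtain ⟨s1, hs1⟩ := exists_intF X
  obtain ⟨s2, hs2⟩ := exists_intF X'
  set s := s1 + s2 with hs
  obtain ⟨W, hW⟩ := hs1 s (by omega)
  obtain ⟨W', hW'⟩ := hs2 s (by omega)
  refine ⟨k1 + k2 + 2 * s + m, fun k hk => ?_⟩
  obtain ⟨γ, Z, hZ⟩ := h1 k (by omega)
  obtain ⟨γ', Z', hZ'⟩ := h2 k (by omega)
  have q1 : (p : ℚ_[p]) ^ k = (p : ℚ_[p]) ^ (k - s) * (p : ℚ_[p]) ^ s := by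
    rw [← pow_add]; congr 1; omega
  have q2 : (p : ℚ_[p]) ^ (k + m) = (p : ℚ_[p]) ^ (k - s) * (p : ℚ_[p]) ^ (s + m) := by
    rw [← pow_add]; congr 1; omega
  have e1 : (p : ℚ_[p]) ^ k • X + (p : ℚ_[p]) ^ (k + m) • cq Z =
      (p : ℚ_[p]) ^ (k - s) • cq (W + (p : ℤ_[p]) ^ (s + m) • Z) := by
    rw [map_add, cq_psmul, smul_add, ← hW, smul_smul, smul_smul, ← q1, ← q2]
  have e2 : (p : ℚ_[p]) ^ k • X' + (p : ℚ_[p]) ^ (k + m) • cq Z' =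
      (p : ℚ_[p]) ^ (k - s) • cq (W' + (p : ℤ_[p]) ^ (s + m) • Z') := by
    rw [map_add, cq_psmul, smul_add, ← hW', smul_smul, smul_smul, ← q1, ← q2]
  set U := W + (p : ℤ_[p]) ^ (s + m) • Z
  set U' := W' + (p : ℤ_[p]) ^ (s + m) • Z'
  refine ⟨γ * γ', Z + Z' + (p : ℤ_[p]) ^ (k - 2 * s - m) • (U * U'), ?_⟩
  have e3 : ((p : ℚ_[p]) ^ k • X + (p : ℚ_[p]) ^ (k + m) • cq Z) *
      ((p : ℚ_[p]) ^ k • X' + (p : ℚ_[p]) ^ (k + m) • cq Z') =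
      (p : ℚ_[p]) ^ (k + m) • ((p : ℚ_[p]) ^ (k - 2 * s - m) • cq (U * U')) := by
    rw [e1, e2, smul_mul_smul_comm, smul_smul, ← pow_add, ← pow_add, ← map_mul]
    congr 2
    omega
  rw [map_mul, map_mul, hZ, hZ', add_assoc, add_assoc]
  calc (1 + ((p : ℚ_[p]) ^ k • X + (p : ℚ_[p]) ^ (k + m) • cq Z)) *
        (1 + ((p : ℚ_[p]) ^ k • X' + (p : ℚ_[p]) ^ (k + m) • cq Z')) =
        1 + ((p : ℚ_[p]) ^ k • X + (p : ℚ_[p]) ^ (k + m) • cq Z) +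
        ((p : ℚ_[p]) ^ k • X' + (p : ℚ_[p]) ^ (k + m) • cq Z') +
        ((p : ℚ_[p]) ^ k • X + (p : ℚ_[p]) ^ (k + m) • cq Z) *
      ((p : ℚ_[p]) ^ k • X' + (p : ℚ_[p]) ^ (k + m) • cq Z') := by
        simp only [mul_add, add_mul, mul_one, one_mul]
        abel
    _ = _ := by
        rw [e3, map_add, map_add, cq_psmul, smul_add, smul_add, smul_add]
        abel

theorem TTs_zero {r : Γ →* Mx n ℤ_[p]} : (0 : Mx n ℚ_[p]) ∈ TTs r := by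
  intro m
  refine ⟨0, fun k _ => ⟨1, 0, ?_⟩⟩
  rw [map_one, map_one, smul_zero, map_zero, smul_zero, add_zero, add_zero]

theorem TTs_nsmul {r : Γ →* Mx n ℤ_[p]} {X : Mx n ℚ_[p]} (hX : X ∈ TTs r) (a : ℕ) :
    (a : ℚ_[p]) • X ∈ TTs r := by
  induction a with
  | zero => rw [Nat.cast_zero, zero_smul]; exact TTs_zero
  | succ a ih => rw [Nat.cast_succ, add_smul, one_smul]; exact TTs_add ih hX

theorem TTs_zsmul {r : Γ →* Mx n ℤ_[p]} {X : Mx n ℚ_[p]} (hX : X ∈ TTs r) (z : ℤ_[p]) :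
    (z : ℚ_[p]) • X ∈ TTs r := by
  intro m
  obtain ⟨s, hs⟩ := exists_intF X
  obtain ⟨W, hW⟩ := hs s le_rfl
  have h1 := PadicInt.appr_spec (m + s) z
  rw [Ideal.mem_span_singleton] at h1
  obtain ⟨z', hz'⟩ := h1
  set a := PadicInt.appr z (m + s)
  obtain ⟨k1, h2⟩ := TTs_nsmul hX a m
  refine ⟨k1, fun k hk => ?_⟩
  obtain ⟨γ, Z, hZ⟩ := h2 k hk
  refine ⟨γ, Z - z' • W, ?_⟩
  have h3 : (z : ℚ_[p]) = (a : ℚ_[p]) + (p : ℚ_[p]) ^ (m + s) * (z' : ℚ_[p]) := by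
    have h4 : z = (a : ℤ_[p]) + (p : ℤ_[p]) ^ (m + s) * z' := by
      rw [← hz']; ring
    conv_lhs => rw [h4]
    push_cast
    rfl
  rw [hZ, h3, map_sub, cq_smul, ← hW]
  module

theorem TTs_inv {r : Γ →* Mx n ℤ_[p]} {X : Mx n ℚ_[p]} (hX : X ∈ TTs r) :
    (p : ℚ_[p])⁻¹ • X ∈ TTs r := by
  intro m
  obtain ⟨k1, h1⟩ := hX (m + 1)
  refine ⟨k1 + 1, fun k hk => ?_⟩
  obtain ⟨γ, Z, hZ⟩ := h1 (k - 1) (by omega)
  refine ⟨γ, Z, ?_⟩
  rw [hZ, smul_smul]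
  congr 2
  · congr 1
    conv_rhs => rw [show k = (k - 1) + 1 by omega, pow_succ]
    rw [mul_assoc, mul_inv_cancel₀ P_ne, mul_one]
  · congr 1
    omega

theorem TTs_smul {r : Γ →* Mx n ℤ_[p]} {X : Mx n ℚ_[p]} (hX : X ∈ TTs r) (q : ℚ_[p]) :
    q • X ∈ TTs r := by
  obtain ⟨s, hs⟩ := exists_int q
  obtain ⟨w, hw⟩ := hs s le_rfl
  have h1 := TTs_zsmul hX w
  rw [← hw] at h1
  have h2 : ∀ (j : ℕ) (Y : Mx n ℚ_[p]), Y ∈ TTs r → ((p : ℚ_[p])⁻¹) ^ j • Y ∈ TTs r := by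
    intro j
    induction j with
    | zero => intro Y hY; rw [pow_zero, one_smul]; exact hY
    | succ j ih =>
      intro Y hY
      rw [pow_succ', mul_smul]
      exact TTs_inv (ih Y hY)
  have h3 := h2 s _ h1
  rwa [smul_smul, ← mul_assoc, ← mul_pow, inv_mul_cancel₀ P_ne, one_pow, one_mul] at h3

/-- The tangent space as a subspace. -/
def TT (r : Γ →* Mx n ℤ_[p]) : Submodule ℚ_[p] (Mx n ℚ_[p]) where
  carrier := TTs r
  zero_mem' := TTs_zero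
  add_mem' := TTs_add
  smul_mem' q _ hX := TTs_smul hX q

theorem TT_conj {r : Γ →* Mx n ℤ_[p]} {X : Mx n ℚ_[p]} (hX : X ∈ TT r) (δ : Γ) :
    cq (r δ) * X * cq (r δ⁻¹) ∈ TT r := by
  intro m
  obtain ⟨k1, h1⟩ := hX m
  refine ⟨k1, fun k hk => ?_⟩
  obtain ⟨γ, Z, hZ⟩ := h1 k hk
  refine ⟨δ * γ * δ⁻¹, r δ * Z * r δ⁻¹, ?_⟩
  have h2 : cq (r δ) * cq (r δ⁻¹) = 1 := by
    rw [← map_mul, ← map_mul, mul_inv_cancel, map_one, map_one]
  rw [map_mul, map_mul, map_mul, map_mul, hZ, map_mul, map_mul]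
  simp only [mul_add, add_mul, mul_one, mul_smul_comm, smul_mul_assoc, h2]

variable {A : Mx n ℤ_[p]}

theorem TT_skew {r : Γ →* Mx n ℤ_[p]} (hA : ∀ γ, Isy A (r γ)) {X : Mx n ℚ_[p]} (hX : X ∈ TT r)
    (i : ι) : X i ∈ soM (cq A i) := by
  rw [mem_soM]
  refine zero_of_congr fun m => ?_
  obtain ⟨s, hs⟩ := exists_intM (X i)
  obtain ⟨W, hW⟩ := hs s le_rfl
  obtain ⟨k1, h1⟩ := hX m
  set k := k1 + 2 * s + m with hk
  obtain ⟨γ, Z, hZ⟩ := h1 k (by omega)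
  have h2 := hA γ i
  have h3 : (cm (r γ i))ᵀ * cm (A i) * cm (r γ i) = cm (A i) := by
    rw [← cm_transpose, ← map_mul, ← map_mul, h2]
  have h4 : cm (r γ i) = 1 + (p : ℚ_[p]) ^ k • (X i + (p : ℚ_[p]) ^ m • cm (Z i)) := by
    have h5 := congrFun hZ i
    rw [cq_apply] at h5
    rw [h5, Pi.add_apply, Pi.add_apply, Pi.smul_apply, Pi.smul_apply, Pi.one_apply, cq_apply,
      smul_add, smul_smul, ← pow_add, add_assoc]
  set U := X i + (p : ℚ_[p]) ^ m • cm (Z i) with hU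
  rw [h4] at h3
  have h6 : (p : ℚ_[p]) ^ k • (Uᵀ * cm (A i) + cm (A i) * U + (p : ℚ_[p]) ^ k •
      (Uᵀ * cm (A i) * U)) = 0 := by
    have h7 : (1 + (p : ℚ_[p]) ^ k • U)ᵀ * cm (A i) * (1 + (p : ℚ_[p]) ^ k • U) =
        cm (A i) + (p : ℚ_[p]) ^ k • (Uᵀ * cm (A i) + cm (A i) * U + (p : ℚ_[p]) ^ k •
      (Uᵀ * cm (A i) * U)) := by
      rw [transpose_add, transpose_one, transpose_smul]
      simp only [add_mul, mul_add, one_mul, mul_one, Matrix.smul_mul, Matrix.mul_smul, smul_add,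
        smul_smul]
      abel
    rw [h7] at h3
    exact add_eq_left.1 h3
  have h8 := (smul_eq_zero.1 h6).resolve_left (pow_ne_zero _ P_ne)
  have h9 : (p : ℚ_[p]) ^ s • U = cm (W + (p : ℤ_[p]) ^ (s + m) • Z i) := by
    rw [hU, smul_add, hW, smul_smul, ← pow_add, map_add, cm_psmul]
  set V := W + (p : ℤ_[p]) ^ (s + m) • Z i
  have h10 : (p : ℚ_[p]) ^ k • (Uᵀ * cm (A i) * U) =
      (p : ℚ_[p]) ^ (k1 + m) • cm (Vᵀ * A i * V) := by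
    rw [map_mul, map_mul, cm_transpose, ← h9, transpose_smul]
    simp only [Matrix.smul_mul, Matrix.mul_smul, smul_smul]
    congr 1
    rw [hk]
    ring
  refine ⟨-((Z i)ᵀ * A i + A i * Z i + (p : ℤ_[p]) ^ k1 • (Vᵀ * A i * V)), ?_⟩
  have h11 : Uᵀ * cm (A i) + cm (A i) * U = (X i)ᵀ * cm (A i) + cm (A i) * X i +
      (p : ℚ_[p]) ^ m • cm ((Z i)ᵀ * A i + A i * Z i) := by
    rw [hU, transpose_add, transpose_smul, map_add, map_mul, map_mul, cm_transpose]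
    simp only [add_mul, mul_add, Matrix.smul_mul, Matrix.mul_smul, smul_add]
    abel
  rw [h11, h10] at h8
  rw [cq_apply, map_neg, map_add, cm_psmul, smul_neg, smul_add, smul_smul, ← pow_add, add_comm m k1]
  exact eq_neg_of_add_eq_zero_left (by rw [← h8]; abel)

end Pool.Agent.Y127.I
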