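import Pool.Agent.Y127.I.Small

/-!
# Logarithms, Cayley transforms, irreducibility over `ℚ_p`
-/

set_option linter.unusedSectionVars false

namespace Pool.Agent.Y127.I

open Module Matrix Filter Topology

variable {p : ℕ} [hp : Fact p.Prime] {ι : Type} [Fintype ι] [DecidableEq ι] {n : ι → ℕ}

/-! ### The limit of `(h ^ (p ^ j) - 1) / p ^ j` -/

/-- Auxiliary factor. -/
noncomputable def Vst (k : ℕ) (Y : Mx n ℤ_[p]) : Mx n ℤ_[p] :=
  Y * ∑ j ∈ Finset.Ico 2 (p + 1), (p.choose j : ℤ_[p]) • ((p : ℤ_[p]) ^ k • Y) ^ (j - 2)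

/-- The next term. -/
noncomputable def nxt (k : ℕ) (Y : Mx n ℤ_[p]) : Mx n ℤ_[p] :=
  Y * (1 + (p : ℤ_[p]) ^ (k - 1) • Vst k Y)

theorem step_eq {k : ℕ} (hk : 1 ≤ k) (Y : Mx n ℤ_[p]) :
    (1 + (p : ℤ_[p]) ^ k • Y) ^ p = 1 + (p : ℤ_[p]) ^ (k + 1) • nxt k Y := by
  have hp2 : 2 ≤ p := hp.out.two_le
  set y := (p : ℤ_[p]) ^ k • Y with hy
  have e1 : (1 + y) ^ p = ∑ j ∈ Finset.range (p + 1), (p.choose j : ℤ_[p]) • y ^ j := by
    rw [add_comm, (Commute.one_right _).add_pow]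
    refine Finset.sum_congr rfl fun j _ => ?_
    rw [one_pow, mul_one, ← nsmul_eq_mul', ← Nat.cast_smul_eq_nsmul ℤ_[p]]
  have e2 : ∑ j ∈ Finset.Ico 2 (p + 1), (p.choose j : ℤ_[p]) • y ^ j =
      y * y * ∑ j ∈ Finset.Ico 2 (p + 1), (p.choose j : ℤ_[p]) • y ^ (j - 2) := by
    rw [Finset.mul_sum]
    refine Finset.sum_congr rfl fun j hj => ?_
    rw [Finset.mem_Ico] at hj
    rw [mul_smul_comm, ← sq, ← pow_add]
    congr 2
    omega
  rw [e1, Finset.range_eq_Ico, Finset.sum_eq_sum_Ico_succ_bot (by omega),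
    Finset.sum_eq_sum_Ico_succ_bot (by omega), Nat.choose_zero_right, Nat.cast_one, one_smul,
    pow_zero, zero_add, Nat.choose_one_right, pow_one]
  have e3 : ∑ j ∈ Finset.Ico (1 + 1) (p + 1), (p.choose j : ℤ_[p]) • y ^ j =
      (p : ℤ_[p]) ^ (k + 1) • (Y * ((p : ℤ_[p]) ^ (k - 1) • Vst k Y)) := by
    rw [show (1 + 1 : ℕ) = 2 from rfl, e2]
    unfold Vst
    rw [← hy]
    have h1 : y * y = (p : ℤ_[p]) ^ (k + 1) • (p : ℤ_[p]) ^ (k - 1) • (Y * Y) := by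
      rw [hy, smul_mul_smul_comm, smul_smul, ← pow_add, ← pow_add]
      congr 2
      omega
    rw [h1]
    simp only [mul_smul_comm, smul_mul_assoc, mul_assoc]
  rw [e3]
  unfold nxt
  rw [mul_add, mul_one, smul_add, hy, smul_smul, ← pow_succ']

/-- The sequence of approximations. -/
noncomputable def Yf (s : ℕ) (Y0 : Mx n ℤ_[p]) : ℕ → Mx n ℤ_[p]
  | 0 => Y0
  | j + 1 => nxt (s + j) (Yf s Y0 j)

theorem Yf_pow {s : ℕ} (hs : 2 ≤ s) (Y0 : Mx n ℤ_[p]) (j : ℕ) :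
    (1 + (p : ℤ_[p]) ^ s • Y0) ^ (p ^ j) = 1 + (p : ℤ_[p]) ^ (s + j) • Yf s Y0 j := by
  induction j with
  | zero => rw [pow_zero, pow_one]; rfl
  | succ j ih => rw [pow_succ, pow_mul, ih, step_eq (by omega)]; rfl

theorem Yf_succ {s : ℕ} (hs : 2 ≤ s) (Y0 : Mx n ℤ_[p]) (j : ℕ) :
    ∃ V, Yf s Y0 (j + 1) = Yf s Y0 j + (p : ℤ_[p]) ^ (j + 1) • (Yf s Y0 j * V) := by
  refine ⟨(p : ℤ_[p]) ^ (s - 2) • Vst (s + j) (Yf s Y0 j), ?_⟩
  change Yf s Y0 j * (1 + (p : ℤ_[p]) ^ (s + j - 1) • Vst (s + j) (Yf s Y0 j)) = _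
  rw [mul_add, mul_one, mul_smul_comm, mul_smul_comm, smul_smul, ← pow_add]
  congr 3
  omega

theorem lim_exists {y : ℕ → ℤ_[p]} (hy : ∀ j, ∃ w, y (j + 1) = y j + (p : ℤ_[p]) ^ (j + 1) * w) :
    ∃ x, ∀ j, ∃ w, x = y j + (p : ℤ_[p]) ^ (j + 1) * w := by
  have h1 : ∀ j i, j ≤ i → ∃ w, y i = y j + (p : ℤ_[p]) ^ (j + 1) * w := by
    intro j i hji
    induction i, hji using Nat.le_induction with
    | base => exact ⟨0, by rw [mul_zero, add_zero]⟩
    | succ i hi ih =>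
      obtain ⟨w, hw⟩ := ih
      obtain ⟨w', hw'⟩ := hy i
      refine ⟨w + (p : ℤ_[p]) ^ (i - j) * w', ?_⟩
      rw [hw', hw, mul_add, ← mul_assoc, ← pow_add, add_assoc]
      congr 4
      omega
  have hpr : (0 : ℝ) < p := by exact_mod_cast hp.out.pos
  have h2 : CauchySeq y := by
    refine cauchySeq_of_le_geometric ((p : ℝ)⁻¹) 1
      (inv_lt_one_of_one_lt₀ (by exact_mod_cast hp.out.one_lt)) fun j => ?_
    obtain ⟨w, hw⟩ := hy j
    rw [dist_comm, dist_eq_norm, hw, add_sub_cancel_left, norm_mul, norm_pow, PadicInt.norm_p,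
      one_mul]
    calc ((p : ℝ)⁻¹) ^ (j + 1) * ‖w‖ ≤ ((p : ℝ)⁻¹) ^ (j + 1) :=
          mul_le_of_le_one_right (pow_nonneg (inv_nonneg.2 hpr.le) _) (PadicInt.norm_le_one _)
      _ ≤ ((p : ℝ)⁻¹) ^ j := by
          refine pow_le_pow_of_le_one (inv_nonneg.2 hpr.le) ?_ (by omega)
          exact inv_le_one_of_one_le₀ (by exact_mod_cast hp.out.one_lt.le)
  obtain ⟨x, hx⟩ := cauchySeq_tendsto_of_complete h2
  refine ⟨x, fun j => ?_⟩
  have h3 : ‖x - y j‖ ≤ (p : ℝ) ^ (-((j + 1 : ℕ) : ℤ)) := by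
    have h4 : Tendsto (fun i => ‖y i - y j‖) atTop (𝓝 ‖x - y j‖) := (hx.sub_const _).norm
    refine le_of_tendsto h4 ?_
    filter_upwards [Filter.eventually_ge_atTop j] with i hi
    obtain ⟨w, hw⟩ := h1 j i hi
    rw [hw, add_sub_cancel_left, norm_mul, norm_pow, PadicInt.norm_p, _root_.zpow_neg, zpow_natCast,
      ← inv_pow]
    exact mul_le_of_le_one_right (pow_nonneg (inv_nonneg.2 hpr.le) _) (PadicInt.norm_le_one _)
  rw [PadicInt.norm_le_pow_iff_mem_span_pow, Ideal.mem_span_singleton] at h3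
  obtain ⟨w, hw⟩ := h3
  exact ⟨w, by rw [← hw]; ring⟩

theorem lim_existsM {Y : ℕ → Mx n ℤ_[p]}
    (hY : ∀ j, ∃ W, Y (j + 1) = Y j + (p : ℤ_[p]) ^ (j + 1) • W) :
    ∃ X, ∀ j, ∃ W, X = Y j + (p : ℤ_[p]) ^ (j + 1) • W := by
  have h1 : ∀ i a b, ∃ x, ∀ j, ∃ w, x = Y j i a b + (p : ℤ_[p]) ^ (j + 1) * w := by
    intro i a b
    refine lim_exists fun j => ?_
    obtain ⟨W, hW⟩ := hY j
    exact ⟨W i a b, by rw [hW]; rfl⟩
  choose x hx using h1
  refine ⟨fun i => Matrix.of (x i), fun j => ?_⟩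
  choose w hw using hx
  refine ⟨fun i => Matrix.of fun a b => w i a b j, ?_⟩
  funext i
  ext a b
  exact hw i a b j

theorem exists_val {m : ℕ} {Y : Matrix (Fin m) (Fin m) ℤ_[p]} (hY : Y ≠ 0) :
    ∃ (u : ℕ) (Y' : Matrix (Fin m) (Fin m) ℤ_[p]), Y = (p : ℤ_[p]) ^ u • Y' ∧
      Y'.map (PadicInt.toZMod (p := p)) ≠ 0 := by
  by_contra hcon
  push Not at hcon
  apply hY
  have h1 : ∀ u : ℕ, ∃ Y' : Matrix (Fin m) (Fin m) ℤ_[p], Y = (p : ℤ_[p]) ^ u • Y' := by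
    intro u
    induction u with
    | zero => exact ⟨Y, by rw [pow_zero, one_smul]⟩
    | succ u ih =>
      obtain ⟨Y', hY'⟩ := ih
      have h2 := hcon u Y' hY'
      have h3 : ∀ a b, ∃ w, Y' a b = (p : ℤ_[p]) * w := fun a b =>
        toZMod_eq_zero.1 (congrFun (congrFun h2 a) b)
      choose w hw using h3
      refine ⟨Matrix.of w, ?_⟩
      rw [hY', pow_succ, mul_smul]
      congr 1
      ext a b
      exact hw a b
  apply cm_inj
  rw [map_zero]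
  refine zero_of_congr fun k => ?_
  obtain ⟨V, hV⟩ := h1 k
  exact ⟨V, by rw [← cm_psmul, ← hV]⟩

variable {Γ : Type} [Group Γ] {r : Γ →* Mx n ℤ_[p]}

theorem exists_TT {γ₀ : Γ} {s : ℕ} (hs : 2 ≤ s) {Y0 : Mx n ℤ_[p]}
    (h : r γ₀ = 1 + (p : ℤ_[p]) ^ s • Y0) :
    ∃ X : Mx n ℚ_[p], X ∈ TT r ∧ ∀ i, Y0 i ≠ 0 → X i ≠ 0 := by
  obtain ⟨X, hX⟩ := lim_existsM (Y := Yf s Y0) fun j => by
    obtain ⟨V, hV⟩ := Yf_succ hs Y0 j
    exact ⟨_, hV⟩
  refine ⟨cq X, ?_, ?_⟩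
  · intro m
    refine ⟨s + m, fun k hk => ?_⟩
    obtain ⟨W, hW⟩ := hX (k - s)
    refine ⟨γ₀ ^ p ^ (k - s), -((p : ℤ_[p]) ^ (k - s + 1 - m) • W), ?_⟩
    have h1 : r (γ₀ ^ p ^ (k - s)) = 1 + (p : ℤ_[p]) ^ k • X +
        (p : ℤ_[p]) ^ (k + m) • (-((p : ℤ_[p]) ^ (k - s + 1 - m) • W)) := by
      rw [map_pow, h, Yf_pow hs, show s + (k - s) = k by omega, hW, smul_neg, smul_smul,
        ← pow_add, smul_add, smul_smul, ← pow_add, show k + m + (k - s + 1 - m) = k + (k - s + 1) by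
        omega]
      abel
    rw [h1, map_add, map_add, map_one, cq_psmul, cq_psmul]
  · intro i hi hXi
    obtain ⟨u, Y', hY', hne⟩ := exists_val hi
    have h2 : ∀ j, ∃ Z : Matrix (Fin (n i)) (Fin (n i)) ℤ_[p], Yf s Y0 j i = (p : ℤ_[p]) ^ u • Z ∧
        Z.map (PadicInt.toZMod (p := p)) = Y'.map (PadicInt.toZMod (p := p)) := by
      intro j
      induction j with
      | zero => exact ⟨Y', hY', rfl⟩
      | succ j ih =>
        obtain ⟨Z, hZ, hZ2⟩ := ih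
        obtain ⟨V, hV⟩ := Yf_succ hs Y0 j
        refine ⟨Z + (p : ℤ_[p]) ^ (j + 1) • (Z * V i), ?_, ?_⟩
        · rw [hV, Pi.add_apply, Pi.smul_apply, Pi.mul_apply, hZ, smul_mul_assoc, smul_add,
            smul_smul, smul_smul, mul_comm]
        · rw [← hZ2]
          ext a b
          change PadicInt.toZMod (Z a b + (p : ℤ_[p]) ^ (j + 1) * (Z * V i) a b) =
            PadicInt.toZMod (Z a b)
          rw [map_add, map_mul, map_pow, toZMod_eq_zero.2 ⟨1, (mul_one _).symm⟩,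
            zero_pow (by omega), zero_mul, add_zero]
    obtain ⟨Z, hZ, hZ2⟩ := h2 u
    obtain ⟨W, hW⟩ := hX u
    have h3 : X i = 0 := cm_inj (by rw [map_zero]; exact hXi)
    rw [hW, Pi.add_apply, Pi.smul_apply, hZ, pow_succ, mul_smul, ← smul_add] at h3
    have h4 : Z + (p : ℤ_[p]) • W i = 0 :=
      (smul_eq_zero.1 h3).resolve_left (pow_ne_zero _ (by exact_mod_cast hp.out.ne_zero))
    apply hne
    rw [← hZ2]
    ext a b
    have h5 := congrFun (congrFun h4 a) b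
    have h6 : Z a b + (p : ℤ_[p]) * W i a b = 0 := h5
    change PadicInt.toZMod (Z a b) = 0
    rw [toZMod_eq_zero]
    exact ⟨-W i a b, by linear_combination h6⟩

/-! ### Cayley transforms -/

section cayley

variable {m : ℕ}

theorem one_add_pow {R : Type} [Ring R] (y : R) (q : ℕ) :
    ∃ V, (1 + y) ^ q = 1 + (q : R) * y + y * y * V := by
  induction q with
  | zero => exact ⟨0, by simp⟩
  | succ q ih =>
    obtain ⟨V, hV⟩ := ih
    refine ⟨(q : R) + V + V * y, ?_⟩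
    rw [pow_succ, hV]
    have h1 : y * y * (q : R) = (q : R) * (y * y) := (Nat.cast_commute q _).eq.symm
    push_cast
    rw [mul_add (y * y), mul_add (y * y), h1]
    noncomm_ring

theorem isUnit_of_toZMod {x : ℤ_[p]} (h : PadicInt.toZMod x ≠ 0) : IsUnit x := by
  have h' : x ∉ IsLocalRing.maximalIdeal ℤ_[p] := by
    rw [← PadicInt.ker_toZMod]
    exact fun hx => h (RingHom.mem_ker.1 hx)
  exact IsLocalRing.notMem_maximalIdeal.1 h'

/-- Every skew matrix is tangent to the `q`-th powers of isometries. -/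
theorem tan_of_pow {a : Matrix (Fin m) (Fin m) ℤ_[p]} {q : ℕ} (hq : 0 < q)
    {G : Set (Matrix (Fin m) (Fin m) ℤ_[p])} (hG : ∀ g, gᵀ * a * g = a → g ^ q ∈ G)
    {Y : Matrix (Fin m) (Fin m) ℚ_[p]} (hY : Y ∈ soM (cm a)) (e : ℕ) :
    ∃ k1 : ℕ, ∀ k, k1 ≤ k → ∃ g ∈ G, ∃ Z : Matrix (Fin m) (Fin m) ℤ_[p],
      cm g = 1 + (p : ℚ_[p]) ^ k • Y + (p : ℚ_[p]) ^ (k + e) • cm Z := by
  have hq0 : (2 * (q : ℚ_[p])) ≠ 0 :=
    mul_ne_zero two_ne_zero (by exact_mod_cast (Nat.pos_iff_ne_zero.1 hq))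
  set Y' := (2 * (q : ℚ_[p]))⁻¹ • Y with hY'
  have hYs : Y' ∈ soM (cm a) := (soM _).smul_mem _ hY
  obtain ⟨s, hs⟩ := exists_intM Y'
  obtain ⟨W, hW⟩ := hs s le_rfl
  refine ⟨2 * s + e + 1, fun k hk => ?_⟩
  set z := (p : ℤ_[p]) ^ (k - s) • W with hz
  have hcz : cm z = (p : ℚ_[p]) ^ k • Y' := by
    rw [hz, cm_psmul, ← hW, smul_smul, ← pow_add]
    congr 2
    omega
  have hskew : zᵀ * a + a * z = 0 := by
    apply cm_inj
    rw [map_add, map_mul, map_mul, cm_transpose, hcz, map_zero, transpose_smul, Matrix.smul_mul,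
      Matrix.mul_smul, ← smul_add, mem_soM.1 hYs, smul_zero]
  have hu : IsUnit (1 - z).det := by
    apply isUnit_of_toZMod
    rw [RingHom.map_det]
    have h1 : (PadicInt.toZMod (p := p)).mapMatrix (1 - z) = 1 := by
      rw [map_sub, map_one, sub_eq_self]
      ext a b
      change PadicInt.toZMod ((p : ℤ_[p]) ^ (k - s) * W a b) = 0
      rw [map_mul, map_pow, toZMod_eq_zero.2 ⟨1, (mul_one _).symm⟩, zero_pow (by omega), zero_mul]
    rw [h1, Matrix.det_one]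
    exact one_ne_zero
  set u := (1 - z)⁻¹ with hudef
  have hu1 : (1 - z) * u = 1 := mul_nonsing_inv _ hu
  have hut : IsUnit ((1 - z)ᵀ).det := by rw [det_transpose]; exact hu
  set g := (1 + z) * u with hg
  have hiso : gᵀ * a * g = a := by
    have h1 : (1 + z)ᵀ * a * (1 + z) = (1 - z)ᵀ * a * (1 - z) := by
      have h2 : (1 + z)ᵀ * a * (1 + z) - (1 - z)ᵀ * a * (1 - z) =
          (2 : ℤ_[p]) • (zᵀ * a + a * z) := by
        rw [transpose_add, transpose_sub, transpose_one, two_smul]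
        simp only [add_mul, mul_add, sub_mul, mul_sub, one_mul, mul_one]
        abel
      rw [hskew, smul_zero] at h2
      exact sub_eq_zero.1 h2
    calc gᵀ * a * g = uᵀ * ((1 + z)ᵀ * a * (1 + z)) * u := by
          rw [hg, transpose_mul]; simp only [mul_assoc]
      _ = ((1 - z) * u)ᵀ * a * ((1 - z) * u) := by rw [h1, transpose_mul]; simp only [mul_assoc]
      _ = a := by rw [hu1, transpose_one, one_mul, mul_one]
  have hu2 : u = 1 + z * u := by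
    rw [sub_mul, one_mul] at hu1
    rw [← hu1]; abel
  have hg2 : g = 1 + (2 * z + 2 * (z * z * u)) := by
    have h1 : g = (1 - z) * u + 2 * (z * u) := by
      rw [hg]; noncomm_ring
    rw [h1, hu1]
    conv_lhs => rw [hu2]
    noncomm_ring
  set y := 2 * z + 2 * (z * z * u) with hy
  obtain ⟨V, hV⟩ := one_add_pow y q
  have hy2 : y = (p : ℤ_[p]) ^ (k - s) • (2 * W + 2 * (W * z * u)) := by
    rw [hy, hz]
    simp only [smul_add, mul_smul_comm, smul_mul_assoc]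
  refine ⟨g ^ q, hG g hiso, (p : ℤ_[p]) ^ (k - 2 * s - e) • ((q : Matrix (Fin m) (Fin m) ℤ_[p]) *
    (2 * (W * W * u)) + (2 * W + 2 * (W * z * u)) * (2 * W + 2 * (W * z * u)) * V), ?_⟩
  have h1 : g ^ q = 1 + ((2 * q : ℕ) : ℤ_[p]) • z + (p : ℤ_[p]) ^ (k + e) •
      ((p : ℤ_[p]) ^ (k - 2 * s - e) • ((q : Matrix (Fin m) (Fin m) ℤ_[p]) *
    (2 * (W * W * u)) + (2 * W + 2 * (W * z * u)) * (2 * W + 2 * (W * z * u)) * V)) := by
    rw [hg2, hV]
    have h2 : y * y * V = (p : ℤ_[p]) ^ (k + e) • ((p : ℤ_[p]) ^ (k - 2 * s - e) •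
        ((2 * W + 2 * (W * z * u)) * (2 * W + 2 * (W * z * u)) * V)) := by
      conv_lhs => rw [hy2]
      rw [smul_mul_smul_comm, smul_mul_assoc, smul_smul, ← pow_add, ← pow_add]
      congr 2
      omega
    have h3 : (q : Matrix (Fin m) (Fin m) ℤ_[p]) * y = ((2 * q : ℕ) : ℤ_[p]) • z +
        (p : ℤ_[p]) ^ (k + e) • ((p : ℤ_[p]) ^ (k - 2 * s - e) •
        ((q : Matrix (Fin m) (Fin m) ℤ_[p]) * (2 * (W * W * u)))) := by
      have h4 : z * z * u = (p : ℤ_[p]) ^ (k + e) • ((p : ℤ_[p]) ^ (k - 2 * s - e) •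
          (W * W * u)) := by
        rw [hz, smul_mul_smul_comm, smul_mul_assoc, smul_smul, ← pow_add, ← pow_add]
        congr 2
        omega
      rw [hy, h4, mul_add, Nat.cast_smul_eq_nsmul, nsmul_eq_mul]
      simp only [mul_smul_comm]
      congr 1
      push_cast
      rw [← mul_assoc]
      congr 1
      exact (Nat.cast_commute q _).eq
    rw [h2, h3, smul_add, smul_add]
    abel
  rw [h1, map_add, map_add, map_one, cm_psmul, cm_smul, hcz]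
  have h9 : (((2 * q : ℕ) : ℤ_[p]) : ℚ_[p]) • (p : ℚ_[p]) ^ k • Y' = (p : ℚ_[p]) ^ k • Y := by
    rw [smul_smul, hY', smul_smul]
    congr 1
    rw [PadicInt.coe_natCast, Nat.cast_mul, Nat.cast_ofNat, mul_right_comm,
      mul_inv_cancel₀ hq0, one_mul]
  rw [h9]

/-- **Irreducibility of the skew matrices over `ℚ_p`.** -/
theorem irr_padic {a : Matrix (Fin m) (Fin m) ℤ_[p]} (ha : a.IsSymm) (hd : a.det ≠ 0)
    (hm : m = 3 ∨ 5 ≤ m) {q : ℕ} (hq : 0 < q) {ρ ρ' : Γ → Matrix (Fin m) (Fin m) ℤ_[p]}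
    (hρ : ∀ γ, ρ γ * ρ' γ = 1) (hG : ∀ g, gᵀ * a * g = a → ∃ γ, ρ γ = g ^ q)
    {M : Submodule ℚ_[p] (Matrix (Fin m) (Fin m) ℚ_[p])} (hM : M ≤ soM (cm a))
    (hst : ∀ γ, ∀ X ∈ M, cm (ρ γ) * X * cm (ρ' γ) ∈ M) : M = ⊥ ∨ M = soM (cm a) := by
  have has : (cm a).IsSymm := by
    rw [Matrix.IsSymm, ← cm_transpose, ha.eq]
  have had : (cm a).det ≠ 0 := by
    have h1 : (cm a).det = ((a.det : ℤ_[p]) : ℚ_[p]) :=
      (RingHom.map_det (PadicInt.Coe.ringHom (p := p)) a).symm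
    rw [h1]
    exact fun h => hd (PadicInt.ext h)
  refine soM_irr has had two_ne_zero hm hM fun Y hY X hX => ?_
  refine mem_of_congr fun e => ?_
  obtain ⟨s1, hs1⟩ := exists_intM X
  obtain ⟨s2, hs2⟩ := exists_intM Y
  set s := s1 + s2 with hs
  obtain ⟨WX, hWX⟩ := hs1 s (by omega)
  obtain ⟨WY, hWY⟩ := hs2 s (by omega)
  obtain ⟨k1, h1⟩ := tan_of_pow hq (G := Set.range ρ) (fun g hg => hG g hg) hY (e + s)
  set k := k1 + e + 3 * s with hk
  obtain ⟨_, ⟨γ, rfl⟩, Z, hZ⟩ := h1 k (by omega)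
  set U := Y + (p : ℚ_[p]) ^ (e + s) • cm Z with hU
  have hg : cm (ρ γ) = 1 + (p : ℚ_[p]) ^ k • U := by
    rw [hZ, hU, smul_add, smul_smul, ← pow_add, add_assoc]
  have hgg : cm (ρ γ) * cm (ρ' γ) = 1 := by rw [← map_mul, hρ, map_one]
  have hWU : (p : ℚ_[p]) ^ s • U = cm (WY + (p : ℤ_[p]) ^ (s + (e + s)) • Z) := by
    rw [hU, smul_add, hWY, smul_smul, ← pow_add, map_add, cm_psmul]
  set WU := WY + (p : ℤ_[p]) ^ (s + (e + s)) • Z
  have h2 : cm (ρ γ) * X * cm (ρ' γ) - X = (p : ℚ_[p]) ^ k • ((U * X - X * U) * cm (ρ' γ)) := by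
    calc cm (ρ γ) * X * cm (ρ' γ) - X = cm (ρ γ) * X * cm (ρ' γ) -
          X * (cm (ρ γ) * cm (ρ' γ)) := by rw [hgg, mul_one]
      _ = (cm (ρ γ) * X - X * cm (ρ γ)) * cm (ρ' γ) := by rw [sub_mul]; simp only [mul_assoc]
      _ = _ := by
        rw [hg, ← smul_mul_assoc]
        congr 1
        simp only [add_mul, mul_add, one_mul, mul_one, smul_mul_assoc, mul_smul_comm, smul_sub]
        abel
  have h3 : (U * X - X * U) * cm (ρ' γ) ∈ M := by
    have h4 := M.sub_mem (hst γ X hX) hX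
    rw [h2] at h4
    have h5 := M.smul_mem ((p : ℚ_[p]) ^ k)⁻¹ h4
    rwa [smul_smul, inv_mul_cancel₀ (pow_ne_zero _ P_ne), one_smul] at h5
  have h4 : cm (ρ' γ) = 1 - (p : ℚ_[p]) ^ k • (U * cm (ρ' γ)) := by
    rw [hg, add_mul, one_mul, smul_mul_assoc] at hgg
    rw [← hgg]; abel
  have h5 : (U * X - X * U) * cm (ρ' γ) = (Y * X - X * Y) +
      (p : ℚ_[p]) ^ (e + s) • (cm Z * X - X * cm Z) -
      (p : ℚ_[p]) ^ k • ((U * X - X * U) * (U * cm (ρ' γ))) := by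
    conv_lhs => rw [h4]
    rw [mul_sub, mul_one, mul_smul_comm]
    congr 1
    rw [hU]
    simp only [add_mul, mul_add, smul_mul_assoc, mul_smul_comm, smul_sub]
    abel
  have h6 : (p : ℚ_[p]) ^ (e + s) • (cm Z * X - X * cm Z) =
      (p : ℚ_[p]) ^ e • cm (Z * WX - WX * Z) := by
    rw [map_sub, map_mul, map_mul, ← hWX, pow_add, mul_smul]
    simp only [mul_smul_comm, smul_mul_assoc, smul_sub]
  have h7 : (p : ℚ_[p]) ^ k • ((U * X - X * U) * (U * cm (ρ' γ))) =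
      (p : ℚ_[p]) ^ e • cm ((p : ℤ_[p]) ^ k1 • ((WU * WX - WX * WU) * (WU * ρ' γ))) := by
    rw [cm_psmul, map_mul, map_sub, map_mul, map_mul, map_mul, ← hWX, ← hWU]
    simp only [mul_smul_comm, smul_mul_assoc, smul_sub, sub_mul, smul_smul]
    congr 2 <;> · rw [hk]; ring
  refine ⟨Z * WX - WX * Z - (p : ℤ_[p]) ^ k1 • ((WU * WX - WX * WU) * (WU * ρ' γ)), ?_⟩
  rw [h5, h6, h7] at h3
  rw [map_sub, smul_sub]
  convert h3 using 1
  abel

end cayley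

end Pool.Agent.Y127.I
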