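import Mathlib

/-!
# The Lie algebra of an orthogonal group over a field of characteristic different from two
-/

set_option linter.unusedSectionVars false

namespace Pool.Agent.Y127.I

open Module

variable {F : Type} [Field F] {V : Type} [AddCommGroup V] [Module F V]

/-- The operator `z ↦ B(y,z) x - B(x,z) y`. -/
def wl (B : V →ₗ[F] V →ₗ[F] F) : V →ₗ[F] V →ₗ[F] End F V :=
  LinearMap.mk₂ F (fun x y => (B y).smulRight x - (B x).smulRight y)
    (by intro a b c; ext z; simp; module)
    (by intro a b c; ext z; simp; module)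
    (by intro a b c; ext z; simp; module)
    (by intro a b c; ext z; simp; module)

variable {B : V →ₗ[F] V →ₗ[F] F}

theorem wl_apply (x y z : V) : wl B x y z = B y z • x - B x z • y := rfl

theorem wl_self (x : V) : wl B x x = 0 := by
  ext z
  rw [wl_apply, sub_self]
  rfl

theorem wl_swap (x y : V) : wl B y x = - wl B x y := by
  ext z
  rw [LinearMap.neg_apply, wl_apply, wl_apply]
  abel

/-- Skew operators. -/
def so (B : V →ₗ[F] V →ₗ[F] F) : Submodule F (End F V) where
  carrier := {X | ∀ x y, B (X x) y + B x (X y) = 0}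
  zero_mem' := by intro x y; simp
  add_mem' := by
    intro X Y hX hY x y
    rw [LinearMap.add_apply, LinearMap.add_apply, map_add, map_add, LinearMap.add_apply]
    linear_combination hX x y + hY x y
  smul_mem' := by
    intro c X hX x y
    rw [LinearMap.smul_apply, LinearMap.smul_apply, map_smul, map_smul, LinearMap.smul_apply,
      smul_eq_mul, smul_eq_mul]
    linear_combination c * hX x y

theorem mem_so {X : End F V} : X ∈ so B ↔ ∀ x y, B (X x) y + B x (X y) = 0 := Iff.rfl

theorem wl_mem (hsy : ∀ x y, B x y = B y x) (x y : V) : wl B x y ∈ so B := by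
  intro a b
  rw [wl_apply, wl_apply, map_sub, map_sub, map_smul, map_smul, map_smul, map_smul,
    LinearMap.sub_apply, LinearMap.smul_apply, LinearMap.smul_apply, smul_eq_mul, smul_eq_mul,
    smul_eq_mul, smul_eq_mul, hsy a x, hsy a y]
  ring

/-- The bracket. -/
def bk (A X : End F V) : End F V := A * X - X * A

theorem bk_add (A X Y : End F V) : bk A (X + Y) = bk A X + bk A Y := by
  unfold bk; rw [mul_add, add_mul]; abel

theorem bk_sub (A X Y : End F V) : bk A (X - Y) = bk A X - bk A Y := by
  unfold bk; rw [mul_sub, sub_mul]; abel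

theorem bk_smul (A : End F V) (c : F) (X : End F V) : bk A (c • X) = c • bk A X := by
  unfold bk; rw [mul_smul_comm, smul_mul_assoc, smul_sub]

theorem bk_add_left (A A' X : End F V) : bk (A + A') X = bk A X + bk A' X := by
  unfold bk; rw [mul_add, add_mul]; abel

theorem bk_smul_left (c : F) (A X : End F V) : bk (c • A) X = c • bk A X := by
  unfold bk; rw [mul_smul_comm, smul_mul_assoc, smul_sub]

theorem bk_zero_left (X : End F V) : bk (0 : End F V) X = 0 := by
  unfold bk; rw [zero_mul, mul_zero, sub_zero]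

theorem bk_mem {A X : End F V} (hA : A ∈ so B) (hX : X ∈ so B) : bk A X ∈ so B := by
  intro x y
  unfold bk
  simp only [LinearMap.sub_apply, Module.End.mul_apply, map_sub]
  have h1 := hA (X x) y
  have h2 := hX x (A y)
  have h3 := hX (A x) y
  have h4 := hA x (X y)
  linear_combination h1 - h2 - h3 + h4

theorem bk_wl {A : End F V} (hA : A ∈ so B) (x y : V) :
    bk A (wl B x y) = wl B (A x) y + wl B x (A y) := by
  ext z
  unfold bk
  simp only [LinearMap.sub_apply, Module.End.mul_apply, LinearMap.add_apply, wl_apply, map_sub,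
    map_smul]
  have h1 : B y (A z) = - B (A y) z := by linear_combination hA y z
  have h2 : B x (A z) = - B (A x) z := by linear_combination hA x z
  rw [h1, h2]
  module

/-- Conjugation of the elementary operators by an isometry. -/
theorem conj_wl {g g' : End F V} (hg : ∀ x y, B (g x) (g y) = B x y) (hgg : g * g' = 1) (x y : V) :
    g * wl B x y * g' = wl B (g x) (g y) := by
  ext z
  simp only [Module.End.mul_apply, wl_apply, map_sub, map_smul]
  have h0 : g (g' z) = z := by
    have := congrArg (fun f : End F V => f z) hgg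
    simpa using this
  have h1 : B y (g' z) = B (g y) z := by rw [← hg, h0]
  have h2 : B x (g' z) = B (g x) z := by rw [← hg, h0]
  rw [h1, h2]

theorem conj_mem {g g' X : End F V} (hg : ∀ x y, B (g x) (g y) = B x y) (hgg : g * g' = 1)
    (hX : X ∈ so B) : g * X * g' ∈ so B := by
  intro x y
  have h0 : ∀ z, g (g' z) = z := by
    intro z
    have := congrArg (fun f : End F V => f z) hgg
    simpa using this
  simp only [Module.End.mul_apply]
  have h1 : B (g (X (g' x))) y = B (X (g' x)) (g' y) := by
    conv_lhs => rw [← h0 y]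
    rw [hg]
  have h2 : B x (g (X (g' y))) = B (g' x) (X (g' y)) := by
    conv_lhs => rw [← h0 x]
    rw [hg]
  rw [h1, h2]
  exact hX _ _

section basis

variable {ι : Type} [Fintype ι] [DecidableEq ι] (v : Basis ι F V)
  (hv : ∀ i j, i ≠ j → B (v i) (v j) = 0) (hb : ∀ i, B (v i) (v i) ≠ 0)
include hv hb

theorem ext_c {X Y : End F V} (h : ∀ k l, B (v k) (X (v l)) = B (v k) (Y (v l))) : X = Y := by
  refine v.ext fun l => ?_
  have key : ∀ w : V, (∀ k, B (v k) w = 0) → w = 0 := by
    intro w hw
    have h1 : ∀ k, v.repr w k = 0 := by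
      intro k
      have h2 := hw k
      rw [← v.sum_repr w, map_sum, Finset.sum_eq_single k] at h2
      · rw [map_smul, smul_eq_mul] at h2
        exact (mul_eq_zero.1 h2).resolve_right (hb k)
      · intro j _ hj
        rw [map_smul, hv k j hj.symm, smul_zero]
      · intro hk
        exact absurd (Finset.mem_univ k) hk
    rw [← v.sum_repr w]
    exact Finset.sum_eq_zero fun k _ => by rw [h1 k, zero_smul]
  have h3 := key (X (v l) - Y (v l)) fun k => by rw [map_sub, h k l, sub_self]
  exact sub_eq_zero.1 h3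

theorem c_wl (hsy : ∀ x y, B x y = B y x) (i j k l : ι) :
    B (v k) (wl B (v i) (v j) (v l)) =
      (if j = l ∧ k = i then B (v i) (v i) * B (v j) (v j) else 0) -
        (if i = l ∧ k = j then B (v i) (v i) * B (v j) (v j) else 0) := by
  rw [wl_apply, map_sub, map_smul, map_smul, smul_eq_mul, smul_eq_mul]
  congr 1
  · by_cases h1 : j = l
    · by_cases h2 : k = i
      · subst h1; subst h2; rw [if_pos ⟨rfl, rfl⟩, mul_comm]
      · rw [if_neg (fun h => h2 h.2), hv k i h2, mul_zero]
    · rw [if_neg (fun h => h1 h.1), hv j l h1, zero_mul]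
  · by_cases h1 : i = l
    · by_cases h2 : k = j
      · subst h1; subst h2; rw [if_pos ⟨rfl, rfl⟩]
      · rw [if_neg (fun h => h2 h.2), hv k j h2, mul_zero]
    · rw [if_neg (fun h => h1 h.1), hv i l h1, zero_mul]

/-- Expansion of a skew operator. -/
theorem two_smul_eq (hsy : ∀ x y, B x y = B y x) {X : End F V} (hX : X ∈ so B) :
    (2 : F) • X = ∑ i, ∑ j, (B (v i) (X (v j)) * (B (v i) (v i))⁻¹ * (B (v j) (v j))⁻¹) •
      wl B (v i) (v j) := by
  apply ext_c v hv hb
  intro k l
  have e1 : (∑ i, ∑ j, (B (v i) (X (v j)) * (B (v i) (v i))⁻¹ * (B (v j) (v j))⁻¹) •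
      wl B (v i) (v j)) (v l) = ∑ i, ∑ j, (B (v i) (X (v j)) * (B (v i) (v i))⁻¹ *
        (B (v j) (v j))⁻¹) • wl B (v i) (v j) (v l) := by
    rw [LinearMap.sum_apply]
    refine Finset.sum_congr rfl fun i _ => ?_
    rw [LinearMap.sum_apply]
    rfl
  rw [e1, map_sum]
  have e2 : ∀ i, B (v k) (∑ j, (B (v i) (X (v j)) * (B (v i) (v i))⁻¹ *
        (B (v j) (v j))⁻¹) • wl B (v i) (v j) (v l)) =
        (if k = i then B (v i) (X (v l)) else 0) -
        (if i = l then B (v i) (X (v k)) else 0) := by
    intro i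
    rw [map_sum]
    have e3 : ∀ j, B (v k) ((B (v i) (X (v j)) * (B (v i) (v i))⁻¹ *
        (B (v j) (v j))⁻¹) • wl B (v i) (v j) (v l)) =
        (if j = l then (if k = i then B (v i) (X (v j)) else 0) else 0) -
        (if k = j then (if i = l then B (v i) (X (v j)) else 0) else 0) := by
      intro j
      rw [map_smul, c_wl v hv hb hsy, smul_eq_mul, mul_sub]
      have h1 : B (v i) (X (v j)) * (B (v i) (v i))⁻¹ * (B (v j) (v j))⁻¹ *
          (B (v i) (v i) * B (v j) (v j)) = B (v i) (X (v j)) := by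
        field_simp [hb i, hb j]
      congr 1
      · by_cases h2 : j = l
        · by_cases h3 : k = i
          · rw [if_pos ⟨h2, h3⟩, if_pos h2, if_pos h3, h1]
          · rw [if_neg (fun h => h3 h.2), if_pos h2, if_neg h3, mul_zero]
        · rw [if_neg (fun h => h2 h.1), if_neg h2, mul_zero]
      · by_cases h2 : k = j
        · by_cases h3 : i = l
          · rw [if_pos ⟨h3, h2⟩, if_pos h2, if_pos h3, h1]
          · rw [if_neg (fun h => h3 h.1), if_pos h2, if_neg h3, mul_zero]
        · rw [if_neg (fun h => h2 h.2), if_neg h2, mul_zero]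
    rw [Finset.sum_congr rfl fun j _ => e3 j, Finset.sum_sub_distrib, Finset.sum_ite_eq',
      Finset.sum_ite_eq, if_pos (Finset.mem_univ _), if_pos (Finset.mem_univ _)]
  rw [Finset.sum_congr rfl fun i _ => e2 i, Finset.sum_sub_distrib, Finset.sum_ite_eq,
    Finset.sum_ite_eq', if_pos (Finset.mem_univ _), if_pos (Finset.mem_univ _),
    LinearMap.smul_apply, map_smul, smul_eq_mul]
  have h4 : B (v l) (X (v k)) = - B (v k) (X (v l)) := by
    have := hX (v k) (v l)
    rw [hsy (X (v k)) (v l)] at this
    linear_combination this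
  rw [h4]
  ring

theorem so_le_of_wl (hsy : ∀ x y, B x y = B y x) (h2 : (2 : F) ≠ 0) {M : Submodule F (End F V)}
    (hM : ∀ i j, i ≠ j → wl B (v i) (v j) ∈ M) : so B ≤ M := by
  intro X hX
  have h1 : (2 : F) • X ∈ M := by
    rw [two_smul_eq v hv hb hsy hX]
    refine M.sum_mem fun i _ => M.sum_mem fun j _ => M.smul_mem _ ?_
    by_cases hij : i = j
    · subst hij
      rw [wl_self]
      exact M.zero_mem
    · exact hM i j hij
  have h3 := M.smul_mem (2 : F)⁻¹ h1
  rwa [smul_smul, inv_mul_cancel₀ h2, one_smul] at h3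

/-- One of `k`, `l` is in `{i, j}` but not the other. -/
def Odd' (i j k l : ι) : Prop := ((k = i ∨ k = j) ∧ ¬ (l = i ∨ l = j)) ∨
  (¬ (k = i ∨ k = j) ∧ (l = i ∨ l = j))

theorem c_bk (hsy : ∀ x y, B x y = B y x) {i j : ι} (Z : End F V) (k l : ι) :
    B (v k) (bk (wl B (v i) (v j)) Z (v l)) =
      - (if j = k then B (v j) (v j) * B (v i) (Z (v l)) else 0) +
        (if i = k then B (v i) (v i) * B (v j) (Z (v l)) else 0) -
        (if j = l then B (v j) (v j) * B (v k) (Z (v i)) else 0) +
        (if i = l then B (v i) (v i) * B (v k) (Z (v j)) else 0) := by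
  unfold bk
  rw [LinearMap.sub_apply, Module.End.mul_apply, Module.End.mul_apply, map_sub]
  have h1 : B (v k) (wl B (v i) (v j) (Z (v l))) = - B (wl B (v i) (v j) (v k)) (Z (v l)) := by
    linear_combination wl_mem hsy (v i) (v j) (v k) (Z (v l))
  have h2 : ∀ a, wl B (v i) (v j) (v a) = (if j = a then B (v j) (v j) • v i else 0) -
      (if i = a then B (v i) (v i) • v j else 0) := by
    intro a
    rw [wl_apply]
    congr 1
    · by_cases h : j = a
      · subst h; rw [if_pos rfl]
      · rw [if_neg h, hv j a h, zero_smul]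
    · by_cases h : i = a
      · subst h; rw [if_pos rfl]
      · rw [if_neg h, hv i a h, zero_smul]
  rw [h1, h2 k, h2 l]
  have e1 : B ((if j = k then B (v j) (v j) • v i else 0) -
      (if i = k then B (v i) (v i) • v j else 0)) (Z (v l)) =
      (if j = k then B (v j) (v j) * B (v i) (Z (v l)) else 0) -
      (if i = k then B (v i) (v i) * B (v j) (Z (v l)) else 0) := by
    rw [map_sub, LinearMap.sub_apply]
    congr 1 <;> split_ifs <;> simp
  have e2 : B (v k) (Z ((if j = l then B (v j) (v j) • v i else 0) -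
      (if i = l then B (v i) (v i) • v j else 0))) =
      (if j = l then B (v j) (v j) * B (v k) (Z (v i)) else 0) -
      (if i = l then B (v i) (v i) * B (v k) (Z (v j)) else 0) := by
    rw [map_sub, map_sub]
    congr 1 <;> split_ifs <;> simp
  rw [e1, e2]
  ring

theorem c_bk2 (hsy : ∀ x y, B x y = B y x) (h2 : (2 : F) ≠ 0) {X : End F V} (hX : X ∈ so B)
    {i j k l : ι} (hij : i ≠ j) (hkl : k ≠ l) :
    B (v k) (bk (wl B (v i) (v j)) (bk (wl B (v i) (v j)) X) (v l)) =
      - (B (v i) (v i) * B (v j) (v j)) * (open Classical in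
        if Odd' i j k l then B (v k) (X (v l)) else 0) := by
  have hd : ∀ a, B (v a) (X (v a)) = 0 := by
    intro a
    have h3 := hX (v a) (v a)
    rw [hsy (X (v a)) (v a), ← two_mul] at h3
    exact (mul_eq_zero.1 h3).resolve_left h2
  have hs : ∀ a b, B (v a) (X (v b)) = - B (v b) (X (v a)) := by
    intro a b
    have h3 := hX (v a) (v b)
    rw [hsy (X (v a)) (v b)] at h3
    linear_combination h3
  rw [c_bk v hv hb hsy, c_bk v hv hb hsy, c_bk v hv hb hsy, c_bk v hv hb hsy, c_bk v hv hb hsy]
  unfold Odd'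
  by_cases a1 : i = k
  · subst a1
    have b1 : ¬ j = i := fun h => hij h.symm
    by_cases a2 : j = l
    · subst a2
      simp [hij, b1, hd, hs j i] <;> try ring
    · have b2 : ¬ i = l := hkl
      have b3 : ¬ l = i := fun h => hkl h.symm
      have b4 : ¬ l = j := fun h => a2 h.symm
      simp [hij, b1, a2, b2, b3, b4]
      ring
  · have c1 : ¬ k = i := fun h => a1 h.symm
    by_cases a2 : j = k
    · subst a2
      by_cases a3 : i = l
      · subst a3
        simp [hij, c1, a1, hd, hs i j] <;> try ring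
      · have b3 : ¬ l = i := fun h => a3 h.symm
        have b4 : ¬ l = j := fun h => hkl h.symm
        have b5 : ¬ j = l := hkl
        simp [hij, a1, a3, b3, b4, c1, b5]
        ring
    · have c2 : ¬ k = j := fun h => a2 h.symm
      by_cases a3 : i = l
      · subst a3
        have b1 : ¬ j = i := fun h => hij h.symm
        simp [hij, a1, a2, c1, c2, b1]
        ring
      · have c3 : ¬ l = i := fun h => a3 h.symm
        by_cases a4 : j = l
        · subst a4
          simp [hij, a1, a2, a3, c1, c2, c3]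
          ring
        · have c4 : ¬ l = j := fun h => a4 h.symm
          simp [hij, a1, a2, a3, a4, c1, c2, c3, c4]

variable {M : Submodule F (End F V)} (hMso : M ≤ so B)
  (hM : ∀ Y ∈ so B, ∀ X ∈ M, bk Y X ∈ M)
include hMso hM

theorem exists_iso (hsy : ∀ x y, B x y = B y x) (h2 : (2 : F) ≠ 0) {X : End F V} (hX : X ∈ M)
    (a b : ι) (S : Finset (ι × ι)) (hS : ∀ p ∈ S, p.1 ≠ p.2) :
    ∃ Y ∈ M, ∀ k l, k ≠ l → B (v k) (Y (v l)) = (open Classical in
      if (∀ p ∈ S, Odd' p.1 p.2 k l ↔ Odd' p.1 p.2 a b) then B (v k) (X (v l)) else 0) := by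
  classical
  induction S using Finset.induction_on with
  | empty => exact ⟨X, hX, fun k l _ => by simp⟩
  | insert p S hp ih =>
    obtain ⟨Y, hY, h⟩ := ih fun q hq => hS q (Finset.mem_insert_of_mem hq)
    have hpp := hS p (Finset.mem_insert_self _ _)
    set E := wl B (v p.1) (v p.2) with hE
    set Z := (-(B (v p.1) (v p.1) * B (v p.2) (v p.2)))⁻¹ • bk E (bk E Y) with hZ
    have hEs : E ∈ so B := wl_mem hsy _ _
    have hZM : Z ∈ M := M.smul_mem _ (hM _ hEs _ (hM _ hEs _ hY))
    have hne : -(B (v p.1) (v p.1) * B (v p.2) (v p.2)) ≠ 0 :=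
      neg_ne_zero.2 (mul_ne_zero (hb _) (hb _))
    have hcZ : ∀ k l, k ≠ l → B (v k) (Z (v l)) =
        if Odd' p.1 p.2 k l then B (v k) (Y (v l)) else 0 := by
      intro k l hkl
      rw [hZ, LinearMap.smul_apply, map_smul, c_bk2 v hv hb hsy h2 (hMso hY) hpp hkl, smul_eq_mul,
        ← mul_assoc, inv_mul_cancel₀ hne, one_mul]
    by_cases hab : Odd' p.1 p.2 a b
    · refine ⟨Z, hZM, fun k l hkl => ?_⟩
      rw [hcZ k l hkl]
      by_cases hk : Odd' p.1 p.2 k l
      · rw [if_pos hk, h k l hkl]
        congr 1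
        rw [Finset.forall_mem_insert]
        simp only [hk, hab, true_and]
      · rw [if_neg hk, if_neg]
        intro hcon
        exact hk ((hcon p (Finset.mem_insert_self _ _)).2 hab)
    · refine ⟨Y - Z, M.sub_mem hY hZM, fun k l hkl => ?_⟩
      rw [LinearMap.sub_apply, map_sub, hcZ k l hkl]
      by_cases hk : Odd' p.1 p.2 k l
      · rw [if_pos hk, sub_self, if_neg]
        intro hcon
        exact hab ((hcon p (Finset.mem_insert_self _ _)).1 hk)
      · rw [if_neg hk, sub_zero, h k l hkl]
        congr 1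
        rw [Finset.forall_mem_insert]
        simp only [hk, hab, true_and]

omit hv hb hMso hM [Fintype ι] in
theorem odd_self_left {a l m : ι} (h1 : a ≠ m) (h2 : l ≠ a) (h3 : l ≠ m) : Odd' a m a l :=
  Or.inl ⟨Or.inl rfl, fun h => h.elim h2 h3⟩

/-- **The orthogonal Lie algebra is simple in ranks 3 and at least 5.** -/
theorem simple_so (hsy : ∀ x y, B x y = B y x) (h2 : (2 : F) ≠ 0)
    (hn : Fintype.card ι = 3 ∨ 5 ≤ Fintype.card ι) (hM0 : M ≠ ⊥) : so B ≤ M := by
  classical
  obtain ⟨X, hX, hX0⟩ := M.ne_bot_iff.1 hM0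
  have hd : ∀ Y ∈ M, ∀ a, B (v a) (Y (v a)) = 0 := by
    intro Y hY a
    have h3 := hMso hY (v a) (v a)
    rw [hsy (Y (v a)) (v a), ← two_mul] at h3
    exact (mul_eq_zero.1 h3).resolve_left h2
  have hs : ∀ Y ∈ M, ∀ a b, B (v a) (Y (v b)) = - B (v b) (Y (v a)) := by
    intro Y hY a b
    have h3 := hMso hY (v a) (v b)
    rw [hsy (Y (v a)) (v b)] at h3
    linear_combination h3
  obtain ⟨a, b, hab⟩ : ∃ a b, B (v a) (X (v b)) ≠ 0 := by
    by_contra hcon
    push Not at hcon
    apply hX0
    apply ext_c v hv hb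
    intro k l
    rw [hcon k l, LinearMap.zero_apply, map_zero]
  have hne : a ≠ b := by
    rintro rfl
    exact hab (hd X hX a)
  obtain ⟨Y, hY, h⟩ := exists_iso v hv hb hMso hM hsy h2 hX a b
    ((Finset.univ : Finset (ι × ι)).filter fun p => p.1 ≠ p.2)
    (fun p hp => (Finset.mem_filter.1 hp).2)
  have hsep : ∀ k l, k ≠ l → (k ≠ a ∨ l ≠ b) → (k ≠ b ∨ l ≠ a) →
      ∃ i j, i ≠ j ∧ ¬ (Odd' i j k l ↔ Odd' i j a b) := by
    intro k l hkl h3 h4
    unfold Odd'
    by_cases ka : k = a
    · subst ka
      have lb : l ≠ b := h3.resolve_left (by simp)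
      refine ⟨k, l, hkl, ?_⟩
      have e1 : ¬ b = k := fun h => hne h.symm
      have e2 : ¬ b = l := fun h => lb h.symm
      simp [e1, e2]
    by_cases kb : k = b
    · subst kb
      have la : l ≠ a := h4.resolve_left (by simp)
      refine ⟨k, l, hkl, ?_⟩
      have e1 : ¬ a = l := fun h => la h.symm
      simp [e1, hne]
    by_cases la : l = a
    · subst la
      refine ⟨l, k, hkl.symm, ?_⟩
      have e1 : ¬ b = k := fun h => kb h.symm
      have e2 : ¬ b = l := fun h => hne h.symm
      simp [e1, e2]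
    by_cases lb : l = b
    · subst lb
      refine ⟨l, k, hkl.symm, ?_⟩
      have e1 : ¬ a = k := fun h => ka h.symm
      simp [e1, hne]
    · have h5 : 5 ≤ Fintype.card ι := by
        refine hn.resolve_left fun h3 => ?_
        have h4 : ({a, b, k, l} : Finset ι).card ≤ 3 := h3 ▸ Finset.card_le_univ _
        rw [Finset.card_insert_of_notMem, Finset.card_insert_of_notMem,
          Finset.card_insert_of_notMem, Finset.card_singleton] at h4
        · omega
        · simpa using hkl
        · simp only [Finset.mem_insert, Finset.mem_singleton, not_or]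
          exact ⟨fun h => kb h.symm, fun h => lb h.symm⟩
        · simp only [Finset.mem_insert, Finset.mem_singleton, not_or]
          exact ⟨hne, fun h => ka h.symm, fun h => la h.symm⟩
      obtain ⟨m, hm⟩ : ∃ m, m ∉ ({a, b, k, l} : Finset ι) := by
        by_contra hcon
        push Not at hcon
        have h6 : (Finset.univ : Finset ι) ⊆ {a, b, k, l} := fun x _ => hcon x
        have h7 := Finset.card_le_card h6
        have h8 : ({a, b, k, l} : Finset ι).card ≤ 4 := Finset.card_le_four
        rw [Finset.card_univ] at h7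
        omega
      simp only [Finset.mem_insert, Finset.mem_singleton, not_or] at hm
      refine ⟨a, m, fun h => hm.1 h.symm, ?_⟩
      have e1 : ¬ b = a := fun h => hne h.symm
      have e2 : ¬ b = m := fun h => hm.2.1 h.symm
      have e3 : ¬ k = m := fun h => hm.2.2.1 h.symm
      have e4 : ¬ l = m := fun h => hm.2.2.2 h.symm
      simp [e1, e2, e3, e4, ka, la]
  have hYc : ∀ k l, B (v k) (Y (v l)) =
      B (v k) (((B (v a) (X (v b)) * (B (v a) (v a))⁻¹ * (B (v b) (v b))⁻¹) •
        wl B (v a) (v b)) (v l)) := by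
    intro k l
    rw [LinearMap.smul_apply, map_smul, c_wl v hv hb hsy, smul_eq_mul, mul_sub]
    have h1 : B (v a) (X (v b)) * (B (v a) (v a))⁻¹ * (B (v b) (v b))⁻¹ *
        (B (v a) (v a) * B (v b) (v b)) = B (v a) (X (v b)) := by
      field_simp [hb a, hb b]
    by_cases hkl : k = l
    · subst hkl
      rw [hd Y hY k, if_neg (fun h3 => hne (h3.2.symm.trans h3.1.symm)),
        if_neg (fun h3 => hne (h3.1.trans h3.2)), mul_zero, sub_zero]
    · rw [h k l hkl]
      by_cases h3 : k = a ∧ l = b
      · obtain ⟨rfl, rfl⟩ := h3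
        rw [if_pos (fun p _ => Iff.rfl), if_pos ⟨rfl, rfl⟩, if_neg (fun h4 => hne h4.1), h1,
          mul_zero, sub_zero]
      · by_cases h4 : k = b ∧ l = a
        · obtain ⟨rfl, rfl⟩ := h4
          rw [if_pos, if_neg (fun h5 => hne h5.1.symm), if_pos ⟨rfl, rfl⟩, h1, mul_zero, zero_sub]
          · exact hs X hX _ _
          · intro p _
            unfold Odd'
            tauto
        · rw [if_neg, if_neg (fun h5 => h3 ⟨h5.2, h5.1.symm⟩), if_neg (fun h5 => h4 ⟨h5.2, h5.1.symm⟩),
            mul_zero, sub_zero]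
          intro hcon
          obtain ⟨i, j, hij, h5⟩ := hsep k l hkl (by tauto) (by tauto)
          exact h5 (hcon (i, j) (Finset.mem_filter.2 ⟨Finset.mem_univ _, hij⟩))
  have hE : wl B (v a) (v b) ∈ M := by
    have h1 := ext_c v hv hb hYc
    rw [h1] at hY
    have h3 : B (v a) (X (v b)) * (B (v a) (v a))⁻¹ * (B (v b) (v b))⁻¹ ≠ 0 :=
      mul_ne_zero (mul_ne_zero hab (inv_ne_zero (hb a))) (inv_ne_zero (hb b))
    have h4 := M.smul_mem (B (v a) (X (v b)) * (B (v a) (v a))⁻¹ * (B (v b) (v b))⁻¹)⁻¹ hY
    rwa [smul_smul, inv_mul_cancel₀ h3, one_smul] at h4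
  have step : ∀ i j k, i ≠ j → k ≠ j → wl B (v i) (v j) ∈ M → wl B (v k) (v j) ∈ M := by
    intro i j k hij hkj h
    by_cases hki : k = i
    · rw [hki]; exact h
    have h1 : bk (wl B (v k) (v i)) (wl B (v i) (v j)) = B (v i) (v i) • wl B (v k) (v j) := by
      rw [bk_wl (wl_mem hsy _ _), wl_apply, wl_apply, hv k i hki, hv i j hij, hv k j hkj]
      simp only [zero_smul, sub_zero, map_zero, add_zero, map_smul, LinearMap.smul_apply]
    have h3 := hM _ (wl_mem hsy (v k) (v i)) _ h
    rw [h1] at h3
    have h4 := M.smul_mem (B (v i) (v i))⁻¹ h3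
    rwa [smul_smul, inv_mul_cancel₀ (hb i), one_smul] at h4
  have swap : ∀ i j, wl B (v i) (v j) ∈ M → wl B (v j) (v i) ∈ M := by
    intro i j h
    rw [wl_swap]
    exact M.neg_mem h
  refine so_le_of_wl v hv hb hsy h2 fun i j hij => ?_
  by_cases hjb : j = b
  · subst hjb
    exact step a j i hne hij hE
  · by_cases hja : j = a
    · subst hja
      exact step b j i hne.symm hij (swap _ _ hE)
    · exact step a j i (fun h => hja h.symm) hij (swap _ _ (step b a j hne.symm hja (swap _ _ hE)))

end basis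

end Pool.Agent.Y127.I
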