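import Pool.Agent.Y127.I.Mat

/-!
# The trace of the adjoint action and the module form of Goursat's lemma
-/

set_option linter.unusedSectionVars false

namespace Pool.Agent.Y127.I

open Module Matrix

variable {F : Type} [Field F] {n : ℕ}

theorem inv_form {A g g' : Matrix (Fin n) (Fin n) F} (hg : gᵀ * A * g = A) (hgg : g * g' = 1) :
    gᵀ * A = A * g' := by
  calc gᵀ * A = gᵀ * A * (g * g') := by rw [hgg, mul_one]
    _ = gᵀ * A * g * g' := by rw [mul_assoc, mul_assoc, mul_assoc]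
    _ = A * g' := by rw [hg]

theorem inv_form' {A g g' : Matrix (Fin n) (Fin n) F} (hA : A.IsSymm) (hg : gᵀ * A * g = A)
    (hgg : g * g' = 1) : g'ᵀ * A = A * g := by
  have h1 := congrArg Matrix.transpose (inv_form hg hgg)
  rw [transpose_mul, transpose_mul, transpose_transpose, hA.eq] at h1
  exact h1.symm

theorem conj_mem_soM {A g g' X : Matrix (Fin n) (Fin n) F} (hA : A.IsSymm) (hg : gᵀ * A * g = A)
    (hgg : g * g' = 1) (hX : X ∈ soM A) : g * X * g' ∈ soM A := by
  rw [mem_soM] at hX ⊢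
  have h1 := inv_form hg hgg
  have h2 := inv_form' hA hg hgg
  have h3 : (g * X * g')ᵀ * A + A * (g * X * g') = g'ᵀ * (Xᵀ * A + A * X) * g' := by
    rw [transpose_mul, transpose_mul, mul_add, add_mul]
    congr 1
    · calc g'ᵀ * (Xᵀ * gᵀ) * A = g'ᵀ * (Xᵀ * (gᵀ * A)) := by simp only [mul_assoc]
        _ = g'ᵀ * (Xᵀ * A) * g' := by rw [h1]; simp only [mul_assoc]
    · calc A * (g * X * g') = A * g * X * g' := by simp only [mul_assoc]
        _ = g'ᵀ * (A * X) * g' := by rw [← h2]; simp only [mul_assoc]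
  rw [h3, hX, mul_zero, zero_mul]

/-- Conjugation. -/
def cjL (g g' : Matrix (Fin n) (Fin n) F) :
    Matrix (Fin n) (Fin n) F →ₗ[F] Matrix (Fin n) (Fin n) F :=
  LinearMap.mulLeft F g ∘ₗ LinearMap.mulRight F g'

theorem cjL_apply (g g' X : Matrix (Fin n) (Fin n) F) : cjL g g' X = g * X * g' := by
  unfold cjL
  rw [LinearMap.comp_apply, LinearMap.mulRight_apply, LinearMap.mulLeft_apply, mul_assoc]

/-- Conjugation on the skew matrices. -/
def cjS {A g g' : Matrix (Fin n) (Fin n) F} (hA : A.IsSymm) (hg : gᵀ * A * g = A)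
    (hgg : g * g' = 1) : soM A →ₗ[F] soM A :=
  (cjL g g').restrict fun X hX => by
    rw [cjL_apply]
    exact conj_mem_soM hA hg hgg hX

theorem cjS_apply {A g g' : Matrix (Fin n) (Fin n) F} (hA : A.IsSymm) (hg : gᵀ * A * g = A)
    (hgg : g * g' = 1) (X : soM A) : (cjS hA hg hgg X : Matrix (Fin n) (Fin n) F) =
      g * X * g' := by
  unfold cjS
  rw [LinearMap.restrict_coe_apply, cjL_apply]

/-- The projection to the skew matrices. -/
noncomputable def prS {A : Matrix (Fin n) (Fin n) F} (hA : A.IsSymm) (hd : A.det ≠ 0) :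
    Matrix (Fin n) (Fin n) F →ₗ[F] soM A :=
  LinearMap.codRestrict (soM A) ((2 : F)⁻¹ • (LinearMap.id - trL A⁻¹ A)) fun X => by
    have hu : IsUnit A.det := isUnit_iff_ne_zero.2 hd
    rw [mem_soM, LinearMap.smul_apply, LinearMap.sub_apply, LinearMap.id_apply]
    change ((2 : F)⁻¹ • (X - A⁻¹ * Xᵀ * A))ᵀ * A + A * ((2 : F)⁻¹ • (X - A⁻¹ * Xᵀ * A)) = 0
    have hAi : (A⁻¹)ᵀ = A⁻¹ := by rw [transpose_nonsing_inv, hA.eq]
    rw [transpose_smul, Matrix.smul_mul, Matrix.mul_smul, ← smul_add, transpose_sub, transpose_mul,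
      transpose_mul, transpose_transpose, hA.eq, hAi, sub_mul, mul_sub]
    have h1 : A * (X * A⁻¹) * A = A * X := by
      rw [mul_assoc, mul_assoc, nonsing_inv_mul _ hu, mul_one]
    have h2 : A * (A⁻¹ * Xᵀ * A) = Xᵀ * A := by
      rw [← mul_assoc, ← mul_assoc, mul_nonsing_inv _ hu, one_mul]
    rw [h1, h2]
    rw [show Xᵀ * A - A * X + (A * X - Xᵀ * A) = 0 by abel, smul_zero]

theorem prS_coe {A : Matrix (Fin n) (Fin n) F} (hA : A.IsSymm) (hd : A.det ≠ 0)
    (h2 : (2 : F) ≠ 0) (X : soM A) : prS hA hd (X : Matrix (Fin n) (Fin n) F) = X := by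
  have hu : IsUnit A.det := isUnit_iff_ne_zero.2 hd
  apply Subtype.ext
  unfold prS
  rw [LinearMap.codRestrict_apply, LinearMap.smul_apply, LinearMap.sub_apply, LinearMap.id_apply]
  change (2 : F)⁻¹ • ((X : Matrix (Fin n) (Fin n) F) - A⁻¹ * (X : Matrix (Fin n) (Fin n) F)ᵀ * A) = X
  have h1 : (X : Matrix (Fin n) (Fin n) F)ᵀ * A = - (A * X) :=
    eq_neg_of_add_eq_zero_left (mem_soM.1 X.2)
  rw [mul_assoc, h1, mul_neg, ← mul_assoc, nonsing_inv_mul _ hu, one_mul, sub_neg_eq_add,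
    ← two_smul F, smul_smul, inv_mul_cancel₀ h2, one_smul]

/-- **The trace on the skew matrices.** -/
theorem trace_cjS {A g g' : Matrix (Fin n) (Fin n) F} (hA : A.IsSymm) (hd : A.det ≠ 0)
    (h2 : (2 : F) ≠ 0) (hg : gᵀ * A * g = A) (hgg : g * g' = 1) :
    2 * LinearMap.trace F _ (cjS hA hg hgg) = g.trace ^ 2 - (g * g).trace := by
  have hu : IsUnit A.det := isUnit_iff_ne_zero.2 hd
  have e1 : cjS hA hg hgg = (cjS hA hg hgg ∘ₗ prS hA hd) ∘ₗ (soM A).subtype := by
    apply LinearMap.ext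
    intro X
    rw [LinearMap.comp_apply, LinearMap.comp_apply, Submodule.subtype_apply, prS_coe hA hd h2]
  have e2 : (soM A).subtype ∘ₗ (cjS hA hg hgg ∘ₗ prS hA hd) =
      (2 : F)⁻¹ • (cjL g g' - trL (g * A⁻¹) (A * g')) := by
    apply LinearMap.ext
    intro X
    rw [LinearMap.comp_apply, LinearMap.comp_apply, Submodule.subtype_apply, cjS_apply]
    unfold prS
    rw [LinearMap.codRestrict_apply, LinearMap.smul_apply, LinearMap.sub_apply, LinearMap.id_apply,
      LinearMap.smul_apply, LinearMap.sub_apply, cjL_apply]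
    change g * ((2 : F)⁻¹ • (X - A⁻¹ * Xᵀ * A)) * g' =
      (2 : F)⁻¹ • (g * X * g' - g * A⁻¹ * Xᵀ * (A * g'))
    rw [Matrix.mul_smul, Matrix.smul_mul, mul_sub, sub_mul]
    simp only [mul_assoc]
  have e3 : LinearMap.trace F _ (cjS hA hg hgg) =
      (2 : F)⁻¹ * (g.trace * g'.trace - ((g * A⁻¹)ᵀ * (A * g')).trace) := by
    rw [e1, LinearMap.trace_comp_comm', e2, map_smul, map_sub, trace_trL, smul_eq_mul]
    unfold cjL
    rw [trace_conj]
  have hAi : (A⁻¹)ᵀ = A⁻¹ := by rw [transpose_nonsing_inv, hA.eq]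
  have f1 := inv_form hg hgg
  have f2 : g' = A⁻¹ * gᵀ * A := by
    rw [mul_assoc, f1, ← mul_assoc, nonsing_inv_mul _ hu, one_mul]
  have f3 : g'.trace = g.trace := by
    rw [f2, mul_assoc, Matrix.trace_mul_comm, mul_assoc, mul_nonsing_inv _ hu, mul_one,
      trace_transpose]
  have f4 : (g * A⁻¹)ᵀ * (A * g') = g' * g' := by
    rw [transpose_mul, hAi, ← mul_assoc, ← f2]
  have f5 : (g' * g').trace = (g * g).trace := by
    rw [f2]
    have h1 : A⁻¹ * gᵀ * A * (A⁻¹ * gᵀ * A) = A⁻¹ * (gᵀ * gᵀ * A) := by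
      calc A⁻¹ * gᵀ * A * (A⁻¹ * gᵀ * A) = A⁻¹ * gᵀ * (A * A⁻¹) * gᵀ * A := by
            simp only [mul_assoc]
        _ = A⁻¹ * (gᵀ * gᵀ * A) := by rw [mul_nonsing_inv _ hu, mul_one]; simp only [mul_assoc]
    rw [h1, Matrix.trace_mul_comm, mul_assoc, mul_nonsing_inv _ hu, mul_one, ← transpose_mul,
      trace_transpose]
  rw [e3, f4, f5, f3, ← mul_assoc, mul_inv_cancel₀ h2, one_mul, sq]

/-! ### Goursat -/

section goursat

variable {ι : Type} [Fintype ι] [DecidableEq ι] {Γ : Type} {W : ι → Type}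
  [∀ i, AddCommGroup (W i)] [∀ i, Module F (W i)] [∀ i, FiniteDimensional F (W i)]
  {r : ∀ i, Γ → (W i →ₗ[F] W i)}
  (hirr : ∀ i, ∀ M : Submodule F (W i), (∀ γ, ∀ x ∈ M, r i γ x ∈ M) → M = ⊥ ∨ M = ⊤)
  (hne : ∀ i j, i ≠ j → ∃ γ, LinearMap.trace F _ (r i γ) ≠ LinearMap.trace F _ (r j γ))
  {S : Submodule F (∀ i, W i)} (hS : ∀ γ, ∀ x ∈ S, (fun i => r i γ (x i)) ∈ S)
  (h0 : ∀ i, ∃ x ∈ S, x i ≠ 0)
include hirr hne hS h0

theorem goursat_aux (i : ι) (J : Finset ι) (hi : i ∉ J) : ∃ x ∈ S, x i ≠ 0 ∧ ∀ j ∈ J, x j = 0 := by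
  induction J using Finset.induction_on with
  | empty =>
    obtain ⟨x, hx, h⟩ := h0 i
    exact ⟨x, hx, h, fun j hj => absurd hj (Finset.notMem_empty j)⟩
  | insert k J hk ih =>
    have hiJ : i ∉ J := fun h => hi (Finset.mem_insert_of_mem h)
    have hik : i ≠ k := fun h => hi (h ▸ Finset.mem_insert_self _ _)
    obtain ⟨x0, hx0, hx0i, hx0J⟩ := ih hiJ
    by_contra hcon
    -- the subspace of elements vanishing on J
    let S' : Submodule F (∀ i, W i) :=
      { carrier := {x | x ∈ S ∧ ∀ j ∈ J, x j = 0}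
        zero_mem' := ⟨S.zero_mem, fun _ _ => rfl⟩
        add_mem' := by
          intro x y hx hy
          exact ⟨S.add_mem hx.1 hy.1, fun j hj => by
            rw [Pi.add_apply, hx.2 j hj, hy.2 j hj, add_zero]⟩
        smul_mem' := by
          intro c x hx
          exact ⟨S.smul_mem _ hx.1, fun j hj => by rw [Pi.smul_apply, hx.2 j hj, smul_zero]⟩ }
    have hS' : ∀ γ, ∀ x ∈ S', (fun i => r i γ (x i)) ∈ S' := by
      intro γ x hx
      exact ⟨hS γ x hx.1, fun j hj => by
        change r j γ (x j) = 0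
        rw [hx.2 j hj, map_zero]⟩
    have hki : ∀ x ∈ S', x k = 0 → x i = 0 := by
      intro x hx hxk
      by_contra hxi
      refine hcon ⟨x, hx.1, hxi, fun j hj => ?_⟩
      rcases Finset.mem_insert.1 hj with rfl | hj
      · exact hxk
      · exact hx.2 j hj
    -- images
    have himg : ∀ (a : ι) (M : Submodule F (∀ i, W i)),
        (∀ γ, ∀ x ∈ M, (fun i => r i γ (x i)) ∈ M) → (∃ x ∈ M, x a ≠ 0) →
        ∀ w : W a, ∃ x ∈ M, x a = w := by
      intro a M hM hMa w
      rcases hirr a (M.map (LinearMap.proj a)) (by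
        rintro γ _ ⟨x, hx, rfl⟩
        exact ⟨_, hM γ x hx, rfl⟩) with h1 | h1
      · obtain ⟨x, hx, hxa⟩ := hMa
        exfalso
        apply hxa
        have h2 : LinearMap.proj (R := F) (φ := W) a x ∈ M.map (LinearMap.proj a) :=
          Submodule.mem_map_of_mem hx
        rw [h1, Submodule.mem_bot] at h2
        exact h2
      · have h2 : w ∈ M.map (LinearMap.proj a) := by rw [h1]; exact Submodule.mem_top
        obtain ⟨x, hx, hxw⟩ := h2
        exact ⟨x, hx, hxw⟩
    have hx0' : x0 ∈ S' := ⟨hx0, hx0J⟩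
    have hsi := himg i S' hS' ⟨x0, hx0', hx0i⟩
    have hx0k : x0 k ≠ 0 := fun h => hx0i (hki x0 hx0' h)
    have hsk := himg k S' hS' ⟨x0, hx0', hx0k⟩
    -- the other direction
    have hik' : ∀ x ∈ S', x i = 0 → x k = 0 := by
      intro x hx hxi
      by_contra hxk
      let S2 : Submodule F (∀ i, W i) :=
        { carrier := {x | x ∈ S' ∧ x i = 0}
          zero_mem' := ⟨S'.zero_mem, rfl⟩
          add_mem' := by
            intro x y hx hy
            exact ⟨S'.add_mem hx.1 hy.1, by rw [Pi.add_apply, hx.2, hy.2, add_zero]⟩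
          smul_mem' := by
            intro c x hx
            exact ⟨S'.smul_mem _ hx.1, by rw [Pi.smul_apply, hx.2, smul_zero]⟩ }
      have hS2 : ∀ γ, ∀ x ∈ S2, (fun i => r i γ (x i)) ∈ S2 := by
        intro γ x hx
        exact ⟨hS' γ x hx.1, by
          change r i γ (x i) = 0
          rw [hx.2, map_zero]⟩
      obtain ⟨y, hy, hyk⟩ := himg k S2 hS2 ⟨x, ⟨hx, hxi⟩, hxk⟩ (x0 k)
      have h1 := hki (x0 - y) (S'.sub_mem hx0' hy.1) (by rw [Pi.sub_apply, hyk, sub_self])
      rw [Pi.sub_apply, hy.2, sub_zero] at h1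
      exact hx0i h1
    -- the isomorphism
    let p : S' →ₗ[F] W i := (LinearMap.proj i) ∘ₗ S'.subtype
    let q : S' →ₗ[F] W k := (LinearMap.proj k) ∘ₗ S'.subtype
    have hp : Function.Surjective p := by
      intro w
      obtain ⟨x, hx, h⟩ := hsi w
      exact ⟨⟨x, hx⟩, h⟩
    have hq : Function.Surjective q := by
      intro w
      obtain ⟨x, hx, h⟩ := hsk w
      exact ⟨⟨x, hx⟩, h⟩
    have hker : LinearMap.ker p = LinearMap.ker q := by
      ext x
      exact ⟨fun h => hik' x.1 x.2 h, fun h => hki x.1 x.2 h⟩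
    let φ : W i ≃ₗ[F] W k := (p.quotKerEquivOfSurjective hp).symm ≪≫ₗ
      Submodule.quotEquivOfEq _ _ hker ≪≫ₗ q.quotKerEquivOfSurjective hq
    have hφ : ∀ x : S', φ (p x) = q x := by
      intro x
      change q.quotKerEquivOfSurjective hq (Submodule.quotEquivOfEq _ _ hker
        ((p.quotKerEquivOfSurjective hp).symm (p x))) = q x
      have h1 : (p.quotKerEquivOfSurjective hp).symm (p x) = Submodule.Quotient.mk x := by
        rw [LinearEquiv.symm_apply_eq]
        rfl
      rw [h1]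
      rfl
    obtain ⟨γ, hγ⟩ := hne i k hik
    apply hγ
    have h2 : r k γ = φ.toLinearMap ∘ₗ r i γ ∘ₗ φ.symm.toLinearMap := by
      apply LinearMap.ext
      intro w
      obtain ⟨x, rfl⟩ := hq w
      have h3 : φ.symm (q x) = p x := by rw [LinearEquiv.symm_apply_eq, hφ]
      change r k γ (q x) = φ (r i γ (φ.symm (q x)))
      rw [h3]
      have h4 := hφ ⟨_, hS' γ x.1 x.2⟩
      exact h4.symm
    rw [h2, ← LinearMap.comp_assoc, LinearMap.trace_comp_comm', ← LinearMap.comp_assoc]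
    congr 1
    apply LinearMap.ext
    intro w
    simp

theorem goursat : S = ⊤ := by
  rw [eq_top_iff]
  intro x _
  have h1 : ∀ i, ∀ w : W i, Pi.single i w ∈ S := by
    intro i w
    let M : Submodule F (W i) := S.comap (LinearMap.single F W i)
    have hM : ∀ γ, ∀ x ∈ M, r i γ x ∈ M := by
      intro γ x hx
      have h2 := hS γ _ hx
      change Pi.single i (r i γ x) ∈ S
      have h3 : (fun j => r j γ ((LinearMap.single F W i) x j)) = Pi.single i (r i γ x) := by
        funext j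
        by_cases hj : j = i
        · subst hj
          simp
        · simp [Pi.single_eq_of_ne hj]
      rwa [h3] at h2
    rcases hirr i M hM with h2 | h2
    · exfalso
      obtain ⟨y, hy, hyi, hyJ⟩ := goursat_aux hirr hne hS h0 i (Finset.univ.erase i)
        (Finset.notMem_erase _ _)
      have h3 : y = Pi.single i (y i) := by
        funext j
        by_cases hj : j = i
        · subst hj
          simp
        · rw [Pi.single_eq_of_ne hj, hyJ j (Finset.mem_erase.2 ⟨hj, Finset.mem_univ _⟩)]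
      have h4 : y i ∈ M := by
        change Pi.single i (y i) ∈ S
        rw [← h3]
        exact hy
      rw [h2, Submodule.mem_bot] at h4
      exact hyi h4
    · have h3 : w ∈ M := by rw [h2]; exact Submodule.mem_top
      exact h3
  have h2 : x = ∑ i, Pi.single i (x i) := by
    rw [Finset.univ_sum_single]
  rw [h2]
  exact S.sum_mem fun i _ => h1 i _

end goursat

end Pool.Agent.Y127.I
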